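import Pool.Agent.Helper10.TC.CloA

set_option autoImplicit false

/-!
# Project TC (MP_63c74b), block CLOB: the closure has the intermediate value property

`ivt_of`: strong induction on `natDegree f`: if `f a < 0 < f b`, `a < b`, then `f` has a root in
`(a, b)`. If `natDegree f ≤ 1` clear (`natDegree = 0` impossible; `f = c X + d`: `-d/c`). If `f` is
irreducible of degree `n ≥ 2`: `1 + ∑ h_j² = f q`, `deg h_j ≤ n - 1`, so
`deg q ≤ 2 (n - 1) - n < n`. At `a` the left side is `≥ 1 > 0`, so `q a < 0`, and `q b > 0`. By
induction `q` has a root `c` in `(a, b)`: then `0 = f(c) q(c) = 1 + ∑ h_j(c)² ≥ 1`, contradiction. If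
`f` is reducible, `f = f₁ f₂` with both degrees `≥ 1`, `< n`: one of `f₁`, `f₂` has opposite (nonzero)
signs at `a` and `b`; induction for `± f_i`.
`exists_ivt`: `exists_max` and `ivt_of`.
-/

open Polynomial

namespace Pool.Agent.Helper10.TC

universe u

private lemma nonunit67 {E : Type u} [Field E] {f g : E[X]} (h : f * g ≠ 0) (hg : ¬ IsUnit g) :
    f.natDegree < (f * g).natDegree := by
  have hf0 : f ≠ 0 := left_ne_zero_of_mul h
  have hg0 : g ≠ 0 := right_ne_zero_of_mul h
  have h1 := natDegree_pos_iff_degree_pos.2 (degree_pos_of_ne_zero_of_nonunit hg0 hg)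
  rw [natDegree_mul hf0 hg0]
  omega

private lemma ivt_aux67 {E : Type u} [Field E] [LinearOrder E] [IsStrictOrderedRing E]
    (hE : ∀ f : E[X], Irreducible f → 2 ≤ f.natDegree → ∃ (n : ℕ) (h : Fin n → E[X]) (q : E[X]),
        (∀ j, (h j).natDegree < f.natDegree) ∧ 1 + ∑ j, h j ^ 2 = f * q) (a b : E) (hab : a < b)
    (n : ℕ) : ∀ f : E[X], f.natDegree = n → f.eval a * f.eval b < 0 →
    ∃ c, a < c ∧ c < b ∧ f.eval c = 0 := by
  induction n using Nat.strong_induction_on with
  | _ n ih =>
    intro f hn hlt
    have hf0 : f ≠ 0 := by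
      rintro rfl
      rw [eval_zero, zero_mul] at hlt
      exact lt_irrefl _ hlt
    rcases Nat.lt_or_ge n 2 with h2 | h2
    · obtain ⟨c, d, rfl⟩ : ∃ c d : E, f = C c * X + C d :=
        ⟨_, _, eq_X_add_C_of_natDegree_le_one (by omega)⟩
      simp only [eval_add, eval_mul, eval_C, eval_X] at hlt
      have hc : c ≠ 0 := by
        rintro rfl
        nlinarith [mul_self_nonneg d]
      refine ⟨-d / c, ?_, ?_, ?_⟩
      · rcases lt_or_gt_of_ne hc with h | h
        · rw [lt_div_iff_of_neg h]
          by_contra hcon
          rw [not_lt] at hcon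
          nlinarith [mul_lt_mul_of_neg_left hab h]
        · rw [lt_div_iff₀ h]
          by_contra hcon
          rw [not_lt] at hcon
          nlinarith [mul_lt_mul_of_pos_left hab h]
      · rcases lt_or_gt_of_ne hc with h | h
        · rw [div_lt_iff_of_neg h]
          by_contra hcon
          rw [not_lt] at hcon
          nlinarith [mul_lt_mul_of_neg_left hab h]
        · rw [div_lt_iff₀ h]
          by_contra hcon
          rw [not_lt] at hcon
          nlinarith [mul_lt_mul_of_pos_left hab h]
      · simp only [eval_add, eval_mul, eval_C, eval_X]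
        field_simp
        ring
    · by_cases hirr : Irreducible f
      · obtain ⟨m, h, q, hdeg, heq⟩ := hE f hirr (by omega)
        have hev : ∀ x, 1 ≤ f.eval x * q.eval x := by
          intro x
          rw [← eval_mul, ← heq, eval_add, eval_one, eval_finsetSum]
          have : 0 ≤ ∑ j, eval x (h j ^ 2) := Finset.sum_nonneg fun j _ => by
            rw [eval_pow]
            exact sq_nonneg _
          linarith
        have hq0 : q ≠ 0 := by
          rintro rfl
          have := hev a
          rw [eval_zero, mul_zero] at this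
          linarith
        have hqn : q.natDegree < n := by
          have h1 : (f * q).natDegree ≤ 2 * (n - 1) := by
            rw [← heq]
            refine (natDegree_add_le _ _).trans (max_le ?_ ?_)
            · rw [natDegree_one]
              exact Nat.zero_le _
            · refine natDegree_sum_le_of_forall_le _ _ fun j _ => ?_
              refine natDegree_pow_le.trans ?_
              have := hdeg j
              omega
          rw [natDegree_mul hf0 hq0] at h1
          omega
        obtain ⟨c, hc1, hc2, hc⟩ := ih _ hqn q rfl (by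
          have h1 := hev a
          have h2 := hev b
          by_contra hcon
          rw [not_lt] at hcon
          have h3 : 0 < (f.eval a * q.eval a) * (f.eval b * q.eval b) := by positivity
          have h4 : (f.eval a * q.eval a) * (f.eval b * q.eval b) =
            (f.eval a * f.eval b) * (q.eval a * q.eval b) := by ring
          rw [h4] at h3
          exact absurd h3 (not_lt.2 (mul_nonpos_of_nonpos_of_nonneg hlt.le hcon)))
        have h1 := hev c
        rw [hc, mul_zero] at h1
        linarith
      · have hfu : ¬ IsUnit f := by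
          intro hu
          have := natDegree_eq_zero_of_isUnit hu
          omega
        rw [irreducible_iff] at hirr
        push Not at hirr
        obtain ⟨f₁, f₂, rfl, hu1, hu2⟩ := hirr hfu
        have hd1 := nonunit67 hf0 hu2
        have hd2 : f₂.natDegree < (f₁ * f₂).natDegree := by
          rw [mul_comm] at hf0 ⊢
          exact nonunit67 hf0 hu1
        rw [eval_mul, eval_mul] at hlt
        have h4 : (f₁.eval a * f₂.eval a) * (f₁.eval b * f₂.eval b) =
          (f₁.eval a * f₁.eval b) * (f₂.eval a * f₂.eval b) := by ring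
        rw [h4, mul_neg_iff] at hlt
        rcases hlt with ⟨_, h5⟩ | ⟨h5, _⟩
        · obtain ⟨c, hc1, hc2, hc⟩ := ih _ (by omega) f₂ rfl h5
          exact ⟨c, hc1, hc2, by rw [eval_mul, hc, mul_zero]⟩
        · obtain ⟨c, hc1, hc2, hc⟩ := ih _ (by omega) f₁ rfl h5
          exact ⟨c, hc1, hc2, by rw [eval_mul, hc, zero_mul]⟩

theorem ivt_of {E : Type u} [Field E] [LinearOrder E] [IsStrictOrderedRing E]
    (hE : ∀ f : E[X], Irreducible f → 2 ≤ f.natDegree → ∃ (n : ℕ) (h : Fin n → E[X]) (q : E[X]),
        (∀ j, (h j).natDegree < f.natDegree) ∧ 1 + ∑ j, h j ^ 2 = f * q) : IVT E := by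
  intro f a b hab ha hb
  exact ivt_aux67 hE a b hab _ f rfl (mul_neg_of_neg_of_pos ha hb)

/-- **Every ordered field embeds in an ordered field with the intermediate value property.** -/
theorem exists_ivt (F : Type u) [Field F] [LinearOrder F] [IsStrictOrderedRing F] :
    ∃ (E : Type u) (_ : Field E) (_ : LinearOrder E) (_ : IsStrictOrderedRing E) (i : F →+* E),
      (∀ a, 0 < a → 0 < i a) ∧ IVT E := by
  obtain ⟨E, i1, i2, i3, i, hi, -, hE⟩ := exists_max F
  refine ⟨E, i1, i2, i3, i, fun a ha => ?_, ivt_of hE⟩
  exact lt_of_le_of_ne (hi a ha.le) ((_root_.map_ne_zero i).2 ha.ne').symm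

end Pool.Agent.Helper10.TC
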