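import Pool.Agent.Helper10.TC.Ivt

set_option autoImplicit false

/-!
# Project TC (MP_63c74b), block ORD: a preordering of a field is contained in an ordering

`T ⊆ F` closed under `+`, `*`, contains the squares, `-1 ∉ T`. By Zorn (`zorn_subset_nonempty`) there
is a maximal set `P ⊇ T` with these four properties (the union of a nonempty chain has them). For
`a ∉ P`: the set `P + a P` is closed under `+`, `*` (`a² ∈ P`), contains the squares and `P` and `a`,
so by maximality it contains `-1`: `-1 = p + a q`, `q ≠ 0` (else `-1 ∈ P`),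
`-a = (1 + p) / q = (1 + p) q (1/q)² ∈ P`. So `P ∪ -P = F`. `P ∩ -P = 0`: if `a, -a ∈ P`, `a ≠ 0`,
then `-1 = a (-a) (1/a)² ∈ P`. So `P` is the positive cone of a linear order (Mathlib: `RingCone`,
`LinearOrder.mkOfCone` / `IsOrderedRing.mkOfCone` in `Mathlib/Algebra/Order/Ring/Cone.lean`; a field
with a linear order which is an `IsOrderedRing` is an `IsStrictOrderedRing`:
`IsOrderedRing.toIsStrictOrderedRing`; or define the order by hand, `a ≤ b ↔ b - a ∈ P`).
-/

namespace Pool.Agent.Helper10.TC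

theorem exists_order {F : Type*} [Field F] (T : Set F)
    (hadd : ∀ a ∈ T, ∀ b ∈ T, a + b ∈ T) (hmul : ∀ a ∈ T, ∀ b ∈ T, a * b ∈ T)
    (hsq : ∀ a : F, a ^ 2 ∈ T) (h1 : (-1 : F) ∉ T) :
    ∃ (_ : LinearOrder F) (_ : IsStrictOrderedRing F), ∀ a ∈ T, 0 ≤ a := by
  classical
  obtain ⟨P, hTP, hP⟩ := zorn_subset_nonempty
    {P : Set F | (∀ a ∈ P, ∀ b ∈ P, a + b ∈ P) ∧ (∀ a ∈ P, ∀ b ∈ P, a * b ∈ P) ∧
      (∀ a : F, a ^ 2 ∈ P) ∧ (-1 : F) ∉ P} (by
      intro c hc hchain hne
      refine ⟨⋃₀ c, ⟨?_, ?_, ?_, ?_⟩, fun s hs => Set.subset_sUnion_of_mem hs⟩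
      · rintro a ⟨s, hs, ha⟩ b ⟨t, ht, hb⟩
        rcases hchain.total hs ht with h | h
        · exact ⟨t, ht, (hc ht).1 a (h ha) b hb⟩
        · exact ⟨s, hs, (hc hs).1 a ha b (h hb)⟩
      · rintro a ⟨s, hs, ha⟩ b ⟨t, ht, hb⟩
        rcases hchain.total hs ht with h | h
        · exact ⟨t, ht, (hc ht).2.1 a (h ha) b hb⟩
        · exact ⟨s, hs, (hc hs).2.1 a ha b (h hb)⟩
      · intro a
        obtain ⟨s, hs⟩ := hne
        exact ⟨s, hs, (hc hs).2.2.1 a⟩
      · rintro ⟨s, hs, h⟩
        exact (hc hs).2.2.2 h) T ⟨hadd, hmul, hsq, h1⟩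
  obtain ⟨⟨padd, pmul, psq, pneg⟩, hmax⟩ := hP
  have p0 : (0 : F) ∈ P := by simpa using psq 0
  have p1 : (1 : F) ∈ P := by simpa using psq 1
  have ptot : ∀ a : F, a ∈ P ∨ -a ∈ P := by
    intro a
    by_contra hcon
    rw [not_or] at hcon
    obtain ⟨ha, hna⟩ := hcon
    have hn : (-1 : F) ∈ {x : F | ∃ p ∈ P, ∃ q ∈ P, x = p + a * q} := by
      by_contra hn1
      have hsub := hmax (y := {x : F | ∃ p ∈ P, ∃ q ∈ P, x = p + a * q}) ⟨?_, ?_, ?_, hn1⟩ ?_
      · exact ha (hsub ⟨0, p0, 1, p1, by ring⟩)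
      · rintro _ ⟨p, hp, q, hq, rfl⟩ _ ⟨p', hp', q', hq', rfl⟩
        exact ⟨p + p', padd p hp p' hp', q + q', padd q hq q' hq', by ring⟩
      · rintro _ ⟨p, hp, q, hq, rfl⟩ _ ⟨p', hp', q', hq', rfl⟩
        exact ⟨p * p' + a ^ 2 * (q * q'), padd _ (pmul p hp p' hp') _
          (pmul _ (psq a) _ (pmul q hq q' hq')), p * q' + q * p',
          padd _ (pmul p hp q' hq') _ (pmul q hq p' hp'), by ring⟩
      · intro x
        exact ⟨x ^ 2, psq x, 0, p0, by ring⟩
      · intro x hx
        exact ⟨x, hx, 0, p0, by ring⟩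
    obtain ⟨p, hp, q, hq, hpq⟩ := hn
    have hq0 : q ≠ 0 := by
      rintro rfl
      apply pneg
      rw [hpq, mul_zero, add_zero]
      exact hp
    apply hna
    have h2 : -a = (1 + p) * q * (q⁻¹) ^ 2 := by
      have h3 : a * q = -1 - p := by linear_combination -hpq
      field_simp
      linear_combination -h3
    rw [h2]
    exact pmul _ (pmul _ (padd 1 p1 p hp) q hq) _ (psq _)
  have panti : ∀ a : F, a ∈ P → -a ∈ P → a = 0 := by
    intro a ha hna
    by_contra h0
    apply pneg
    have h2 : (-1 : F) = a * (-a) * (a⁻¹) ^ 2 := by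
      field_simp
    rw [h2]
    exact pmul _ (pmul _ ha _ hna) _ (psq _)
  let inst : LinearOrder F :=
    { le := fun a b => b - a ∈ P
      le_refl := fun a => by
        change a - a ∈ P
        rw [sub_self]
        exact p0
      le_trans := fun a b c hab hbc => by
        change c - a ∈ P
        have := padd _ hab _ hbc
        rwa [show b - a + (c - b) = c - a by ring] at this
      le_antisymm := fun a b hab hba => by
        have h2 : -(b - a) ∈ P := by
          rw [neg_sub]
          exact hba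
        exact (sub_eq_zero.1 (panti _ hab h2)).symm
      le_total := fun a b => by
        rcases ptot (b - a) with h | h
        · exact Or.inl h
        · right
          change a - b ∈ P
          rwa [neg_sub] at h
      toDecidableLE := Classical.decRel _ }
  have hle : ∀ a b : F, a ≤ b ↔ b - a ∈ P := fun a b => Iff.rfl
  have : IsOrderedAddMonoid F :=
    { add_le_add_left := fun a b hab c => by
        rw [hle] at hab ⊢
        rwa [show b + c - (a + c) = b - a by ring] }
  have : ZeroLEOneClass F := ⟨by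
    rw [hle, sub_zero]
    exact p1⟩
  have : IsOrderedRing F := IsOrderedRing.of_mul_nonneg fun x y hx hy => by
    rw [hle, sub_zero] at hx hy ⊢
    exact pmul x hx y hy
  exact ⟨inst, IsOrderedRing.toIsStrictOrderedRing F, fun a ha => by
    rw [hle, sub_zero]
    exact hTP ha⟩

end Pool.Agent.Helper10.TC
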