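import Pool.Agent.Helper10.TC.Ivt

set_option autoImplicit false

/-!
# Project TC (MP_63c74b), block CUT: a hyperreal number with the same cut

`ι : ℝ →+* K` is automatically order preserving (nonnegative reals are squares).
(1) There is `ξ' ∈ ℝ*` with: for all `b ∈ ℝ`, `ι b < ξ ↔ hr b < ξ'` and `ξ < ι b ↔ ξ' < hr b`
(and never equality: `ξ ≠ ι b` by `hξ` for `X - C b`). If `ξ > ι b` for all `b`: `ξ' = ω`
(`Hyperreal.omega`); if `ξ < ι b` for all `b`: `ξ' = -ω`; otherwise let `a` be the supremum of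
`{b | ι b < ξ}` (nonempty, bounded above); if `ι a < ξ` take `ξ' = hr a + ε`, if `ξ < ι a`
take `ξ' = hr a - ε` (`Hyperreal.epsilon`, positive and smaller than all positive reals).
(2) Then all signs of `q(ξ)` and `q(ξ')` agree: strong induction on `natDegree q`. Constants:
clear. If `q` has a real root `b`: `q = (X - b) q₁`. If `q` has no real root then (IVT in `ℝ`) `q > 0`
on `ℝ` or `q < 0` on `ℝ`; say `q > 0`. Then `q` is a sum of squares of real polynomials (in
`Helper10/TI/Base.lean`: `pos_sos`, in the form `IsSumSq (aeval h e)` for `h` in the polynomial ring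
`A` in two variables; or by the same induction with quadratic factors), so `q(ξ) ≥ 0` and `q(ξ') ≥ 0`;
the same for `q - δ`, where `δ > 0` is a lower bound of `q` on `ℝ` (exists, as `q` is a nonconstant
polynomial without zeros or a constant), so `q(ξ) ≥ ι δ > 0`, `q(ξ') ≥ hr δ > 0`. (Or: if `q`, of
degree `≥ 2` without real roots, has the quadratic factor `(X - s)² + t²`, `t ≠ 0`, which is positive
in every ordered field, and induct: `Polynomial.quadratic_dvd_of_aeval_eq_zero_im_ne_zero`, used in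
`pos_sos`. This is the shortest.)
-/

open Polynomial

namespace Pool.Agent.Helper10.TC

theorem sign_hom {F : Type*} [Field F] [LinearOrder F] [IsStrictOrderedRing F] (i : ℝ →+* F)
    (r : ℝ) : SignType.sign (i r) = SignType.sign r := by
  have hpos : ∀ r : ℝ, 0 < r → 0 < i r := by
    intro r hr
    have h1 : r = Real.sqrt r * Real.sqrt r := (Real.mul_self_sqrt hr.le).symm
    have h2 : i r = i (Real.sqrt r) * i (Real.sqrt r) := by rw [← map_mul, ← h1]
    have h3 : i (Real.sqrt r) ≠ 0 := by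
      intro h
      rw [map_eq_zero] at h
      rw [h] at h1
      simp at h1
      exact hr.ne' h1
    rw [h2]
    exact mul_self_pos.2 h3
  rcases lt_trichotomy r 0 with h | h | h
  · have h1 := hpos (-r) (by linarith)
    rw [map_neg] at h1
    rw [sign_neg h, sign_neg (by linarith)]
  · rw [h, map_zero, sign_zero, sign_zero]
  · rw [sign_pos h, sign_pos (hpos r h)]

theorem quad_pos {F : Type*} [Field F] [LinearOrder F] [IsStrictOrderedRing F] (i : ℝ →+* F)
    (x : F) (z : ℂ) (hz : z.im ≠ 0) :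
    0 < (X ^ 2 - C (2 * z.re) * X + C (‖z‖ ^ 2) : ℝ[X]).eval₂ i x := by
  have hnorm : ‖z‖ ^ 2 = z.re ^ 2 + z.im ^ 2 := by
    rw [Complex.sq_norm, Complex.normSq_apply]; ring
  have h1 : (X ^ 2 - C (2 * z.re) * X + C (‖z‖ ^ 2) : ℝ[X]).eval₂ i x
      = (x - i z.re) ^ 2 + (i z.im) ^ 2 := by
    rw [hnorm, eval₂_add, eval₂_sub, eval₂_mul, eval₂_X_pow, eval₂_C, eval₂_C, eval₂_X, map_add,
      map_mul, map_pow, map_pow, map_ofNat]
    ring
  rw [h1]
  have h2 : i z.im ≠ 0 := by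
    intro h
    rw [map_eq_zero] at h
    exact hz h
  have h3 : 0 < (i z.im) ^ 2 := by positivity
  have h4 : 0 ≤ (x - i z.re) ^ 2 := sq_nonneg _
  linarith

theorem sign_eq_of_cut {F₁ F₂ : Type*} [Field F₁] [LinearOrder F₁] [IsStrictOrderedRing F₁]
    [Field F₂] [LinearOrder F₂] [IsStrictOrderedRing F₂] (i₁ : ℝ →+* F₁) (i₂ : ℝ →+* F₂)
    (x₁ : F₁) (x₂ : F₂)
    (hx : ∀ b : ℝ, SignType.sign (x₁ - i₁ b) = SignType.sign (x₂ - i₂ b)) :
    ∀ (n : ℕ) (q : ℝ[X]), q.natDegree = n →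
      SignType.sign (q.eval₂ i₁ x₁) = SignType.sign (q.eval₂ i₂ x₂) := by
  intro n
  induction n using Nat.strong_induction_on with
  | _ n ih =>
  intro q hq
  by_cases hn : n = 0
  · rw [hn] at hq
    obtain ⟨r, rfl⟩ := natDegree_eq_zero.1 hq
    rw [eval₂_C, eval₂_C, sign_hom, sign_hom]
  · have hdeg : 0 < (q.map (algebraMap ℝ ℂ)).degree := by
      rw [degree_map, ← natDegree_pos_iff_degree_pos]
      omega
    have hq0 : q ≠ 0 := by
      rintro rfl
      simp at hq
      omega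
    obtain ⟨z, hz⟩ := Complex.exists_root hdeg
    have hz' : aeval z q = 0 := by
      rw [IsRoot.def, eval_map] at hz
      exact hz
    by_cases him : z.im = 0
    · have h1 : (z : ℂ) = ((z.re : ℝ) : ℂ) := Complex.ext (by simp) (by simp [him])
      rw [h1] at hz'
      have h2 : aeval ((z.re : ℝ) : ℂ) q = ((q.eval z.re : ℝ) : ℂ) :=
        aeval_algebraMap_apply_eq_algebraMap_eval (A := ℂ) z.re q
      rw [h2] at hz'
      have h3 : q.eval z.re = 0 := by exact_mod_cast hz'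
      obtain ⟨q1, hq1⟩ := dvd_iff_isRoot.2 h3
      have hq10 : q1 ≠ 0 := by rintro rfl; rw [mul_zero] at hq1; exact hq0 hq1
      have hd1 : q1.natDegree < n := by
        have h2 := congrArg natDegree hq1
        rw [natDegree_mul (X_sub_C_ne_zero _) hq10, natDegree_X_sub_C, hq] at h2
        omega
      rw [hq1, eval₂_mul, eval₂_mul, sign_mul, sign_mul, ih _ hd1 q1 rfl, eval₂_sub, eval₂_sub,
        eval₂_X, eval₂_X, eval₂_C, eval₂_C, hx]
    · obtain ⟨q1, hq1⟩ := quadratic_dvd_of_aeval_eq_zero_im_ne_zero q hz' him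
      have hq10 : q1 ≠ 0 := by rintro rfl; rw [mul_zero] at hq1; exact hq0 hq1
      have hQdeg : (X ^ 2 - C (2 * z.re) * X + C (‖z‖ ^ 2) : ℝ[X]).natDegree = 2 := by
        compute_degree!
      have hQ0 : (X ^ 2 - C (2 * z.re) * X + C (‖z‖ ^ 2) : ℝ[X]) ≠ 0 := by
        intro h
        rw [h] at hQdeg
        simp at hQdeg
      have hd1 : q1.natDegree < n := by
        have h2 := congrArg natDegree hq1
        rw [natDegree_mul hQ0 hq10, hQdeg, hq] at h2
        omega
      rw [hq1, eval₂_mul, eval₂_mul, sign_mul, sign_mul, ih _ hd1 q1 rfl,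
        sign_pos (quad_pos i₁ x₁ z him), sign_pos (quad_pos i₂ x₂ z him)]

theorem exists_cut {K : Type*} [Field K] [LinearOrder K] [IsStrictOrderedRing K] (ι : ℝ →+* K)
    (ξ : K) (hξ : ∀ q : ℝ[X], q ≠ 0 → q.eval₂ ι ξ ≠ 0) :
    ∃ ξ' : Hyperreal, ∀ q : ℝ[X],
      SignType.sign (q.eval₂ ι ξ) = SignType.sign (q.eval₂ hr ξ') := by
  have hne : ∀ b : ℝ, ξ ≠ ι b := by
    intro b h
    apply hξ (X - C b) (X_sub_C_ne_zero b)
    rw [eval₂_sub, eval₂_X, eval₂_C, h, sub_self]
  have hmono : ∀ a b : ℝ, a < b → ι a < ι b := by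
    intro a b hab
    have h1 := sign_hom ι (b - a)
    rw [sign_pos (sub_pos.2 hab : (0 : ℝ) < b - a), sign_eq_one_iff, map_sub] at h1
    exact sub_pos.1 h1
  have hhr : ∀ b : ℝ, hr b = (b : Hyperreal) := fun _ => rfl
  suffices H : ∃ ξ' : Hyperreal, ∀ b : ℝ, (ι b < ξ → (b : Hyperreal) < ξ') ∧
      (ξ < ι b → ξ' < (b : Hyperreal)) by
    obtain ⟨ξ', h⟩ := H
    refine ⟨ξ', fun q => sign_eq_of_cut ι hr ξ ξ' ?_ q.natDegree q rfl⟩
    intro b
    rw [hhr]
    rcases lt_or_gt_of_ne (hne b) with h1 | h1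
    · rw [sign_neg (sub_neg.2 h1), sign_neg (sub_neg.2 ((h b).2 h1))]
    · rw [sign_pos (sub_pos.2 h1), sign_pos (sub_pos.2 ((h b).1 h1))]
  by_cases hA : ∀ b : ℝ, ι b < ξ
  · exact ⟨Hyperreal.omega, fun b => ⟨fun _ => Hyperreal.coe_lt_omega b,
      fun h => absurd h (not_lt.2 (hA b).le)⟩⟩
  by_cases hB : ∀ b : ℝ, ξ < ι b
  · refine ⟨-Hyperreal.omega, fun b => ⟨fun h => absurd h (not_lt.2 (hB b).le), fun _ => ?_⟩⟩
    have h1 := Hyperreal.coe_lt_omega (-b)
    rw [Hyperreal.coe_neg] at h1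
    exact neg_lt.1 h1
  push Not at hA hB
  obtain ⟨u, hu⟩ := hA
  obtain ⟨l, hl⟩ := hB
  have hu' : ξ < ι u := lt_of_le_of_ne hu (hne u)
  have hl' : ι l < ξ := lt_of_le_of_ne hl (hne l).symm
  have hlt : ∀ b c : ℝ, ι b < ξ → ξ < ι c → b < c := by
    intro b c h1 h2
    by_contra h
    rcases (not_lt.1 h).lt_or_eq with h3 | h3
    · exact absurd (hmono _ _ h3) (not_lt.2 (h1.trans h2).le)
    · rw [h3] at h2
      exact absurd h1 (not_lt.2 h2.le)
  set S : Set ℝ := {b | ι b < ξ} with hS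
  have hSne : S.Nonempty := ⟨l, hl'⟩
  have hSb : BddAbove S := ⟨u, fun b hb => (hlt b u hb hu').le⟩
  set a := sSup S with ha
  rcases lt_or_gt_of_ne (hne a) with h1 | h1
  · refine ⟨(a : Hyperreal) - Hyperreal.epsilon, fun b => ⟨fun h => ?_, fun h => ?_⟩⟩
    · have h2 : b < a := hlt b a h h1
      have h3 : Hyperreal.epsilon < ((a - b : ℝ) : Hyperreal) :=
        Hyperreal.epsilon_lt_of_pos (sub_pos.2 h2)
      rw [Hyperreal.coe_sub] at h3
      exact lt_sub_comm.1 h3
    · have h2 : a ≤ b := csSup_le hSne (fun c hc => (hlt c b hc h).le)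
      have h3 : (a : Hyperreal) ≤ (b : Hyperreal) := Hyperreal.coe_le_coe.2 h2
      exact lt_of_lt_of_le (sub_lt_self _ Hyperreal.epsilon_pos) h3
  · refine ⟨(a : Hyperreal) + Hyperreal.epsilon, fun b => ⟨fun h => ?_, fun h => ?_⟩⟩
    · have h2 : b ≤ a := le_csSup hSb h
      have h3 : (b : Hyperreal) ≤ (a : Hyperreal) := Hyperreal.coe_le_coe.2 h2
      exact lt_of_le_of_lt h3 (lt_add_of_pos_right _ Hyperreal.epsilon_pos)
    · have h2 : a < b := hlt a b h1 h
      have h3 : Hyperreal.epsilon < ((b - a : ℝ) : Hyperreal) :=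
        Hyperreal.epsilon_lt_of_pos (sub_pos.2 h2)
      rw [Hyperreal.coe_sub] at h3
      exact lt_sub_iff_add_lt'.1 h3

end Pool.Agent.Helper10.TC
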