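import Pool.Agent.Helper10.TC.Ivt

set_option autoImplicit false

/-!
# Project TC (MP_63c74b), block HYP: the hyperreals

`Hyperreal` is by definition the type of germs of `ℕ → ℝ` along `hyperfilter ℕ`.
`ivt_hyperreal`: let `f` be a polynomial over `ℝ*`, `f a < 0 < f b`, `a < b`. Choose
representatives `a_n, b_n` and representatives of the coefficients of `f`, so that there are real
polynomials `f_n` of degree `≤ natDegree f` with `f(x) = [f_n(x_n)]` for all `x = [x_n]`
(`f.eval x = ∑_{i ≤ N} c_i x^i`, a finite sum of germs). Eventually along the hyperfilter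
`a_n < b_n`, `f_n(a_n) < 0 < f_n(b_n)`, so there is `c_n` with `a_n < c_n < b_n`, `f_n(c_n) = 0`
(`intermediate_value_Ioo`; choose `c_n = 0` for the other `n`), and `c = [c_n]`.
`los`: if `F, G : ℝ[x, y]` satisfy `0 < F(ξ, η)`, `G(ξ, η) < 0` in `ℝ*`, then there are real
numbers with this property: `F(ξ, η) = [F(ξ_n, η_n)]` (`MvPolynomial.induction_on`), the two
inequalities hold along the hyperfilter, so for some `n`.
-/

open Polynomial

namespace Pool.Agent.Helper10.TC

open Filter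

/-- the class of a sequence, a ring homomorphism -/
private noncomputable def sq85 : (ℕ → ℝ) →+* Hyperreal where
  toFun := Hyperreal.ofSeq
  map_one' := rfl
  map_mul' _ _ := rfl
  map_zero' := rfl
  map_add' _ _ := rfl

private lemma sq85_surj : Function.Surjective sq85 := Hyperreal.ofSeq_surjective

private lemma sq85_lt {f g : ℕ → ℝ} :
    sq85 f < sq85 g ↔ ∀ᶠ n in hyperfilter ℕ, f n < g n := Hyperreal.ofSeq_lt_ofSeq

private lemma sq85_eq {f g : ℕ → ℝ} (h : ∀ᶠ n in hyperfilter ℕ, f n = g n) : sq85 f = sq85 g :=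
  Germ.coe_eq.2 h

theorem ivt_hyperreal : IVT Hyperreal := by
  intro f a b hab ha hb
  obtain ⟨g, rfl⟩ := Polynomial.map_surjective sq85 sq85_surj f
  obtain ⟨a, rfl⟩ := sq85_surj a
  obtain ⟨b, rfl⟩ := sq85_surj b
  have hev : ∀ x : ℕ → ℝ, (g.map sq85).eval (sq85 x) = sq85 (g.eval x) := by
    intro x
    rw [Polynomial.eval_map, Polynomial.eval₂_at_apply]
  have hn : ∀ (x : ℕ → ℝ) (n : ℕ), (g.eval x) n =
      (g.map (Pi.evalRingHom (fun _ : ℕ => ℝ) n)).eval (x n) := by
    intro x n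
    have h1 := Polynomial.eval₂_at_apply (p := g) (Pi.evalRingHom (fun _ : ℕ => ℝ) n) x
    rw [Polynomial.eval_map]
    exact h1.symm
  rw [hev] at ha hb
  have h0 : (0 : Hyperreal) = sq85 (fun _ => 0) := rfl
  rw [h0, sq85_lt] at ha hb
  rw [sq85_lt] at hab
  classical
  let c : ℕ → ℝ := fun n => if h : ∃ c, a n < c ∧ c < b n ∧
    (g.map (Pi.evalRingHom (fun _ : ℕ => ℝ) n)).eval c = 0 then h.choose else 0
  have hc : ∀ᶠ n in hyperfilter ℕ, a n < c n ∧ c n < b n ∧
      (g.map (Pi.evalRingHom (fun _ : ℕ => ℝ) n)).eval (c n) = 0 := by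
    filter_upwards [hab, ha, hb] with n h1 h2 h3
    rw [hn] at h2 h3
    have h4 : ∃ c, a n < c ∧ c < b n ∧
        (g.map (Pi.evalRingHom (fun _ : ℕ => ℝ) n)).eval c = 0 := by
      obtain ⟨c, hc1, hc2⟩ := intermediate_value_Ioo h1.le
        ((g.map (Pi.evalRingHom (fun _ : ℕ => ℝ) n)).continuous.continuousOn) ⟨h2, h3⟩
      exact ⟨c, hc1.1, hc1.2, hc2⟩
    have h5 : c n = h4.choose := dif_pos h4
    rw [h5]
    exact h4.choose_spec
  refine ⟨sq85 c, ?_, ?_, ?_⟩
  · rw [sq85_lt]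
    exact hc.mono fun n h => h.1
  · rw [sq85_lt]
    exact hc.mono fun n h => h.2.1
  · rw [hev, h0]
    apply sq85_eq
    refine hc.mono fun n h => ?_
    rw [hn]
    exact h.2.2

private lemma mv85 (F : MvPolynomial (Fin 2) ℝ) (z : Fin 2 → ℕ → ℝ) :
    F.eval₂ hr (fun i => sq85 (z i)) = sq85 (fun n => MvPolynomial.eval (fun i => z i n) F) := by
  induction F using MvPolynomial.induction_on with
  | C r =>
    rw [MvPolynomial.eval₂_C]
    simp only [MvPolynomial.eval_C]
    rfl
  | add p q hp hq =>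
    rw [MvPolynomial.eval₂_add, hp, hq, ← map_add]
    congr 1
    funext n
    simp
  | mul_X p i hp =>
    rw [MvPolynomial.eval₂_mul, MvPolynomial.eval₂_X, hp, ← map_mul]
    congr 1
    funext n
    simp

theorem los (F G : MvPolynomial (Fin 2) ℝ) (w : Fin 2 → Hyperreal)
    (hF : 0 < F.eval₂ hr w) (hG : G.eval₂ hr w < 0) :
    ∃ z : Fin 2 → ℝ, 0 < MvPolynomial.eval z F ∧ MvPolynomial.eval z G < 0 := by
  choose z hz using fun i => sq85_surj (w i)
  obtain rfl : (fun i => sq85 (z i)) = w := funext hz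
  rw [mv85] at hF hG
  have h0 : (0 : Hyperreal) = sq85 (fun _ => 0) := rfl
  rw [h0, sq85_lt] at hF hG
  obtain ⟨n, h1, h2⟩ := (hF.and hG).exists
  exact ⟨fun i => z i n, h1, h2⟩

end Pool.Agent.Helper10.TC
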