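import Pool.Agent.Helper10.TC.TtD
import Pool.Agent.Helper10.TC.Hyp
import Pool.Agent.Helper10.TC.Cut

set_option autoImplicit false

/-!
# Project TC (MP_63c74b), block AL: the Artin-Lang theorem for the plane

Let `k = FractionRing ℝ[X]` (or `RatFunc ℝ`). `ξ = φ (X 0)`, `y = φ (X 1)`, `ι = φ ∘ C`. `ξ` is
not a root of a nonzero real polynomial (`φ` injective, `q ↦ q(X 0)` injective), so `exists_cut`
gives `ξ' ∈ ℝ*`; `q(ξ') ≠ 0` for `q ≠ 0` as the sign of `q(ξ)` is not zero. So there are ring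
homomorphisms `i₁ : k → K`, `X ↦ ξ`, `i₂ : k → ℝ*`, `X ↦ ξ'` (`IsFractionRing.lift`,
`IsLocalization.lift`), and `sign (i₁ a) = sign (i₂ a)` for all `a = u / v ∈ k`
(`sign (u / v) = sign u * sign v`). Let `Φ : ℝ[X 0, X 1] → k[Y]`, `X 0 ↦ C X`, `X 1 ↦ Y`; then
`(Φ F).map i₁` at `y` is `φ F` (check on generators, `MvPolynomial.induction_on` or ring hom ext) and
`(Φ F).map i₂` at `η` is `F.eval₂ hr ![ξ', η]`. `transfer` with `L = {Φ g, Φ p}` gives `η`; then `los`.
-/

open Polynomial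

namespace Pool.Agent.Helper10.TC

private theorem al_sign_cancel {a b c s : SignType} (hs : s ≠ 0) (h1 : a * s = c) (h2 : b * s = c) :
    a = b := by
  revert hs h1 h2
  revert a b c s
  decide

theorem artin_lang {K : Type*} [Field K] [LinearOrder K] [IsStrictOrderedRing K] (hK : IVT K)
    (φ : MvPolynomial (Fin 2) ℝ →+* K) (hφ : Function.Injective φ) (g p : MvPolynomial (Fin 2) ℝ)
    (hg : 0 < φ g) (hp : φ p < 0) :
    ∃ z : Fin 2 → ℝ, 0 < MvPolynomial.eval z g ∧ MvPolynomial.eval z p < 0 := by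
  classical
  let ι : ℝ →+* K := φ.comp MvPolynomial.C
  let ξ : K := φ (MvPolynomial.X 0)
  let y : K := φ (MvPolynomial.X 1)
  have hev : ∀ q : ℝ[X], q.eval₂ ι ξ = φ (Polynomial.toMvPolynomial (0 : Fin 2) q) := by
    intro q
    rw [← Polynomial.hom_eval₂]
    rfl
  have hξ : ∀ q : ℝ[X], q ≠ 0 → q.eval₂ ι ξ ≠ 0 := by
    intro q hq h
    rw [hev, map_eq_zero_iff φ hφ] at h
    apply hq
    apply Polynomial.toMvPolynomial_injective (0 : Fin 2)
    rw [h, map_zero]
  obtain ⟨ξ', hξ'⟩ := exists_cut ι ξ hξ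
  have hξ2 : ∀ q : ℝ[X], q ≠ 0 → q.eval₂ hr ξ' ≠ 0 := by
    intro q hq h
    have h1 := hξ' q
    rw [h, sign_zero, sign_eq_zero_iff] at h1
    exact hξ q hq h1
  let g₁ : ℝ[X] →+* K := eval₂RingHom ι ξ
  let g₂ : ℝ[X] →+* Hyperreal := eval₂RingHom hr ξ'
  have hg₁ : Function.Injective g₁ := by
    rw [injective_iff_map_eq_zero]
    intro q hq
    by_contra hne
    exact hξ q hne hq
  have hg₂ : Function.Injective g₂ := by
    rw [injective_iff_map_eq_zero]
    intro q hq
    by_contra hne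
    exact hξ2 q hne hq
  let k := FractionRing ℝ[X]
  let i₁ : k →+* K := IsFractionRing.lift hg₁
  let i₂ : k →+* Hyperreal := IsFractionRing.lift hg₂
  have hi₁ : ∀ q : ℝ[X], i₁ (algebraMap ℝ[X] k q) = g₁ q := fun q => IsFractionRing.lift_algebraMap hg₁ q
  have hi₂ : ∀ q : ℝ[X], i₂ (algebraMap ℝ[X] k q) = g₂ q := fun q => IsFractionRing.lift_algebraMap hg₂ q
  have hsgn : ∀ a : k, SignType.sign (i₁ a) = SignType.sign (i₂ a) := by
    intro a
    obtain ⟨u, v, hv, rfl⟩ := IsFractionRing.div_surjective (A := ℝ[X]) a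
    have hv0 : v ≠ 0 := nonZeroDivisors.ne_zero hv
    have e1 : i₁ (algebraMap ℝ[X] k u / algebraMap ℝ[X] k v) * g₁ v = g₁ u := by
      rw [map_div₀, hi₁, hi₁]
      exact div_mul_cancel₀ _ (hξ v hv0)
    have e2 : i₂ (algebraMap ℝ[X] k u / algebraMap ℝ[X] k v) * g₂ v = g₂ u := by
      rw [map_div₀, hi₂, hi₂]
      exact div_mul_cancel₀ _ (hξ2 v hv0)
    have s1 := congrArg SignType.sign e1
    have s2 := congrArg SignType.sign e2
    rw [sign_mul] at s1 s2
    have s3 : SignType.sign (g₁ u) = SignType.sign (g₂ u) := hξ' u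
    have s4 : SignType.sign (g₁ v) = SignType.sign (g₂ v) := hξ' v
    rw [← s3, ← s4] at s2
    refine al_sign_cancel ?_ s1 s2
    rw [Ne, sign_eq_zero_iff]
    exact hξ v hv0
  let Φ : MvPolynomial (Fin 2) ℝ →+* k[X] :=
    MvPolynomial.eval₂Hom ((C : k →+* k[X]).comp ((algebraMap ℝ[X] k).comp C)) ![C (algebraMap ℝ[X] k X), X]
  have hΦ₁ : ∀ F, ((Φ F).map i₁).eval y = φ F := by
    intro F
    have h1 : ((evalRingHom y).comp (mapRingHom i₁)).comp Φ = φ := by
      refine MvPolynomial.ringHom_ext (fun r => ?_) (fun i => ?_)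
      · change ((Φ (MvPolynomial.C r)).map i₁).eval y = _
        have h2 : Φ (MvPolynomial.C r) = C (algebraMap ℝ[X] k (C r)) := MvPolynomial.eval₂Hom_C _ _ _
        rw [h2, Polynomial.map_C, Polynomial.eval_C, hi₁]
        exact Polynomial.eval₂_C _ _
      · change ((Φ (MvPolynomial.X i)).map i₁).eval y = _
        fin_cases i
        · have h2 : Φ (MvPolynomial.X 0) = C (algebraMap ℝ[X] k X) := MvPolynomial.eval₂Hom_X' _ _ _
          change ((Φ (MvPolynomial.X 0)).map i₁).eval y = _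
          rw [h2, Polynomial.map_C, Polynomial.eval_C, hi₁]
          exact Polynomial.eval₂_X _ _
        · have h2 : Φ (MvPolynomial.X 1) = X := MvPolynomial.eval₂Hom_X' _ _ _
          change ((Φ (MvPolynomial.X 1)).map i₁).eval y = _
          rw [h2, Polynomial.map_X, Polynomial.eval_X]
          rfl
    exact congrArg (fun f : MvPolynomial (Fin 2) ℝ →+* K => f F) h1
  have hΦ₂ : ∀ η : Hyperreal, ∀ F, ((Φ F).map i₂).eval η = F.eval₂ hr ![ξ', η] := by
    intro η F
    have h1 : ((evalRingHom η).comp (mapRingHom i₂)).comp Φ = MvPolynomial.eval₂Hom hr ![ξ', η] := by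
      refine MvPolynomial.ringHom_ext (fun r => ?_) (fun i => ?_)
      · change ((Φ (MvPolynomial.C r)).map i₂).eval η = _
        have h2 : Φ (MvPolynomial.C r) = C (algebraMap ℝ[X] k (C r)) := MvPolynomial.eval₂Hom_C _ _ _
        rw [h2, Polynomial.map_C, Polynomial.eval_C, hi₂, MvPolynomial.eval₂Hom_C]
        exact Polynomial.eval₂_C _ _
      · change ((Φ (MvPolynomial.X i)).map i₂).eval η = _
        fin_cases i
        · have h2 : Φ (MvPolynomial.X 0) = C (algebraMap ℝ[X] k X) := MvPolynomial.eval₂Hom_X' _ _ _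
          change ((Φ (MvPolynomial.X 0)).map i₂).eval η = MvPolynomial.eval₂Hom hr ![ξ', η] (MvPolynomial.X 0)
          rw [h2, Polynomial.map_C, Polynomial.eval_C, hi₂, MvPolynomial.eval₂Hom_X']
          exact Polynomial.eval₂_X _ _
        · have h2 : Φ (MvPolynomial.X 1) = X := MvPolynomial.eval₂Hom_X' _ _ _
          change ((Φ (MvPolynomial.X 1)).map i₂).eval η = MvPolynomial.eval₂Hom hr ![ξ', η] (MvPolynomial.X 1)
          rw [h2, Polynomial.map_X, Polynomial.eval_X, MvPolynomial.eval₂Hom_X']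
          rfl
    exact congrArg (fun f : MvPolynomial (Fin 2) ℝ →+* Hyperreal => f F) h1
  obtain ⟨η, hη⟩ := transfer i₁ i₂ hsgn hK ivt_hyperreal {Φ g, Φ p} y
  have hG := hη (Φ g) (by simp)
  have hP := hη (Φ p) (by simp)
  rw [hΦ₁, hΦ₂] at hG hP
  rw [sign_pos hg] at hG
  rw [sign_neg hp] at hP
  exact los g p ![ξ', η] (sign_eq_one_iff.1 hG.symm) (sign_eq_neg_one_iff.1 hP.symm)

end Pool.Agent.Helper10.TC
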