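import Pool.Agent.Helper10.TC.Ord
import Pool.Agent.Helper10.TC.CloB
import Pool.Agent.Helper10.TC.AL

set_option autoImplicit false

/-!
# Project TC (MP_63c74b), block ART: Artin certificates

`F = FractionRing A`. `T = {u ∈ F | ∃ a v ∈ A, a ≠ 0, InM g v, u * a² = v}`, closed under `+`, `*`
(`InM.add`, `InM.mul`, `InM g (a² v)`), contains the squares and `g`. If `p ∈ T`:
`a² p = v` in `A`, done. Suppose `p ∉ T`. `-1 ∉ T` (otherwise `T = F`, since
`x = ((x+1)/2)² + (-1) ((x-1)/2)²`). `T' = {t - p t' | t, t' ∈ T}` is closed under `+`, `*`, contains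
the squares, and `-1 ∉ T'`: `-1 = t - p t'` gives `p t' = 1 + t`; `t' ≠ 0` since `-1 ∉ T`;
`p = (1 + t) t' (1/t')² ∈ T`, contradiction. By `exists_order` `F` has an ordering with `T' ≥ 0`:
`g ≥ 0`, `-p ≥ 0`, and `g ≠ 0` (positive somewhere), `p ≠ 0` (`0 ∈ T`), so `0 < g`, `p < 0` in `F`.
`exists_ivt` gives `F → K`, and `artin_lang` for `A → F → K` gives `z` with `g z > 0`, `p z < 0`,
a contradiction.
-/

open MvPolynomial Pool.Agent.Helper68.QM

namespace Pool.Agent.Helper10.TC

private def artT (g : A) : Set (FractionRing A) :=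
  {u | ∃ a v : A, a ≠ 0 ∧ InM g v ∧
    u * algebraMap A (FractionRing A) a ^ 2 = algebraMap A (FractionRing A) v}

private theorem artT_add (g : A) : ∀ a ∈ artT g, ∀ b ∈ artT g, a + b ∈ artT g := by
  rintro u ⟨a, v, ha, hv, h⟩ u' ⟨a', v', ha', hv', h'⟩
  refine ⟨a * a', v * a' ^ 2 + v' * a ^ 2, mul_ne_zero ha ha',
    (hv.mul (InM.sq _)).add (hv'.mul (InM.sq _)), ?_⟩
  simp only [map_mul, map_add, map_pow]
  linear_combination (algebraMap A (FractionRing A) a') ^ 2 * h +
    (algebraMap A (FractionRing A) a) ^ 2 * h'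

private theorem artT_mul (g : A) : ∀ a ∈ artT g, ∀ b ∈ artT g, a * b ∈ artT g := by
  rintro u ⟨a, v, ha, hv, h⟩ u' ⟨a', v', ha', hv', h'⟩
  refine ⟨a * a', v * v', mul_ne_zero ha ha', hv.mul hv', ?_⟩
  rw [map_mul, map_mul, ← h, ← h']
  ring

private theorem artT_sq (g : A) (u : FractionRing A) : u ^ 2 ∈ artT g := by
  obtain ⟨x, y, hy, rfl⟩ := IsFractionRing.div_surjective (A := A) u
  have hy0 : y ≠ 0 := nonZeroDivisors.ne_zero hy
  refine ⟨y, x ^ 2, hy0, InM.sq x, ?_⟩
  have h0 : algebraMap A (FractionRing A) y ≠ 0 := fun h =>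
    hy0 (IsFractionRing.injective A (FractionRing A) (by rw [h, map_zero]))
  rw [div_pow, div_mul_cancel₀ _ (pow_ne_zero 2 h0), map_pow]

private theorem artT_zero (g : A) : (0 : FractionRing A) ∈ artT g := by
  have h := artT_sq g 0
  rwa [zero_pow two_ne_zero] at h

private theorem artT_one (g : A) : (1 : FractionRing A) ∈ artT g := by
  have h := artT_sq g 1
  rwa [one_pow] at h

private theorem artT_gen (g : A) : algebraMap A (FractionRing A) g ∈ artT g :=
  ⟨1, g, one_ne_zero, InM.gen, by rw [map_one, one_pow, mul_one]⟩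

private theorem artT_neg_one {g : A} (h1 : (-1 : FractionRing A) ∈ artT g)
    (x : FractionRing A) : x ∈ artT g := by
  have h2 : (2 : FractionRing A) ≠ 0 := by
    intro h
    have h3 : algebraMap A (FractionRing A) 2 = algebraMap A (FractionRing A) 0 := by
      rw [map_ofNat, map_zero, h]
    exact two_ne_zero (IsFractionRing.injective A (FractionRing A) h3)
  have h3 : x = ((x + 1) / 2) ^ 2 + (-1) * ((x - 1) / 2) ^ 2 := by
    field_simp
    ring
  rw [h3]
  exact artT_add g _ (artT_sq g _) _ (artT_mul g _ h1 _ (artT_sq g _))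

/-- **Artin certificates.** -/
theorem artin (g p : A) (hg : ∃ z, 0 < eval z g) (hp : ∀ z, 0 < eval z g → 0 ≤ eval z p) :
    ∃ h : A, h ≠ 0 ∧ InM g (h ^ 2 * p) := by
  classical
  have hinj : Function.Injective (algebraMap A (FractionRing A)) :=
    IsFractionRing.injective A (FractionRing A)
  generalize hj : algebraMap A (FractionRing A) = j at hinj
  have hgT : j g ∈ artT g := hj ▸ artT_gen g
  by_cases hpT : j p ∈ artT g
  · obtain ⟨a, v, ha, hv, h⟩ := hpT
    refine ⟨a, ha, ?_⟩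
    rw [hj] at h
    have h2 : a ^ 2 * p = v := hinj (by rw [map_mul, map_pow, mul_comm, h])
    rwa [h2]
  exfalso
  have h1 : (-1 : FractionRing A) ∉ artT g := fun h => hpT (artT_neg_one h _)
  obtain ⟨lo, so, ho⟩ := exists_order
    {w : FractionRing A | ∃ t ∈ artT g, ∃ t' ∈ artT g, w = t - j p * t'}
    (by
      rintro _ ⟨t, ht, t', ht', rfl⟩ _ ⟨s, hs, s', hs', rfl⟩
      exact ⟨t + s, artT_add g _ ht _ hs, t' + s', artT_add g _ ht' _ hs', by ring⟩)
    (by
      rintro _ ⟨t, ht, t', ht', rfl⟩ _ ⟨s, hs, s', hs', rfl⟩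
      exact ⟨t * s + j p ^ 2 * (t' * s'),
        artT_add g _ (artT_mul g _ ht _ hs) _ (artT_mul g _ (artT_sq g _) _ (artT_mul g _ ht' _ hs')),
        t * s' + t' * s, artT_add g _ (artT_mul g _ ht _ hs') _ (artT_mul g _ ht' _ hs), by ring⟩)
    (fun a => ⟨a ^ 2, artT_sq g a, 0, artT_zero g, by ring⟩)
    (by
      rintro ⟨t, ht, t', ht', h⟩
      have h3 : j p * t' = 1 + t := by linear_combination h
      have h4 : t' ≠ 0 := by
        rintro rfl
        apply h1
        have h5 : (-1 : FractionRing A) = t := by linear_combination h3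
        rwa [h5]
      apply hpT
      have h5 : j p = (1 + t) * t' * (1 / t') ^ 2 := by
        rw [← h3]
        field_simp
      rw [h5]
      exact artT_mul g _ (artT_mul g _ (artT_add g _ (artT_one g) _ ht) _ ht') _ (artT_sq g _))
  have hg0 : j g ≠ 0 := by
    intro h
    have h2 : g = 0 := hinj (by rw [h, map_zero])
    obtain ⟨z, hz⟩ := hg
    rw [h2, map_zero] at hz
    exact lt_irrefl _ hz
  have hp0 : j p ≠ 0 := fun h => hpT (h ▸ artT_zero g)
  have hgp : 0 < j g := lt_of_le_of_ne (ho _ ⟨j g, hgT, 0, artT_zero g, by ring⟩) hg0.symm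
  have hpn : 0 < -(j p) := lt_of_le_of_ne
    (ho _ ⟨0, artT_zero g, 1, artT_one g, by ring⟩) (neg_ne_zero.2 hp0).symm
  obtain ⟨E, _, _, _, i, hi, hE⟩ := exists_ivt (FractionRing A)
  obtain ⟨z, hz1, hz2⟩ := artin_lang hE (i.comp j) (i.injective.comp hinj) g p (hi _ hgp)
    (by
      have h := hi _ hpn
      rw [map_neg] at h
      exact neg_pos.1 h)
  exact absurd (hp z hz1) (not_le.2 hz2)

end Pool.Agent.Helper10.TC
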