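import Pool.Agent.Helper10.TC.Defs

set_option autoImplicit false

/-!
# Project TC (MP_63c74b), block APR: approximation of Laurent polynomials in `x` at infinity

`apr`: for `θ ∈ ℝ[s]` and `n, M` there is `j₀` such that for all `j ≥ j₀` there are `A ∈ ℝ[x]`, `K` with
`|θ(1/x) x^n - A(x)/(1+x²)^j| ≤ K |x|^(-M)` for `|x| ≥ 1`. By linearity (`Polynomial.induction_on`; take
the maximum of the `j₀`, and multiply numerator and denominator by powers of `1 + x²`) it suffices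
to treat `θ = s^i`: `x^(n-i)`. If `i ≤ n` it is a polynomial (`j₀ = 0`,
`A = X^(n-i) (1+X²)^j`). Else `l = i - n > 0`; `∑_{t<K} (1+x²)^(-t-1) = (1 - (1+x²)^(-K)) / x²`, so
`ρ = ∑_{t<K} x (1+x²)^(-t-1)` satisfies `|1/x - ρ| = (1+x²)^(-K)/|x| ≤ |x|^(-2K)`, and
`|x^(-l) - ρ^l| ≤ l |x|^(-2K)` (both numbers of absolute value `≤ 1` for `|x| ≥ 1`), `ρ^l` is a polynomial
divided by `(1+x²)^(K l)`. Take `K = M`.
`exists_S`: let `Θ = H^(2N)` (monic in `Y` of degree `e = 2 N d`, `d = natDegree H`, coefficients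
`Θ_k(s)`). For `x ≠ 0`: `(x^d H(1/x, y/x))^(2N) = x^e Θ(1/x, y/x) = y^e + ∑_{k<e} Θ_k(1/x) x^(e-k) y^k`. Choose
with `apr` for every `k < e` (with `M = e + 2 δ + 1`, common `j ≥ 1`) `A_k`, and let
`S = (1+x²)^δ ((1+x²)^j y^e + ∑_{k<e} A_k(x) y^k)`. For `|x| ≥ 1`, `|y| ≤ C₀ (1+|x|) ≤ 2 |C₀| |x|`:
`|S/(1+x²)^j - Ψ| ≤ (1+x²)^δ ∑_k K_k |x|^(-M) |y|^k ≤ K' |x|^(2δ + e - M) ≤ K' / |x|`.
-/

open Polynomial

namespace Pool.Agent.Helper10.TC

private lemma pow_diff62 {a b : ℝ} (ha : |a| ≤ 1) (hb : |b| ≤ 1) (l : ℕ) :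
    |a ^ l - b ^ l| ≤ l * |a - b| := by
  induction l with
  | zero => simp
  | succ l ih =>
    have h1 : a ^ (l + 1) - b ^ (l + 1) = a * (a ^ l - b ^ l) + (a - b) * b ^ l := by ring
    have h2 : |a * (a ^ l - b ^ l)| ≤ |a ^ l - b ^ l| := by
      rw [abs_mul]
      exact mul_le_of_le_one_left (abs_nonneg _) ha
    have h3 : |(a - b) * b ^ l| ≤ |a - b| := by
      rw [abs_mul, abs_pow]
      exact mul_le_of_le_one_right (abs_nonneg _) (pow_le_one₀ (abs_nonneg _) hb)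
    rw [h1]
    refine (abs_add_le _ _).trans ?_
    push_cast
    linarith

private lemma inv_pow62 (l M : ℕ) : ∃ j₀ : ℕ, ∀ j, j₀ ≤ j → ∃ (P : R1) (K : ℝ), ∀ x : ℝ, 1 ≤ |x| →
    |x⁻¹ ^ l - P.eval x / (1 + x ^ 2) ^ j| ≤ K * (|x| ^ M)⁻¹ := by
  refine ⟨M * l, fun j hj => ?_⟩
  let P₁ : R1 := X * ∑ i ∈ Finset.range M, (1 + X ^ 2) ^ i
  refine ⟨P₁ ^ l * (1 + X ^ 2) ^ (j - M * l), l, fun x hx => ?_⟩
  have hx0 : x ≠ 0 := by
    rintro rfl
    simp at hx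
    linarith
  have hq : (0 : ℝ) < 1 + x ^ 2 := by positivity
  set ρ : ℝ := P₁.eval x / (1 + x ^ 2) ^ M with hρ
  have hP₁ : x * P₁.eval x = (1 + x ^ 2) ^ M - 1 := by
    have h1 : P₁.eval x = x * ∑ i ∈ Finset.range M, (1 + x ^ 2) ^ i := by
      simp [P₁, eval_finsetSum]
    have h2 := mul_geom_sum (1 + x ^ 2) M
    have h3 : (1 + x ^ 2 - 1 : ℝ) = x * x := by ring
    rw [h3] at h2
    rw [h1, ← mul_assoc]
    exact h2
  have hρx : ρ = x⁻¹ * (1 - ((1 + x ^ 2) ^ M)⁻¹) := by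
    have h1 : P₁.eval x = x⁻¹ * ((1 + x ^ 2) ^ M - 1) := by
      rw [← hP₁]
      field_simp
    rw [hρ, h1]
    field_simp
  have hq1 : (1 : ℝ) ≤ (1 + x ^ 2) ^ M := one_le_pow₀ (by nlinarith [sq_nonneg x])
  have hxi : |x⁻¹| ≤ 1 := by
    rw [abs_inv]
    exact inv_le_one_of_one_le₀ hx
  have hi0 : (0 : ℝ) < ((1 + x ^ 2) ^ M)⁻¹ := by positivity
  have hi1 : ((1 + x ^ 2) ^ M)⁻¹ ≤ (1 : ℝ) := inv_le_one_of_one_le₀ hq1
  have hρ1 : |ρ| ≤ 1 := by
    rw [hρx, abs_mul]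
    refine mul_le_one₀ hxi (abs_nonneg _) ?_
    rw [abs_le]
    constructor <;> linarith
  have hdiff : |x⁻¹ - ρ| ≤ (|x| ^ M)⁻¹ := by
    have h1 : x⁻¹ - ρ = x⁻¹ * ((1 + x ^ 2) ^ M)⁻¹ := by
      rw [hρx]
      ring
    rw [h1, abs_mul, abs_of_pos hi0]
    refine (mul_le_of_le_one_left hi0.le hxi).trans ?_
    refine inv_anti₀ (by positivity) (pow_le_pow_left₀ (abs_nonneg _) ?_ M)
    have : |x| * 1 ≤ |x| * |x| := mul_le_mul_of_nonneg_left hx (abs_nonneg _)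
    rw [abs_mul_abs_self] at this
    nlinarith
  have hev : (P₁ ^ l * (1 + X ^ 2) ^ (j - M * l)).eval x / (1 + x ^ 2) ^ j = ρ ^ l := by
    have h1 : (1 + x ^ 2) ^ j = ((1 + x ^ 2) ^ M) ^ l * (1 + x ^ 2) ^ (j - M * l) := by
      rw [← pow_mul, ← pow_add]
      congr 1
      omega
    rw [h1, hρ, div_pow, eval_mul, eval_pow, eval_pow, eval_add, eval_one, eval_pow, eval_X]
    have h2 : (1 + x ^ 2) ^ (j - M * l) ≠ 0 := by positivity
    rw [mul_div_mul_right _ _ h2]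
  rw [hev]
  exact (pow_diff62 hxi hρ1 l).trans (mul_le_mul_of_nonneg_left hdiff (Nat.cast_nonneg l))

theorem apr (θ : R1) (n M : ℕ) : ∃ j₀ : ℕ, ∀ j, j₀ ≤ j → ∃ (P : R1) (K : ℝ), ∀ x : ℝ, 1 ≤ |x| →
    |θ.eval x⁻¹ * x ^ n - P.eval x / (1 + x ^ 2) ^ j| ≤ K * (|x| ^ M)⁻¹ := by
  induction θ using Polynomial.induction_on' with
  | add p q hp hq =>
    obtain ⟨j₁, h₁⟩ := hp
    obtain ⟨j₂, h₂⟩ := hq
    refine ⟨max j₁ j₂, fun j hj => ?_⟩
    obtain ⟨P₁, K₁, hK₁⟩ := h₁ j (le_trans (le_max_left _ _) hj)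
    obtain ⟨P₂, K₂, hK₂⟩ := h₂ j (le_trans (le_max_right _ _) hj)
    refine ⟨P₁ + P₂, K₁ + K₂, fun x hx => ?_⟩
    have e1 : (p + q).eval x⁻¹ * x ^ n - (P₁ + P₂).eval x / (1 + x ^ 2) ^ j =
        (p.eval x⁻¹ * x ^ n - P₁.eval x / (1 + x ^ 2) ^ j) +
        (q.eval x⁻¹ * x ^ n - P₂.eval x / (1 + x ^ 2) ^ j) := by
      rw [eval_add, eval_add]
      ring
    rw [e1, add_mul]
    exact (abs_add_le _ _).trans (add_le_add (hK₁ x hx) (hK₂ x hx))
  | monomial i a =>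
    rcases le_or_gt i n with hin | hin
    · refine ⟨0, fun j _ => ⟨C a * X ^ (n - i) * (1 + X ^ 2) ^ j, 0, fun x hx => ?_⟩⟩
      have hx0 : x ≠ 0 := by
        rintro rfl
        simp at hx
        linarith
      have hq : (1 + x ^ 2) ^ j ≠ 0 := by positivity
      have e1 : (monomial i a).eval x⁻¹ * x ^ n = a * x ^ (n - i) := by
        rw [eval_monomial]
        have : x ^ n = x ^ i * x ^ (n - i) := by
          rw [← pow_add]
          congr 1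
          omega
        rw [this, inv_pow]
        field_simp
      have e2 : (C a * X ^ (n - i) * (1 + X ^ 2) ^ j : R1).eval x / (1 + x ^ 2) ^ j =
          a * x ^ (n - i) := by
        simp only [eval_mul, eval_C, eval_pow, eval_X, eval_add, eval_one]
        rw [mul_div_assoc, div_self hq, mul_one]
      rw [e1, e2, sub_self, abs_zero, zero_mul]
    · obtain ⟨j₀, h⟩ := inv_pow62 (i - n) M
      refine ⟨j₀, fun j hj => ?_⟩
      obtain ⟨P, K, hK⟩ := h j hj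
      refine ⟨C a * P, |a| * K, fun x hx => ?_⟩
      have hx0 : x ≠ 0 := by
        rintro rfl
        simp at hx
        linarith
      have e1 : (monomial i a).eval x⁻¹ * x ^ n = a * x⁻¹ ^ (i - n) := by
        rw [eval_monomial]
        have : x⁻¹ ^ i = x⁻¹ ^ (i - n) * x⁻¹ ^ n := by
          rw [← pow_add]
          congr 1
          omega
        rw [this, inv_pow x n]
        field_simp
      have e2 : (monomial i a).eval x⁻¹ * x ^ n - (C a * P).eval x / (1 + x ^ 2) ^ j =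
          a * (x⁻¹ ^ (i - n) - P.eval x / (1 + x ^ 2) ^ j) := by
        rw [e1, eval_mul, eval_C]
        ring
      rw [e2, abs_mul, mul_assoc]
      exact mul_le_mul_of_nonneg_left (hK x hx) (abs_nonneg _)

/-- the function `(x ^ d H(1/x, y/x)) ^ (2N) (1 + x²) ^ δ` -/
noncomputable def Psi (N δ : ℕ) (H : R2) (x y : ℝ) : ℝ :=
  (x ^ H.natDegree * ev x⁻¹ (y * x⁻¹) H) ^ (2 * N) * (1 + x ^ 2) ^ δ

theorem exists_S (N : ℕ) (hN : N ≠ 0) (δ : ℕ) (H : R2) (hH : H.Monic) (hd : 0 < H.natDegree) :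
    ∃ (S : R2) (j : ℕ), 1 ≤ j ∧ 0 < S.natDegree ∧ S.leadingCoeff = (1 + X ^ 2) ^ (j + δ) ∧
      ∀ C₀ : ℝ, ∃ K : ℝ, ∀ x y : ℝ, 1 ≤ |x| → |y| ≤ C₀ * (1 + |x|) →
        |ev x y S / (1 + x ^ 2) ^ j - Psi N δ H x y| ≤ K / |x| := by
  classical
  set d := H.natDegree with hd'
  set Θ : R2 := H ^ (2 * N) with hΘ
  set e := 2 * N * d with he
  have hΘm : Θ.Monic := hH.pow _
  have hΘd : Θ.natDegree = e := by rw [hΘ, hH.natDegree_pow]
  have he0 : 0 < e := Nat.mul_pos (Nat.mul_pos two_pos (Nat.pos_of_ne_zero hN)) hd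
  set M := e + 2 * δ + 1 with hM
  -- the approximations
  have hap := fun k : ℕ => apr (Θ.coeff k) (e - k) M
  choose j₀ hj₀ using hap
  set j : ℕ := 1 + ∑ k ∈ Finset.range e, j₀ k with hj
  have hex : ∀ k, ∃ (P : R1) (K : ℝ), k < e → ∀ x : ℝ, 1 ≤ |x| →
      |(Θ.coeff k).eval x⁻¹ * x ^ (e - k) - P.eval x / (1 + x ^ 2) ^ j| ≤ K * (|x| ^ M)⁻¹ := by
    intro k
    by_cases hk : k < e
    · have h1 : j₀ k ≤ j := by
        have := Finset.single_le_sum (f := j₀) (fun i _ => Nat.zero_le _) (Finset.mem_range.2 hk)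
        omega
      obtain ⟨P, K, h⟩ := hj₀ k j h1
      exact ⟨P, K, fun _ => h⟩
    · exact ⟨0, 0, fun h => absurd h hk⟩
  choose A Kc hA using hex
  set T : R2 := ∑ k ∈ Finset.range e, C ((1 + X ^ 2) ^ δ * A k) * X ^ k with hT
  have hTdeg : T.degree < (e : ℕ) := by
    rw [degree_lt_iff_coeff_zero]
    intro m hm
    rw [hT, finsetSum_coeff]
    refine Finset.sum_eq_zero fun k hk => ?_
    rw [coeff_C_mul_X_pow, if_neg]
    have := Finset.mem_range.1 hk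
    omega
  have ha0 : ((1 + X ^ 2) ^ (j + δ) : R1) ≠ 0 := by
    refine pow_ne_zero _ fun h => ?_
    have := congrArg (eval (0 : ℝ)) h
    simp at this
  set T₀ : R2 := C ((1 + X ^ 2) ^ (j + δ)) * X ^ e with hT₀
  have hT₀d : T₀.degree = (e : ℕ) := degree_C_mul_X_pow e ha0
  have hlt : T.degree < T₀.degree := by rw [hT₀d]; exact hTdeg
  refine ⟨T₀ + T, j, by omega, ?_, ?_, fun C₀ => ?_⟩
  · rw [natDegree_add_eq_left_of_degree_lt hlt, hT₀, natDegree_C_mul_X_pow e _ ha0]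
    exact he0
  · rw [leadingCoeff_add_of_degree_lt' hlt, hT₀, leadingCoeff_C_mul_X_pow]
  set c : ℝ := 2 * max |C₀| 1 with hc
  have hc1 : 1 ≤ c := by
    have := le_max_right |C₀| 1
    linarith
  refine ⟨2 ^ δ * c ^ e * ∑ k ∈ Finset.range e, |Kc k|, fun x y hx hy => ?_⟩
  have hx0 : x ≠ 0 := by
    rintro rfl
    simp at hx
    linarith
  have hax : 0 < |x| := by linarith
  have hq : (0 : ℝ) < 1 + x ^ 2 := by positivity
  have hqj : (1 + x ^ 2) ^ j ≠ 0 := (pow_pos hq j).ne'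
  -- the two expansions
  have hPsi : Psi N δ H x y = (1 + x ^ 2) ^ δ * (y ^ e + ∑ k ∈ Finset.range e,
      ((Θ.coeff k).eval x⁻¹ * x ^ (e - k)) * y ^ k) := by
    have h1 : (x ^ H.natDegree * ev x⁻¹ (y * x⁻¹) H) ^ (2 * N) = x ^ e * ev x⁻¹ (y * x⁻¹) Θ := by
      rw [mul_pow, hΘ, map_pow, ← pow_mul]
      congr 2
      rw [he, hd']
      ring
    have h2 : ev x⁻¹ (y * x⁻¹) Θ = ∑ k ∈ Finset.range (e + 1),
        (Θ.coeff k).eval x⁻¹ * (y * x⁻¹) ^ k := by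
      have h3 : ev x⁻¹ (y * x⁻¹) Θ = Θ.eval₂ (evalRingHom x⁻¹) (y * x⁻¹) := rfl
      rw [h3, eval₂_eq_sum_range, hΘd]
      rfl
    unfold Psi
    rw [h1, h2, Finset.sum_range_succ, mul_comm ((1 + x ^ 2) ^ δ)]
    congr 1
    have h4 : Θ.coeff e = 1 := by
      rw [← hΘd]
      exact hΘm
    rw [h4, eval_one, one_mul, mul_add, add_comm, Finset.mul_sum]
    congr 1
    · rw [mul_pow, inv_pow]
      have : x ^ e ≠ 0 := pow_ne_zero _ hx0
      field_simp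
    · refine Finset.sum_congr rfl fun k hk => ?_
      have hk' := Finset.mem_range.1 hk
      have h5 : x ^ e = x ^ (e - k) * x ^ k := by
        rw [← pow_add]
        congr 1
        omega
      rw [h5, mul_pow, inv_pow]
      have : x ^ k ≠ 0 := pow_ne_zero _ hx0
      field_simp
  have hS : ev x y (T₀ + T) / (1 + x ^ 2) ^ j = (1 + x ^ 2) ^ δ * (y ^ e + ∑ k ∈ Finset.range e,
      ((A k).eval x / (1 + x ^ 2) ^ j) * y ^ k) := by
    have h1 : ev x y T₀ = (1 + x ^ 2) ^ (j + δ) * y ^ e := by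
      rw [hT₀, map_mul, ev_C, map_pow, ev_X]
      simp
    have h2 : ev x y T = ∑ k ∈ Finset.range e, (1 + x ^ 2) ^ δ * (A k).eval x * y ^ k := by
      rw [hT, map_sum]
      refine Finset.sum_congr rfl fun k _ => ?_
      rw [map_mul, ev_C, map_pow, ev_X]
      simp
    rw [map_add, h1, h2, add_div, mul_add, Finset.mul_sum, Finset.sum_div]
    congr 1
    · rw [pow_add]
      field_simp
    · refine Finset.sum_congr rfl fun k _ => ?_
      field_simp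
  rw [hS, hPsi, ← mul_sub, add_sub_add_left_eq_sub, ← Finset.sum_sub_distrib, abs_mul,
    abs_of_pos (pow_pos hq δ)]
  -- the bounds
  have hy1 : |y| ≤ c * |x| := by
    refine hy.trans ?_
    have h1 : C₀ ≤ max |C₀| 1 := (le_abs_self C₀).trans (le_max_left _ _)
    have h2 : C₀ * (1 + |x|) ≤ max |C₀| 1 * (1 + |x|) :=
      mul_le_mul_of_nonneg_right h1 (by linarith)
    have h3 : max |C₀| 1 * (1 + |x|) ≤ max |C₀| 1 * (2 * |x|) :=
      mul_le_mul_of_nonneg_left (by linarith) (le_trans zero_le_one (le_max_right _ _))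
    rw [hc]
    linarith
  have hyk : ∀ k ∈ Finset.range e, |y| ^ k ≤ c ^ e * |x| ^ e := by
    intro k hk
    have hk' := Finset.mem_range.1 hk
    have h1 : 1 ≤ c * |x| := by nlinarith
    calc |y| ^ k ≤ (c * |x|) ^ k := pow_le_pow_left₀ (abs_nonneg _) hy1 k
      _ ≤ (c * |x|) ^ e := pow_le_pow_right₀ h1 hk'.le
      _ = c ^ e * |x| ^ e := mul_pow _ _ _
  have hsum : |∑ k ∈ Finset.range e, ((A k).eval x / (1 + x ^ 2) ^ j * y ^ k -
      (Θ.coeff k).eval x⁻¹ * x ^ (e - k) * y ^ k)| ≤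
      (∑ k ∈ Finset.range e, |Kc k|) * ((|x| ^ M)⁻¹ * (c ^ e * |x| ^ e)) := by
    refine (Finset.abs_sum_le_sum_abs _ _).trans ?_
    rw [Finset.sum_mul]
    refine Finset.sum_le_sum fun k hk => ?_
    have h1 : (A k).eval x / (1 + x ^ 2) ^ j * y ^ k - (Θ.coeff k).eval x⁻¹ * x ^ (e - k) * y ^ k =
        -(((Θ.coeff k).eval x⁻¹ * x ^ (e - k) - (A k).eval x / (1 + x ^ 2) ^ j) * y ^ k) := by
      ring
    rw [h1, abs_neg, abs_mul, abs_pow]
    have h2 := hA k (Finset.mem_range.1 hk) x hx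
    have h3 : Kc k * (|x| ^ M)⁻¹ ≤ |Kc k| * (|x| ^ M)⁻¹ :=
      mul_le_mul_of_nonneg_right (le_abs_self _) (by positivity)
    calc _ ≤ (|Kc k| * (|x| ^ M)⁻¹) * (c ^ e * |x| ^ e) :=
          mul_le_mul (h2.trans h3) (hyk k hk) (by positivity) (by positivity)
      _ = _ := by ring
  have hqd : (1 + x ^ 2) ^ δ ≤ 2 ^ δ * |x| ^ (2 * δ) := by
    rw [pow_mul, ← mul_pow]
    refine pow_le_pow_left₀ hq.le ?_ δ
    rw [sq_abs]
    have : 1 ≤ x ^ 2 := by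
      rw [← sq_abs]
      exact one_le_pow₀ hx
    linarith
  have hsum0 : 0 ≤ ∑ k ∈ Finset.range e, |Kc k| := Finset.sum_nonneg fun k _ => abs_nonneg _
  calc (1 + x ^ 2) ^ δ * |∑ k ∈ Finset.range e, ((A k).eval x / (1 + x ^ 2) ^ j * y ^ k -
      (Θ.coeff k).eval x⁻¹ * x ^ (e - k) * y ^ k)|
      ≤ (2 ^ δ * |x| ^ (2 * δ)) * ((∑ k ∈ Finset.range e, |Kc k|) *
        ((|x| ^ M)⁻¹ * (c ^ e * |x| ^ e))) :=
        mul_le_mul hqd hsum (abs_nonneg _) (by positivity)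
    _ = 2 ^ δ * c ^ e * (∑ k ∈ Finset.range e, |Kc k|) / |x| := by
        have h1 : |x| ^ M = |x| ^ (2 * δ) * |x| ^ e * |x| := by
          rw [← pow_add, ← pow_succ]
          congr 1
          omega
        rw [h1]
        field_simp

end Pool.Agent.Helper10.TC
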