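import Pool.Agent.Helper10.TC.Defs

set_option autoImplicit false

/-!
# Project TC (MP_63c74b): approximate factorisations, definitions
-/

open Polynomial Filter Topology

namespace Pool.Agent.Helper10.TC

/-- the real function `Hf (u, Y)` is, up to `O(u ^ M)`, the product of the `Y - p_l(u)`, the `p_l` are
separated up to order `B`, and closed under conjugation -/
structure Apx (e : ℕ) (p : Fin e → C1) (B M : ℕ) (Hf : ℝ → ℝ → ℝ) : Prop where
  sep : ∀ l m, l ≠ m → ∃ k ≤ B, (p l).coeff k ≠ (p m).coeff k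
  conj : ∀ l, ∃ m, p m = (p l).map (starRingEnd ℂ)
  big : (e + 1) * (B + 1) ≤ M
  apx : ∀ R : ℝ, ∃ C : ℝ, 0 ≤ C ∧ ∀ u Y : ℝ, 0 < u → u ≤ 1 → |Y| ≤ R →
    ‖((Hf u Y : ℝ) : ℂ) - ∏ l, ((Y : ℂ) - (p l).eval (u : ℂ))‖ ≤ C * u ^ M

/-- real part of a polynomial -/
noncomputable def reP (p : C1) : R1 := ∑ i ∈ Finset.range (p.natDegree + 1), monomial i (p.coeff i).re

theorem coeff_reP (p : C1) (i : ℕ) : (reP p).coeff i = (p.coeff i).re := by
  rw [reP, finsetSum_coeff]
  simp only [coeff_monomial]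
  rw [Finset.sum_ite_eq' (Finset.range (p.natDegree + 1)) i]
  split_ifs with h
  · rfl
  · rw [Finset.mem_range, not_lt] at h
    rw [coeff_eq_zero_of_natDegree_lt (by omega), Complex.zero_re]

theorem eval_reP (p : C1) (u : ℝ) : (reP p).eval u = (p.eval (u : ℂ)).re := by
  rw [reP, eval_finsetSum, p.eval_eq_sum_range, Complex.re_sum]
  refine Finset.sum_congr rfl fun i _ => ?_
  rw [eval_monomial, ← Complex.ofReal_pow, Complex.re_mul_ofReal]

/-- `Hf < 0` on an open subinterval of the ball with centre `c` and radius `u ^ r` -/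
def GoodN (Hf : ℝ → ℝ → ℝ) (c : R1) (r : ℕ) : Prop :=
  ∃ σ₁ σ₂ : ℝ, σ₁ < σ₂ ∧ ∀ σ, σ₁ < σ → σ < σ₂ →
    ∀ᶠ u in 𝓝[>] (0 : ℝ), Hf u (c.eval u + σ * u ^ r) < 0

open Classical in
/-- order of `c + σ u ^ r - p` for general `σ` -/
noncomputable def ordk (c : R1) (r : ℕ) (p : C1) : ℕ :=
  if h : ∃ k, k < r ∧ (c.map Complex.ofRealHom - p).coeff k ≠ 0 then Nat.find h else r

open Classical in
/-- leading coefficient of `c + σ u ^ r - p`, as a function of `σ` -/
noncomputable def lam (c : R1) (r : ℕ) (p : C1) (σ : ℂ) : ℂ :=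
  if h : ∃ k, k < r ∧ (c.map Complex.ofRealHom - p).coeff k ≠ 0 then
    (c.map Complex.ofRealHom - p).coeff (Nat.find h)
  else σ + (c.map Complex.ofRealHom - p).coeff r

end Pool.Agent.Helper10.TC
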