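import Pool.Agent.Helper10.TC.Rel

set_option autoImplicit false

/-!
# Project TC (MP_63c74b), block BALLD: order and leading form of `H` on a real ball

`Q = onR N b H ≠ 0`: its coefficient of `σ^d`, `d = natDegree H`, is `X^(r d)` (`H` monic). Let `w` be the
largest exponent with `C (X^w) ∣ Q` (bounded by `r d`), `Q = C (X^w) R`; then `C X ∤ R`, so some
coefficient of `R` does not vanish at `u = 0`, i.e. `R.map (evalRingHom 0) ≠ 0`. `Q.eval 0 = 0` (value at
`σ = 0`) gives `X^w * R.eval 0 = 0`, `R.eval 0 = 0`, so the value of `R.map (evalRingHom 0)` at `0` is 0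
(`Polynomial.eval_map`, `hom_eval₂`).
-/

open Polynomial

namespace Pool.Agent.Helper10.TC

theorem ball_data (N : ℕ) (b : Ball) (H : R2) (hH : H.Monic)
    (hdiv : C (X ^ (N * H.natDegree)) ∣ onR N b H) (h0 : (onR N b H).eval 0 = 0) :
    ∃ (w : ℕ) (R : R2), N * H.natDegree ≤ w ∧ onR N b H = C (X ^ w) * R ∧
      R.map (evalRingHom 0) ≠ 0 ∧ (R.map (evalRingHom 0)).eval 0 = 0 := by
  classical
  set Q := onR N b H with hQ
  have hcoef : Q.coeff H.natDegree = X ^ (b.r * H.natDegree) := by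
    have h1 : Q = (H.map (compRingHom (C (sgn b.pos) * X ^ N))).comp
        (C (X ^ b.r) * X + C b.q) := by
      rw [hQ]
      unfold onR
      rw [RingHom.comp_apply, coe_mapRingHom, coe_compRingHom, add_comm]
    have hX : (X ^ b.r : R1) ≠ 0 := pow_ne_zero _ X_ne_zero
    have h2 : (C (X ^ b.r : R1) * X + C b.q).natDegree = 1 := natDegree_linear hX
    have h3 : (C (X ^ b.r : R1) * X + C b.q).leadingCoeff = X ^ b.r := leadingCoeff_linear hX
    have h4 : (H.map (compRingHom (C (sgn b.pos) * X ^ N))).natDegree = H.natDegree :=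
      hH.natDegree_map _
    have h5 : (H.map (compRingHom (C (sgn b.pos) * X ^ N))).leadingCoeff = 1 := hH.map _
    have h6 := coeff_comp_degree_mul_degree
      (p := H.map (compRingHom (C (sgn b.pos) * X ^ N)))
      (q := C (X ^ b.r : R1) * X + C b.q) (by rw [h2]; exact one_ne_zero)
    rw [← h1, h2, h3, h4, h5, mul_one, one_mul, ← pow_mul] at h6
    exact h6
  have hex : ∃ k : ℕ, ¬ (C (X ^ k : R1) ∣ Q) := by
    refine ⟨b.r * H.natDegree + 1, fun h => ?_⟩
    rw [C_dvd_iff_dvd_coeff] at h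
    have h1 := h H.natDegree
    rw [hcoef, pow_dvd_pow_iff X_ne_zero not_isUnit_X] at h1
    omega
  obtain ⟨k, hk, hmin⟩ : ∃ k : ℕ, ¬ (C (X ^ k : R1) ∣ Q) ∧ ∀ m < k, C (X ^ m : R1) ∣ Q :=
    ⟨Nat.find hex, Nat.find_spec hex, fun m hm => not_not.1 (Nat.find_min hex hm)⟩
  have hk1 : N * H.natDegree < k := by
    by_contra hcon
    rw [not_lt] at hcon
    apply hk
    exact (_root_.map_dvd C (pow_dvd_pow X hcon)).trans hdiv
  obtain ⟨R, hR⟩ := hmin (k - 1) (by omega)
  refine ⟨k - 1, R, by omega, hR, ?_, ?_⟩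
  · intro h1
    apply hk
    have h2 : C (X : R1) ∣ R := by
      rw [C_dvd_iff_dvd_coeff]
      intro i
      rw [X_dvd_iff, coeff_zero_eq_eval_zero]
      have h3 := congrArg (fun f : R1 => f.coeff i) h1
      simp only [coeff_map, coeff_zero, coe_evalRingHom] at h3
      exact h3
    obtain ⟨R', hR'⟩ := h2
    refine ⟨R', ?_⟩
    have h4 : (X ^ k : R1) = X ^ (k - 1) * X := by
      rw [← pow_succ]
      congr 1
      omega
    rw [hR, hR', h4, C_mul]
    ring
  · rw [eval_zero_map]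
    have h1 : (X ^ (k - 1) : R1) * R.eval 0 = 0 := by
      rw [hR, eval_mul, eval_C] at h0
      exact h0
    have h2 : R.eval 0 = 0 := (mul_eq_zero.1 h1).resolve_left (pow_ne_zero _ X_ne_zero)
    rw [h2, map_zero]

end Pool.Agent.Helper10.TC
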