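import Pool.Agent.Helper10.TC.Hat
import Pool.Agent.Helper10.TC.Apr

set_option autoImplicit false

/-!
# Project TC (MP_63c74b), block BDD: `S / (1 + x²)^j` is bounded on `g > 0`

`hcov` gives `C` and `u₀ ∈ (0, 1]` such that the covering property holds for `0 < u < u₀`. Let
`R₀ = max 1 (1 / u₀^N)` (strictly larger, e.g. `+ 1`).
`z` with `g z > 0`, `|x| > R₀` (`x = z 0`, `y = z 1`): let `u = |x|^(-1/N)` (`Real.rpow`), so `0 < u < u₀`,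
`u^N = 1/|x|`, `pos = (0 < x)`, `x = sgn pos / u^N`, `Y = y / x`. `ev_hat`:
`ev (sgn pos * u^N) Y (hat D g) = s^D g(z) > 0`, `s = 1/x`, `D` even (`![s⁻¹, Y * s⁻¹] = z`). So
`|Y - q_j(u)| ≤ C u^r` for some `j` with the right side; `σ = (Y - q_j(u)) / u^r`, `|σ| ≤ C`, and
`hb j C` bounds `Psi N δ H x y` (`y = x Y`); `hS C₀` and `hC₀` bound the difference to
`ev x y S / (1+x²)^j` by `K / |x| ≤ K`. For `|x| ≤ R₀`: `|y| ≤ C₀ (1 + R₀)`, `ev x y S` is bounded on a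
compact set (`ev` is continuous in `(x, y)`), `(1+x²)^j ≥ 1`.
-/

open Pool.Agent.Helper68.QM

namespace Pool.Agent.Helper10.TC

private theorem bdd_cont (S : R2) : Continuous fun p : ℝ × ℝ => ev p.1 p.2 S := by
  induction S using Polynomial.induction_on' with
  | add p q hp hq =>
    simp only [map_add]
    exact hp.add hq
  | monomial n a =>
    have h : (fun p : ℝ × ℝ => ev p.1 p.2 (Polynomial.monomial n a)) =
        fun p => a.eval p.1 * p.2 ^ n := by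
      funext p
      rw [← Polynomial.C_mul_X_pow_eq_monomial, map_mul, map_pow, ev_C, ev_X]
    rw [h]
    exact (a.continuous.comp continuous_fst).mul (continuous_snd.pow n)

private theorem bdd_sgn (x : ℝ) (hx : x ≠ 0) :
    sgn (decide (0 < x)) / |x|⁻¹ = x ∧ sgn (decide (0 < x)) * |x|⁻¹ = x⁻¹ := by
  rcases lt_or_gt_of_ne hx with h | h
  · have h1 : decide (0 < x) = false := decide_eq_false (not_lt.2 h.le)
    rw [h1, sgn, abs_of_neg h]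
    have h2 : x ≠ 0 := hx
    constructor
    · simp
    · simp [inv_neg]
  · have h1 : decide (0 < x) = true := decide_eq_true h
    rw [h1, sgn, abs_of_pos h]
    constructor
    · simp
    · simp

theorem bounded_on (g : A) (D : ℕ) (hD : g.totalDegree ≤ D) (hDe : Even D) (C₀ : ℝ)
    (hC₀ : ∀ z, 0 < MvPolynomial.eval z g → |z 1| ≤ C₀ * (1 + |z 0|)) (N : ℕ) (hN : N ≠ 0) {J : ℕ}
    (B : Fin J → Ball) (hcov : Covers N (hat D g) B) (H : R2) (δ : ℕ)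
    (hb : ∀ j, ∀ C₁ : ℝ, ∃ K : ℝ, ∀ u σ : ℝ, 0 < u → u ≤ 1 → |σ| ≤ C₁ →
      |Psi N δ H (sgn (B j).pos / u ^ N)
        (sgn (B j).pos / u ^ N * ((B j).q.eval u + σ * u ^ (B j).r))| ≤ K)
    (S : R2) (j : ℕ)
    (hS : ∀ C₀ : ℝ, ∃ K : ℝ, ∀ x y : ℝ, 1 ≤ |x| → |y| ≤ C₀ * (1 + |x|) →
        |ev x y S / (1 + x ^ 2) ^ j - Psi N δ H x y| ≤ K / |x|) :
    ∃ c : ℝ, ∀ z, 0 < MvPolynomial.eval z g → ev (z 0) (z 1) S ^ 2 ≤ c * ((1 + z 0 ^ 2) ^ j) ^ 2 := by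
  obtain ⟨C, hC⟩ := hcov
  obtain ⟨u₀, hu₀, hC'⟩ := mem_nhdsGT_iff_exists_Ioo_subset.1 hC
  have hu₀' : (0 : ℝ) < u₀ := hu₀
  choose K hK using fun i => hb i C
  obtain ⟨K₂, hK₂⟩ := hS C₀
  obtain ⟨R₀, hR1, hR2⟩ : ∃ R₀ : ℝ, 1 ≤ R₀ ∧ 1 / (min u₀ 1) ^ N ≤ R₀ :=
    ⟨max 1 (1 / (min u₀ 1) ^ N), le_max_left _ _, le_max_right _ _⟩
  have hmin : 0 < min u₀ 1 := lt_min hu₀' one_pos
  obtain ⟨K₃, hK₃⟩ : ∃ K₃ : ℝ, ∀ x y : ℝ, |x| ≤ R₀ → |y| ≤ |C₀| * (1 + R₀) → |ev x y S| ≤ K₃ := by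
    obtain ⟨K₃, h⟩ := ((isCompact_Icc (a := -R₀) (b := R₀)).prod
      (isCompact_Icc (a := -(|C₀| * (1 + R₀))) (b := |C₀| * (1 + R₀)))).exists_bound_of_continuousOn
      (bdd_cont S).continuousOn
    refine ⟨K₃, fun x y hx hy => ?_⟩
    have h1 := h (x, y) ⟨abs_le.1 hx, abs_le.1 hy⟩
    rwa [Real.norm_eq_abs] at h1
  refine ⟨((∑ i, |K i|) + |K₂|) ^ 2 + K₃ ^ 2, fun z hz => ?_⟩
  have hyz := hC₀ z hz
  have hz' : ![z 0, z 1] = z := by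
    funext i
    fin_cases i <;> rfl
  generalize z 0 = x at hyz hz' ⊢
  generalize z 1 = y at hyz hz' ⊢
  have hxp : 1 ≤ (1 + x ^ 2) ^ j := one_le_pow₀ (by nlinarith [sq_nonneg x])
  have hxp2 : 0 ≤ ((1 + x ^ 2) ^ j) ^ 2 := sq_nonneg _
  rcases le_or_gt |x| R₀ with hx | hx
  · have h1 : |y| ≤ |C₀| * (1 + R₀) := by
      refine hyz.trans ?_
      have h2 : C₀ * (1 + |x|) ≤ |C₀| * (1 + |x|) :=
        mul_le_mul_of_nonneg_right (le_abs_self _) (by positivity)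
      exact h2.trans (mul_le_mul_of_nonneg_left (by linarith) (abs_nonneg _))
    have h2 := hK₃ x y hx h1
    have h3 : ev x y S ^ 2 ≤ K₃ ^ 2 := sq_le_sq' (by linarith [(abs_le.1 h2).1]) (abs_le.1 h2).2
    have h4 : 1 ≤ ((1 + x ^ 2) ^ j) ^ 2 := one_le_pow₀ hxp
    have h5 : K₃ ^ 2 ≤ K₃ ^ 2 * ((1 + x ^ 2) ^ j) ^ 2 := le_mul_of_one_le_right (sq_nonneg _) h4
    have h6 : 0 ≤ ((∑ i, |K i|) + |K₂|) ^ 2 * ((1 + x ^ 2) ^ j) ^ 2 :=
      mul_nonneg (sq_nonneg _) hxp2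
    rw [add_mul]
    linarith
  · have hx1 : 1 ≤ |x| := hR1.trans hx.le
    have hx0 : 0 < |x| := by linarith
    have hxne : x ≠ 0 := abs_pos.1 hx0
    obtain ⟨u, hu0, huN⟩ : ∃ u : ℝ, 0 < u ∧ u ^ N = |x|⁻¹ :=
      ⟨(|x|⁻¹) ^ ((N : ℝ)⁻¹), Real.rpow_pos_of_pos (inv_pos.2 hx0) _,
        Real.rpow_inv_natCast_pow (inv_pos.2 hx0).le hN⟩
    have hum : u < min u₀ 1 := by
      by_contra hcon
      rw [not_lt] at hcon
      have h1 : (min u₀ 1) ^ N ≤ |x|⁻¹ := huN ▸ pow_le_pow_left₀ hmin.le hcon N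
      have h2 : |x| ≤ 1 / (min u₀ 1) ^ N := by
        rw [le_div_iff₀ (pow_pos hmin N)]
        calc |x| * (min u₀ 1) ^ N ≤ |x| * |x|⁻¹ := mul_le_mul_of_nonneg_left h1 hx0.le
          _ = 1 := mul_inv_cancel₀ hx0.ne'
      linarith
    have hu1 : u ≤ 1 := (hum.trans_le (min_le_right _ _)).le
    obtain ⟨hs1, hs2⟩ := bdd_sgn x hxne
    have hpos : 0 < ev (sgn (decide (0 < x)) * u ^ N) (y * x⁻¹) (hat D g) := by
      rw [huN, hs2, ev_hat D g hD _ _ (inv_ne_zero hxne), inv_inv, inv_mul_cancel_right₀ hxne, hz']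
      exact mul_pos (hDe.pow_pos (inv_ne_zero hxne)) hz
    obtain ⟨i, hi1, hi2⟩ := hC' ⟨hu0, hum.trans_le (min_le_left _ _)⟩ (decide (0 < x)) (y * x⁻¹) hpos
    have hur : 0 < u ^ (B i).r := pow_pos hu0 _
    have h3 := hK i u ((y * x⁻¹ - (B i).q.eval u) / u ^ (B i).r) hu0 hu1 (by
      rw [abs_div, abs_of_pos hur, div_le_iff₀ hur]
      exact hi2)
    rw [div_mul_cancel₀ _ hur.ne', add_sub_cancel, hi1, huN, hs1, mul_comm y,
      mul_inv_cancel_left₀ hxne] at h3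
    have h4 := hK₂ x y hx1 hyz
    have h5 : K₂ / |x| ≤ |K₂| := by
      rw [div_le_iff₀ hx0]
      calc K₂ ≤ |K₂| := le_abs_self _
        _ ≤ |K₂| * |x| := le_mul_of_one_le_right (abs_nonneg _) hx1
    have h6 : K i ≤ ∑ i, |K i| :=
      (le_abs_self _).trans (Finset.single_le_sum (f := fun i => |K i|) (fun _ _ => abs_nonneg _)
        (Finset.mem_univ i))
    have h7 : |ev x y S / (1 + x ^ 2) ^ j| ≤ (∑ i, |K i|) + |K₂| := by
      have h8 : ev x y S / (1 + x ^ 2) ^ j =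
        (ev x y S / (1 + x ^ 2) ^ j - Psi N δ H x y) + Psi N δ H x y := by ring
      rw [h8]
      refine (abs_add_le _ _).trans ?_
      linarith
    have hxp0 : 0 < (1 + x ^ 2) ^ j := by linarith
    have h9 : (ev x y S / (1 + x ^ 2) ^ j) ^ 2 ≤ ((∑ i, |K i|) + |K₂|) ^ 2 :=
      sq_le_sq' (by linarith [(abs_le.1 h7).1]) (abs_le.1 h7).2
    rw [div_pow, div_le_iff₀ (pow_pos hxp0 2)] at h9
    have h10 : 0 ≤ K₃ ^ 2 * ((1 + x ^ 2) ^ j) ^ 2 := mul_nonneg (sq_nonneg _) hxp2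
    rw [add_mul]
    linarith

end Pool.Agent.Helper10.TC
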