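import Pool.Agent.Helper10.TC.Rel

set_option autoImplicit false

/-!
# Project TC (MP_63c74b), block DESC: descent

Coefficientwise: let `p ∈ ℂ[w]` be fixed by all `act N γ`. From `γ = (1, false)` (if `N ≥ 2`; for
`N = 1` nothing is needed) `ζ^i p_i = p_i`, and `ζ = zt N` is a primitive `N`-th root of unity
(`Complex.isPrimitiveRoot_exp`), so `p_i = 0` unless `N ∣ i`. From `γ = (0, true)`: `p_i` is real. So
`p = io N p₀` with `p₀ = ∑ Re(p_{N i}) s^i`.
-/

open Polynomial

namespace Pool.Agent.Helper10.TC

private theorem coeff_sum94 {A : Type*} [Semiring A] (f : ℕ → A) (n j : ℕ) :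
    (∑ i ∈ Finset.range n, monomial i (f i)).coeff j = if j < n then f j else 0 := by
  rw [finsetSum_coeff]
  simp only [coeff_monomial]
  rw [Finset.sum_ite_eq']
  simp only [Finset.mem_range]

theorem desc1 (N : ℕ) (hN : N ≠ 0) (p : C1) (h : ∀ γ : Fin N × Bool, act N γ p = p) :
    ∃ p₀ : R1, p = io N p₀ := by
  have hN0 : 0 < N := Nat.pos_of_ne_zero hN
  -- real coefficients
  have hreal : ∀ i, ((p.coeff i).re : ℂ) = p.coeff i := by
    intro i
    have h1 := congrArg (fun q : C1 => q.coeff i) (h (⟨0, hN0⟩, true))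
    simp only [act, if_true, RingHom.comp_apply, coe_mapRingHom, coe_compRingHom_apply,
      comp_C_mul_X_coeff, coeff_map, pow_zero, one_pow, mul_one] at h1
    exact Complex.conj_eq_iff_re.1 h1
  -- coefficients of index not divisible by `N`
  have hdvd : ∀ i, ¬ N ∣ i → p.coeff i = 0 := by
    intro i hi
    have hN2 : 1 < N := by
      rcases Nat.lt_or_ge 1 N with h1 | h1
      · exact h1
      · exfalso
        have : N = 1 := by omega
        rw [this] at hi
        exact hi (one_dvd i)
    have h1 := congrArg (fun q : C1 => q.coeff i) (h (⟨1, hN2⟩, false))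
    simp only [act, Bool.false_eq_true, if_false, RingHom.comp_apply, RingHom.id_apply,
      coe_compRingHom_apply, comp_C_mul_X_coeff, pow_one] at h1
    by_contra hp
    have h2 : zt N ^ i = 1 := by
      have h3 : p.coeff i * (zt N ^ i - 1) = 0 := by linear_combination h1
      exact sub_eq_zero.1 ((mul_eq_zero.1 h3).resolve_left hp)
    have h3 : IsPrimitiveRoot (zt N) N := Complex.isPrimitiveRoot_exp N hN
    exact hi ((h3.pow_eq_one_iff_dvd i).1 h2)
  refine ⟨∑ i ∈ Finset.range (p.natDegree + 1), monomial i (p.coeff (N * i)).re, ?_⟩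
  ext n
  have hio : (io N (∑ i ∈ Finset.range (p.natDegree + 1), monomial i (p.coeff (N * i)).re)).coeff n =
      if N ∣ n then (((∑ i ∈ Finset.range (p.natDegree + 1), monomial i (p.coeff (N * i)).re : R1).coeff (n / N) : ℝ) : ℂ)
      else 0 := by
    have e : io N (∑ i ∈ Finset.range (p.natDegree + 1), monomial i (p.coeff (N * i)).re) =
        expand ℂ N ((∑ i ∈ Finset.range (p.natDegree + 1), monomial i (p.coeff (N * i)).re : R1).map
          Complex.ofRealHom) := rfl
    rw [e, coeff_expand hN0]
    split_ifs with hd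
    · rw [coeff_map]
      rfl
    · rfl
  rw [hio, coeff_sum94]
  split_ifs with h1 h2
  · rw [Nat.mul_div_cancel' h1, hreal]
  · have h3 : p.natDegree < n := by
      have h4 : n / N ≤ n := Nat.div_le_self n N
      omega
    rw [coeff_eq_zero_of_natDegree_lt h3]
    rfl
  · exact hdvd n h1

theorem desc2 (N : ℕ) (hN : N ≠ 0) (F : C2) (h : ∀ γ : Fin N × Bool, F.map (act N γ) = F) :
    ∃ F₀ : R2, F = F₀.map (io N) := by
  have h1 : ∀ j, ∃ p₀ : R1, F.coeff j = io N p₀ := by
    intro j
    refine desc1 N hN (F.coeff j) fun γ => ?_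
    have h2 := congrArg (fun G : C2 => G.coeff j) (h γ)
    simp only [coeff_map] at h2
    exact h2
  choose q hq using h1
  refine ⟨∑ j ∈ Finset.range (F.natDegree + 1), monomial j (q j), ?_⟩
  refine Polynomial.ext fun j => ?_
  rw [coeff_map, coeff_sum94]
  split_ifs with h2
  · exact hq j
  · rw [map_zero, coeff_eq_zero_of_natDegree_lt (by omega)]

end Pool.Agent.Helper10.TC
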