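import Pool.Agent.Helper10.TC.Sumk
import Pool.Agent.Helper10.TC.DescP

set_option autoImplicit false

/-!
# Project TC (MP_63c74b), block BIG: the polynomial `H`

Write `p_j = (B j).cen N`, `r_j = (B j).r`, `Γ = Fin N × Bool` (`2 N` elements).
`G := ∏_i (nrm N (X - C p_i)) ^ ν_i ∈ ℂ[w][Y]`, monic of degree `d_G = 2 N ∑ ν_i > 0`, invariant under
all `act N γ` on coefficients (`nrm_act`); `desc2`: `G = G₀.map (io N)`.
`onC N p_j r_j G₀ = G.comp (C p_j + C (X^r_j) * X) = ∏_i ∏_γ (C (p_j - act γ p_i) + C (X^r_j) X) ^ ν_i`; the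
factor is divisible by `C (X ^ kap (act γ p_i) p_j r_j)` (`Nat.findGreatest_spec`; `kap ≤ r_j`), so the
product is divisible by `C (X ^ ∑_i ν_i Ah N (B i) (B j))`, hence (`h`, `N d_G = 2 N N ∑ ν`) by
`C (X ^ (N d_G))`. Put `σ = 0`: `X ^ (N d_G) ∣ G.eval p_j`.
`H' := ∏_j nrm N (G - C (G.eval p_j))`, monic of degree `d_H = 2 N J d_G > 0` (`J > 0` since `ν ≠ 0`),
invariant, `desc2`: `H' = H.map (io N)`; `H` is monic of the same degree (`io N` injective).
`onC N p_i r_i H = H'.comp (C p_i + C (X^r_i) X) = ∏_j ∏_γ (G.comp (...) - C (act γ (G.eval p_j)))`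
(`G.map (act γ) = G`), every factor is divisible by `C (X ^ (N d_G))` (`act γ` preserves
divisibility by powers of `X`), so the product by `C (X ^ (N d_G * 2 N J)) = C (X ^ (N d_H))`. At
`σ = 0` the factor with `j = i`, `γ = (0, false)` (`act = id`) vanishes.
-/

open Polynomial

namespace Pool.Agent.Helper10.TC

private theorem io_injective (N : ℕ) (hN : N ≠ 0) : Function.Injective (io N) := by
  intro a b hab
  have h1 : expand ℂ N (a.map Complex.ofRealHom) = expand ℂ N (b.map Complex.ofRealHom) := hab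
  exact map_injective _ Complex.ofRealHom.injective
    (expand_injective (Nat.pos_of_ne_zero hN) h1)

private theorem act_X (N : ℕ) (γ : Fin N × Bool) : act N γ X = C (zt N ^ (γ.1 : ℕ)) * X := by
  unfold act
  rcases γ with ⟨i, b⟩
  cases b <;> simp

private theorem act_one (N : ℕ) (hN : N ≠ 0) (p : C1) :
    act N (⟨0, Nat.pos_of_ne_zero hN⟩, false) p = p := by
  unfold act
  simp

private theorem dvd_act (N : ℕ) (γ : Fin N × Bool) (m : ℕ) (p : C1) (h : X ^ m ∣ p) :
    X ^ m ∣ act N γ p := by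
  have h1 := _root_.map_dvd (act N γ) h
  rw [map_pow, act_X, mul_pow] at h1
  exact (Dvd.intro_left _ rfl).trans h1

private theorem kap_spec (p q : C1) (r : ℕ) : X ^ kap p q r ∣ p - q := by
  classical
  unfold kap
  exact Nat.findGreatest_spec (P := fun k => X ^ k ∣ p - q) (Nat.zero_le r) (by simp)

private theorem kap_le (p q : C1) (r : ℕ) : kap p q r ≤ r := by
  classical
  unfold kap
  exact Nat.findGreatest_le r

private theorem fac_dvd (p q : C1) (r : ℕ) :
    (C (X ^ kap p q r) : C2) ∣ C q + C (X ^ r) * X - C p := by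
  have h1 : X ^ kap p q r ∣ q - p := by
    have h2 := kap_spec p q r
    rw [← dvd_neg, neg_sub] at h2
    exact h2
  have h3 : (C (X ^ kap p q r) : C2) ∣ C (q - p) := _root_.map_dvd (C : C1 →+* C2) h1
  have h4 : (C (X ^ kap p q r) : C2) ∣ C (X ^ r) * X :=
    Dvd.dvd.mul_right (_root_.map_dvd (C : C1 →+* C2) (pow_dvd_pow _ (kap_le p q r))) _
  have h5 : (C q + C (X ^ r) * X - C p : C2) = C (q - p) + C (X ^ r) * X := by
    rw [C_sub]
    ring
  rw [h5]
  exact dvd_add h3 h4

private theorem onC_apply (N : ℕ) (p : C1) (r : ℕ) (H : R2) :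
    onC N p r H = (H.map (io N)).comp (C p + C (X ^ r) * X) := by
  unfold onC
  rw [RingHom.comp_apply, coe_mapRingHom, coe_compRingHom_apply]

theorem exists_H (N : ℕ) (hN : N ≠ 0) {J : ℕ} (B : Fin J → Ball) (ν : Fin J → ℕ) (hν : ν ≠ 0)
    (h : ∀ j, 2 * N * N * ∑ i, ν i ≤ ∑ i, ν i * Ah N (B i) (B j)) :
    ∃ H : R2, H.Monic ∧ 0 < H.natDegree ∧ ∀ j,
      C (X ^ (N * H.natDegree)) ∣ onC N ((B j).cen N) (B j).r H ∧
      (onC N ((B j).cen N) (B j).r H).eval 0 = 0 := by
  classical
  have hcardΓ : Fintype.card (Fin N × Bool) = 2 * N := by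
    rw [Fintype.card_prod, Fintype.card_fin, Fintype.card_bool, mul_comm]
  -- the polynomial `G`
  obtain ⟨G, hG⟩ : ∃ G : C2, G = ∏ i, (nrm N (X - C ((B i).cen N))) ^ ν i := ⟨_, rfl⟩
  have hfac : ∀ q : C1, nrm N (X - C q) = ∏ γ : Fin N × Bool, (X - C (act N γ q)) := by
    intro q
    unfold nrm
    refine Finset.prod_congr rfl fun γ _ => ?_
    rw [Polynomial.map_sub, map_X, map_C]
  have hGmonic : G.Monic := by
    rw [hG]
    refine monic_prod_of_monic _ _ fun i _ => Monic.pow ?_ _
    rw [hfac]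
    exact monic_prod_of_monic _ _ fun γ _ => monic_X_sub_C _
  have hGdeg : G.natDegree = 2 * N * ∑ i, ν i := by
    rw [hG, natDegree_prod_of_monic]
    · rw [Finset.mul_sum]
      refine Finset.sum_congr rfl fun i _ => ?_
      have hm : (nrm N (X - C ((B i).cen N))).Monic := by
        rw [hfac]
        exact monic_prod_of_monic _ _ fun γ _ => monic_X_sub_C _
      rw [hm.natDegree_pow, hfac, natDegree_prod_of_monic _ _ fun γ _ => monic_X_sub_C _]
      simp only [natDegree_X_sub_C, Finset.sum_const, Finset.card_univ, hcardΓ, smul_eq_mul,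
        mul_one]
      ring
    · intro i _
      refine Monic.pow ?_ _
      rw [hfac]
      exact monic_prod_of_monic _ _ fun γ _ => monic_X_sub_C _
  have hνpos : 0 < ∑ i, ν i := by
    obtain ⟨i, hi⟩ := Function.ne_iff.mp hν
    exact lt_of_lt_of_le (Nat.pos_of_ne_zero hi)
      (Finset.single_le_sum (f := ν) (fun _ _ => Nat.zero_le _) (Finset.mem_univ i))
  have hNpos : 0 < N := Nat.pos_of_ne_zero hN
  have hGpos : 0 < G.natDegree := by
    rw [hGdeg]
    positivity
  have hGinv : ∀ γ : Fin N × Bool, G.map (act N γ) = G := by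
    intro γ
    conv_lhs => rw [hG]
    conv_rhs => rw [hG]
    rw [Polynomial.map_prod]
    refine Finset.prod_congr rfl fun i _ => ?_
    rw [Polynomial.map_pow, nrm_act N hN]
  -- divisibility of `G` on the balls
  have hA : ∀ j, C (X ^ (N * G.natDegree)) ∣ G.comp (C ((B j).cen N) + C (X ^ (B j).r) * X) := by
    intro j
    have h1 : G.comp (C ((B j).cen N) + C (X ^ (B j).r) * X) =
        ∏ i, (∏ γ : Fin N × Bool, (C ((B j).cen N) + C (X ^ (B j).r) * X
          - C (act N γ ((B i).cen N)))) ^ ν i := by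
      rw [hG, prod_comp]
      refine Finset.prod_congr rfl fun i _ => ?_
      rw [pow_comp, hfac, prod_comp]
      congr 1
      refine Finset.prod_congr rfl fun γ _ => ?_
      rw [sub_comp, X_comp, C_comp]
    have h2 : ∀ i, (C (X ^ (ν i * Ah N (B i) (B j))) : C2) ∣
        (∏ γ : Fin N × Bool, (C ((B j).cen N) + C (X ^ (B j).r) * X
          - C (act N γ ((B i).cen N)))) ^ ν i := by
      intro i
      rw [mul_comm, pow_mul, C_pow (a := X ^ Ah N (B i) (B j))]
      refine pow_dvd_pow_of_dvd ?_ _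
      unfold Ah
      rw [← Finset.prod_pow_eq_pow_sum, map_prod]
      refine Finset.prod_dvd_prod_of_dvd _ _ fun γ _ => ?_
      exact fac_dvd _ _ _
    rw [h1]
    have h6 : (C (X ^ (∑ i, ν i * Ah N (B i) (B j))) : C2) ∣
        ∏ i, (∏ γ : Fin N × Bool, (C ((B j).cen N) + C (X ^ (B j).r) * X
          - C (act N γ ((B i).cen N)))) ^ ν i := by
      rw [← Finset.prod_pow_eq_pow_sum, map_prod]
      exact Finset.prod_dvd_prod_of_dvd _ _ fun i _ => h2 i
    refine (_root_.map_dvd (C : C1 →+* C2) (pow_dvd_pow X ?_)).trans h6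
    refine le_trans (le_of_eq ?_) (h j)
    rw [hGdeg]
    ring
  have hB : ∀ j, (X ^ (N * G.natDegree) : C1) ∣ G.eval ((B j).cen N) := by
    intro j
    have h1 := _root_.map_dvd (evalRingHom (0 : C1)) (hA j)
    rw [coe_evalRingHom, eval_C, eval_comp] at h1
    simpa using h1
  -- the polynomial `H'`
  obtain ⟨H', hH'⟩ : ∃ H' : C2, H' = ∏ j, nrm N (G - C (G.eval ((B j).cen N))) := ⟨_, rfl⟩
  have hGc : ∀ c : C1, (G - C c).Monic := fun c =>
    hGmonic.sub_of_left (lt_of_le_of_lt degree_C_le (natDegree_pos_iff_degree_pos.mp hGpos))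
  have hnm : ∀ c : C1, (nrm N (G - C c)).Monic := fun c => by
    unfold nrm
    exact monic_prod_of_monic _ _ fun γ _ => (hGc c).map _
  have hnd : ∀ c : C1, (nrm N (G - C c)).natDegree = 2 * N * G.natDegree := fun c => by
    unfold nrm
    rw [natDegree_prod_of_monic _ _ fun γ _ => (hGc c).map _]
    simp only [(hGc c).natDegree_map, natDegree_sub_C, Finset.sum_const, Finset.card_univ, hcardΓ,
      smul_eq_mul]
  have hH'monic : H'.Monic := by
    rw [hH']
    exact monic_prod_of_monic _ _ fun j _ => hnm _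
  have hH'deg : H'.natDegree = J * (2 * N * G.natDegree) := by
    rw [hH', natDegree_prod_of_monic _ _ fun j _ => hnm _]
    simp only [hnd, Finset.sum_const, Finset.card_univ, Fintype.card_fin, smul_eq_mul]
  have hH'inv : ∀ γ : Fin N × Bool, H'.map (act N γ) = H' := by
    intro γ
    conv_lhs => rw [hH']
    conv_rhs => rw [hH']
    rw [Polynomial.map_prod]
    refine Finset.prod_congr rfl fun i _ => ?_
    rw [nrm_act N hN]
  obtain ⟨H, hH⟩ := desc2 N hN H' hH'inv
  have hHdeg : H.natDegree = H'.natDegree := by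
    rw [hH, natDegree_map_eq_of_injective (io_injective N hN)]
  have hHmonic : H.Monic := monic_of_injective (io_injective N hN) (hH ▸ hH'monic)
  have hJpos : 0 < J := by
    obtain ⟨i, _⟩ := Function.ne_iff.mp hν
    exact i.pos
  refine ⟨H, hHmonic, ?_, ?_⟩
  · rw [hHdeg, hH'deg]
    positivity
  intro j
  have hcomp : onC N ((B j).cen N) (B j).r H = ∏ i, ∏ γ : Fin N × Bool,
      (G.comp (C ((B j).cen N) + C (X ^ (B j).r) * X) - C (act N γ (G.eval ((B i).cen N)))) := by
    rw [onC_apply, ← hH, hH', prod_comp]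
    refine Finset.prod_congr rfl fun i _ => ?_
    unfold nrm
    rw [prod_comp]
    refine Finset.prod_congr rfl fun γ _ => ?_
    rw [Polynomial.map_sub, hGinv, map_C, sub_comp, C_comp]
  constructor
  · rw [hcomp]
    have h1 : (C (X ^ (N * H.natDegree)) : C2) =
        ∏ _i : Fin J, ∏ _γ : Fin N × Bool, (C (X ^ (N * G.natDegree) : C1) : C2) := by
      simp only [Finset.prod_const, Finset.card_univ, hcardΓ, Fintype.card_fin]
      rw [← pow_mul, ← C_pow, ← pow_mul, hHdeg, hH'deg]
      congr 2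
      ring
    rw [h1]
    refine Finset.prod_dvd_prod_of_dvd _ _ fun i _ => Finset.prod_dvd_prod_of_dvd _ _ fun γ _ => ?_
    exact dvd_sub (hA j) (_root_.map_dvd (C : C1 →+* C2) (dvd_act N γ _ _ (hB i)))
  · rw [hcomp, eval_prod]
    refine Finset.prod_eq_zero (Finset.mem_univ j) ?_
    rw [eval_prod]
    refine Finset.prod_eq_zero (Finset.mem_univ (⟨0, hNpos⟩, false)) ?_
    rw [act_one N hN, eval_sub, eval_comp, eval_C]
    simp

end Pool.Agent.Helper10.TC
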