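import Pool.Agent.Helper10.TC.Ivt
import Pool.Agent.Helper10.TC.Ord

set_option autoImplicit false

/-!
# Project TC (MP_63c74b), block CLOA: a maximal real algebraic extension of an ordered field

`Ω := AlgebraicClosure F`. Call an intermediate field `E` of `Ω / F` good if there is no relation
`-1 = ∑ p_i e_i²` with `p_i ∈ F`, `p_i ≥ 0`, `e_i ∈ E`. `⊥` is good (`F` is ordered), the union of a
nonempty chain of good fields is good (`zorn_le_nonempty`, or `zorn_subset`; the supremum of a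
directed family of intermediate fields is its union; a relation has finitely many terms); let `E` be
maximal good, and `T = {∑ p_i e_i² | 0 ≤ p_i ∈ F, e_i ∈ E} ⊆ E`, closed under `+`, `*`, contains the
squares of `E` and the nonnegative elements of `F`, `-1 ∉ T`.
(1) If `a ∈ E` is not a square in `E` then `-a ∈ T`: let `θ ∈ Ω`, `θ² = a`; `E(θ)` is strictly
larger than `E`, so not good: `-1 = ∑ p_i (x_i + y_i θ)²` (`x_i, y_i ∈ E`; every element of `E(θ)`
has this form), and `1, θ` are independent over `E`, so `-1 = ∑ p_i x_i² + a ∑ p_i y_i² = s + a t`,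
`s, t ∈ T`, `t ≠ 0` (else `-1 ∈ T`), `-a = (1 + s) / t = (1 + s) t (1/t)² ∈ T`.
(2) `T ∩ -T = 0` (else `-1 ∈ T`), so by (1) every element of `T` is a square, and for every `a ∈ E`
`a` or `-a` is a square. So the squares are the positive cone of an order of `E` (see the header of
Ord.lean: `exists_order` applied to `T` gives an order with `T ≥ 0`, enough).
(3) Let `f ∈ E[X]` be irreducible of degree `≥ 2`, `θ ∈ Ω` a root, `E(θ) ≠ E`, so
`-1 = ∑ p_i e_i²` with `e_i ∈ E(θ)`, `e_i = h_i(θ)` with `h_i ∈ E[X]`, `deg h_i < deg f`, and `p_i`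
is a square `b_i²` in `E` (by (2)); so `f` (the minimal polynomial up to a unit) divides
`1 + ∑ (b_i h_i)²`.
-/

open Polynomial

namespace Pool.Agent.Helper10.TC

universe u

section CloA50


variable {F : Type u} [Field F] [LinearOrder F] [IsStrictOrderedRing F]
variable {Ω : Type u} [Field Ω] [Algebra F Ω]

/-- the cone generated by the weighted squares of `E` -/
private def T50 (E : IntermediateField F Ω) : AddSubmonoid Ω :=
  AddSubmonoid.closure {x | ∃ p : F, 0 ≤ p ∧ ∃ e ∈ E, x = algebraMap F Ω p * e ^ 2}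

private theorem T50_gen {E : IntermediateField F Ω} {p : F} (hp : 0 ≤ p) {e : Ω} (he : e ∈ E) :
    algebraMap F Ω p * e ^ 2 ∈ T50 E :=
  AddSubmonoid.subset_closure ⟨p, hp, e, he, rfl⟩

private theorem T50_sq {E : IntermediateField F Ω} {e : Ω} (he : e ∈ E) : e ^ 2 ∈ T50 E := by
  have h := T50_gen (E := E) (p := (1 : F)) zero_le_one he
  rwa [map_one, one_mul] at h

private theorem T50_pos {E : IntermediateField F Ω} {p : F} (hp : 0 ≤ p) :
    algebraMap F Ω p ∈ T50 E := by
  have h := T50_gen (E := E) hp E.one_mem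
  rwa [one_pow, mul_one] at h

private theorem T50_le {E : IntermediateField F Ω} {x : Ω} (hx : x ∈ T50 E) : x ∈ E := by
  unfold T50 at hx
  induction hx using AddSubmonoid.closure_induction with
  | mem x hx =>
    obtain ⟨p, -, e, he, rfl⟩ := hx
    exact E.mul_mem (E.algebraMap_mem p) (pow_mem he 2)
  | zero => exact E.zero_mem
  | add x y _ _ hx hy => exact E.add_mem hx hy

private theorem T50_mul {E : IntermediateField F Ω} {x y : Ω} (hx : x ∈ T50 E) (hy : y ∈ T50 E) :
    x * y ∈ T50 E := by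
  have hx' := hx
  unfold T50 at hx'
  induction hx' using AddSubmonoid.closure_induction with
  | mem x hx1 =>
    obtain ⟨p, hp, e, he, rfl⟩ := hx1
    have hy' := hy
    unfold T50 at hy'
    induction hy' using AddSubmonoid.closure_induction with
    | mem y hy1 =>
      obtain ⟨q, hq, d, hd, rfl⟩ := hy1
      have h := T50_gen (E := E) (mul_nonneg hp hq) (E.mul_mem he hd)
      rw [map_mul] at h
      have e1 : algebraMap F Ω p * e ^ 2 * (algebraMap F Ω q * d ^ 2) =
          algebraMap F Ω p * algebraMap F Ω q * (e * d) ^ 2 := by ring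
      rw [e1]
      exact h
    | zero => rw [mul_zero]; exact (T50 E).zero_mem
    | add y z hy1 hz1 h1 h2 =>
      rw [mul_add]
      exact (T50 E).add_mem (h1 hy1) (h2 hz1)
  | zero => rw [zero_mul]; exact (T50 E).zero_mem
  | add y z hy1 hz1 h1 h2 =>
    rw [add_mul]
    exact (T50 E).add_mem (h1 hy1) (h2 hz1)

private theorem T50_mono {E E' : IntermediateField F Ω} (h : E ≤ E') {x : Ω} (hx : x ∈ T50 E) :
    x ∈ T50 E' := by
  unfold T50 at hx ⊢
  refine AddSubmonoid.closure_mono ?_ hx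
  rintro _ ⟨p, hp, e, he, rfl⟩
  exact ⟨p, hp, e, h he, rfl⟩

private theorem bot_good50 : (-1 : Ω) ∉ T50 (⊥ : IntermediateField F Ω) := by
  intro h
  have key : ∀ x ∈ T50 (⊥ : IntermediateField F Ω), ∃ y : F, 0 ≤ y ∧ algebraMap F Ω y = x := by
    intro x hx
    unfold T50 at hx
    induction hx using AddSubmonoid.closure_induction with
    | mem x hx1 =>
      obtain ⟨p, hp, e, he, rfl⟩ := hx1
      obtain ⟨y, rfl⟩ := IntermediateField.mem_bot.1 he
      exact ⟨p * y ^ 2, mul_nonneg hp (sq_nonneg y), by rw [map_mul, map_pow]⟩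
    | zero => exact ⟨0, le_rfl, map_zero _⟩
    | add x y _ _ h1 h2 =>
      obtain ⟨a, ha, ha'⟩ := h1
      obtain ⟨b, hb, hb'⟩ := h2
      exact ⟨a + b, add_nonneg ha hb, by rw [map_add, ha', hb']⟩
  obtain ⟨y, hy, hy'⟩ := key _ h
  have h1 : algebraMap F Ω y = algebraMap F Ω (-1) := by rw [hy', map_neg, map_one]
  have h2 := (algebraMap F Ω).injective h1
  rw [h2] at hy
  linarith [zero_lt_one (α := F)]

private theorem exists_max50 : ∃ E : IntermediateField F Ω, (-1 : Ω) ∉ T50 E ∧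
    ∀ E' : IntermediateField F Ω, E ≤ E' → (-1 : Ω) ∉ T50 E' → E' ≤ E := by
  have hz : ∀ c ⊆ {E : IntermediateField F Ω | (-1 : Ω) ∉ T50 E}, IsChain (· ≤ ·) c →
      ∀ y ∈ c, ∃ ub ∈ {E : IntermediateField F Ω | (-1 : Ω) ∉ T50 E}, ∀ z ∈ c, z ≤ ub := by
    intro c hc hchain y hy
    refine ⟨sSup c, ?_, fun z hz => le_sSup hz⟩
    intro hmem
    have : Nonempty c := ⟨⟨y, hy⟩⟩
    have hdir : Directed (· ≤ ·) (fun i : c => (i : IntermediateField F Ω)) :=
      hchain.directedOn.directed_val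
    have key : ∀ x ∈ T50 (sSup c), ∃ E ∈ c, x ∈ T50 E := by
      intro x hx
      unfold T50 at hx
      induction hx using AddSubmonoid.closure_induction with
      | mem x hx1 =>
        obtain ⟨p, hp, e, he, rfl⟩ := hx1
        rw [sSup_eq_iSup', ← SetLike.mem_coe, IntermediateField.coe_iSup_of_directed hdir,
          Set.mem_iUnion] at he
        obtain ⟨⟨E, hE⟩, he⟩ := he
        exact ⟨E, hE, T50_gen hp he⟩
      | zero => exact ⟨y, hy, (T50 y).zero_mem⟩
      | add x z _ _ h1 h2 =>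
        obtain ⟨E₁, hE₁, h1⟩ := h1
        obtain ⟨E₂, hE₂, h2⟩ := h2
        rcases hchain.total hE₁ hE₂ with h | h
        · exact ⟨E₂, hE₂, (T50 E₂).add_mem (T50_mono h h1) h2⟩
        · exact ⟨E₁, hE₁, (T50 E₁).add_mem h1 (T50_mono h h2)⟩
    obtain ⟨E, hE, h1⟩ := key _ hmem
    exact hc hE h1
  obtain ⟨E, -, hE⟩ := zorn_le_nonempty₀ {E : IntermediateField F Ω | (-1 : Ω) ∉ T50 E} hz ⊥
    bot_good50
  refine ⟨E, hE.prop, fun E' h1 h2 => hE.le_of_ge h2 h1⟩

private theorem ext50 {E : IntermediateField F Ω} (θ : Ω) (g : E[X]) (hg : g.Monic)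
    (h0 : aeval θ g = 0) {z : Ω} (hz : z ∈ IntermediateField.adjoin E ({θ} : Set Ω)) :
    ∃ h : E[X], h.degree < g.degree ∧ aeval θ h = z := by
  have hint : IsIntegral E θ := ⟨g, hg, h0⟩
  have h1 : z ∈ (IntermediateField.adjoin E ({θ} : Set Ω)).toSubalgebra := hz
  rw [IntermediateField.adjoin_simple_toSubalgebra_of_isAlgebraic hint.isAlgebraic,
    Algebra.adjoin_singleton_eq_range_aeval] at h1
  obtain ⟨p, hp⟩ := h1
  refine ⟨p %ₘ g, degree_modByMonic_lt p hg, ?_⟩
  rw [aeval_modByMonic_eq_self_of_root h0]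
  exact hp

private theorem big50 {E : IntermediateField F Ω}
    (hmax : ∀ E' : IntermediateField F Ω, E ≤ E' → (-1 : Ω) ∉ T50 E' → E' ≤ E) {θ : Ω}
    (hθ : θ ∉ E) :
    (-1 : Ω) ∈ T50 ((IntermediateField.adjoin E ({θ} : Set Ω)).restrictScalars F) := by
  by_contra hcon
  have h1 : E ≤ (IntermediateField.adjoin E ({θ} : Set Ω)).restrictScalars F := by
    intro x hx
    exact (IntermediateField.adjoin E ({θ} : Set Ω)).algebraMap_mem ⟨x, hx⟩
  exact hθ (hmax _ h1 hcon (IntermediateField.mem_adjoin_simple_self E θ))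

private theorem nonsq50 [IsAlgClosed Ω] {E : IntermediateField F Ω} (hE : (-1 : Ω) ∉ T50 E)
    (hmax : ∀ E' : IntermediateField F Ω, E ≤ E' → (-1 : Ω) ∉ T50 E' → E' ≤ E) {a : Ω}
    (ha : a ∈ E) (hns : ∀ b ∈ E, b ^ 2 ≠ a) : -a ∈ T50 E := by
  obtain ⟨θ, hθ⟩ := IsAlgClosed.exists_pow_nat_eq a (n := 2) (by norm_num)
  have hθE : θ ∉ E := fun h => hns θ h hθ
  have h1 := big50 hmax hθE
  have key : ∀ x ∈ T50 ((IntermediateField.adjoin E ({θ} : Set Ω)).restrictScalars F),
      ∃ s ∈ T50 E, ∃ t ∈ T50 E, ∃ w ∈ E, x = s + a * t + θ * w := by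
    intro x hx
    unfold T50 at hx
    induction hx using AddSubmonoid.closure_induction with
    | mem x hx1 =>
      obtain ⟨p, hp, e, he, rfl⟩ := hx1
      have hmon : (X ^ 2 - C (⟨a, ha⟩ : E) : E[X]).Monic := monic_X_pow_sub_C _ (by norm_num)
      have hdeg : (X ^ 2 - C (⟨a, ha⟩ : E) : E[X]).natDegree = 2 := natDegree_X_pow_sub_C
      obtain ⟨h, hh, hhe⟩ := ext50 θ (X ^ 2 - C (⟨a, ha⟩ : E)) hmon (by
        rw [map_sub, map_pow, aeval_X, aeval_C, hθ]
        exact sub_self a) (z := e) he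
      have hh2 : h.natDegree < 2 := by
        by_cases hz : h = 0
        · rw [hz]; simp
        · rw [← hdeg]
          exact natDegree_lt_natDegree hz hh
      have hlin : h = C (h.coeff 1) * X + C (h.coeff 0) :=
        eq_X_add_C_of_natDegree_le_one (by omega)
      have he2 : e = (h.coeff 1 : Ω) * θ + (h.coeff 0 : Ω) := by
        rw [← hhe]
        conv_lhs => rw [hlin]
        rw [map_add, map_mul, aeval_X, aeval_C, aeval_C]
        rfl
      refine ⟨algebraMap F Ω p * (h.coeff 0 : Ω) ^ 2, T50_gen hp (h.coeff 0).2,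
        algebraMap F Ω p * (h.coeff 1 : Ω) ^ 2, T50_gen hp (h.coeff 1).2,
        2 * algebraMap F Ω p * (h.coeff 1 : Ω) * (h.coeff 0 : Ω), ?_, ?_⟩
      · refine E.mul_mem (E.mul_mem (E.mul_mem ?_ (E.algebraMap_mem p)) (h.coeff 1).2)
          (h.coeff 0).2
        exact ofNat_mem E 2
      · rw [he2, ← hθ]
        ring
    | zero => exact ⟨0, (T50 E).zero_mem, 0, (T50 E).zero_mem, 0, E.zero_mem, by ring⟩
    | add x y _ _ h1 h2 =>
      obtain ⟨s, hs, t, ht, w, hw, rfl⟩ := h1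
      obtain ⟨s', hs', t', ht', w', hw', rfl⟩ := h2
      exact ⟨s + s', (T50 E).add_mem hs hs', t + t', (T50 E).add_mem ht ht', w + w',
        E.add_mem hw hw', by ring⟩
  obtain ⟨s, hs, t, ht, w, hw, h2⟩ := key _ h1
  have hw0 : w = 0 := by
    by_contra hw0
    apply hθE
    have h3 : θ = (-1 - s - a * t) / w := by
      field_simp
      rw [h2]
      ring
    rw [h3]
    refine E.div_mem (E.sub_mem (E.sub_mem (E.neg_mem E.one_mem) (T50_le hs))
      (E.mul_mem ha (T50_le ht))) hw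
  rw [hw0, mul_zero, add_zero] at h2
  have ht0 : t ≠ 0 := by
    rintro rfl
    rw [mul_zero, add_zero] at h2
    exact hE (h2 ▸ hs)
  have h3 : -a = (1 + s) * t * (1 / t) ^ 2 := by
    have h4 : s = -1 - a * t := by rw [h2]; ring
    rw [h4]
    field_simp
    ring
  rw [h3]
  refine T50_mul (T50_mul ((T50 E).add_mem ?_ hs) ht) (T50_sq (E.div_mem E.one_mem (T50_le ht)))
  have := T50_sq (E := E) E.one_mem
  rwa [one_pow] at this

private theorem sq50 [IsAlgClosed Ω] {E : IntermediateField F Ω} (hE : (-1 : Ω) ∉ T50 E)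
    (hmax : ∀ E' : IntermediateField F Ω, E ≤ E' → (-1 : Ω) ∉ T50 E' → E' ≤ E) {a : Ω}
    (ha : a ∈ T50 E) : ∃ b ∈ E, b ^ 2 = a := by
  by_contra hcon
  push Not at hcon
  have h1 := nonsq50 hE hmax (T50_le ha) hcon
  have ha0 : a ≠ 0 := by
    rintro rfl
    exact hcon 0 E.zero_mem (by ring)
  apply hE
  have h2 : (-1 : Ω) = (-a) * a * (1 / a) ^ 2 := by
    field_simp
  rw [h2]
  exact T50_mul (T50_mul h1 ha) (T50_sq (E.div_mem E.one_mem (T50_le ha)))

private theorem poly50 [IsAlgClosed Ω] {E : IntermediateField F Ω} (hE : (-1 : Ω) ∉ T50 E)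
    (hmax : ∀ E' : IntermediateField F Ω, E ≤ E' → (-1 : Ω) ∉ T50 E' → E' ≤ E)
    (f : E[X]) (hf : Irreducible f) (hd : 2 ≤ f.natDegree) :
    ∃ (n : ℕ) (h : Fin n → E[X]) (q : E[X]),
        (∀ j, (h j).natDegree < f.natDegree) ∧ 1 + ∑ j, h j ^ 2 = f * q := by
  have hdeg : f.degree ≠ 0 := by
    intro h
    have h0 : f.natDegree = 0 := natDegree_eq_of_degree_eq_some h
    omega
  obtain ⟨θ, hθ⟩ := IsAlgClosed.exists_aeval_eq_zero Ω f hdeg
  have hθE : θ ∉ E := by
    intro hθE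
    have h1 : IsRoot f (⟨θ, hθE⟩ : E) := by
      rw [IsRoot.def]
      apply (algebraMap E Ω).injective
      rw [map_zero, ← hθ, ← aeval_algebraMap_apply_eq_algebraMap_eval]
      rfl
    have h2 := degree_eq_one_of_irreducible_of_root hf h1
    have h3 : f.natDegree = 1 := natDegree_eq_of_degree_eq_some h2
    omega
  have h1 := big50 hmax hθE
  have hmin := minpoly.eq_of_irreducible hf hθ
  have hmon : (f * C f.leadingCoeff⁻¹).Monic := monic_mul_leadingCoeff_inv hf.ne_zero
  have hg0 : aeval θ (f * C f.leadingCoeff⁻¹) = 0 := by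
    rw [map_mul, hθ, zero_mul]
  have hlc : f.leadingCoeff ≠ 0 := leadingCoeff_ne_zero.2 hf.ne_zero
  have hdegg : (f * C f.leadingCoeff⁻¹).degree = f.degree :=
    degree_mul_leadingCoeff_inv f hf.ne_zero
  have key : ∀ x ∈ T50 ((IntermediateField.adjoin E ({θ} : Set Ω)).restrictScalars F),
      ∃ (n : ℕ) (h : Fin n → E[X]), (∀ j, (h j).natDegree < f.natDegree) ∧
        aeval θ (∑ j, h j ^ 2) = x := by
    intro x hx
    unfold T50 at hx
    induction hx using AddSubmonoid.closure_induction with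
    | mem x hx1 =>
      obtain ⟨p, hp, e, he, rfl⟩ := hx1
      obtain ⟨h, hh, hhe⟩ := ext50 θ _ hmon hg0 (z := e) he
      rw [hdegg] at hh
      obtain ⟨b, hb, hb2⟩ := sq50 hE hmax (T50_pos (E := E) hp)
      refine ⟨1, fun _ => C (⟨b, hb⟩ : E) * h, fun _ => ?_, ?_⟩
      · refine (natDegree_C_mul_le _ _).trans_lt ?_
        by_cases hz : h = 0
        · rw [hz, natDegree_zero]
          omega
        · exact natDegree_lt_natDegree hz hh
      · rw [Fin.sum_univ_one, map_pow, map_mul, aeval_C, hhe, ← hb2]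
        change (b * e) ^ 2 = b ^ 2 * e ^ 2
        ring
    | zero => exact ⟨0, fun j => j.elim0, fun j => j.elim0, by simp⟩
    | add x y _ _ h1 h2 =>
      obtain ⟨n, h, hh, rfl⟩ := h1
      obtain ⟨m, k, hk, rfl⟩ := h2
      refine ⟨n + m, Fin.append h k, ?_, ?_⟩
      · intro j
        refine Fin.addCases (fun i => ?_) (fun i => ?_) j
        · rw [Fin.append_left]
          exact hh i
        · rw [Fin.append_right]
          exact hk i
      · rw [Fin.sum_univ_add, map_add]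
        congr 1
        · congr 1
          exact Finset.sum_congr rfl fun i _ => by rw [Fin.append_left]
        · congr 1
          exact Finset.sum_congr rfl fun i _ => by rw [Fin.append_right]
  obtain ⟨n, h, hh, h2⟩ := key _ h1
  have h3 : aeval θ (1 + ∑ j, h j ^ 2) = 0 := by
    rw [map_add, map_one, h2]
    ring
  have h4 := minpoly.dvd E θ h3
  rw [← hmin] at h4
  obtain ⟨q, hq⟩ := h4
  exact ⟨n, h, C f.leadingCoeff⁻¹ * q, hh, by rw [hq]; ring⟩

end CloA50

theorem exists_max (F : Type u) [Field F] [LinearOrder F] [IsStrictOrderedRing F] :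
    ∃ (E : Type u) (_ : Field E) (_ : LinearOrder E) (_ : IsStrictOrderedRing E) (i : F →+* E),
      (∀ a, 0 ≤ a → 0 ≤ i a) ∧ (∀ a : E, 0 ≤ a → ∃ b, a = b ^ 2) ∧
      ∀ f : E[X], Irreducible f → 2 ≤ f.natDegree → ∃ (n : ℕ) (h : Fin n → E[X]) (q : E[X]),
        (∀ j, (h j).natDegree < f.natDegree) ∧ 1 + ∑ j, h j ^ 2 = f * q := by
  obtain ⟨E, hE, hmax⟩ := exists_max50 (F := F) (Ω := AlgebraicClosure F)
  obtain ⟨o, ho, hpos⟩ := exists_order (F := E) {x | ∃ b, b ^ 2 = x}
    (by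
      rintro _ ⟨a, rfl⟩ _ ⟨b, rfl⟩
      have h1 : ((a : AlgebraicClosure F) ^ 2 + (b : AlgebraicClosure F) ^ 2) ∈ T50 E :=
        (T50 E).add_mem (T50_sq a.2) (T50_sq b.2)
      obtain ⟨c, hc, hc2⟩ := sq50 hE hmax h1
      exact ⟨⟨c, hc⟩, Subtype.ext hc2⟩)
    (by
      rintro _ ⟨a, rfl⟩ _ ⟨b, rfl⟩
      exact ⟨a * b, by ring⟩)
    (fun a => ⟨a, rfl⟩)
    (by
      rintro ⟨a, ha⟩
      apply hE
      have h1 := T50_sq (E := E) a.2
      have h2 : (a : AlgebraicClosure F) ^ 2 = -1 := by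
        have := congrArg Subtype.val ha
        simpa using this
      rwa [h2] at h1)
  refine ⟨E, inferInstance, o, ho, algebraMap F E, ?_, ?_, fun f hf hd => poly50 hE hmax f hf hd⟩
  · intro a ha
    obtain ⟨b, hb, hb2⟩ := sq50 hE hmax (T50_pos (E := E) ha)
    exact hpos _ ⟨⟨b, hb⟩, Subtype.ext hb2⟩
  · intro a ha
    by_cases h1 : ∀ b ∈ E, b ^ 2 ≠ (a : AlgebraicClosure F)
    · have h2 := nonsq50 hE hmax a.2 h1
      obtain ⟨b, hb, hb2⟩ := sq50 hE hmax h2
      have h3 : 0 ≤ -a := hpos _ ⟨⟨b, hb⟩, Subtype.ext hb2⟩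
      have h4 : a = 0 := le_antisymm (neg_nonneg.1 h3) ha
      exact ⟨0, by rw [h4]; ring⟩
    · push Not at h1
      obtain ⟨b, hb, hb2⟩ := h1
      exact ⟨⟨b, hb⟩, Subtype.ext hb2.symm⟩

end Pool.Agent.Helper10.TC
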