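import Pool.Agent.Helper10.TC.Defs

set_option autoImplicit false

/-!
# Project TC (MP_63c74b), block GAUSS: orders of products

`C X` is a prime element of `Ps[σ] = (PowerSeries ℂ)[X]` (`Polynomial.prime_C_iff`,
`PowerSeries.X_prime`). For a prime `π` in a domain: if `π ^ K ∣ ∏_{l ∈ s} f_l` then there are `k_l` with
`K ≤ ∑ k_l` and `π ^ k_l ∣ f_l` (induction on the finset; for two factors: let `a` be maximal
`≤ K` with `π ^ a ∣ f`, then `π ^ (K - a) ∣ g`: `f = π^a f'` and if `a < K` then `π ∤ f'`, cancel, and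
`Prime.pow_dvd_of_dvd_mul_left`). `gauss`: apply this to `f_l = C (A_l) + C (B_l) X`;
`C (X^k) ∣ C A + C B * X` implies `X^k ∣ A` and `X^k ∣ B` (coefficients).
-/

open Polynomial

namespace Pool.Agent.Helper10.TC

theorem prime_pow_dvd_prod {R : Type*} [CommRing R] [IsDomain R] {π : R} (hπ : Prime π)
    {ι : Type*} (s : Finset ι) (f : ι → R) (K : ℕ) (h : π ^ K ∣ ∏ l ∈ s, f l) :
    ∃ k : ι → ℕ, K ≤ ∑ l ∈ s, k l ∧ ∀ l ∈ s, π ^ k l ∣ f l := by
  classical
  -- two factors
  have two : ∀ (K : ℕ) (f g : R), π ^ K ∣ f * g → ∃ a b : ℕ, K ≤ a + b ∧ π ^ a ∣ f ∧ π ^ b ∣ g := by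
    intro K
    induction K with
    | zero => intro f g _; exact ⟨0, 0, by omega, by simp, by simp⟩
    | succ K ih =>
      intro f g h
      have h1 : π ∣ f * g := (dvd_pow_self π (by omega)).trans h
      rcases hπ.dvd_or_dvd h1 with ⟨f', rfl⟩ | ⟨g', rfl⟩
      · have h2 : π ^ K ∣ f' * g := by
          rw [pow_succ', mul_assoc] at h
          exact (mul_dvd_mul_iff_left hπ.ne_zero).1 h
        obtain ⟨a, b, hab, ha, hb⟩ := ih f' g h2
        exact ⟨a + 1, b, by omega, by rw [pow_succ']; exact mul_dvd_mul_left π ha, hb⟩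
      · have h2 : π ^ K ∣ f * g' := by
          rw [pow_succ', mul_left_comm] at h
          exact (mul_dvd_mul_iff_left hπ.ne_zero).1 h
        obtain ⟨a, b, hab, ha, hb⟩ := ih f g' h2
        exact ⟨a, b + 1, by omega, ha, by rw [pow_succ']; exact mul_dvd_mul_left π hb⟩
  induction s using Finset.induction_on generalizing K with
  | empty =>
    refine ⟨fun _ => 0, ?_, by simp⟩
    rw [Finset.prod_empty] at h
    rcases Nat.eq_zero_or_pos K with rfl | hK
    · simp
    · exact absurd (isUnit_of_dvd_one ((dvd_pow_self π (by omega)).trans h)) hπ.not_isUnit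
  | insert i s hi ih =>
    rw [Finset.prod_insert hi] at h
    obtain ⟨a, b, hab, ha, hb⟩ := two K _ _ h
    obtain ⟨k, hk1, hk2⟩ := ih b hb
    refine ⟨Function.update k i a, ?_, fun l hl => ?_⟩
    · rw [Finset.sum_insert hi, Function.update_self]
      have h3 : ∑ l ∈ s, Function.update k i a l = ∑ l ∈ s, k l :=
        Finset.sum_congr rfl fun l hl => Function.update_of_ne (by rintro rfl; exact hi hl) _ _
      rw [h3]
      omega
    · rcases Finset.mem_insert.1 hl with rfl | hl'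
      · rw [Function.update_self]; exact ha
      · rw [Function.update_of_ne (by rintro rfl; exact hi hl')]
        exact hk2 l hl'

theorem gauss {d : ℕ} (A B : Fin d → Ps) (K : ℕ)
    (h : (C (PowerSeries.X ^ K) : Polynomial Ps) ∣ ∏ l, (C (A l) + C (B l) * X)) :
    ∃ k : Fin d → ℕ, K ≤ ∑ l, k l ∧
      ∀ l, (PowerSeries.X ^ k l : Ps) ∣ A l ∧ (PowerSeries.X ^ k l : Ps) ∣ B l := by
  have hπ : Prime (C (PowerSeries.X : Ps) : Polynomial Ps) :=
    Polynomial.prime_C_iff.2 PowerSeries.X_prime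
  rw [C_pow] at h
  obtain ⟨k, hk1, hk2⟩ := prime_pow_dvd_prod hπ Finset.univ _ K h
  refine ⟨k, hk1, fun l => ?_⟩
  have h1 := hk2 l (Finset.mem_univ l)
  rw [← C_pow, C_dvd_iff_dvd_coeff] at h1
  have h2 := h1 0
  have h3 := h1 1
  simp only [coeff_add, coeff_C_zero, coeff_C_mul, coeff_X_zero, mul_zero, add_zero,
    coeff_X_one, mul_one] at h2 h3
  rw [coeff_C, if_neg one_ne_zero, zero_add] at h3
  exact ⟨h2, h3⟩

end Pool.Agent.Helper10.TC
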