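import Pool.Agent.Helper10.TC.Rel

set_option autoImplicit false

/-!
# Project TC (MP_63c74b), block SUMK: the dihedral group, reindexing

Formula: for `γ' = (k', c')`, `γ = (k, c)`:
`act N γ' (act N γ p) = act N (k' + (-1)^{c'} k mod N, c + c') p` (`c + c'` = xor). So for fixed `γ₀` and
`γ'` there is exactly one `γ =: f γ'` with `act γ' ∘ act γ = act γ₀`, `f(k', c') = ((-1)^{c'}(k₀ - k'),
c₀ + c')`, and `f` is a bijection of `Fin N × Bool`; likewise (for `prod_act`) for fixed `γ'` the map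
`γ ↦ γ' γ` is a bijection of `Fin N × Bool`.
`act_surj`: every `γ'` has an inverse.
`kap_act`: `X ^ k ∣ act γ P - act γ Q ↔ X ^ k ∣ P - Q` (`act γ` is a ring hom, multiplies/conjugates
coefficient `i` by a nonzero constant; `X ^ k ∣ F` iff the coefficients of index `< k` vanish), so
`kap (act γ P) (act γ Q) r = kap P Q r`.
`sum_kap`: `∑_{γ'} kap (act γ₀ P) (act γ' Q) r = ∑_{γ'} kap (act γ' (act (f γ') P)) (act γ' Q) r
= ∑_{γ'} kap (act (f γ') P) Q r = ∑_γ kap (act γ P) Q r`.
`prod_act`: for a family `F γ = φ (act γ p)` ... in the form needed: the product over `γ` of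
`X - C (act N γ p)` is invariant.
-/

open Polynomial

namespace Pool.Agent.Helper10.TC

private theorem zt_ne (N : ℕ) : zt N ≠ 0 := Complex.exp_ne_zero _

/-- complex conjugation or the identity -/
private noncomputable def cj (c : Bool) : ℂ →+* ℂ := if c then starRingEnd ℂ else RingHom.id ℂ

private theorem act_coeff (N : ℕ) (γ : Fin N × Bool) (p : C1) (i : ℕ) :
    (act N γ p).coeff i = cj γ.2 (p.coeff i) * (zt N ^ (γ.1 : ℕ)) ^ i := by
  unfold act cj
  rw [RingHom.comp_apply, coe_compRingHom]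
  beta_reduce
  rw [comp_C_mul_X_coeff]
  split_ifs
  · rw [coe_mapRingHom, coeff_map]
  · rfl

private theorem cj_eq_zero (c : Bool) (x : ℂ) : cj c x = 0 ↔ x = 0 := by
  unfold cj
  split_ifs
  · exact map_eq_zero _
  · rfl

private theorem dvd_act (N : ℕ) (γ : Fin N × Bool) (P : C1) (k : ℕ) :
    X ^ k ∣ act N γ P ↔ X ^ k ∣ P := by
  rw [X_pow_dvd_iff, X_pow_dvd_iff]
  refine forall₂_congr fun i _ => ?_
  rw [act_coeff, mul_eq_zero, cj_eq_zero]
  have h : (zt N ^ (γ.1 : ℕ)) ^ i ≠ 0 := pow_ne_zero _ (pow_ne_zero _ (zt_ne N))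
  constructor
  · rintro (h1 | h1)
    · exact h1
    · exact absurd h1 h
  · exact fun h1 => Or.inl h1

theorem kap_act (N : ℕ) (hN : N ≠ 0) (γ : Fin N × Bool) (P Q : C1) (r : ℕ) :
    kap (act N γ P) (act N γ Q) r = kap P Q r := by
  unfold kap
  have h : (fun k => (X : C1) ^ k ∣ act N γ P - act N γ Q) = fun k => (X : C1) ^ k ∣ P - Q := by
    funext k
    rw [← map_sub]
    exact propext (dvd_act N γ (P - Q) k)
  congr 1

/-- the multiplication of the dihedral group -/
private def mulD {N : ℕ} [NeZero N] (γ' γ : Fin N × Bool) : Fin N × Bool :=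
  (γ'.1 + (if γ'.2 then -γ.1 else γ.1), xor γ'.2 γ.2)

private theorem zt_add (N : ℕ) [NeZero N] (a b : Fin N) :
    zt N ^ ((a + b : Fin N) : ℕ) = zt N ^ (a : ℕ) * zt N ^ (b : ℕ) := by
  rw [Fin.val_add, ← pow_eq_pow_mod _ (zt_pow N (NeZero.ne N)), pow_add]

private theorem star_zt (N : ℕ) : starRingEnd ℂ (zt N) * zt N = 1 := by
  unfold zt
  rw [← Complex.exp_conj, ← Complex.exp_add]
  have h : (starRingEnd ℂ) (2 * (Real.pi : ℂ) * Complex.I / (N : ℂ)) +
      2 * (Real.pi : ℂ) * Complex.I / (N : ℂ) = 0 := by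
    rw [map_div₀, map_mul, map_mul, Complex.conj_ofReal, Complex.conj_I, Complex.conj_natCast,
      map_ofNat]
    ring
  rw [h, Complex.exp_zero]

private theorem zt_neg (N : ℕ) [NeZero N] (a : Fin N) :
    zt N ^ ((-a : Fin N) : ℕ) = starRingEnd ℂ (zt N ^ (a : ℕ)) := by
  have h1 : zt N ^ ((-a : Fin N) : ℕ) * zt N ^ (a : ℕ) = 1 := by
    rw [← zt_add, neg_add_cancel, Fin.val_zero, pow_zero]
  have h2 : starRingEnd ℂ (zt N ^ (a : ℕ)) * zt N ^ (a : ℕ) = 1 := by
    rw [map_pow, ← mul_pow, star_zt, one_pow]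
  exact mul_right_cancel₀ (pow_ne_zero _ (zt_ne N)) (h1.trans h2.symm)

private theorem act_act (N : ℕ) [NeZero N] (γ' γ : Fin N × Bool) (p : C1) :
    act N γ' (act N γ p) = act N (mulD γ' γ) p := by
  ext i
  rw [act_coeff, act_coeff, act_coeff, map_mul, map_pow]
  obtain ⟨k', c'⟩ := γ'
  obtain ⟨k, c⟩ := γ
  unfold mulD
  cases c' <;> cases c
  · simp only [cj, Bool.false_eq_true, if_false, RingHom.id_apply, Bool.xor_false, zt_add, mul_pow]
    ring
  · simp only [cj, Bool.false_eq_true, if_false, if_true, RingHom.id_apply, Bool.xor_true,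
      Bool.not_false, zt_add, mul_pow]
    ring
  · simp only [cj, Bool.false_eq_true, if_false, if_true, RingHom.id_apply, Bool.xor_false,
      zt_add, zt_neg, mul_pow]
    ring
  · simp only [cj, Bool.false_eq_true, if_false, if_true, RingHom.id_apply, Bool.xor_true,
      Bool.not_true, zt_add, zt_neg, mul_pow, Complex.conj_conj]
    ring

/-- `fD γ₀ γ' = γ'⁻¹ γ₀` -/
private def fD {N : ℕ} [NeZero N] (γ₀ γ' : Fin N × Bool) : Fin N × Bool :=
  (if γ'.2 then -(γ₀.1 - γ'.1) else γ₀.1 - γ'.1, xor γ'.2 γ₀.2)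

private theorem mulD_fD {N : ℕ} [NeZero N] (γ₀ γ' : Fin N × Bool) : mulD γ' (fD γ₀ γ') = γ₀ := by
  obtain ⟨k', c'⟩ := γ'
  obtain ⟨k, c⟩ := γ₀
  unfold mulD fD
  cases c' <;> cases c <;> simp

private theorem fD_inj {N : ℕ} [NeZero N] (γ₀ : Fin N × Bool) :
    Function.Injective (fD γ₀) := by
  rintro ⟨k, c⟩ ⟨k', c'⟩ h
  unfold fD at h
  rw [Prod.mk.injEq] at h
  obtain ⟨h1, h2⟩ := h
  have hc : c = c' := by
    revert h2
    cases c <;> cases c' <;> cases γ₀.2 <;> simp
  subst hc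
  have hk : k = k' := by
    dsimp only at h1
    cases c
    · simpa using h1
    · simpa using h1
  rw [hk]

private theorem mulD_inj {N : ℕ} [NeZero N] (γ' : Fin N × Bool) :
    Function.Injective (mulD γ') := by
  rintro ⟨k, c⟩ ⟨k', c'⟩ h
  unfold mulD at h
  rw [Prod.mk.injEq] at h
  obtain ⟨h1, h2⟩ := h
  have hc : c = c' := by
    revert h2
    cases c <;> cases c' <;> cases γ'.2 <;> simp
  subst hc
  have hk : k = k' := by
    dsimp only at h1
    cases h3 : γ'.2
    · simpa [h3] using h1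
    · simpa [h3] using h1
  rw [hk]

theorem sum_kap (N : ℕ) (hN : N ≠ 0) (γ₀ : Fin N × Bool) (P Q : C1) (r : ℕ) :
    ∑ γ' : Fin N × Bool, kap (act N γ₀ P) (act N γ' Q) r =
      ∑ γ : Fin N × Bool, kap (act N γ P) Q r := by
  haveI : NeZero N := ⟨hN⟩
  have h1 : ∀ γ' : Fin N × Bool, kap (act N γ₀ P) (act N γ' Q) r =
      kap (act N (fD γ₀ γ') P) Q r := by
    intro γ'
    rw [← kap_act N hN γ' (act N (fD γ₀ γ') P) Q r, act_act, mulD_fD]
  rw [Finset.sum_congr rfl fun γ' _ => h1 γ']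
  exact (Finite.injective_iff_bijective.1 (fD_inj γ₀)).sum_comp
    (fun γ => kap (act N γ P) Q r)

/-- the product over the group of the images of a polynomial `F ∈ ℂ[w][Y]` -/
noncomputable def nrm (N : ℕ) (F : C2) : C2 := ∏ γ : Fin N × Bool, F.map (act N γ)

theorem nrm_act (N : ℕ) (hN : N ≠ 0) (F : C2) (γ' : Fin N × Bool) :
    (nrm N F).map (act N γ') = nrm N F := by
  haveI : NeZero N := ⟨hN⟩
  unfold nrm
  rw [Polynomial.map_prod]
  have h1 : ∀ γ : Fin N × Bool, (F.map (act N γ)).map (act N γ') = F.map (act N (mulD γ' γ)) := by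
    intro γ
    rw [Polynomial.map_map]
    congr 1
    exact RingHom.ext fun p => act_act N γ' γ p
  rw [Finset.prod_congr rfl fun γ _ => h1 γ]
  exact (Finite.injective_iff_bijective.1 (mulD_inj γ')).prod_comp
    (fun γ => F.map (act N γ))

end Pool.Agent.Helper10.TC
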