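import Pool.Agent.Helper10.TC.Puiseux
import Pool.Agent.Helper10.TC.Gauss
import Pool.Agent.Helper10.TC.Sumk

set_option autoImplicit false

/-!
# Project TC (MP_63c74b), block CNT: counting the roots of `H` near the balls

Write `p_j = (B j).cen N`, `r_j = (B j).r`, `Γ = Fin N × Bool`, `d = natDegree H`, `lc` = leading
coefficient of `H` (in `ℝ[s]`), `a₀ ≤ a` its order at `s = 0`.
If `d = 0`: `n = 0`; `H = C lc`, `onC ... H = C (io N lc)`, of order `N a₀`, so `k ≤ N a₀ ≤ N a`. (If also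
convenient: `2 N k ≤ 2 N N a`.)
Let `d ≥ 1`. `F₀ := (H.map toPS).integralNormalization` is monic of degree `d`; `puiseux` gives `N₁`
and roots, indexed by `l : Fin d`. Let `N' = N N₁`, `ψ = xp N' ∘ toPS : ℝ[s] → Ps`, `L = ψ lc`, of order
`a' := N' a₀`, `b_l` = the image under `xp N` of the `l`-th root (so
`F₀.map (xp N') = ∏ (X - C b_l)`, `expand_mul`), and
`ρ : C1 → Ps`, `ρ p = xp N₁ (p : Ps)`, so that `ρ ∘ io N = ψ`. By
`integralNormalization_eval₂_leadingCoeff_mul`: for every `z` in a `Ps`-algebra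
`L^(d-1) H^ψ(z) = ∏_l (L z - b_l)`. Take `z = C (ρ (act γ p_j)) + C (X^(N₁ r_j)) σ ∈ Ps[σ]`: then
`H^ψ(z)` is the image of `onC N (act γ p_j) r_j H` under `ρ` on coefficients, divisible by
`C (X^(N₁ k))` (`onC_act`, `hdiv`). So `C (X^((d-1) a' + N₁ k))` divides
`∏_l (C (L ρ(act γ p_j) - b_l) + C (L X^(N₁ r_j)) σ)`; `gauss` gives `k_l = k_l(γ, j)` with
`(d-1) a' + N₁ k ≤ ∑_l k_l`, `X^k_l ∣ L ρ(act γ p_j) - b_l`, `X^k_l ∣ L X^(N₁ r_j)`, so
`k_l ≤ a' + N₁ r_j`.
Nearest centre: for each `l` choose `(i_l, γ_l) ∈ Fin J × Γ` such that the order (in `ℕ∞`) of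
`L ρ(act γ_l p_(i_l)) - b_l` is maximal (finite nonempty set: `J > 0`, `N > 0`). Then `X^k_l(γ, j)` divides
`L ρ(act γ_l p_(i_l)) - b_l` too, hence `L ρ(act γ p_j - act γ_l p_(i_l))`, and `L = X^a' * unit`: so
`X^(k_l - a')` divides `ρ(act γ p_j - act γ_l p_(i_l))` (`ρ` multiplies orders by `N₁`), and
`k_l - a' ≤ N₁ r_j`: therefore `k_l(γ, j) ≤ a' + N₁ kap (act γ_l p_(i_l)) (act γ p_j) r_j`.
Sum over `l` and then over `γ`, with `sum_kap`:
`2 N ((d-1) a' + N₁ k) ≤ 2 N d a' + N₁ ∑_l Ah N (B i_l) (B j)`, so (`a' = N N₁ a₀`)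
`2 N k ≤ 2 N N a₀ + ∑_i n_i Ah N (B i) (B j)`, `n_i = #{l | i_l = i}`, `∑ n_i = d`.
-/

open Polynomial

namespace Pool.Agent.Helper10.TC

namespace CntA

theorem Xdvd_iff (k : ℕ) (φ : Ps) : (PowerSeries.X ^ k ∣ φ) ↔ (k : ℕ∞) ≤ φ.order := by
  rw [PowerSeries.X_pow_dvd_iff]
  refine ⟨fun h => PowerSeries.nat_le_order φ k h, fun h m hm => ?_⟩
  exact PowerSeries.coeff_of_lt_order m (lt_of_lt_of_le (by exact_mod_cast hm) h)

/-- `p(w) ↦ p(w' ^ N₁)` -/
noncomputable def rh (N₁ : ℕ) (h₁ : N₁ ≠ 0) : C1 →+* Ps :=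
  (xp N₁ h₁).comp coeToPowerSeries.ringHom

theorem xp_X (N : ℕ) (hN : N ≠ 0) : xp N hN PowerSeries.X = PowerSeries.X ^ N :=
  PowerSeries.expand_X N hN

theorem xp_C (N : ℕ) (hN : N ≠ 0) (a : ℂ) : xp N hN (PowerSeries.C a) = PowerSeries.C a :=
  PowerSeries.expand_C N hN a

theorem toPS_X : toPS X = PowerSeries.X := by simp [toPS]

theorem toPS_C (a : ℝ) : toPS (C a) = PowerSeries.C (a : ℂ) := by simp [toPS]

theorem rh_X (N₁ : ℕ) (h₁ : N₁ ≠ 0) : rh N₁ h₁ X = PowerSeries.X ^ N₁ := by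
  rw [rh, RingHom.comp_apply]
  simp [xp_X]

theorem rh_io (N₁ N : ℕ) (h₁ : N₁ ≠ 0) (hN : N ≠ 0) :
    (rh N₁ h₁).comp (io N) = (xp (N₁ * N) (Nat.mul_ne_zero h₁ hN)).comp toPS := by
  refine Polynomial.ringHom_ext (fun a => ?_) ?_
  · simp [rh, io, toPS_C, xp_C]
  · rw [RingHom.comp_apply, RingHom.comp_apply, toPS_X, xp_X]
    have : io N X = X ^ N := by simp [io]
    rw [this, map_pow, rh_X, pow_mul]

theorem xp_congr {M N : ℕ} (h : M = N) (hM : M ≠ 0) (hN : N ≠ 0) : xp M hM = xp N hN := by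
  subst h
  rfl

theorem toPS_inj : Function.Injective toPS := by
  intro a b h
  rw [toPS, RingHom.comp_apply, RingHom.comp_apply] at h
  have h1 := Polynomial.coe_injective ℂ h
  exact Polynomial.map_injective _ Complex.ofRealHom.injective h1

theorem xp_inj (N : ℕ) (hN : N ≠ 0) : Function.Injective (xp N hN) := by
  rw [injective_iff_map_eq_zero]
  intro a ha
  by_contra h
  have h1 := PowerSeries.order_expand N hN a
  have h2 : (PowerSeries.expand N hN a) = 0 := ha
  rw [h2, PowerSeries.order_zero] at h1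
  have h3 : a.order ≠ ⊤ := fun h4 => h (PowerSeries.order_eq_top.1 h4)
  obtain ⟨m, hm⟩ := ENat.ne_top_iff_exists.1 h3
  rw [← hm, nsmul_eq_mul] at h1
  exact absurd h1 (by exact_mod_cast ENat.natCast_ne_top (N * m) |>.symm)

/-- the Puiseux roots, indexed by `Fin d` -/
theorem exists_b (N : ℕ) (hN : N ≠ 0) (F : Polynomial Ps) (hF : F.Monic) :
    ∃ (N₁ : ℕ) (h₁ : N₁ ≠ 0) (b : Fin F.natDegree → Ps),
      F.map (xp (N₁ * N) (Nat.mul_ne_zero h₁ hN)) = ∏ l, (X - C (b l)) := by
  obtain ⟨N₁, h₁, γ, hγ⟩ := puiseux F hF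
  refine ⟨N₁, h₁, ?_⟩
  have h2 : F.map (xp (N₁ * N) (Nat.mul_ne_zero h₁ hN)) =
      ((γ.map (xp N hN)).map fun a => X - C a).prod := by
    rw [xp_congr (Nat.mul_comm N₁ N) _ (Nat.mul_ne_zero hN h₁), xp_xp N N₁ hN h₁,
      ← Polynomial.map_map, hγ, Polynomial.map_multiset_prod, Multiset.map_map, Multiset.map_map]
    simp
  have hcard : (γ.map (xp N hN)).card = F.natDegree := by
    have h3 := congrArg Polynomial.natDegree h2
    rw [hF.natDegree_map, natDegree_multiset_prod_X_sub_C_eq_card] at h3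
    exact h3.symm
  obtain ⟨L, hL⟩ : ∃ L : List Ps, (L : Multiset Ps) = γ.map (xp N hN) := ⟨_, Multiset.coe_toList _⟩
  rw [← hL, Multiset.map_coe, Multiset.prod_coe] at h2
  rw [← hL, Multiset.coe_card] at hcard
  refine ⟨fun l => L.get (Fin.cast hcard.symm l), ?_⟩
  rw [h2, ← List.prod_ofFn]
  congr 1
  refine List.ext_getElem (by simp [hcard]) fun n h5 h6 => ?_
  simp

/-- comparison of a divisibility with `kap` -/
theorem sub_le_kap (N₁ : ℕ) (h₁ : N₁ ≠ 0) (P Q : C1) (r K a' : ℕ)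
    (hd : K ≤ a' ∨ PowerSeries.X ^ (K - a') ∣ rh N₁ h₁ (P - Q)) (hr : K ≤ a' + N₁ * r) :
    K ≤ a' + N₁ * kap P Q r := by
  rcases hd with hd | hd
  · omega
  by_contra hcon
  push Not at hcon
  have hk : kap P Q r < r := by
    by_contra h
    push Not at h
    have : N₁ * r ≤ N₁ * kap P Q r := Nat.mul_le_mul_left _ h
    omega
  have hnot : ¬ (X ^ (kap P Q r + 1) ∣ P - Q) := by
    classical
    exact Nat.findGreatest_is_greatest (P := fun k => X ^ k ∣ P - Q) (lt_add_one _) (by exact hk)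
  apply hnot
  rw [Polynomial.X_pow_dvd_iff]
  intro i hi
  have h2 := (PowerSeries.X_pow_dvd_iff.1 hd) (N₁ * i) (by
    have : N₁ * i ≤ N₁ * kap P Q r := Nat.mul_le_mul_left _ (by omega)
    omega)
  have h3 : PowerSeries.coeff (N₁ * i) (rh N₁ h₁ (P - Q)) = (P - Q).coeff i := by
    have h4 := PowerSeries.coeff_expand_mul N₁ h₁ ((P - Q : C1) : Ps) i
    rw [Polynomial.coeff_coe] at h4
    exact h4
  rw [h3] at h2
  exact h2

theorem order_toPS {q : R1} (hq : q ≠ 0) : (toPS q).order = (q.natTrailingDegree : ℕ∞) := by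
  have hc : ∀ i, PowerSeries.coeff i (toPS q) = ((q.coeff i : ℝ) : ℂ) := by
    intro i
    rw [toPS, RingHom.comp_apply]
    change PowerSeries.coeff i ((q.map Complex.ofRealHom : C1) : Ps) = _
    rw [Polynomial.coeff_coe, coeff_map]
    rfl
  rw [PowerSeries.order_eq_nat]
  refine ⟨?_, fun i hi => ?_⟩
  · rw [hc, Complex.ofReal_ne_zero]
    exact (mem_support_iff.1 (natTrailingDegree_mem_support_of_nonzero hq))
  · rw [hc, coeff_eq_zero_of_lt_natTrailingDegree hi, Complex.ofReal_zero]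

theorem onC_rh (N₁ N : ℕ) (h₁ : N₁ ≠ 0) (hN : N ≠ 0) (p : C1) (r : ℕ) (H : R2) :
    (onC N p r H).map (rh N₁ h₁) =
      H.eval₂ ((C : Ps →+* Polynomial Ps).comp
        ((xp (N₁ * N) (Nat.mul_ne_zero h₁ hN)).comp toPS))
        (C (rh N₁ h₁ p) + C (PowerSeries.X ^ (N₁ * r)) * X) := by
  have h2 : onC N p r H = (H.map (io N)).comp (C p + C (X ^ r) * X) := rfl
  rw [h2, Polynomial.map_comp, Polynomial.map_map, rh_io N₁ N h₁ hN]
  have h3 : (C p + C (X ^ r) * X : C2).map (rh N₁ h₁) =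
      C (rh N₁ h₁ p) + C (PowerSeries.X ^ (N₁ * r)) * X := by
    rw [Polynomial.map_add, Polynomial.map_mul, map_C, map_C, map_X, map_pow, rh_X, pow_mul]
  rw [h3, comp, eval₂_map]

theorem key_id (N₁ N : ℕ) (h₁ : N₁ ≠ 0) (hN : N ≠ 0) (H : R2) (hd : 1 ≤ H.natDegree)
    (b : Fin (H.map toPS).integralNormalization.natDegree → Ps)
    (hb : (H.map toPS).integralNormalization.map (xp (N₁ * N) (Nat.mul_ne_zero h₁ hN)) =
      ∏ l, (X - C (b l))) (z : Polynomial Ps) :
    C (xp (N₁ * N) (Nat.mul_ne_zero h₁ hN) (toPS H.leadingCoeff)) ^ (H.natDegree - 1) *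
      H.eval₂ ((C : Ps →+* Polynomial Ps).comp
        ((xp (N₁ * N) (Nat.mul_ne_zero h₁ hN)).comp toPS)) z =
      ∏ l, (C (xp (N₁ * N) (Nat.mul_ne_zero h₁ hN) (toPS H.leadingCoeff)) * z - C (b l)) := by
  have hnd : (H.map toPS).natDegree = H.natDegree := natDegree_map_eq_of_injective toPS_inj H
  have hlc : (H.map toPS).leadingCoeff = toPS H.leadingCoeff := leadingCoeff_map_of_injective toPS_inj H
  have e1 := integralNormalization_eval₂_leadingCoeff_mul (p := H.map toPS) (by rw [hnd]; exact hd)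
    ((C : Ps →+* Polynomial Ps).comp (xp (N₁ * N) (Nat.mul_ne_zero h₁ hN))) z
  rw [hlc, hnd, eval₂_map, RingHom.comp_apply] at e1
  rw [← RingHom.comp_assoc, ← e1, ← eval₂_map, hb]
  have e2 := map_prod (eval₂RingHom (C : Ps →+* Polynomial Ps)
    (C (xp (N₁ * N) (Nat.mul_ne_zero h₁ hN) (toPS H.leadingCoeff)) * z)) (fun l => X - C (b l))
    Finset.univ
  rw [coe_eval₂RingHom] at e2
  rw [e2]
  refine Finset.prod_congr rfl fun l _ => ?_
  rw [eval₂_sub, eval₂_X, eval₂_C]

end CntA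

open CntA in
theorem exists_counts (N : ℕ) (hN : N ≠ 0) {J : ℕ} (hJ : 0 < J) (B : Fin J → Ball) (H : R2)
    (a k : ℕ) (hH : H ≠ 0) (hlc : ¬ (X ^ (a + 1) : R1) ∣ H.leadingCoeff)
    (hdiv : ∀ j, C (X ^ k) ∣ onC N ((B j).cen N) (B j).r H) :
    ∃ n : Fin J → ℕ, ∑ i, n i = H.natDegree ∧
      ∀ j, 2 * N * k ≤ ∑ i, n i * Ah N (B i) (B j) + 2 * N * N * a := by
  classical
  have hlc0 : H.leadingCoeff ≠ 0 := leadingCoeff_ne_zero.2 hH
  set a₀ := H.leadingCoeff.natTrailingDegree with ha₀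
  have ha : a₀ ≤ a := by
    by_contra hcon
    push Not at hcon
    apply hlc
    rw [Polynomial.X_pow_dvd_iff]
    intro i hi
    exact coeff_eq_zero_of_lt_natTrailingDegree (by omega)
  rcases Nat.eq_zero_or_pos H.natDegree with hd | hd
  · refine ⟨0, by simp [hd], fun j => ?_⟩
    have h2 : H = C H.leadingCoeff := by
      rw [leadingCoeff, hd]
      exact eq_C_of_natDegree_eq_zero hd
    have h3 := hdiv j
    have h4 : onC N ((B j).cen N) (B j).r (C H.leadingCoeff) = C (io N H.leadingCoeff) := by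
      simp [onC]
    rw [h2, h4] at h3
    have h5 : (X ^ k : C1) ∣ io N H.leadingCoeff := by
      rw [C_dvd_iff_dvd_coeff] at h3
      have := h3 0
      rwa [coeff_C_zero] at this
    have h6 : k ≤ N * a₀ := by
      by_contra hcon
      push Not at hcon
      have h7 := (Polynomial.X_pow_dvd_iff.1 h5) (N * a₀) hcon
      have h8 : (io N H.leadingCoeff).coeff (N * a₀) = ((H.leadingCoeff.coeff a₀ : ℝ) : ℂ) := by
        rw [io, RingHom.comp_apply]
        change (expand ℂ N (H.leadingCoeff.map Complex.ofRealHom)).coeff (N * a₀) = _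
        rw [mul_comm, coeff_expand_mul (Nat.pos_of_ne_zero hN), coeff_map]
        rfl
      rw [h8, Complex.ofReal_eq_zero] at h7
      exact (mem_support_iff.1 (natTrailingDegree_mem_support_of_nonzero hlc0)) h7
    have h9 : N * a₀ ≤ N * a := Nat.mul_le_mul_left _ ha
    have h10 : 2 * N * k ≤ 2 * N * (N * a) := Nat.mul_le_mul_left _ (h6.trans h9)
    have h11 : 2 * N * (N * a) = 2 * N * N * a := by ring
    omega
  · have hF0 : H.map toPS ≠ 0 := (Polynomial.map_ne_zero_iff toPS_inj).2 hH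
    have hnd : (H.map toPS).natDegree = H.natDegree := natDegree_map_eq_of_injective toPS_inj H
    obtain ⟨N₁, h₁, b, hb⟩ := exists_b N hN (H.map toPS).integralNormalization
      (monic_integralNormalization hF0)
    have hdF : (H.map toPS).integralNormalization.natDegree = H.natDegree := by
      rw [natDegree_integralNormalization, hnd]
    have key := key_id N₁ N h₁ hN H hd b hb
    set N' := N₁ * N with hN'
    set L := xp N' (Nat.mul_ne_zero h₁ hN) (toPS H.leadingCoeff) with hL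
    have hLo : L.order = ((N' * a₀ : ℕ) : ℕ∞) := by
      have h2 := PowerSeries.order_expand N' (Nat.mul_ne_zero h₁ hN) (toPS H.leadingCoeff)
      have h3 : PowerSeries.expand N' (Nat.mul_ne_zero h₁ hN) (toPS H.leadingCoeff) = L := rfl
      rw [h3, order_toPS hlc0, nsmul_eq_mul] at h2
      rw [h2]
      push_cast
      rfl
    set a' := N' * a₀ with ha'
    -- the exponents
    have hk : ∀ (γ : Fin N × Bool) (j : Fin J), ∃ K : Fin (H.map toPS).integralNormalization.natDegree → ℕ,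
        (H.natDegree - 1) * a' + N₁ * k ≤ ∑ l, K l ∧
        ∀ l, PowerSeries.X ^ K l ∣ L * rh N₁ h₁ (act N γ ((B j).cen N)) - b l ∧
          K l ≤ a' + N₁ * (B j).r := by
      intro γ j
      have h2 : C (X ^ k) ∣ onC N (act N γ ((B j).cen N)) (B j).r H := onC_act N hN γ _ _ H k (hdiv j)
      obtain ⟨Q, hQ⟩ := h2
      have h3 := onC_rh N₁ N h₁ hN (act N γ ((B j).cen N)) (B j).r H
      rw [hQ, Polynomial.map_mul, map_C, map_pow, rh_X, ← pow_mul] at h3
      have h4 := key (C (rh N₁ h₁ (act N γ ((B j).cen N))) +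
        C (PowerSeries.X ^ (N₁ * (B j).r)) * X)
      rw [← h3] at h4
      have h5 : PowerSeries.X ^ a' ∣ L := by
        rw [Xdvd_iff, hLo]
      obtain ⟨L', hL'⟩ := h5
      have h6 : (C (PowerSeries.X ^ ((H.natDegree - 1) * a' + N₁ * k)) : Polynomial Ps) ∣
          ∏ l, (C (L * rh N₁ h₁ (act N γ ((B j).cen N)) - b l) +
            C (L * PowerSeries.X ^ (N₁ * (B j).r)) * X) := by
        have h7 : ∏ l, (C (L * rh N₁ h₁ (act N γ ((B j).cen N)) - b l) +
            C (L * PowerSeries.X ^ (N₁ * (B j).r)) * X) = ∏ l, (C L *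
            (C (rh N₁ h₁ (act N γ ((B j).cen N))) + C (PowerSeries.X ^ (N₁ * (B j).r)) * X) -
            C (b l)) := by
          refine Finset.prod_congr rfl fun l _ => ?_
          rw [C_sub, C_mul, C_mul]
          ring
        rw [h7, ← h4]
        refine ⟨C (L' ^ (H.natDegree - 1)) * Q.map (rh N₁ h₁), ?_⟩
        have h8 : C L ^ (H.natDegree - 1) =
            C (PowerSeries.X ^ ((H.natDegree - 1) * a')) * C (L' ^ (H.natDegree - 1)) := by
          rw [← C_pow, ← C_mul, hL', mul_pow, ← pow_mul, mul_comm a']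
        rw [h8, pow_add, C_mul]
        ring
      obtain ⟨K, hK1, hK2⟩ := gauss _ _ _ h6
      refine ⟨K, hK1, fun l => ⟨(hK2 l).1, ?_⟩⟩
      have h9 := (hK2 l).2
      rw [Xdvd_iff, PowerSeries.order_mul, hLo, PowerSeries.order_X_pow] at h9
      exact_mod_cast h9
    choose K hK1 hK2 using hk
    -- nearest centres
    have : Nonempty (Fin J) := ⟨⟨0, hJ⟩⟩
    have : Nonempty (Fin N) := ⟨⟨0, Nat.pos_of_ne_zero hN⟩⟩
    have hnear : ∀ l, ∃ q : Fin J × (Fin N × Bool), ∀ q' : Fin J × (Fin N × Bool),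
        (L * rh N₁ h₁ (act N q'.2 ((B q'.1).cen N)) - b l).order ≤
        (L * rh N₁ h₁ (act N q.2 ((B q.1).cen N)) - b l).order := fun l =>
      Finite.exists_max fun q' : Fin J × (Fin N × Bool) =>
        (L * rh N₁ h₁ (act N q'.2 ((B q'.1).cen N)) - b l).order
    choose q hq using hnear
    have hbound : ∀ (j : Fin J) γ l, K γ j l ≤ a' + N₁ *
        kap (act N (q l).2 ((B (q l).1).cen N)) (act N γ ((B j).cen N)) (B j).r := by
      intro j γ l
      refine sub_le_kap N₁ h₁ _ _ _ _ _ ?_ (hK2 γ j l).2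
      rw [or_iff_not_imp_left]
      intro hlt
      push Not at hlt
      have h2 := (hK2 γ j l).1
      have h3 : PowerSeries.X ^ K γ j l ∣ L * rh N₁ h₁ (act N (q l).2 ((B (q l).1).cen N)) - b l := by
        rw [Xdvd_iff] at h2 ⊢
        exact h2.trans (hq l (j, γ))
      have h4 := dvd_sub h3 h2
      have h5 : L * rh N₁ h₁ (act N (q l).2 ((B (q l).1).cen N)) - b l -
          (L * rh N₁ h₁ (act N γ ((B j).cen N)) - b l) =
          L * rh N₁ h₁ (act N (q l).2 ((B (q l).1).cen N) - act N γ ((B j).cen N)) := by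
        rw [map_sub]; ring
      rw [h5, Xdvd_iff, PowerSeries.order_mul, hLo] at h4
      rw [Xdvd_iff]
      by_cases htop : (rh N₁ h₁ (act N (q l).2 ((B (q l).1).cen N) -
          act N γ ((B j).cen N))).order = ⊤
      · rw [htop]; exact le_top
      · obtain ⟨o, ho⟩ := ENat.ne_top_iff_exists.1 htop
        rw [← ho] at h4 ⊢
        have h6 : K γ j l ≤ a' + o := by exact_mod_cast h4
        exact_mod_cast (show K γ j l - a' ≤ o by omega)
    refine ⟨fun i => (Finset.univ.filter fun l => (q l).1 = i).card, ?_, fun j => ?_⟩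
    · rw [← hdF]
      have h2 := Finset.card_eq_sum_card_fiberwise (f := fun l => (q l).1)
        (s := (Finset.univ : Finset (Fin (H.map toPS).integralNormalization.natDegree)))
        (t := Finset.univ) (fun _ _ => Finset.mem_coe.2 (Finset.mem_univ _))
      rw [Finset.card_univ, Fintype.card_fin] at h2
      exact h2.symm
    · have h2 : ∑ γ : Fin N × Bool, ∑ l, K γ j l ≤ ∑ γ : Fin N × Bool, ∑ l, (a' + N₁ *
          kap (act N (q l).2 ((B (q l).1).cen N)) (act N γ ((B j).cen N)) (B j).r) :=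
        Finset.sum_le_sum fun γ _ => Finset.sum_le_sum fun l _ => hbound j γ l
      have h3 : ∑ γ : Fin N × Bool, ((H.natDegree - 1) * a' + N₁ * k) ≤
          ∑ γ : Fin N × Bool, ∑ l, K γ j l := Finset.sum_le_sum fun γ _ => hK1 γ j
      have h4 : (Fintype.card (Fin N × Bool)) = 2 * N := by
        rw [Fintype.card_prod, Fintype.card_fin, Fintype.card_bool, mul_comm]
      rw [Finset.sum_const, Finset.card_univ, h4, smul_eq_mul] at h3
      have hcF : (Finset.univ : Finset (Fin (H.map toPS).integralNormalization.natDegree)).card =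
          H.natDegree := by rw [Finset.card_univ, Fintype.card_fin, hdF]
      have h5 : ∀ l, ∑ γ : Fin N × Bool, (a' + N₁ *
          kap (act N (q l).2 ((B (q l).1).cen N)) (act N γ ((B j).cen N)) (B j).r) =
          2 * N * a' + N₁ * Ah N (B (q l).1) (B j) := by
        intro l
        rw [Finset.sum_add_distrib, Finset.sum_const, Finset.card_univ, h4, smul_eq_mul,
          ← Finset.mul_sum, sum_kap N hN]
        rfl
      have h6 : ∑ y, ∑ x, (a' + N₁ *
          kap (act N (q y).2 ((B (q y).1).cen N)) (act N x ((B j).cen N)) (B j).r) =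
          H.natDegree * (2 * N * a') + N₁ * ∑ l, Ah N (B (q l).1) (B j) := by
        rw [Finset.sum_congr rfl fun l _ => h5 l, Finset.sum_add_distrib, Finset.sum_const,
          hcF, smul_eq_mul, Finset.mul_sum]
      have h7 : ∑ l, Ah N (B (q l).1) (B j) =
          ∑ i, (Finset.univ.filter fun l => (q l).1 = i).card * Ah N (B i) (B j) := by
        rw [← Finset.sum_fiberwise Finset.univ (fun l => (q l).1)
          (fun l => Ah N (B (q l).1) (B j))]
        refine Finset.sum_congr rfl fun i _ => ?_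
        rw [Finset.sum_congr rfl fun l hl => by rw [(Finset.mem_filter.1 hl).2],
          Finset.sum_const, smul_eq_mul]
      have h8 := h2.trans (le_of_eq (Finset.sum_comm.trans h6))
      rw [h7] at h8
      set T := ∑ i, (Finset.univ.filter fun l => (q l).1 = i).card * Ah N (B i) (B j) with hT
      obtain ⟨d', hd'⟩ := Nat.exists_eq_add_of_le' hd
      have h8 := h3.trans h8
      rw [hd', Nat.add_sub_cancel] at h8
      have h9 : N₁ * (2 * N * k) ≤ N₁ * (T + 2 * N * N * a₀) := by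
        rw [ha', hN'] at h8
        nlinarith
      have h10 := Nat.le_of_mul_le_mul_left h9 (Nat.pos_of_ne_zero h₁)
      have h11 : 2 * N * N * a₀ ≤ 2 * N * N * a := Nat.mul_le_mul_left _ ha
      omega

end Pool.Agent.Helper10.TC
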