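import Pool.Agent.Helper10.TC.Hat

set_option autoImplicit false

/-!
# Project TC (MP_63c74b), block CONE: the top form

`finite_of_cone`: let `D = totalDegree g`, `g_D` the top form, `g_D(v) > 0`; `U = {w | g_D(w) > 0}` is open and
nonempty. For `w ∈ U`: `g(t w) = t^D g_D(w) + O(t^(D-1)) > 0` for large `t`. Let `f ∈ gsp g m`, `f ≠ 0`,
`n = totalDegree f`, and suppose `n > m`. For `w ∈ U`: `|f(t w)| ≤ K (1 + t ‖w‖)^m`, so
`f(t w) / t^n → 0`; but `f(t w) / t^n → f_n(w)`. So `f_n = 0` on `U`, `f_n = 0` (a polynomial vanishing on a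
nonempty open set; e.g. `eq_zero_of_vanish` of `Helper68/QM/Closed.lean` with `g_D`), contradiction.
So `gsp g m ⊆ {f | totalDegree f ≤ m}`, which is finite dimensional (`MvPolynomial.restrictTotalDegree`;
or it is in the range of the linear map `Phi m` of `Helper68/QM/Compact.lean`, `exists_Phi`).
`exists_shear`: if `g_D ≤ 0` everywhere (`g ≠ 0` positive somewhere): `D` is even: for odd `D`
`g_D(-w) = -g_D(w) ≤ 0` and so `g_D = 0`, impossible. `D = 0` is impossible as then `g_D = g > 0`, contradiction...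
(so only `D` even is claimed). There is `λ` with `g_D(λ, 1) < 0`: otherwise `g_D(λ, 1) = 0` for all `λ`, so
`g_D(a, b) = b^D g_D(a/b, 1) = 0` for `b ≠ 0`, `g_D = 0`.
`cone_cond`: `g = ∑ g_{ab} x^a y^b`, `g_{0D} < 0`, `D` even. Let `C₀ ≥ 1` with
`(∑ |g_{ab}|) / C₀ < |g_{0D}|`. If `|y| > C₀ (1 + |x|)` then for `(a, b) ≠ (0, D)` in the support
`|x^a y^b| ≤ |y|^D / C₀` (`a ≥ 1`: `|x| ≤ |y| / C₀`; `a = 0`, `b < D`: `|y| ≥ C₀`), so `g < 0`.
-/

open Pool.Agent.Helper68.QM

namespace Pool.Agent.Helper10.TC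

section Aux

open MvPolynomial Filter Topology

private theorem cn_smul {p : A} {n : ℕ} (hp : p.IsHomogeneous n) (t : ℝ) (w : Fin 2 → ℝ) :
    eval (fun i => t * w i) p = t ^ n * eval w p := by
  rw [eval_eq', eval_eq', Finset.mul_sum]
  refine Finset.sum_congr rfl fun d hd => ?_
  have h1 : d 0 + d 1 = n := by
    have h2 : Finsupp.weight (1 : Fin 2 → ℕ) d = n := hp (mem_support_iff.1 hd)
    have h3 : Finsupp.weight (1 : Fin 2 → ℕ) d = d 0 + d 1 := by
      rw [Finsupp.weight_apply, Finsupp.sum_fintype _ _ (by intro i; simp), Fin.sum_univ_two]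
      simp
    omega
  rw [Fin.prod_univ_two, Fin.prod_univ_two, mul_pow, mul_pow, ← h1, pow_add]
  ring

private theorem cn_expand (f : A) (t : ℝ) (w : Fin 2 → ℝ) :
    eval (fun i => t * w i) f =
      ∑ i ∈ Finset.range (f.totalDegree + 1), t ^ i * eval w (homogeneousComponent i f) := by
  conv_lhs => rw [← sum_homogeneousComponent f, map_sum]
  exact Finset.sum_congr rfl fun i _ => cn_smul (homogeneousComponent_isHomogeneous i f) t w

private theorem cn_lim (f : A) (w : Fin 2 → ℝ) :
    Tendsto (fun t : ℝ => eval (fun i => t * w i) f / t ^ f.totalDegree) atTop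
      (𝓝 (eval w (homogeneousComponent f.totalDegree f))) := by
  have h1 : Tendsto (fun t : ℝ => ∑ i ∈ Finset.range f.totalDegree,
      (t ^ i / t ^ f.totalDegree) * eval w (homogeneousComponent i f)) atTop (𝓝 0) := by
    have h2 : (0 : ℝ) = ∑ i ∈ Finset.range f.totalDegree,
        (0 : ℝ) * eval w (homogeneousComponent i f) := by simp
    rw [h2]
    refine tendsto_finsetSum _ fun i hi => ?_
    exact (tendsto_pow_div_pow_atTop_zero (Finset.mem_range.1 hi)).mul_const _
  have h3 := h1.add_const (eval w (homogeneousComponent f.totalDegree f))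
  rw [zero_add] at h3
  refine h3.congr' ?_
  filter_upwards [eventually_gt_atTop 0] with t ht
  rw [cn_expand, Finset.sum_range_succ, add_div, mul_div_cancel_left₀ _ (pow_ne_zero _ ht.ne'),
    Finset.sum_div]
  congr 1
  refine Finset.sum_congr rfl fun i _ => ?_
  ring

private theorem cn_top_ne {f : A} (hf : f ≠ 0) : homogeneousComponent f.totalDegree f ≠ 0 := by
  intro h
  have hs : f.support.Nonempty := by rwa [Finset.nonempty_iff_ne_empty, Ne, support_eq_empty]
  obtain ⟨d, hd, hd2⟩ := f.support.exists_mem_eq_sup hs fun s => s.sum fun _ e => e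
  have h1 := congrArg (coeff d) h
  rw [coeff_homogeneousComponent, coeff_zero, if_pos] at h1
  · exact (mem_support_iff.1 hd) h1
  · have h2 : f.totalDegree = d.sum fun _ e => e := hd2
    rw [h2]
    rfl

end Aux

theorem finite_of_cone (g : A) (v : Fin 2 → ℝ)
    (hv : 0 < MvPolynomial.eval v (MvPolynomial.homogeneousComponent g.totalDegree g)) (m : ℕ) :
    Module.Finite ℝ (gsp g m) := by
  have hdeg : ∀ f ∈ gsp g m, f.totalDegree ≤ m := by
    rintro f ⟨K, hK⟩
    by_contra hcon
    push Not at hcon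
    have hf0 : f ≠ 0 := by
      rintro rfl
      rw [MvPolynomial.totalDegree_zero] at hcon
      omega
    apply cn_top_ne hf0
    refine eq_zero_of_vanish v hv _ fun w hw => ?_
    have h1 := cn_lim g w
    have h2 : ∀ᶠ t : ℝ in Filter.atTop, 0 < MvPolynomial.eval (fun i => t * w i) g := by
      filter_upwards [h1.eventually (lt_mem_nhds hw), Filter.eventually_gt_atTop 0] with t ht ht0
      exact (div_pos_iff_of_pos_right (pow_pos ht0 _)).1 ht
    have h3 : Filter.Tendsto (fun t : ℝ => |K| * ((1 / t + ‖w‖) ^ m * (t ^ m / t ^ f.totalDegree)))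
        Filter.atTop (nhds 0) := by
      have h4 : Filter.Tendsto (fun t : ℝ => 1 / t + ‖w‖) Filter.atTop (nhds (0 + ‖w‖)) := by
        simp only [one_div]
        exact tendsto_inv_atTop_zero.add_const _
      have h5 := ((h4.pow m).mul (tendsto_pow_div_pow_atTop_zero (𝕜 := ℝ) hcon)).const_mul |K|
      rwa [mul_zero, mul_zero] at h5
    have h6 := (cn_lim f w).abs
    have h7 : |MvPolynomial.eval w (MvPolynomial.homogeneousComponent f.totalDegree f)| ≤ 0 := by
      refine le_of_tendsto_of_tendsto h6 h3 ?_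
      filter_upwards [h2, Filter.eventually_gt_atTop 0] with t ht ht0
      have h8 := hK _ ht
      have h9 : ‖(fun i => t * w i : Fin 2 → ℝ)‖ = t * ‖w‖ := by
        have h10 : (fun i => t * w i : Fin 2 → ℝ) = t • w := rfl
        rw [h10, norm_smul, Real.norm_eq_abs, abs_of_pos ht0]
      rw [h9] at h8
      rw [abs_div, abs_of_pos (pow_pos ht0 f.totalDegree), div_le_iff₀ (pow_pos ht0 _)]
      have h11 : |K| * ((1 / t + ‖w‖) ^ m * (t ^ m / t ^ f.totalDegree)) * t ^ f.totalDegree =
          |K| * (1 + t * ‖w‖) ^ m := by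
        have h12 : (1 + t * ‖w‖) ^ m = (1 / t + ‖w‖) ^ m * t ^ m := by
          rw [← mul_pow]
          congr 1
          field_simp
        rw [h12]
        have h13 : t ^ f.totalDegree ≠ 0 := pow_ne_zero _ ht0.ne'
        field_simp
      rw [h11]
      refine h8.trans (mul_le_mul_of_nonneg_right (le_abs_self K) ?_)
      have := norm_nonneg w
      positivity
    exact abs_eq_zero.1 (le_antisymm h7 (abs_nonneg _))
  have hle : gsp g m ≤ LinearMap.range (Phi m) := fun f hf => exists_Phi (hdeg f hf)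
  exact Submodule.finiteDimensional_of_le hle

theorem exists_shear (g : A) (hg : ∃ z, 0 < MvPolynomial.eval z g)
    (h : ∀ v, MvPolynomial.eval v (MvPolynomial.homogeneousComponent g.totalDegree g) ≤ 0) :
    Even g.totalDegree ∧ ∃ l : ℝ,
      MvPolynomial.eval ![l, 1] (MvPolynomial.homogeneousComponent g.totalDegree g) < 0 := by
  have hg0 : g ≠ 0 := by
    rintro rfl
    obtain ⟨z, hz⟩ := hg
    simp at hz
  have htop := cn_top_ne hg0
  have hhom := MvPolynomial.homogeneousComponent_isHomogeneous g.totalDegree g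
  constructor
  · by_contra hodd
    rw [Nat.not_even_iff_odd] at hodd
    apply htop
    apply MvPolynomial.funext
    intro w
    rw [map_zero]
    have h1 := cn_smul hhom (-1) w
    rw [hodd.neg_one_pow, neg_one_mul] at h1
    have h2 := h fun i => -1 * w i
    rw [h1] at h2
    exact le_antisymm (h w) (by linarith)
  · by_contra hcon
    push Not at hcon
    have h0 : ∀ l : ℝ, MvPolynomial.eval ![l, 1]
        (MvPolynomial.homogeneousComponent g.totalDegree g) = 0 := fun l => le_antisymm (h _) (hcon l)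
    have h1 : MvPolynomial.homogeneousComponent g.totalDegree g * MvPolynomial.X 1 = 0 := by
      apply MvPolynomial.funext
      intro w
      rw [map_mul, MvPolynomial.eval_X, map_zero]
      by_cases hw : w 1 = 0
      · rw [hw, mul_zero]
      · have h2 := cn_smul hhom (w 1) ![w 0 / w 1, 1]
        rw [h0, mul_zero] at h2
        have h3 : (fun i => w 1 * (![w 0 / w 1, 1] : Fin 2 → ℝ) i) = w := by
          funext i
          fin_cases i
          · simp
            field_simp
          · simp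
        rw [h3] at h2
        rw [h2, zero_mul]
    exact htop ((mul_eq_zero.1 h1).resolve_right (MvPolynomial.X_ne_zero 1))

theorem cone_cond (g : A) (hDe : Even g.totalDegree)
    (hc : MvPolynomial.coeff (Finsupp.single 1 g.totalDegree) g < 0) :
    ∃ C₀ : ℝ, ∀ z, 0 < MvPolynomial.eval z g → |z 1| ≤ C₀ * (1 + |z 0|) := by
  classical
  set D := g.totalDegree with hD
  set κ := -MvPolynomial.coeff (Finsupp.single 1 D) g with hκ
  have hκ0 : 0 < κ := by rw [hκ]; linarith
  set S := ∑ d ∈ g.support, |MvPolynomial.coeff d g| with hS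
  have hS0 : 0 ≤ S := Finset.sum_nonneg fun _ _ => abs_nonneg _
  refine ⟨1 + S / κ, fun z hz => ?_⟩
  set C₀ := 1 + S / κ with hC₀
  have hC1 : 1 ≤ C₀ := by
    rw [hC₀]
    have : 0 ≤ S / κ := by positivity
    linarith
  by_contra hcon
  push Not at hcon
  have hx0 := abs_nonneg (z 0)
  have hy : C₀ ≤ |z 1| := by nlinarith
  have hy1 : 1 ≤ |z 1| := hC1.trans hy
  have hx : |z 0| ≤ |z 1| / C₀ := by
    rw [le_div_iff₀ (by linarith)]
    nlinarith
  have hterm : ∀ d ∈ g.support, d ≠ Finsupp.single 1 D →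
      |z 0| ^ d 0 * |z 1| ^ d 1 ≤ |z 1| ^ D / C₀ := by
    intro d hd hne
    have hdeg : d 0 + d 1 ≤ D := by
      have h4 := MvPolynomial.le_totalDegree hd
      have h5 : (d.sum fun _ e => e) = ∑ i, d i := Finsupp.sum_fintype _ _ (fun _ => rfl)
      rw [Fin.sum_univ_two] at h5
      omega
    have hC0 : 0 < C₀ := by linarith
    rw [le_div_iff₀ hC0]
    rcases Nat.eq_zero_or_pos (d 0) with h0 | h0
    · have h1 : d 1 + 1 ≤ D := by
        by_contra hcon2
        apply hne
        ext i
        fin_cases i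
        · simp [h0]
        · simp
          omega
      rw [h0, pow_zero, one_mul]
      calc |z 1| ^ d 1 * C₀ ≤ |z 1| ^ d 1 * |z 1| := by gcongr
        _ = |z 1| ^ (d 1 + 1) := (pow_succ _ _).symm
        _ ≤ |z 1| ^ D := pow_le_pow_right₀ hy1 h1
    · obtain ⟨a, ha⟩ : ∃ a, d 0 = a + 1 := ⟨d 0 - 1, by omega⟩
      have h1 : |z 0| ≤ |z 1| := hx.trans (div_le_self (abs_nonneg _) hC1)
      have h2 : |z 0| * C₀ ≤ |z 1| := by rwa [← le_div_iff₀ hC0]
      calc |z 0| ^ d 0 * |z 1| ^ d 1 * C₀ = |z 0| ^ a * (|z 0| * C₀) * |z 1| ^ d 1 := by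
            rw [ha, pow_succ]; ring
        _ ≤ |z 1| ^ a * |z 1| * |z 1| ^ d 1 := by gcongr
        _ = |z 1| ^ (d 0 + d 1) := by rw [ha, pow_add, pow_succ]
        _ ≤ |z 1| ^ D := pow_le_pow_right₀ hy1 hdeg
  have hmem : Finsupp.single 1 D ∈ g.support := by
    rw [MvPolynomial.mem_support_iff]
    exact hc.ne
  have hev : MvPolynomial.eval z g = -κ * |z 1| ^ D +
      ∑ d ∈ g.support.erase (Finsupp.single 1 D), MvPolynomial.coeff d g * (z 0 ^ d 0 * z 1 ^ d 1) := by
    rw [MvPolynomial.eval_eq', ← Finset.add_sum_erase _ _ hmem]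
    congr 1
    · rw [Fin.prod_univ_two, hDe.pow_abs, hκ]
      simp
    · exact Finset.sum_congr rfl fun d _ => by rw [Fin.prod_univ_two]
  have hsum : ∑ d ∈ g.support.erase (Finsupp.single 1 D),
      MvPolynomial.coeff d g * (z 0 ^ d 0 * z 1 ^ d 1) ≤ S * (|z 1| ^ D / C₀) := by
    have h1 : ∑ d ∈ g.support.erase (Finsupp.single 1 D),
        MvPolynomial.coeff d g * (z 0 ^ d 0 * z 1 ^ d 1) ≤
        ∑ d ∈ g.support.erase (Finsupp.single 1 D), |MvPolynomial.coeff d g| * (|z 1| ^ D / C₀) := by
      refine Finset.sum_le_sum fun d hd => ?_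
      rw [Finset.mem_erase] at hd
      refine (le_abs_self _).trans ?_
      rw [abs_mul, abs_mul, abs_pow, abs_pow]
      exact mul_le_mul_of_nonneg_left (hterm d hd.2 hd.1) (abs_nonneg _)
    refine h1.trans ?_
    rw [← Finset.sum_mul]
    refine mul_le_mul_of_nonneg_right ?_ (by positivity)
    exact Finset.sum_le_sum_of_subset_of_nonneg (Finset.erase_subset _ _) fun _ _ _ => abs_nonneg _
  have hlt : S * (|z 1| ^ D / C₀) < κ * |z 1| ^ D := by
    have hp : 0 < |z 1| ^ D := by positivity
    have h1 : S < κ * C₀ := by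
      rw [hC₀]
      have : κ * (1 + S / κ) = κ + S := by field_simp
      rw [this]
      linarith
    have hC0 : 0 < C₀ := by linarith
    rw [← mul_div_assoc, div_lt_iff₀ hC0]
    nlinarith
  rw [hev] at hz
  linarith

end Pool.Agent.Helper10.TC
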