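import Pool.Agent.Helper10.TC.LeadF

set_option autoImplicit false

/-!
# Project TC (MP_63c74b), block ULT: the ultrafilter argument

Write `Y_n = Y n`, `u_n = u n`, eventually means along the ultrafilter `U`. If `e = 0` then by `apx`
`Hf(u_n, Y_n) → 1`, contradiction; let `e ≥ 1`.
* Choose `l` with `D_n := ‖Y_n - p_l(u_n)‖ = min_m ‖Y_n - p_m(u_n)‖` eventually (finite partition;
  `Ultrafilter.eventually_exists...`, `Ultrafilter.finite_biUnion_mem_iff`, or prove
  `∀ᶠ n, ∃ l, ...` implies `∃ l, ∀ᶠ n, ...` for finite types).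
* `D_n` is bounded. Let `r ≤ B` be maximal with: `∃ K, ∀ᶠ n, D_n ≤ K u_n ^ r` (holds for `r = 0`).
* Let `c = reP (p_l)`, `δ_n = Y_n - c(u_n)` (real), `|δ_n| ≤ D_n` (real part of
  `Y_n - p_l(u_n)`) and `|Im p_l(u_n)| ≤ D_n`. So the last claim `|δ_n| ≤ K u_n ^ r` holds; it remains to
  show `GoodN Hf c r`. Suppose not; by `good_of_neg` and `lam_real`, `P(σ) := ∏ lam c r (p_m) σ` is
  real and `≥ 0` for all real `σ`.
* `σ_n := δ_n / u_n ^ r` is bounded, so it converges along `U` to some `σ₀`, also `D_n / u_n ^ r → D₀ ≥ 0`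
  (compactness: `IsCompact.ultrafilter_le_nhds` for `U.map`). With `W = ∑ ordk`, `prod_lead` gives
  `Hf(u_n, Y_n) / u_n ^ W - P(σ_n) → 0` along `U`.
* Case A, `D₀ > 0`. `P(σ₀) ≠ 0`: for `m` with the second alternative in `lam` (order `r`),
  `(Y_n - p_m(u_n)) / u_n ^ r → lam(σ₀)` by `factor_lead`, and `‖Y_n - p_m(u_n)‖ ≥ D_n`, so
  `|lam(σ₀)| ≥ D₀ > 0`; in the first alternative `lam` is a nonzero constant. So `P(σ₀) > 0` and
  `Hf(u_n, Y_n) > 0` eventually, a contradiction to `hneg`.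
* Case B, `D₀ = 0`. Then `σ₀ = 0`. Since `|Im p_l(u_n)| ≤ D_n = o(u_n ^ r)` and `Im p_l(u)` is a real
  polynomial in `u`, its coefficients of index `≤ r` vanish: `c - p_l` has coefficients `0` up to `r`, so
  `lam c r (p_l) σ = σ`.
  Let `S₃` be the set of `m` for which the coefficients of `c - p_m` of index `≤ r` vanish; `l ∈ S₃`,
  `μ = card S₃ ≥ 1`; for `m ∈ S₃`: `lam = σ`; for `m ∉ S₃`: `lam(0) ≠ 0`. So `P(σ) = σ^μ Q(σ)`
  with `Q(0) ≠ 0`, `Q` continuous; `P ≥ 0` on `ℝ` forces `Q(0)` real, `μ` even, `Q(0) > 0`.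
  - If `r = B`: by `hA.conj` there is `m` with `p_m = conj p_l`, its coefficients up to `B` agree with
    those of `p_l` (real up to index `B`), so `m = l` by `hA.sep`, so `p_l` is real, `p_l = c`; and for
    `m ∈ S₃` the coefficients of `p_m` and `p_l` up to `B` agree, `m = l`: `μ = 1`, odd. Contradiction.
  - If `r < B`: by maximality of `r`, for every `K`, `D_n > K u_n ^ (r+1)` eventually (ultrafilter). As
    `Im p_l(u_n) = O(u_n ^ (r+1))`, `|δ_n| ≥ D_n - |Im p_l(u_n)| ≥ D_n / 2` eventually, so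
    `|δ_n| / u_n ^ (r+1) → ∞`. For `m ∈ S₃`: `(Y_n - p_m(u_n)) / δ_n → 1` since
    `Y_n - p_m(u_n) = δ_n + (c - p_m)(u_n)`, `(c - p_m)(u_n) = O(u_n ^ (r+1))`. For `m ∉ S₃`:
    `(Y_n - p_m(u_n)) / u_n ^ ordk → lam(0)` by `factor_lead`. So
    `∏_m (Y_n - p_m(u_n)) / (u_n ^ W σ_n ^ μ) → Q(0) > 0` (`ordk = r` for `m ∈ S₃`), and
    `|σ_n| ≥ u_n`, so the error `K u_n ^ M / (u_n ^ W |σ_n| ^ μ) ≤ K u_n ^ (M - W - μ) → 0`, since
    `W ≤ e B`, `μ ≤ e`, `M ≥ (e+1)(B+1) ≥ W + μ + 1`. So `Hf(u_n, Y_n) / (u_n ^ W σ_n ^ μ) → Q(0) > 0`;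
    `μ` even, so `Hf(u_n, Y_n) > 0` eventually. Contradiction.
-/

open Polynomial Filter Topology

namespace Pool.Agent.Helper10.TC

private lemma ultra_exists15 {ι : Type*} [Finite ι] (U : Ultrafilter ℕ) {P : ι → ℕ → Prop}
    (h : ∀ᶠ n in (U : Filter ℕ), ∃ i, P i n) : ∃ i, ∀ᶠ n in (U : Filter ℕ), P i n := by
  by_contra hcon
  push Not at hcon
  obtain ⟨n, h2, i, h3⟩ := ((Filter.eventually_all.2 hcon).and h).exists
  exact h2 i h3

private lemma ultra_lim15 (U : Ultrafilter ℕ) (f : ℕ → ℝ) (K : ℝ)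
    (h : ∀ᶠ n in (U : Filter ℕ), |f n| ≤ K) : ∃ x, Tendsto f U (𝓝 x) := by
  have h1 : ((U.map f : Ultrafilter ℝ) : Filter ℝ) ≤ 𝓟 (Set.Icc (-K) K) := by
    rw [Filter.le_principal_iff]
    exact h.mono fun n hn => abs_le.1 hn
  obtain ⟨x, -, hx⟩ := isCompact_Icc.ultrafilter_le_nhds (U.map f) h1
  exact ⟨x, hx⟩

private lemma contra15 {U : Ultrafilter ℕ} {H w : ℕ → ℝ} {z : ℂ}
    (h : Tendsto (fun n => ((H n : ℝ) : ℂ) / ((w n : ℝ) : ℂ)) U (𝓝 z)) (hz : 0 < z.re)
    (hH : ∀ n, H n < 0) (hw : ∀ᶠ n in (U : Filter ℕ), 0 < w n) : False := by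
  have h1 : Tendsto (fun n => H n / w n) U (𝓝 z.re) := by
    have h2 := (Complex.continuous_re.tendsto z).comp h
    refine h2.congr fun n => ?_
    rw [Function.comp_apply, ← Complex.ofReal_div, Complex.ofReal_re]
  have h3 := h1.eventually (lt_mem_nhds hz)
  obtain ⟨n, h4, h5⟩ := (h3.and hw).exists
  exact absurd (div_neg_of_neg_of_pos (hH n) h5) (not_lt.2 h4.le)

private lemma err15 {e : ℕ} {p : Fin e → C1} {B M : ℕ} {Hf : ℝ → ℝ → ℝ} (hA : Apx e p B M Hf)
    (U : Ultrafilter ℕ) (u Y : ℕ → ℝ) (hut : Tendsto u U (𝓝 0))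
    (hu0 : ∀ᶠ n in (U : Filter ℕ), 0 < u n) (hu1 : ∀ᶠ n in (U : Filter ℕ), u n ≤ 1)
    (R : ℝ) (hY : ∀ n, |Y n| ≤ R) (w : ℕ → ℝ) (k : ℕ) (hk : k < M)
    (hw : ∀ᶠ n in (U : Filter ℕ), u n ^ k ≤ w n) :
    Tendsto (fun n => ((Hf (u n) (Y n) : ℝ) : ℂ) / ((w n : ℝ) : ℂ) -
      (∏ l, ((Y n : ℂ) - (p l).eval (u n : ℂ))) / ((w n : ℝ) : ℂ)) U (𝓝 0) := by
  obtain ⟨C, hC0, hC⟩ := hA.apx R
  have h1 : Tendsto (fun n => C * u n) U (𝓝 0) := by
    have := hut.const_mul C
    rwa [mul_zero] at this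
  refine squeeze_zero_norm' ?_ h1
  filter_upwards [hu0, hu1, hw] with n h0 h2 h3
  have hk0 : 0 < u n ^ k := pow_pos h0 k
  have hw0 : 0 < w n := hk0.trans_le h3
  rw [← sub_div, norm_div, Complex.norm_real, Real.norm_of_nonneg hw0.le, div_le_iff₀ hw0]
  refine (hC (u n) (Y n) h0 h2 (hY n)).trans ?_
  have h4 : u n ^ M ≤ u n * u n ^ k := by
    rw [← pow_succ']
    exact pow_le_pow_of_le_one h0.le h2 hk
  calc C * u n ^ M ≤ C * (u n * u n ^ k) := mul_le_mul_of_nonneg_left h4 hC0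
    _ ≤ C * (u n * w n) := by
        refine mul_le_mul_of_nonneg_left (mul_le_mul_of_nonneg_left h3 h0.le) hC0
    _ = C * u n * w n := by ring

private lemma lam_cont15 (c : R1) (r : ℕ) (p : C1) : Continuous fun σ : ℂ => lam c r p σ := by
  unfold lam
  split_ifs
  · exact continuous_const
  · exact continuous_id.add continuous_const

private lemma lam_zero15 {c : R1} {r : ℕ} {p : C1} (h : lam c r p 0 = 0) :
    (∀ k ≤ r, (c.map Complex.ofRealHom - p).coeff k = 0) ∧ ordk c r p = r ∧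
      ∀ σ : ℂ, lam c r p σ = σ := by
  classical
  by_cases h1 : ∃ k, k < r ∧ (c.map Complex.ofRealHom - p).coeff k ≠ 0
  · exfalso
    unfold lam at h
    rw [dif_pos h1] at h
    exact (Nat.find_spec h1).2 h
  · have h2 : (c.map Complex.ofRealHom - p).coeff r = 0 := by
      unfold lam at h
      rw [dif_neg h1, zero_add] at h
      exact h
    refine ⟨?_, ?_, ?_⟩
    · intro k hk
      rcases hk.lt_or_eq with h3 | h3
      · by_contra h4
        exact h1 ⟨k, h3, h4⟩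
      · rw [h3, h2]
    · unfold ordk
      rw [dif_neg h1]
    · intro σ
      unfold lam
      rw [dif_neg h1, h2, add_zero]

private lemma factor_lim15 (c : R1) (r : ℕ) (p : C1) (U : Ultrafilter ℕ) (u Y σ : ℕ → ℝ)
    (hut : Tendsto u U (𝓝 0)) (hu0 : ∀ᶠ n in (U : Filter ℕ), 0 < u n)
    (hu1 : ∀ᶠ n in (U : Filter ℕ), u n ≤ 1) (K : ℝ) (hσK : ∀ᶠ n in (U : Filter ℕ), |σ n| ≤ K)
    (hYσ : ∀ᶠ n in (U : Filter ℕ), c.eval (u n) + σ n * u n ^ r = Y n) (σ₀ : ℝ)
    (hσ : Tendsto σ U (𝓝 σ₀)) :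
    Tendsto (fun n => ((Y n : ℂ) - p.eval (u n : ℂ)) / (u n : ℂ) ^ ordk c r p) U
      (𝓝 (lam c r p σ₀)) := by
  obtain ⟨C, hC0, hC⟩ := factor_lead c r p K
  have h1 : Tendsto (fun n => C * u n) U (𝓝 0) := by
    have := hut.const_mul C
    rwa [mul_zero] at this
  have h2 : Tendsto (fun n => ((Y n : ℂ) - p.eval (u n : ℂ)) / (u n : ℂ) ^ ordk c r p -
      lam c r p (σ n)) U (𝓝 0) := by
    refine squeeze_zero_norm' ?_ h1
    filter_upwards [hu0, hu1, hσK, hYσ] with n h0 h2 h3 h4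
    have h5 := hC (u n) (σ n) h0 h2 h3
    rw [h4] at h5
    have hk0 : 0 < u n ^ ordk c r p := pow_pos h0 _
    have hc0 : (u n : ℂ) ^ ordk c r p ≠ 0 := pow_ne_zero _ (Complex.ofReal_ne_zero.2 h0.ne')
    have e1 : ((Y n : ℂ) - p.eval (u n : ℂ)) / (u n : ℂ) ^ ordk c r p - lam c r p (σ n) =
        ((Y n : ℂ) - p.eval (u n : ℂ) - (u n : ℂ) ^ ordk c r p * lam c r p (σ n)) /
          (u n : ℂ) ^ ordk c r p := by
      field_simp
    rw [e1, norm_div, norm_pow, Complex.norm_real, Real.norm_of_nonneg h0.le, div_le_iff₀ hk0]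
    refine h5.trans (le_of_eq ?_)
    rw [pow_succ]
    ring
  have h3 : Tendsto (fun n => lam c r p (σ n)) U (𝓝 (lam c r p σ₀)) :=
    ((lam_cont15 c r p).tendsto (σ₀ : ℂ)).comp ((Complex.continuous_ofReal.tendsto σ₀).comp hσ)
  have h4 := h2.add h3
  rw [zero_add] at h4
  refine h4.congr fun n => ?_
  ring

private lemma sign15 (μ : ℕ) (Q : ℝ → ℂ) (hQc : Continuous Q) (hQ0 : Q 0 ≠ 0)
    (hre : ∀ σ : ℝ, 0 ≤ ((σ : ℂ) ^ μ * Q σ).re) (him : ∀ σ : ℝ, ((σ : ℂ) ^ μ * Q σ).im = 0) :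
    Even μ ∧ 0 < (Q 0).re := by
  have hre' : ∀ σ : ℝ, 0 ≤ σ ^ μ * (Q σ).re := by
    intro σ
    have h := hre σ
    rwa [← Complex.ofReal_pow, Complex.re_ofReal_mul] at h
  have him' : ∀ σ : ℝ, σ ^ μ * (Q σ).im = 0 := by
    intro σ
    have h := him σ
    rwa [← Complex.ofReal_pow, Complex.im_ofReal_mul] at h
  have hcre : Tendsto (fun σ => (Q σ).re) (𝓝 0) (𝓝 (Q 0).re) :=
    (Complex.continuous_re.comp hQc).tendsto 0
  have hcim : Tendsto (fun σ => (Q σ).im) (𝓝 0) (𝓝 (Q 0).im) :=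
    (Complex.continuous_im.comp hQc).tendsto 0
  have h1 : (Q 0).im = 0 := by
    have h2 : Tendsto (fun σ => (Q σ).im) (𝓝[>] (0 : ℝ)) (𝓝 (Q 0).im) :=
      hcim.mono_left nhdsWithin_le_nhds
    have h3 : Tendsto (fun σ => (Q σ).im) (𝓝[>] (0 : ℝ)) (𝓝 0) := by
      refine tendsto_const_nhds.congr' ?_
      filter_upwards [self_mem_nhdsWithin] with σ hσ
      have hσ' : (0 : ℝ) < σ := hσ
      exact ((mul_eq_zero.1 (him' σ)).resolve_left (pow_pos hσ' μ).ne').symm
    exact tendsto_nhds_unique h2 h3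
  have h2 : 0 ≤ (Q 0).re := by
    have h3 : Tendsto (fun σ => (Q σ).re) (𝓝[>] (0 : ℝ)) (𝓝 (Q 0).re) :=
      hcre.mono_left nhdsWithin_le_nhds
    refine ge_of_tendsto h3 ?_
    filter_upwards [self_mem_nhdsWithin] with σ hσ
    have hσ' : (0 : ℝ) < σ := hσ
    exact nonneg_of_mul_nonneg_right (hre' σ) (pow_pos hσ' μ)
  have h3 : (Q 0).re ≠ 0 := fun h => hQ0 (Complex.ext h h1)
  have h4 : 0 < (Q 0).re := lt_of_le_of_ne h2 (Ne.symm h3)
  refine ⟨?_, h4⟩
  by_contra hodd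
  rw [Nat.not_even_iff_odd] at hodd
  have h5 : Tendsto (fun σ => (Q σ).re) (𝓝[<] (0 : ℝ)) (𝓝 (Q 0).re) :=
    hcre.mono_left nhdsWithin_le_nhds
  have h6 : (Q 0).re ≤ 0 := by
    refine le_of_tendsto h5 ?_
    filter_upwards [self_mem_nhdsWithin] with σ hσ
    have hσ' : σ < 0 := hσ
    have h7 := hodd.pow_neg hσ'
    have h8 := hre' σ
    by_contra hcon
    rw [not_le] at hcon
    exact absurd (mul_neg_of_neg_of_pos h7 hcon) (not_lt.2 h8)
  linarith

theorem near_of_ultra {e : ℕ} {p : Fin e → C1} {B M : ℕ} {Hf : ℝ → ℝ → ℝ} (hA : Apx e p B M Hf)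
    (U : Ultrafilter ℕ) (u Y : ℕ → ℝ) (hu : Tendsto u U (𝓝[>] 0)) (R : ℝ) (hY : ∀ n, |Y n| ≤ R)
    (hneg : ∀ n, Hf (u n) (Y n) < 0) :
    ∃ (l : Fin e) (r : ℕ), r ≤ B ∧ GoodN Hf (reP (p l)) r ∧
      ∃ K : ℝ, ∀ᶠ n in U, |Y n - (reP (p l)).eval (u n)| ≤ K * u n ^ r := by
  classical
  have hu0 : ∀ᶠ n in (U : Filter ℕ), 0 < u n := hu.eventually self_mem_nhdsWithin
  have hut : Tendsto u U (𝓝 0) := hu.mono_right nhdsWithin_le_nhds
  have hu1 : ∀ᶠ n in (U : Filter ℕ), u n ≤ 1 := hut.eventually (eventually_le_nhds zero_lt_one)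
  have hbig := hA.big
  rcases Nat.eq_zero_or_pos e with rfl | he
  · exfalso
    have h1 := err15 hA U u Y hut hu0 hu1 R hY (fun _ => 1) 0 (by omega)
      (Eventually.of_forall fun n => by rw [pow_zero])
    have h2 : Tendsto (fun n => ((Hf (u n) (Y n) : ℝ) : ℂ) / (((1 : ℝ) : ℝ) : ℂ)) U (𝓝 1) := by
      have h3 := h1.add (tendsto_const_nhds (x := (1 : ℂ)))
      rw [zero_add] at h3
      refine h3.congr fun n => ?_
      simp
    exact contra15 (w := fun _ => 1) h2 (by simp) hneg (Eventually.of_forall fun n => one_pos)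
  have : Nonempty (Fin e) := ⟨⟨0, he⟩⟩
  obtain ⟨l, hl⟩ := ultra_exists15 U
    (P := fun l n => ∀ m, ‖(Y n : ℂ) - (p l).eval (u n : ℂ)‖ ≤ ‖(Y n : ℂ) - (p m).eval (u n : ℂ)‖)
    (Eventually.of_forall fun n => Finite.exists_min
      (fun m => ‖(Y n : ℂ) - (p m).eval (u n : ℂ)‖))
  obtain ⟨D, hD⟩ : ∃ D : ℕ → ℝ, ∀ n, D n = ‖(Y n : ℂ) - (p l).eval (u n : ℂ)‖ :=
    ⟨_, fun _ => rfl⟩
  have hDn : ∀ n, 0 ≤ D n := fun n => by rw [hD]; exact norm_nonneg _
  -- the maximal exponent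
  obtain ⟨Pr, hPr⟩ : ∃ Pr : ℕ → Prop, ∀ r, Pr r ↔
      ∃ K : ℝ, ∀ᶠ n in (U : Filter ℕ), D n ≤ K * u n ^ r := ⟨_, fun _ => Iff.rfl⟩
  have hPr0 : Pr 0 := by
    rw [hPr]
    have h1 : Tendsto (fun n => ‖(p l).eval (u n : ℂ)‖) U (𝓝 ‖(p l).eval ((0 : ℝ) : ℂ)‖) :=
      (((p l).continuous.tendsto _).comp ((Complex.continuous_ofReal.tendsto 0).comp hut)).norm
    have h2 := h1.eventually (eventually_le_nhds (lt_add_one _))
    refine ⟨R + (‖(p l).eval ((0 : ℝ) : ℂ)‖ + 1), h2.mono fun n hn => ?_⟩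
    rw [pow_zero, mul_one, hD]
    refine (norm_sub_le _ _).trans (add_le_add ?_ hn)
    rw [Complex.norm_real, Real.norm_eq_abs]
    exact hY n
  obtain ⟨r, hr⟩ : ∃ r, r = Nat.findGreatest Pr B := ⟨_, rfl⟩
  have hrB : r ≤ B := by rw [hr]; exact Nat.findGreatest_le B
  have hPrr : Pr r := by rw [hr]; exact Nat.findGreatest_spec (Nat.zero_le B) hPr0
  have hmax : r < B → ¬ Pr (r + 1) := by
    intro h
    exact Nat.findGreatest_is_greatest (by rw [← hr]; exact Nat.lt_succ_self r) h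
  obtain ⟨K, hK⟩ := (hPr r).1 hPrr
  obtain ⟨c, hc⟩ : ∃ c, c = reP (p l) := ⟨_, rfl⟩
  obtain ⟨δ, hδ⟩ : ∃ δ : ℕ → ℝ, ∀ n, δ n = Y n - c.eval (u n) := ⟨_, fun _ => rfl⟩
  have hδD : ∀ n, |δ n| ≤ D n := by
    intro n
    have e1 : δ n = ((Y n : ℂ) - (p l).eval (u n : ℂ)).re := by
      rw [hδ, hc, eval_reP, Complex.sub_re, Complex.ofReal_re]
    rw [e1, hD]
    exact Complex.abs_re_le_norm _
  refine ⟨l, r, hrB, ?_, K, ?_⟩
  swap
  · filter_upwards [hK] with n hn
    rw [← hc, ← hδ]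
    exact (hδD n).trans hn
  rw [← hc]
  by_contra hng
  have hPre : ∀ σ : ℝ, 0 ≤ (∏ m, lam c r (p m) σ).re := by
    intro σ
    by_contra h
    exact hng (good_of_neg hA c r hrB σ (not_le.1 h))
  have hPim : ∀ σ : ℝ, (∏ m, lam c r (p m) σ).im = 0 := fun σ => lam_real hA c r hrB σ
  obtain ⟨σ, hσd⟩ : ∃ σ : ℕ → ℝ, ∀ n, σ n = δ n / u n ^ r := ⟨_, fun _ => rfl⟩
  have hDK : ∀ᶠ n in (U : Filter ℕ), D n / u n ^ r ≤ K := by
    filter_upwards [hK, hu0] with n h1 h2
    rw [div_le_iff₀ (pow_pos h2 r)]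
    exact h1
  have hσD : ∀ᶠ n in (U : Filter ℕ), |σ n| ≤ D n / u n ^ r := by
    filter_upwards [hu0] with n h2
    rw [hσd, abs_div, abs_of_pos (pow_pos h2 r)]
    exact div_le_div_of_nonneg_right (hδD n) (pow_pos h2 r).le
  have hσK : ∀ᶠ n in (U : Filter ℕ), |σ n| ≤ K := by
    filter_upwards [hDK, hσD] with n h1 h2
    exact h2.trans h1
  have hYσ : ∀ᶠ n in (U : Filter ℕ), c.eval (u n) + σ n * u n ^ r = Y n := by
    filter_upwards [hu0] with n h2
    rw [hσd, div_mul_cancel₀ _ (pow_pos h2 r).ne', hδ]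
    ring
  obtain ⟨σ₀, hσ₀⟩ := ultra_lim15 U σ K hσK
  obtain ⟨D₀, hD₀⟩ := ultra_lim15 U (fun n => D n / u n ^ r) K (by
    filter_upwards [hDK, hu0] with n h1 h2
    rw [abs_of_nonneg (div_nonneg (hDn n) (pow_pos h2 r).le)]
    exact h1)
  have hfl : ∀ m, Tendsto (fun n => ((Y n : ℂ) - (p m).eval (u n : ℂ)) / (u n : ℂ) ^ ordk c r (p m)) U
      (𝓝 (lam c r (p m) σ₀)) := fun m =>
    factor_lim15 c r (p m) U u Y σ hut hu0 hu1 K hσK hYσ σ₀ hσ₀
  rcases eq_or_ne D₀ 0 with hD0 | hD0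
  swap
  · -- case A
    have hD0' : 0 < D₀ := by
      refine lt_of_le_of_ne (ge_of_tendsto hD₀ ?_) (Ne.symm hD0)
      filter_upwards [hu0] with n h2
      exact div_nonneg (hDn n) (pow_pos h2 r).le
    have hne : ∏ m, lam c r (p m) σ₀ ≠ 0 := by
      rw [Finset.prod_ne_zero_iff]
      intro m _
      by_cases h1 : ∃ k, k < r ∧ (c.map Complex.ofRealHom - p m).coeff k ≠ 0
      · unfold lam
        rw [dif_pos h1]
        exact (Nat.find_spec h1).2
      · have h2 : ordk c r (p m) = r := by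
          unfold ordk
          rw [dif_neg h1]
        have h3 := (hfl m).norm
        rw [h2] at h3
        have h4 : D₀ ≤ ‖lam c r (p m) σ₀‖ := by
          refine le_of_tendsto_of_tendsto hD₀ h3 ?_
          filter_upwards [hu0, hl] with n h5 h6
          rw [norm_div, norm_pow, Complex.norm_real, Real.norm_of_nonneg h5.le, hD]
          exact div_le_div_of_nonneg_right (h6 m) (pow_pos h5 r).le
        intro h5
        rw [h5, norm_zero] at h4
        linarith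
    have hpos : 0 < (∏ m, lam c r (p m) σ₀).re := by
      refine lt_of_le_of_ne (hPre σ₀) fun h => hne ?_
      exact Complex.ext h.symm (hPim σ₀)
    obtain ⟨W, hW⟩ : ∃ W, W = ∑ m, ordk c r (p m) := ⟨_, rfl⟩
    have hWM : W < M := by
      have h1 : W ≤ ∑ _m : Fin e, r := by
        rw [hW]
        exact Finset.sum_le_sum fun m _ => ordk_le c r (p m)
      rw [Finset.sum_const, Finset.card_univ, Fintype.card_fin, smul_eq_mul] at h1
      have h2 : e * r ≤ e * B := Nat.mul_le_mul_left _ hrB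
      nlinarith
    have h1 := err15 hA U u Y hut hu0 hu1 R hY (fun n => u n ^ W) W hWM
      (Eventually.of_forall fun n => le_rfl)
    have h2 : Tendsto (fun n => ∏ m, ((Y n : ℂ) - (p m).eval (u n : ℂ)) / (u n : ℂ) ^ ordk c r (p m)) U
        (𝓝 (∏ m, lam c r (p m) σ₀)) := tendsto_finsetProd _ fun m _ => hfl m
    have h3 := h1.add h2
    rw [zero_add] at h3
    refine contra15 (w := fun n => u n ^ W) (h3.congr fun n => ?_) hpos hneg
      (hu0.mono fun n hn => pow_pos hn W)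
    rw [Finset.prod_div_distrib, Finset.prod_pow_eq_pow_sum, ← hW, ← Complex.ofReal_pow]
    ring
  · -- case B
    rw [hD0] at hD₀
    have hs0 : σ₀ = 0 := by
      have h1 : Tendsto σ U (𝓝 0) := squeeze_zero_norm' (by
        filter_upwards [hσD] with n hn
        rw [Real.norm_eq_abs]
        exact hn) hD₀
      exact tendsto_nhds_unique hσ₀ h1
    have hfl0 : ∀ m, Tendsto (fun n => ((Y n : ℂ) - (p m).eval (u n : ℂ)) / (u n : ℂ) ^ ordk c r (p m)) U
        (𝓝 (lam c r (p m) 0)) := by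
      intro m
      have h1 := hfl m
      rwa [hs0, Complex.ofReal_zero] at h1
    have hl0 : lam c r (p l) 0 = 0 := by
      have h1 : Tendsto (fun n => ((Y n : ℂ) - (p l).eval (u n : ℂ)) / (u n : ℂ) ^ ordk c r (p l)) U
          (𝓝 0) := by
        refine squeeze_zero_norm' ?_ hD₀
        filter_upwards [hu0, hu1] with n h2 h3
        rw [norm_div, norm_pow, Complex.norm_real, Real.norm_of_nonneg h2.le, ← hD]
        refine div_le_div_of_nonneg_left (hDn n) (pow_pos h2 _) ?_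
        exact pow_le_pow_of_le_one h2.le h3 (ordk_le c r (p l))
      exact tendsto_nhds_unique (hfl0 l) h1
    obtain ⟨S, hS⟩ : ∃ S : Finset (Fin e), S = Finset.univ.filter fun m => lam c r (p m) 0 = 0 :=
      ⟨_, rfl⟩
    have hmS : ∀ m, m ∈ S ↔ lam c r (p m) 0 = 0 := fun m => by
      rw [hS, Finset.mem_filter]
      simp
    obtain ⟨μ, hμ⟩ : ∃ μ, μ = S.card := ⟨_, rfl⟩
    obtain ⟨Q, hQ⟩ : ∃ Q : ℝ → ℂ, ∀ s, Q s = ∏ m ∈ Sᶜ, lam c r (p m) s := ⟨_, fun _ => rfl⟩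
    have hPQ : ∀ s : ℝ, ∏ m, lam c r (p m) s = (s : ℂ) ^ μ * Q s := by
      intro s
      rw [← Finset.prod_mul_prod_compl S, hQ, hμ]
      congr 1
      rw [Finset.prod_congr rfl fun m hm => (lam_zero15 ((hmS m).1 hm)).2.2 s, Finset.prod_const]
    have hQc : Continuous Q := by
      have h1 : Q = fun s : ℝ => ∏ m ∈ Sᶜ, lam c r (p m) (s : ℂ) := funext hQ
      rw [h1]
      exact continuous_finsetProd _ fun m _ => (lam_cont15 c r (p m)).comp Complex.continuous_ofReal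
    have hQ0 : Q 0 ≠ 0 := by
      rw [hQ, Finset.prod_ne_zero_iff]
      intro m hm
      rw [Complex.ofReal_zero]
      rw [Finset.mem_compl, hmS] at hm
      exact hm
    obtain ⟨hev, hQpos⟩ := sign15 μ Q hQc hQ0 (fun s => by rw [← hPQ]; exact hPre s)
      (fun s => by rw [← hPQ]; exact hPim s)
    rcases hrB.lt_or_eq with hlt | heq
    swap
    · -- `r = B`
      have hSl : S = {l} := by
        ext m
        rw [hmS, Finset.mem_singleton]
        constructor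
        · intro hm
          by_contra hne
          obtain ⟨k, hk, hk2⟩ := hA.sep m l hne
          have h1 := (lam_zero15 hm).1 k (by rw [heq]; exact hk)
          have h2 := (lam_zero15 hl0).1 k (by rw [heq]; exact hk)
          rw [coeff_sub, sub_eq_zero] at h1 h2
          exact hk2 (h1.symm.trans h2)
        · rintro rfl
          exact hl0
      rw [hμ, hSl, Finset.card_singleton] at hev
      exact absurd hev (by decide)
    · -- `r < B`
      have hnot := hmax hlt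
      have hDbig : ∀ K' : ℝ, ∀ᶠ n in (U : Filter ℕ), K' * u n ^ (r + 1) < D n := by
        intro K'
        have h1 : ¬ ∀ᶠ n in (U : Filter ℕ), D n ≤ K' * u n ^ (r + 1) := fun h =>
          hnot ((hPr (r + 1)).2 ⟨K', h⟩)
        exact (Ultrafilter.eventually_not.2 h1).mono fun n hn => not_le.1 hn
      have hcp : ∀ m ∈ S, ∃ C : ℝ, 0 ≤ C ∧ ∀ᶠ n in (U : Filter ℕ),
          ‖((c.eval (u n) : ℝ) : ℂ) - (p m).eval (u n : ℂ)‖ ≤ C * u n ^ (r + 1) := by
        intro m hm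
        obtain ⟨C, hC0, hC⟩ := factor_lead c r (p m) 0
        refine ⟨C, hC0, ?_⟩
        filter_upwards [hu0, hu1] with n h1 h2
        have h3 := hC (u n) 0 h1 h2 (by rw [abs_zero])
        have h4 := lam_zero15 ((hmS m).1 hm)
        rw [h4.2.1, Complex.ofReal_zero, (hmS m).1 hm, mul_zero, sub_zero, zero_mul, add_zero] at h3
        exact h3
      have hδbig : ∀ K' : ℝ, ∀ᶠ n in (U : Filter ℕ), K' * u n ^ (r + 1) < |δ n| := by
        intro K'
        obtain ⟨C, hC0, hC⟩ := hcp l ((hmS l).2 hl0)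
        filter_upwards [hDbig (K' + C), hC] with n h1 h2
        have h3 : D n ≤ |δ n| + ‖((c.eval (u n) : ℝ) : ℂ) - (p l).eval (u n : ℂ)‖ := by
          rw [hD]
          have e1 : (Y n : ℂ) - (p l).eval (u n : ℂ) =
              ((δ n : ℝ) : ℂ) + (((c.eval (u n) : ℝ) : ℂ) - (p l).eval (u n : ℂ)) := by
            rw [hδ]
            push_cast
            ring
          rw [e1]
          refine (norm_add_le _ _).trans (le_of_eq ?_)
          rw [Complex.norm_real, Real.norm_eq_abs]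
        nlinarith
      have hb : Tendsto (fun n => u n ^ (r + 1) / |δ n|) U (𝓝 0) := by
        rw [Metric.tendsto_nhds]
        intro ε hε
        filter_upwards [hδbig (1 / ε), hu0] with n h1 h2
        have h3 : 0 < u n ^ (r + 1) := pow_pos h2 _
        have h4 : 0 < |δ n| := lt_trans (by positivity) h1
        rw [Real.dist_eq, sub_zero, abs_of_nonneg (div_nonneg h3.le h4.le), div_lt_iff₀ h4]
        rw [div_mul_eq_mul_div, one_mul, div_lt_iff₀ hε] at h1
        linarith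
      have hfS : ∀ m ∈ S, Tendsto (fun n => ((Y n : ℂ) - (p m).eval (u n : ℂ)) / ((δ n : ℝ) : ℂ)) U
          (𝓝 1) := by
        intro m hm
        obtain ⟨C, hC0, hC⟩ := hcp m hm
        have h1 : Tendsto (fun n => ((Y n : ℂ) - (p m).eval (u n : ℂ)) / ((δ n : ℝ) : ℂ) - 1) U
            (𝓝 0) := by
          have h2 : Tendsto (fun n => C * (u n ^ (r + 1) / |δ n|)) U (𝓝 0) := by
            have := hb.const_mul C
            rwa [mul_zero] at this
          refine squeeze_zero_norm' ?_ h2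
          filter_upwards [hC, hδbig 0] with n h3 h4
          rw [zero_mul] at h4
          have h5 : ((δ n : ℝ) : ℂ) ≠ 0 := Complex.ofReal_ne_zero.2 (abs_pos.1 h4)
          have e1 : ((Y n : ℂ) - (p m).eval (u n : ℂ)) / ((δ n : ℝ) : ℂ) - 1 =
              (((c.eval (u n) : ℝ) : ℂ) - (p m).eval (u n : ℂ)) / ((δ n : ℝ) : ℂ) := by
            rw [div_sub_one h5]
            congr 1
            rw [hδ]
            push_cast
            ring
          rw [e1, norm_div, Complex.norm_real, Real.norm_eq_abs, ← mul_div_assoc]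
          exact div_le_div_of_nonneg_right h3 h4.le
        have h2 := h1.add (tendsto_const_nhds (x := (1 : ℂ)))
        rw [zero_add] at h2
        refine h2.congr fun n => ?_
        ring
      have h1 : Tendsto (fun n => ∏ m ∈ S, ((Y n : ℂ) - (p m).eval (u n : ℂ)) / ((δ n : ℝ) : ℂ)) U
          (𝓝 (∏ _m ∈ S, (1 : ℂ))) := tendsto_finsetProd _ hfS
      rw [Finset.prod_const_one] at h1
      have h2 : Tendsto (fun n => ∏ m ∈ Sᶜ, ((Y n : ℂ) - (p m).eval (u n : ℂ)) /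
          (u n : ℂ) ^ ordk c r (p m)) U (𝓝 (Q 0)) := by
        rw [hQ, Complex.ofReal_zero]
        exact tendsto_finsetProd _ fun m _ => hfl0 m
      have h3 := h1.mul h2
      rw [one_mul] at h3
      obtain ⟨W, hW⟩ : ∃ W, W = ∑ m ∈ Sᶜ, ordk c r (p m) := ⟨_, rfl⟩
      have hkM : (r + 1) * μ + W < M := by
        have h4 : W ≤ ∑ _m ∈ Sᶜ, r := by
          rw [hW]
          exact Finset.sum_le_sum fun m _ => ordk_le c r (p m)
        rw [Finset.sum_const, smul_eq_mul] at h4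
        have h5 : S.card + Sᶜ.card = e := by
          rw [Finset.card_add_card_compl, Fintype.card_fin]
        have h6 : Sᶜ.card * r ≤ Sᶜ.card * (r + 1) := Nat.mul_le_mul_left _ (Nat.le_succ r)
        have h7 : (r + 1) * μ + Sᶜ.card * (r + 1) = e * (r + 1) := by
          have h9 : (S.card + Sᶜ.card) * (r + 1) = e * (r + 1) := by rw [h5]
          rw [← h9, hμ]
          ring
        have h8 : e * (r + 1) ≤ e * B := Nat.mul_le_mul_left _ hlt
        nlinarith
      have hwge : ∀ᶠ n in (U : Filter ℕ), u n ^ ((r + 1) * μ + W) ≤ δ n ^ μ * u n ^ W := by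
        filter_upwards [hδbig 1, hu0] with n h4 h5
        rw [one_mul] at h4
        rw [pow_add, pow_mul]
        refine mul_le_mul_of_nonneg_right ?_ (pow_pos h5 W).le
        rw [← hev.pow_abs (δ n)]
        exact pow_le_pow_left₀ (pow_pos h5 _).le h4.le μ
      have h4 := err15 hA U u Y hut hu0 hu1 R hY (fun n => δ n ^ μ * u n ^ W) _ hkM hwge
      have h5 := h4.add h3
      rw [zero_add] at h5
      refine contra15 (w := fun n => δ n ^ μ * u n ^ W) (h5.congr fun n => ?_) hQpos hneg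
        ((hwge.and hu0).mono fun n hn => (pow_pos hn.2 _).trans_le hn.1)
      rw [Finset.prod_div_distrib, Finset.prod_div_distrib, Finset.prod_pow_eq_pow_sum, ← hW,
        Finset.prod_const, ← hμ, div_mul_div_comm, Finset.prod_mul_prod_compl]
      push_cast
      ring

end Pool.Agent.Helper10.TC
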