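import Pool.Agent.Helper10.TC.Gro
import Pool.Agent.Helper10.TC.Cnt

set_option autoImplicit false

/-!
# Project TC (MP_63c74b), block COUNT: counts from growth

`n₀ = max (totalDegree E) m`, `H = hat n₀ E ≠ 0`, `natDegree H = d := degreeOf 1 E ≤ n₀` (`hat_natDegree`,
`degreeOf_le_totalDegree`), `a = n₀ - d` (`hat_lc`), `k = N (n₀ - m)`; `growth_ball` gives
`C (X^k) ∣ onR N (B j) H`, and `onR_dvd_iff` the hypothesis of `exists_counts`. The result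
`2 N N (n₀ - m) ≤ ∑ n_i Ah + 2 N N (n₀ - d)` is the claim (`m ≤ n₀`, `d ≤ n₀`; go to `ℤ`, or `omega`-like
arithmetic with `c = 2 N N`).
-/

open Pool.Agent.Helper68.QM

namespace Pool.Agent.Helper10.TC

theorem counts_of_growth (g : A) (D : ℕ) (hD : g.totalDegree ≤ D) (hDe : Even D) (N : ℕ)
    (hN : N ≠ 0) {J : ℕ} (hJ : 0 < J) (B : Fin J → Ball) (hB : ∀ j, Good N (hat D g) (B j)) (m : ℕ)
    (E : A) (hE : E ∈ gsp g m) (hE0 : E ≠ 0) :
    ∃ n : Fin J → ℕ, ∑ i, n i = MvPolynomial.degreeOf 1 E ∧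
      ∀ j, 2 * N * N * MvPolynomial.degreeOf 1 E ≤
        ∑ i, n i * Ah N (B i) (B j) + 2 * N * N * m := by
  obtain ⟨n₀, hn₀⟩ : ∃ n₀, n₀ = max E.totalDegree m := ⟨_, rfl⟩
  have h1 : E.totalDegree ≤ n₀ := by rw [hn₀]; exact le_max_left _ _
  have h2 : m ≤ n₀ := by rw [hn₀]; exact le_max_right _ _
  obtain ⟨d, hd⟩ : ∃ d, d = MvPolynomial.degreeOf 1 E := ⟨_, rfl⟩
  have h3 : d ≤ n₀ := by rw [hd]; exact (MvPolynomial.degreeOf_le_totalDegree E 1).trans h1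
  obtain ⟨n, hn1, hn2⟩ := exists_counts N hN hJ B (hat n₀ E) (n₀ - d) (N * (n₀ - m))
    (hat_ne_zero n₀ E h1 hE0) (by rw [hd]; exact hat_lc n₀ E h1 hE0) (fun j => by
      rw [← onR_dvd_iff N hN]
      exact growth_ball g E D hD hDe N hN (B j) (hB j) m n₀ h1 hE)
  refine ⟨n, ?_, fun j => ?_⟩
  · rw [hn1, hat_natDegree n₀ E h1 hE0]
  · rw [← hd]
    have h4 := hn2 j
    obtain ⟨x, hx⟩ := Nat.exists_eq_add_of_le h2
    obtain ⟨y, hy⟩ := Nat.exists_eq_add_of_le h3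
    have e1 : n₀ - m = x := by omega
    have e2 : n₀ - d = y := by omega
    rw [e1, e2] at h4
    have e3 : 2 * N * N * (m + x) = 2 * N * N * (d + y) := by rw [← hx, ← hy]
    nlinarith

end Pool.Agent.Helper10.TC
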