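import Pool.Agent.Helper10.TC.Gro

set_option autoImplicit false

/-!
# Project TC (MP_63c74b), block FD: bounded `y`-degree gives finite dimension

Let `V_n = {E ∈ gsp g m | totalDegree E ≤ n}`, `n ≥ m`. For `E ∈ V_n` let `Q = onR N b (hat n E)
= ∑ E_{ab} (± u^N)^(n-a-b) (q(u) + σ u^r)^b`. The `σ`-degree of `Q` is `≤ d₀`; all exponents of `u` in `Q` are
`≤ N n + d₀ (deg q + r)` and (`growth_ball`) `≥ N (n - m)`. So the linear map
`E ↦ ((Q.coeff j).coeff (N (n - m) + i))_{j ≤ d₀, i ≤ N m + d₀ (deg q + r)}` on `V_n` is injective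
(`onR` is injective: `comp` with `C q + C (X^r) * X` and `s ↦ ± u^N` are injective; or: `Q = 0` gives
`ev s Y (hat n E) = 0` on a large set of `(s, Y)` by `ev_onR`; and `hat n E = 0` implies `E = 0`), so
`dim V_n ≤ W := (d₀ + 1) (N m + d₀ (deg q + r) + 1)`, independent of `n`. Every finite linearly independent
subset of `gsp g m` is contained in some `V_n`, so it has at most `W` elements: `rank_le` (Mathlib) and
`Module.rank_lt_aleph0_iff` give finiteness.
-/

open Pool.Agent.Helper68.QM

namespace Pool.Agent.Helper10.TC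

open Polynomial

/-- `hat` as a sum over a larger set -/
private theorem hat_eq (n : ℕ) (E : A) (S : Finset (Fin 2 →₀ ℕ)) (hS : E.support ⊆ S) :
    hat n E = ∑ m ∈ S, Polynomial.C (Polynomial.C (MvPolynomial.coeff m E) *
      Polynomial.X ^ (n - m 0 - m 1)) * Polynomial.X ^ (m 1) := by
  rw [hat]
  refine Finset.sum_subset hS fun m _ hm => ?_
  rw [MvPolynomial.notMem_support_iff.1 hm, C_0, zero_mul, C_0, zero_mul]

private theorem hat_add (n : ℕ) (E F : A) : hat n (E + F) = hat n E + hat n F := by
  classical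
  have h1 : (E + F).support ⊆ E.support ∪ F.support := MvPolynomial.support_add
  rw [hat_eq n (E + F) _ h1, hat_eq n E _ Finset.subset_union_left,
    hat_eq n F _ Finset.subset_union_right, ← Finset.sum_add_distrib]
  refine Finset.sum_congr rfl fun m _ => ?_
  rw [MvPolynomial.coeff_add]
  simp only [map_add, add_mul]

private theorem hat_smul (n : ℕ) (c : ℝ) (E : A) : hat n (c • E) = C (C c) * hat n E := by
  have h1 : (c • E).support ⊆ E.support := MvPolynomial.support_smul
  rw [hat_eq n (c • E) _ h1, hat_eq n E _ (Finset.Subset.refl _), Finset.mul_sum]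
  refine Finset.sum_congr rfl fun m _ => ?_
  rw [MvPolynomial.coeff_smul, smul_eq_mul]
  simp only [map_mul, mul_assoc]

/-- the linear polynomial substituted for `Y` -/
private noncomputable def lin (b : Ball) : R2 := C b.q + C (X ^ b.r) * X

private theorem onR_C (N : ℕ) (b : Ball) (a : R1) :
    onR N b (C a) = C (a.comp (C (sgn b.pos) * X ^ N)) := by
  rw [onR, RingHom.comp_apply, coe_mapRingHom, map_C, coe_compRingHom, coe_compRingHom]
  beta_reduce
  rw [C_comp]

private theorem onR_X (N : ℕ) (b : Ball) : onR N b X = lin b := by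
  rw [onR, RingHom.comp_apply, coe_mapRingHom, map_X, coe_compRingHom]
  beta_reduce
  rw [X_comp, lin]

/-- all coefficients have degree at most `M` -/
private def UD (M : ℕ) (Q : R2) : Prop := ∀ j, (Q.coeff j).natDegree ≤ M

private theorem ud_mul {M M' : ℕ} {P Q : R2} (h : UD M P) (h' : UD M' Q) :
    UD (M + M') (P * Q) := by
  intro j
  rw [coeff_mul]
  refine natDegree_sum_le_of_forall_le _ _ fun x _ => ?_
  exact natDegree_mul_le.trans (Nat.add_le_add (h _) (h' _))

private theorem ud_one : UD 0 1 := by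
  intro j
  rw [coeff_one]
  split_ifs <;> simp

private theorem ud_pow {M : ℕ} {P : R2} (h : UD M P) (n : ℕ) : UD (n * M) (P ^ n) := by
  induction n with
  | zero =>
    rw [zero_mul, pow_zero]
    exact ud_one
  | succ n ih =>
    rw [pow_succ, Nat.succ_mul]
    exact ud_mul ih h

private theorem ud_C {p : R1} {M : ℕ} (h : p.natDegree ≤ M) : UD M (C p) := by
  intro j
  rw [coeff_C]
  split_ifs
  · exact h
  · simp

private theorem ud_mono {M M' : ℕ} {P : R2} (h : UD M P) (hM : M ≤ M') : UD M' P :=
  fun j => (h j).trans hM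

private theorem ud_sum {ι : Type*} {M : ℕ} (s : Finset ι) {f : ι → R2}
    (h : ∀ i ∈ s, UD M (f i)) : UD M (∑ i ∈ s, f i) := by
  intro j
  rw [finsetSum_coeff]
  exact natDegree_sum_le_of_forall_le _ _ fun x hx => h x hx j

private theorem ud_lin (b : Ball) : UD (b.q.natDegree + b.r) (lin b) := by
  intro j
  rw [lin, coeff_add, coeff_C_mul]
  refine (natDegree_add_le _ _).trans (max_le ?_ ?_)
  · rw [coeff_C]
    split_ifs
    · exact Nat.le_add_right _ _
    · simp
  · rw [coeff_X]
    split_ifs
    · rw [mul_one, natDegree_X_pow]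
      exact Nat.le_add_left _ _
    · simp

private theorem natDegree_lin (b : Ball) : (lin b).natDegree = 1 := by
  have h1 : (C (X ^ b.r : R1) * X).natDegree = 1 :=
    natDegree_C_mul_X _ (pow_ne_zero _ X_ne_zero)
  rw [lin, add_comm, natDegree_add_C, h1]

private theorem onR_hat (N : ℕ) (b : Ball) (n : ℕ) (E : A) :
    onR N b (hat n E) = ∑ m ∈ E.support, C ((C (MvPolynomial.coeff m E) *
      X ^ (n - m 0 - m 1)).comp (C (sgn b.pos) * X ^ N)) * lin b ^ (m 1) := by
  rw [hat, map_sum]
  refine Finset.sum_congr rfl fun m _ => ?_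
  rw [map_mul, onR_C, map_pow, onR_X]

private theorem ud_onR (N : ℕ) (b : Ball) (n d₀ : ℕ) (E : A)
    (hd : MvPolynomial.degreeOf 1 E ≤ d₀) :
    UD (N * n + d₀ * (b.q.natDegree + b.r)) (onR N b (hat n E)) := by
  rw [onR_hat]
  refine ud_sum _ fun m hm => ud_mul (ud_C ?_) (ud_mono (ud_pow (ud_lin b) _) ?_)
  · refine natDegree_comp_le.trans ?_
    have h1 : (C (MvPolynomial.coeff m E) * X ^ (n - m 0 - m 1) : R1).natDegree ≤ n :=
      (natDegree_C_mul_X_pow_le _ _).trans (by omega)
    have h2 : (C (sgn b.pos) * X ^ N : R1).natDegree ≤ N := natDegree_C_mul_X_pow_le _ _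
    calc _ ≤ n * N := Nat.mul_le_mul h1 h2
      _ = N * n := mul_comm _ _
  · exact Nat.mul_le_mul_right _ ((MvPolynomial.monomial_le_degreeOf 1 hm).trans hd)

private theorem natDegree_onR (N : ℕ) (b : Ball) (n d₀ : ℕ) (E : A)
    (hd : MvPolynomial.degreeOf 1 E ≤ d₀) : (onR N b (hat n E)).natDegree ≤ d₀ := by
  rw [onR_hat]
  refine natDegree_sum_le_of_forall_le _ _ fun m hm => ?_
  refine (natDegree_C_mul_le _ _).trans (natDegree_pow_le.trans ?_)
  rw [natDegree_lin, mul_one]
  exact (MvPolynomial.monomial_le_degreeOf 1 hm).trans hd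

private theorem onR_inj (N : ℕ) (hN : N ≠ 0) (b : Ball) : Function.Injective (onR N b) := by
  have hs : sgn b.pos ≠ 0 := by
    unfold sgn
    split_ifs
    · exact one_ne_zero
    · exact neg_ne_zero.2 one_ne_zero
  have h1 : Function.Injective (compRingHom (C b.q + C (X ^ b.r) * X : R2)) := by
    rw [injective_iff_map_eq_zero]
    intro p hp
    rw [coe_compRingHom] at hp
    rcases comp_eq_zero_iff.1 hp with h | ⟨_, h⟩
    · exact h
    · exfalso
      have h2 := congrArg natDegree h
      have h3 := natDegree_lin b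
      rw [lin] at h3
      rw [h3, natDegree_C] at h2
      exact one_ne_zero h2
  have h2 : Function.Injective (compRingHom (C (sgn b.pos) * X ^ N : R1)) := by
    rw [injective_iff_map_eq_zero]
    intro p hp
    rw [coe_compRingHom] at hp
    rcases comp_eq_zero_iff.1 hp with h | ⟨_, h⟩
    · exact h
    · exfalso
      have h2 := congrArg natDegree h
      rw [natDegree_C_mul_X_pow _ _ hs, natDegree_C] at h2
      exact hN h2
  rw [onR, RingHom.coe_comp]
  refine h1.comp ?_
  rw [coe_mapRingHom]
  exact map_injective _ h2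

/-- the coefficients which determine `E` -/
private noncomputable def fdMap (g : A) (N : ℕ) (b : Ball) (m n J W : ℕ) :
    gsp g m →ₗ[ℝ] (Fin J × Fin W → ℝ) where
  toFun E p := ((onR N b (hat n E.1)).coeff p.1).coeff (N * (n - m) + p.2)
  map_add' E F := by
    funext p
    change ((onR N b (hat n (E.1 + F.1))).coeff p.1).coeff (N * (n - m) + p.2) = _
    rw [hat_add, map_add, coeff_add, coeff_add]
    rfl
  map_smul' c E := by
    funext p
    change ((onR N b (hat n (c • E.1))).coeff p.1).coeff (N * (n - m) + p.2) = _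
    rw [hat_smul, map_mul, onR_C, C_comp, coeff_C_mul, coeff_C_mul]
    rfl

private theorem fdMap_inj (g : A) (D : ℕ) (hD : g.totalDegree ≤ D) (hDe : Even D) (N : ℕ)
    (hN : N ≠ 0) (b : Ball) (hb : Good N (hat D g) b) (m d₀ : ℕ)
    (h : ∀ E ∈ gsp g m, MvPolynomial.degreeOf 1 E ≤ d₀) (n : ℕ) (hmn : m ≤ n) (E : gsp g m)
    (hE : E.1.totalDegree ≤ n)
    (h0 : fdMap g N b m n (d₀ + 1) (N * m + d₀ * (b.q.natDegree + b.r) + 1) E = 0) : E = 0 := by
  have hdeg := h E.1 E.2
  have hQ0 : onR N b (hat n E.1) = 0 := by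
    ext1 j
    ext1 i
    rw [coeff_zero, coeff_zero]
    by_cases hj : j ≤ d₀
    · rcases Nat.lt_or_ge i (N * (n - m)) with hi | hi
      · have h1 := growth_ball g E.1 D hD hDe N hN b hb m n hE E.2
        rw [C_dvd_iff_dvd_coeff] at h1
        exact X_pow_dvd_iff.1 (h1 j) i hi
      · by_cases hi2 : i < N * (n - m) + (N * m + d₀ * (b.q.natDegree + b.r) + 1)
        · have h1 := congrFun h0 (⟨j, by omega⟩, ⟨i - N * (n - m), by omega⟩)
          change ((onR N b (hat n E.1)).coeff j).coeff (N * (n - m) + (i - N * (n - m))) = 0 at h1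
          rwa [Nat.add_sub_cancel' hi] at h1
        · apply coeff_eq_zero_of_natDegree_lt
          have h1 := ud_onR N b n d₀ E.1 hdeg j
          have h2 : N * (n - m) + N * m = N * n := by
            rw [← mul_add, Nat.sub_add_cancel hmn]
          omega
    · rw [coeff_eq_zero_of_natDegree_lt (lt_of_le_of_lt (natDegree_onR N b n d₀ E.1 hdeg)
        (not_le.1 hj)), coeff_zero]
  have h1 : hat n E.1 = 0 := by
    apply onR_inj N hN b
    rw [hQ0, map_zero]
  by_contra hne
  exact hat_ne_zero n E.1 hE (fun h2 => hne (Subtype.ext h2)) h1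


theorem finite_of_bounded (g : A) (D : ℕ) (hD : g.totalDegree ≤ D) (hDe : Even D) (N : ℕ)
    (hN : N ≠ 0) (b : Ball) (hb : Good N (hat D g) b) (m d₀ : ℕ)
    (h : ∀ E ∈ gsp g m, MvPolynomial.degreeOf 1 E ≤ d₀) : Module.Finite ℝ (gsp g m) := by
  have hrank : Module.rank ℝ (gsp g m) ≤
      (((d₀ + 1) * (N * m + d₀ * (b.q.natDegree + b.r) + 1) : ℕ) : Cardinal) := by
    refine rank_le fun s hs => ?_
    set n : ℕ := max m (s.sup fun E => E.1.totalDegree) with hn
    have hmn : m ≤ n := le_max_left _ _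
    set V : Submodule ℝ (gsp g m) :=
      (MvPolynomial.restrictTotalDegree (Fin 2) ℝ n).comap (gsp g m).subtype with hV
    have hVmem : ∀ E : gsp g m, E ∈ V ↔ E.1.totalDegree ≤ n := by
      intro E
      rw [hV, Submodule.mem_comap, MvPolynomial.mem_restrictTotalDegree]
      rfl
    have hspan : Submodule.span ℝ (Set.range fun i : s => (i : gsp g m)) ≤ V := by
      rw [Submodule.span_le]
      rintro _ ⟨i, rfl⟩
      rw [SetLike.mem_coe, hVmem]
      exact le_trans (Finset.le_sup (f := fun E : gsp g m => E.1.totalDegree) i.2)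
        (le_max_right _ _)
    have hli := LinearIndependent.map hs
      (f := fdMap g N b m n (d₀ + 1) (N * m + d₀ * (b.q.natDegree + b.r) + 1)) (by
        rw [Submodule.disjoint_def]
        intro E hE1 hE2
        exact fdMap_inj g D hD hDe N hN b hb m d₀ h n hmn E ((hVmem E).1 (hspan hE1))
          (LinearMap.mem_ker.1 hE2))
    have hcard := hli.fintype_card_le_finrank
    rw [Fintype.card_coe, Module.finrank_fintype_fun_eq_card, Fintype.card_prod, Fintype.card_fin,
      Fintype.card_fin] at hcard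
    exact hcard
  rw [← Module.rank_lt_aleph0_iff]
  exact lt_of_le_of_lt hrank (Cardinal.natCast_lt_aleph0)

end Pool.Agent.Helper10.TC
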