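import Mathlib

set_option autoImplicit false

/-!
# Project TC (MP_63c74b): definitions for the Puiseux part

Coordinates at infinity: `s = 1 / x`, `Y = y / x`. `R2 = ℝ[s][Y]` (outer variable `Y`), `ev s Y` its
evaluation. On the side `x > 0` (`pos = true`) we put `s = u ^ N`, on the side `x < 0` (`pos = false`)
`s = -u ^ N`, with `u → 0+`. A ball is a side, a real polynomial `q(u)` (the centre) and `r ∈ ℕ`: it
consists of the points `Y = q(u) + σ u ^ r`, `σ` bounded.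
-/

open Polynomial Filter Topology

namespace Pool.Agent.Helper10.TC

/-- `ℝ[s]` -/
abbrev R1 : Type := Polynomial ℝ
/-- `ℝ[s][Y]` -/
abbrev R2 : Type := Polynomial R1
/-- `ℂ[w]` -/
abbrev C1 : Type := Polynomial ℂ
/-- `ℂ[w][Y]` -/
abbrev C2 : Type := Polynomial C1

/-- value of an element of `ℝ[s][Y]` at `(s, Y)` -/
noncomputable def ev (s Y : ℝ) : R2 →+* ℝ := eval₂RingHom (evalRingHom s) Y

@[simp] theorem ev_C (s Y : ℝ) (a : R1) : ev s Y (C a) = a.eval s := by simp [ev]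

@[simp] theorem ev_X (s Y : ℝ) : ev s Y X = Y := by simp [ev]

/-- `±1` -/
noncomputable def sgn (b : Bool) : ℝ := if b then 1 else -1

/-- a ball: side, centre, radius -/
structure Ball where
  /-- `true` for `x > 0` -/
  pos : Bool
  /-- centre, as a polynomial in `u` -/
  q : R1
  /-- radius `u ^ r` -/
  r : ℕ

/-- `G > 0` on an open subinterval of the ball -/
def Good (N : ℕ) (G : R2) (b : Ball) : Prop :=
  ∃ σ₁ σ₂ : ℝ, σ₁ < σ₂ ∧ ∀ σ, σ₁ < σ → σ < σ₂ →
    ∀ᶠ u in 𝓝[>] (0 : ℝ), 0 < ev (sgn b.pos * u ^ N) (b.q.eval u + σ * u ^ b.r) G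

/-- the balls cover the set `G > 0` near `s = 0` -/
def Covers (N : ℕ) (G : R2) {J : ℕ} (B : Fin J → Ball) : Prop :=
  ∃ C : ℝ, ∀ᶠ u in 𝓝[>] (0 : ℝ), ∀ (pos : Bool) (Y : ℝ), 0 < ev (sgn pos * u ^ N) Y G →
    ∃ j, (B j).pos = pos ∧ |Y - (B j).q.eval u| ≤ C * u ^ (B j).r

/-- the substitution `s = w ^ N` -/
noncomputable def io (N : ℕ) : R1 →+* C1 :=
  (expand ℂ N : C1 →ₐ[ℂ] C1).toRingHom.comp (mapRingHom Complex.ofRealHom)

/-- `exp (2 π i / N)` -/
noncomputable def zt (N : ℕ) : ℂ := Complex.exp (2 * Real.pi * Complex.I / N)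

/-- `ω ^ N = ±1` -/
noncomputable def om (N : ℕ) (b : Bool) : ℂ := if b then 1 else Complex.exp (Real.pi * Complex.I / N)

/-- the centre, as a polynomial in `w` (`w = ω u`) -/
noncomputable def Ball.cen (N : ℕ) (b : Ball) : C1 :=
  (b.q.map Complex.ofRealHom).comp (C (om N b.pos)⁻¹ * X)

/-- the dihedral group acting on `ℂ[w]`: `p ↦ p(ζ ^ k w)` or `p ↦ \bar p(ζ ^ k w)` -/
noncomputable def act (N : ℕ) (γ : Fin N × Bool) : C1 →+* C1 :=
  (compRingHom (C (zt N ^ (γ.1 : ℕ)) * X)).comp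
    (if γ.2 then mapRingHom (starRingEnd ℂ) else RingHom.id C1)

open Classical in
/-- order of `p - q`, truncated at `r` -/
noncomputable def kap (p q : C1) (r : ℕ) : ℕ := Nat.findGreatest (fun k => X ^ k ∣ p - q) r

/-- the interaction matrix of two balls -/
noncomputable def Ah (N : ℕ) (b c : Ball) : ℕ :=
  ∑ γ : Fin N × Bool, kap (act N γ (b.cen N)) (c.cen N) c.r

/-- `H(± u ^ N, q(u) + σ u ^ r)`, an element of `ℝ[u][σ]` -/
noncomputable def onR (N : ℕ) (b : Ball) : R2 →+* R2 :=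
  (compRingHom (C b.q + C (X ^ b.r) * X)).comp (mapRingHom (compRingHom (C (sgn b.pos) * X ^ N)))

/-- `H(w ^ N, p(w) + σ w ^ r)`, an element of `ℂ[w][σ]` -/
noncomputable def onC (N : ℕ) (p : C1) (r : ℕ) : R2 →+* C2 :=
  (compRingHom (C p + C (X ^ r) * X)).comp (mapRingHom (io N))

theorem ev_onR (N : ℕ) (b : Ball) (H : R2) (u σ : ℝ) :
    ev u σ (onR N b H) = ev (sgn b.pos * u ^ N) (b.q.eval u + σ * u ^ b.r) H := by
  have h : (ev u σ).comp (onR N b) = ev (sgn b.pos * u ^ N) (b.q.eval u + σ * u ^ b.r) := by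
    refine Polynomial.ringHom_ext (fun a => ?_) ?_
    · simp [onR, eval_comp]
    · rw [RingHom.comp_apply, onR, RingHom.comp_apply, coe_mapRingHom, map_X, coe_compRingHom]
      beta_reduce
      rw [X_comp, map_add, map_mul, ev_C, ev_C, ev_X, ev_X, eval_pow, eval_X]
      ring
  exact congrArg (fun f => f H) h

/-- power series -/
abbrev Ps : Type := PowerSeries ℂ

/-- `ℝ[s] ⊆ ℂ⟦s⟧` -/
noncomputable def toPS : R1 →+* Ps :=
  (Polynomial.coeToPowerSeries.ringHom).comp (mapRingHom Complex.ofRealHom)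

/-- the substitution `s = w ^ N` in power series -/
noncomputable def xp (N : ℕ) (hN : N ≠ 0) : Ps →+* Ps := (PowerSeries.expand N hN).toRingHom

end Pool.Agent.Helper10.TC
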