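import Pool.Agent.Helper68.QM.Main
import Pool.Agent.Helper10.TC.Defs

set_option autoImplicit false

/-!
# Project TC (MP_63c74b), block HAT: coordinates at infinity

`hat n E = ∑ E_{ab} s^(n-a-b) Y^b = s^n E(1/s, Y/s)`. All elementary.
`hat_coeff`: the coefficient of `Y^b` in `hat n E` is `∑_a E_{ab} s^(n-a-b)`, and its coefficient of
`s^c` is `E_{ab}` with `a = n - b - c` if `b + c ≤ n`, and 0 otherwise (for `totalDegree E ≤ n` all
exponents in the support satisfy `a + b ≤ n`, so no truncation).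
`hat_natDegree`: for `E ≠ 0`. `hat_lc`: the leading coefficient (in `Y`) is a nonzero polynomial in `s` of
degree `≤ n - degreeOf 1 E`, so it is not divisible by `s^(n - degreeOf 1 E + 1)`.
-/

open Pool.Agent.Helper68.QM

namespace Pool.Agent.Helper10.TC

/-- polynomials growing at most like `‖z‖ ^ m` on the set `g > 0` -/
def gsp (g : A) (m : ℕ) : Submodule ℝ A where
  carrier := {f | ∃ K : ℝ, ∀ z : Fin 2 → ℝ, 0 < MvPolynomial.eval z g →
    |MvPolynomial.eval z f| ≤ K * (1 + ‖z‖) ^ m}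
  add_mem' := by
    rintro a b ⟨K, hK⟩ ⟨K', hK'⟩
    refine ⟨K + K', fun z hz => ?_⟩
    rw [map_add]
    refine (abs_add_le _ _).trans ?_
    have h1 := hK z hz
    have h2 := hK' z hz
    linarith
  zero_mem' := ⟨0, fun z _ => by simp⟩
  smul_mem' := by
    rintro c a ⟨K, hK⟩
    refine ⟨|c| * K, fun z hz => ?_⟩
    rw [MvPolynomial.smul_eval, abs_mul, mul_assoc]
    exact mul_le_mul_of_nonneg_left (hK z hz) (abs_nonneg c)

/-- `s ^ n E(1/s, Y/s)` -/
noncomputable def hat (n : ℕ) (E : A) : R2 :=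
  ∑ m ∈ E.support, Polynomial.C (Polynomial.C (MvPolynomial.coeff m E) *
    Polynomial.X ^ (n - m 0 - m 1)) * Polynomial.X ^ (m 1)

namespace HatA

theorem deg_le {n : ℕ} {E : A} (hn : E.totalDegree ≤ n) {m : Fin 2 →₀ ℕ} (hm : m ∈ E.support) :
    m 0 + m 1 ≤ n := by
  have h4 := MvPolynomial.le_totalDegree hm
  have h5 : (m.sum fun _ e => e) = ∑ i, m i := Finsupp.sum_fintype _ _ (fun _ => rfl)
  rw [Fin.sum_univ_two] at h5
  omega

theorem coeff_hat (n : ℕ) (E : A) (b : ℕ) : (hat n E).coeff b =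
    ∑ m ∈ E.support.filter (fun m => m 1 = b), Polynomial.C (MvPolynomial.coeff m E) *
      Polynomial.X ^ (n - m 0 - m 1) := by
  rw [hat, Polynomial.finsetSum_coeff, Finset.sum_filter]
  refine Finset.sum_congr rfl fun m _ => ?_
  rw [Polynomial.coeff_C_mul, Polynomial.coeff_X_pow]
  split_ifs with h1 h2 h2
  · rw [mul_one]
  · exact absurd h1.symm h2
  · exact absurd h2.symm h1
  · rw [mul_zero]

theorem natDegree_coeff_hat (n : ℕ) (E : A) (b : ℕ) : ((hat n E).coeff b).natDegree ≤ n - b := by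
  rw [coeff_hat]
  refine Polynomial.natDegree_sum_le_of_forall_le _ _ fun m hm => ?_
  have h1 := (Finset.mem_filter.1 hm).2
  refine (Polynomial.natDegree_C_mul_X_pow_le _ _).trans ?_
  omega

end HatA

open HatA

theorem ev_hat (n : ℕ) (E : A) (hn : E.totalDegree ≤ n) (s Y : ℝ) (hs : s ≠ 0) :
    ev s Y (hat n E) = s ^ n * MvPolynomial.eval ![s⁻¹, Y * s⁻¹] E := by
  conv_rhs => rw [E.as_sum, map_sum, Finset.mul_sum]
  rw [hat, map_sum]
  refine Finset.sum_congr rfl fun m hm => ?_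
  have h1 := deg_le hn hm
  rw [MvPolynomial.eval_monomial, Finsupp.prod_fintype _ _ (fun _ => pow_zero _),
    Fin.prod_univ_two, map_mul, map_pow, ev_C, ev_X, Polynomial.eval_mul, Polynomial.eval_C,
    Polynomial.eval_pow, Polynomial.eval_X]
  have h2 : (![s⁻¹, Y * s⁻¹] : Fin 2 → ℝ) 0 = s⁻¹ := rfl
  have h3 : (![s⁻¹, Y * s⁻¹] : Fin 2 → ℝ) 1 = Y * s⁻¹ := rfl
  rw [h2, h3]
  obtain ⟨j, hj⟩ := Nat.exists_eq_add_of_le h1
  rw [show n - m 0 - m 1 = j by omega, hj, pow_add, pow_add, mul_pow, inv_pow, inv_pow]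
  field_simp

theorem hat_coeff (n : ℕ) (E : A) (hn : E.totalDegree ≤ n) (b c : ℕ) (hbc : b + c ≤ n) :
    ((hat n E).coeff b).coeff c =
      MvPolynomial.coeff (Finsupp.single 0 (n - b - c) + Finsupp.single 1 b) E := by
  set m₀ : Fin 2 →₀ ℕ := Finsupp.single 0 (n - b - c) + Finsupp.single 1 b with hm₀
  have h0 : m₀ 0 = n - b - c := by simp [hm₀]
  have h1 : m₀ 1 = b := by simp [hm₀]
  rw [coeff_hat, Polynomial.finsetSum_coeff]
  have h2 : ∀ m ∈ E.support.filter (fun m => m 1 = b), m ≠ m₀ →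
      (Polynomial.C (MvPolynomial.coeff m E) * Polynomial.X ^ (n - m 0 - m 1) : R1).coeff c = 0 := by
    intro m hm hne
    obtain ⟨hm1, hm2⟩ := Finset.mem_filter.1 hm
    have h3 := deg_le hn hm1
    rw [Polynomial.coeff_C_mul, Polynomial.coeff_X_pow, if_neg, mul_zero]
    intro h4
    apply hne
    ext i
    fin_cases i
    · change m 0 = m₀ 0
      rw [h0]
      omega
    · change m 1 = m₀ 1
      rw [h1, hm2]
  rw [Finset.sum_eq_single m₀ h2]
  · rw [Polynomial.coeff_C_mul, Polynomial.coeff_X_pow, if_pos (by omega), mul_one]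
  · intro h3
    rw [Finset.mem_filter, not_and_or] at h3
    rcases h3 with h3 | h3
    · rw [MvPolynomial.notMem_support_iff.1 h3, Polynomial.C_0, zero_mul, Polynomial.coeff_zero]
    · exact absurd h1 h3

theorem hat_natDegree (n : ℕ) (E : A) (hn : E.totalDegree ≤ n) (hE : E ≠ 0) :
    (hat n E).natDegree = MvPolynomial.degreeOf 1 E := by
  refine le_antisymm ?_ ?_
  · rw [Polynomial.natDegree_le_iff_coeff_eq_zero]
    intro b hb
    rw [coeff_hat, Finset.sum_eq_zero]
    intro m hm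
    obtain ⟨hm1, hm2⟩ := Finset.mem_filter.1 hm
    have := MvPolynomial.monomial_le_degreeOf 1 hm1
    omega
  · obtain ⟨m, hm, hm'⟩ := Finset.exists_mem_eq_sup E.support
      (MvPolynomial.support_nonempty.2 hE) (fun m => m 1)
    have h1 : MvPolynomial.degreeOf 1 E = m 1 := by
      rw [MvPolynomial.degreeOf_eq_sup]
      exact hm'
    rw [h1]
    refine Polynomial.le_natDegree_of_ne_zero fun h2 => ?_
    have h3 := deg_le hn hm
    have h4 := hat_coeff n E hn (m 1) (n - m 0 - m 1) (by omega)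
    rw [h2, Polynomial.coeff_zero] at h4
    have h5 : (Finsupp.single 0 (n - m 1 - (n - m 0 - m 1)) + Finsupp.single 1 (m 1) :
        Fin 2 →₀ ℕ) = m := by
      ext i
      fin_cases i
      · simp
        omega
      · simp
    rw [h5] at h4
    exact (MvPolynomial.mem_support_iff.1 hm) h4.symm

theorem hat_ne_zero (n : ℕ) (E : A) (hn : E.totalDegree ≤ n) (hE : E ≠ 0) : hat n E ≠ 0 := by
  intro h
  apply hE
  ext m
  rw [MvPolynomial.coeff_zero]
  by_contra hm
  have hm' : m ∈ E.support := MvPolynomial.mem_support_iff.2 hm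
  have h3 := deg_le hn hm'
  have h4 := hat_coeff n E hn (m 1) (n - m 0 - m 1) (by omega)
  rw [h, Polynomial.coeff_zero, Polynomial.coeff_zero] at h4
  have h5 : (Finsupp.single 0 (n - m 1 - (n - m 0 - m 1)) + Finsupp.single 1 (m 1) :
      Fin 2 →₀ ℕ) = m := by
    ext i
    fin_cases i
    · simp
      omega
    · simp
  rw [h5] at h4
  exact hm h4.symm

theorem hat_lc (n : ℕ) (E : A) (hn : E.totalDegree ≤ n) (hE : E ≠ 0) :
    ¬ (Polynomial.X ^ (n - MvPolynomial.degreeOf 1 E + 1) : R1) ∣ (hat n E).leadingCoeff := by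
  intro h
  have h1 : (hat n E).leadingCoeff ≠ 0 := Polynomial.leadingCoeff_ne_zero.2 (hat_ne_zero n E hn hE)
  have h2 := Polynomial.natDegree_le_of_dvd h h1
  rw [Polynomial.natDegree_X_pow] at h2
  have h3 := natDegree_coeff_hat n E (hat n E).natDegree
  rw [Polynomial.leadingCoeff] at h2
  rw [hat_natDegree n E hn hE] at h2 h3
  omega

/-- if the coefficient of `y ^ D` is `-κ₀ ≠ 0`, `D` the total degree -/
theorem hat_top (g : A) (κ₀ : ℝ) (hκ : κ₀ ≠ 0)
    (hc : MvPolynomial.coeff (Finsupp.single 1 g.totalDegree) g = -κ₀) :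
    (hat g.totalDegree g).natDegree = g.totalDegree ∧
      (hat g.totalDegree g).leadingCoeff = Polynomial.C (-κ₀) := by
  have hmem : (Finsupp.single 1 g.totalDegree : Fin 2 →₀ ℕ) ∈ g.support := by
    rw [MvPolynomial.mem_support_iff, hc]
    exact neg_ne_zero.2 hκ
  have hg : g ≠ 0 := by
    rintro rfl
    simp at hmem
  have h1 : MvPolynomial.degreeOf 1 g = g.totalDegree := by
    refine le_antisymm (MvPolynomial.degreeOf_le_totalDegree g 1) ?_
    have := MvPolynomial.monomial_le_degreeOf 1 hmem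
    rwa [Finsupp.single_eq_same] at this
  have h2 := hat_natDegree g.totalDegree g le_rfl hg
  rw [h1] at h2
  refine ⟨h2, ?_⟩
  rw [Polynomial.leadingCoeff, h2]
  have h3 := natDegree_coeff_hat g.totalDegree g g.totalDegree
  rw [Nat.sub_self, Nat.le_zero] at h3
  rw [Polynomial.eq_C_of_natDegree_eq_zero h3, hat_coeff g.totalDegree g le_rfl _ 0 (by omega)]
  have h4 : (Finsupp.single 0 (g.totalDegree - g.totalDegree - 0) +
      Finsupp.single 1 g.totalDegree : Fin 2 →₀ ℕ) = Finsupp.single 1 g.totalDegree := by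
    simp
  rw [h4, hc]

end Pool.Agent.Helper10.TC
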