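import Pool.Agent.Helper10.TC.Art
import Pool.Agent.Helper10.TC.Hat
import Pool.Agent.Helper10.TI.ThmA

set_option autoImplicit false

/-!
# Project TC (MP_63c74b), block FINB: application of the instability theorem

`eval z (TI.Φ S) = ev (z 0) (z 1) S` (ring homs), `TI.ax T` evaluates to `T.eval (z 0)`. Let
`T = (1 + X²)^j`, `c' = max c 0`. `p = C c' * (ax T)² - (Φ S)² ≥ 0` on `g > 0` by `hb`: `artin` gives `h ≠ 0` with
`InM g (h² p)`; `f = h²`. `(ax T)² - 1` is a sum of squares (`(1+x²)^(2j) - 1 = ∑ binom x^(2i)`; or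
`dominated_ss`/`pos_sos`; or induction), so `InM g (f ((ax T)² - 1))`, `InM g f`. `deg T = 2 j ≤ 2 (j + δ)`,
`leadingCoeff S ∣ T^(j+δ)` (`j ≥ 1`).
Case `b.pos = true`: tentacle with `e = N`, `v = 1/u`: `x = v^N`, `y = v^N (q(1/v) + σ v^(-r))
= Y(v, σ) / v^(r')` with `r' = deg q + r`, `Y = X 0^N (∑_i q_i X 0^(r'-i) + X 1 * X 0^(r' - r))`;
the interval is the one of `hgood`; `hlim` composed with `v ↦ 1/v` (`atTop → 𝓝[>] 0`) gives the limit
`P.eval σ`, nonconstant on every interval since `P` is a nonconstant polynomial; `g > 0`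
along the tentacle by `hgood` and `ev_hat` (`D` even). `TI.not_stable_of_tentacle`.
Case `b.pos = false`: reflect. Let `τ : A → A`, `X 0 ↦ -X 0`, `X 1 ↦ X 1` (an involution preserving total
degree, squares): `Stable g → Stable (τ g)`; apply the first case (formulated with `g` replaced by
`τ g`, `S` by `S.map (compRingHom (-X))`; leading coefficient `(1+X²)^(j+δ)` unchanged); the tentacle is
`x = v^N`, `y = -v^N(q(1/v) + σ v^(-r))` for `τ g` (i.e. `(-x, y)` for `g`). It may be best to prove first a version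
of the first case with an arbitrary sign `ε = ±1` in `y = ε v^N (...)`.
-/

open Pool.Agent.Helper68.QM Filter Topology

namespace Pool.Agent.Helper10.TC

section Refl

open MvPolynomial

/-- the reflection `x ↦ ε x` -/
private noncomputable def fbτ (ε : ℝ) : A →ₐ[ℝ] A := aeval ![C ε * X 0, X 1]

private theorem fb_eval_τ (ε : ℝ) (z : Fin 2 → ℝ) (P : A) :
    eval z (fbτ ε P) = eval ![ε * z 0, z 1] P := by
  unfold fbτ
  induction P using MvPolynomial.induction_on with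
  | C r => rw [aeval_C, eval_C]; exact eval_C _
  | add p q hp hq => rw [map_add, map_add, map_add, hp, hq]
  | mul_X p i hp =>
    rw [map_mul, map_mul, map_mul, hp, aeval_X, eval_X]
    congr 1
    fin_cases i <;> simp

private theorem fb_τ_τ {ε : ℝ} (hε : ε * ε = 1) (P : A) : fbτ ε (fbτ ε P) = P := by
  apply MvPolynomial.funext
  intro z
  rw [fb_eval_τ, fb_eval_τ]
  congr 1
  congr 1
  funext i
  fin_cases i
  · simp [← mul_assoc, hε]
  · simp

private theorem fb_deg_τ (ε : ℝ) (P : A) : (fbτ ε P).totalDegree ≤ P.totalDegree := by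
  have h := deg_aeval ![C ε * X 0, X 1] 1 (fun i => by
    fin_cases i
    · change (C ε * X 0 : A).totalDegree ≤ 1
      refine (totalDegree_mul _ _).trans ?_
      rw [totalDegree_C, totalDegree_X]
    · change (X 1 : A).totalDegree ≤ 1
      rw [totalDegree_X]) P
  rwa [one_mul] at h

private theorem fb_ss_τ (ε : ℝ) {s : A} (hs : IsSumSq s) : IsSumSq (fbτ ε s) := by
  induction hs with
  | zero => rw [map_zero]; exact IsSumSq.zero
  | sq_add b _ ih =>
    rw [map_add, map_mul]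
    exact (IsSumSq.mul_self _).add ih

private theorem fb_stable {ε : ℝ} (hε : ε * ε = 1) {g : A} (hg : Stable g) : Stable (fbτ ε g) := by
  obtain ⟨l, hl⟩ := hg
  refine ⟨l, fun d f hf hfd => ?_⟩
  have hf' : InM g (fbτ ε f) := by
    obtain ⟨s, t, hs, ht, rfl⟩ := hf
    refine ⟨fbτ ε s, fbτ ε t, fb_ss_τ ε hs, fb_ss_τ ε ht, ?_⟩
    rw [map_add, map_mul, fb_τ_τ hε]
  obtain ⟨s, t, hs, ht, h1, h2, h3⟩ := hl d _ hf' ((fb_deg_τ ε f).trans hfd)
  refine ⟨fbτ ε s, fbτ ε t, fb_ss_τ ε hs, fb_ss_τ ε ht, ?_, (fb_deg_τ ε s).trans h2, ?_⟩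
  · rw [← map_mul, ← map_add, ← h1, fb_τ_τ hε]
  · rw [← map_mul]
    exact (fb_deg_τ ε _).trans h3

private theorem fb_one_add (n : ℕ) : IsSumSq ((1 + X 0 ^ 2) ^ n - 1 : A) := by
  induction n with
  | zero => rw [pow_zero, sub_self]; exact IsSumSq.zero
  | succ n ih =>
    have h1 : ((1 + X 0 ^ 2) ^ (n + 1) - 1 : A) =
        ((1 + X 0 ^ 2) ^ n - 1) * (1 + X 0 ^ 2) + X 0 ^ 2 := by ring
    rw [h1]
    exact (ih.mul (IsSumSq.one.add (isSumSq_sq _))).add (isSumSq_sq _)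

private theorem fb_eval_Φ (z : Fin 2 → ℝ) (E : R2) : eval z (TI.Φ E) = ev (z 0) (z 1) E := by
  have h : (eval z).comp TI.Φ = ev (z 0) (z 1) := by
    refine Polynomial.ringHom_ext (fun a => ?_) ?_
    · rw [RingHom.comp_apply, TI.Φ_C, TI.eval_ax, ev_C]
    · rw [RingHom.comp_apply, TI.Φ_X, eval_X, ev_X]
  exact congrArg (fun f : R2 →+* ℝ => f E) h

private theorem fb_ev_comp (ε s y : ℝ) (E : R2) :
    ev s y (E.map (Polynomial.compRingHom (Polynomial.C ε * Polynomial.X))) = ev (ε * s) y E := by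
  have h : (ev s y).comp (Polynomial.mapRingHom
      (Polynomial.compRingHom (Polynomial.C ε * Polynomial.X))) = ev (ε * s) y := by
    refine Polynomial.ringHom_ext (fun a => ?_) ?_
    · rw [RingHom.comp_apply, Polynomial.coe_mapRingHom, Polynomial.map_C, ev_C, ev_C,
        Polynomial.coe_compRingHom_apply, Polynomial.eval_comp]
      simp
    · rw [RingHom.comp_apply, Polynomial.coe_mapRingHom, Polynomial.map_X, ev_X, ev_X]
  exact congrArg (fun f : R2 →+* ℝ => f E) h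

end Refl

private theorem fb_nonconst {P : R1} (hP : 0 < P.natDegree) {σ₁ σ₂ : ℝ} (h : σ₁ < σ₂) :
    ∃ σ σ', (σ₁ < σ ∧ σ < σ₂) ∧ (σ₁ < σ' ∧ σ' < σ₂) ∧ P.eval σ ≠ P.eval σ' := by
  by_contra hcon
  push Not at hcon
  set m := (σ₁ + σ₂) / 2 with hm
  have hm1 : σ₁ < m := by rw [hm]; linarith
  have hm2 : m < σ₂ := by rw [hm]; linarith
  have h1 : P - Polynomial.C (P.eval m) = 0 := by
    apply Polynomial.eq_zero_of_infinite_isRoot
    refine (Set.Ioo_infinite h).mono fun x hx => ?_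
    change (P - Polynomial.C (P.eval m)).IsRoot x
    rw [Polynomial.IsRoot.def, Polynomial.eval_sub, Polynomial.eval_C,
      hcon x m ⟨hx.1, hx.2⟩ ⟨hm1, hm2⟩, sub_self]
  rw [sub_eq_zero] at h1
  rw [h1, Polynomial.natDegree_C] at hP
  omega

theorem not_stable_of_ball (g : A) (hg : ∃ z, 0 < MvPolynomial.eval z g) (S : R2) (j δ : ℕ)
    (hj : 1 ≤ j) (hS : S.leadingCoeff = (1 + Polynomial.X ^ 2) ^ (j + δ)) (hd : 0 < S.natDegree)
    (c : ℝ) (hb : ∀ z, 0 < MvPolynomial.eval z g →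
      ev (z 0) (z 1) S ^ 2 ≤ c * ((1 + z 0 ^ 2) ^ j) ^ 2)
    (N : ℕ) (hN : N ≠ 0) (b : Ball) (D : ℕ) (hD : g.totalDegree ≤ D) (hDe : Even D)
    (hgood : Good N (hat D g) b) (P : R1) (hP : 0 < P.natDegree)
    (hlim : ∀ σ : ℝ, Tendsto (fun u : ℝ => ev (sgn b.pos / u ^ N)
      (sgn b.pos / u ^ N * (b.q.eval u + σ * u ^ b.r)) S / (1 + (sgn b.pos / u ^ N) ^ 2) ^ j)
      (𝓝[>] 0) (𝓝 (P.eval σ))) : ¬ Stable g := by
  set ε := sgn b.pos with hεd
  have hε : ε * ε = 1 := by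
    rw [hεd]
    unfold sgn
    split_ifs <;> norm_num
  have hε0 : ε ≠ 0 := by
    intro h
    rw [h, mul_zero] at hε
    exact zero_ne_one hε
  have hε2 : ∀ x : ℝ, (ε * x) ^ 2 = x ^ 2 := fun x => by
    rw [mul_pow, pow_two ε, hε, one_mul]
  set g' := fbτ ε g with hg'
  intro hst
  refine absurd (fb_stable hε hst) ?_
  -- the reflected polynomial
  set S' : R2 := S.map (Polynomial.compRingHom (Polynomial.C ε * Polynomial.X)) with hS'
  have hlc : (Polynomial.compRingHom (Polynomial.C ε * Polynomial.X)) S.leadingCoeff =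
      (1 + Polynomial.X ^ 2 : R1) ^ (j + δ) := by
    rw [hS, map_pow, map_add, map_one, map_pow, Polynomial.coe_compRingHom_apply,
      Polynomial.X_comp, mul_pow, ← Polynomial.C_pow, pow_two ε, hε, Polynomial.C_1, one_mul]
  have hne : (1 + Polynomial.X ^ 2 : R1) ^ (j + δ) ≠ 0 := by
    apply pow_ne_zero
    intro h
    have h1 := congrArg (Polynomial.eval 0) h
    simp at h1
  have hlc0 : (Polynomial.compRingHom (Polynomial.C ε * Polynomial.X)) S.leadingCoeff ≠ 0 := by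
    rw [hlc]
    exact hne
  have hnd : S'.natDegree = S.natDegree := Polynomial.natDegree_map_of_leadingCoeff_ne_zero _ hlc0
  have hSlc : S'.leadingCoeff = (1 + Polynomial.X ^ 2 : R1) ^ (j + δ) := by
    rw [hS', Polynomial.leadingCoeff_map_of_leadingCoeff_ne_zero _ hlc0, hlc]
  have hevS : ∀ s y, ev s y S' = ev (ε * s) y S := fun s y => fb_ev_comp ε s y S
  -- `T`
  set T : R1 := (1 + Polynomial.X ^ 2) ^ j with hT
  have hT0 : T ≠ 0 := by
    apply pow_ne_zero
    intro h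
    have h1 := congrArg (Polynomial.eval 0) h
    simp at h1
  have hTev : ∀ x, T.eval x = (1 + x ^ 2) ^ j := fun x => by simp [hT]
  have hbase : (1 + Polynomial.X ^ 2 : R1).natDegree = 2 := by compute_degree!
  have hpos' : ∃ z, 0 < MvPolynomial.eval z g' := by
    obtain ⟨z, hz⟩ := hg
    refine ⟨![ε * z 0, z 1], ?_⟩
    rw [hg', fb_eval_τ]
    have h1 : (![ε * (![ε * z 0, z 1] : Fin 2 → ℝ) 0, (![ε * z 0, z 1] : Fin 2 → ℝ) 1] : Fin 2 → ℝ) = z := by
      funext i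
      fin_cases i
      · simp [← mul_assoc, hε]
      · simp
    rwa [h1]
  obtain ⟨h, hh0, hh⟩ := artin g' (MvPolynomial.C c * TI.ax T ^ 2 - TI.Φ S' ^ 2) hpos' (by
    intro z hz
    rw [hg', fb_eval_τ] at hz
    have h1 := hb _ hz
    rw [map_sub, map_mul, map_pow, map_pow, MvPolynomial.eval_C, TI.eval_ax, fb_eval_Φ, hTev, hevS]
    have h2 : (![ε * z 0, z 1] : Fin 2 → ℝ) 0 = ε * z 0 := rfl
    have h3 : (![ε * z 0, z 1] : Fin 2 → ℝ) 1 = z 1 := rfl
    rw [h2, h3, hε2] at h1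
    linarith)
  obtain ⟨σ₁, σ₂, h12, hgd⟩ := hgood
  have hf : InM g' (h ^ 2) := InM.sq h
  -- the tentacle
  let t : TI.Tent :=
    { e := N
      r := b.q.natDegree + b.r
      Y := MvPolynomial.C ε * MvPolynomial.X 0 ^ N *
        (∑ i ∈ Finset.range (b.q.natDegree + 1),
          MvPolynomial.C (b.q.coeff i) * MvPolynomial.X 0 ^ (b.q.natDegree + b.r - i) +
          MvPolynomial.X 1 * MvPolynomial.X 0 ^ b.q.natDegree)
      he := Nat.pos_of_ne_zero hN }
  have hpt : ∀ v σ : ℝ, v ≠ 0 → t.pt v σ = ![v ^ N, ε * v ^ N * (b.q.eval v⁻¹ + σ * v⁻¹ ^ b.r)] := by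
    intro v σ hv
    funext i
    fin_cases i
    · rfl
    · change MvPolynomial.eval ![v, σ] t.Y / v ^ t.r = ε * v ^ N * (b.q.eval v⁻¹ + σ * v⁻¹ ^ b.r)
      have e1 : MvPolynomial.eval ![v, σ] t.Y = ε * v ^ N *
          (∑ i ∈ Finset.range (b.q.natDegree + 1), b.q.coeff i * v ^ (b.q.natDegree + b.r - i) +
            σ * v ^ b.q.natDegree) := by
        simp only [t, map_mul, map_add, map_sum, map_pow, MvPolynomial.eval_C, MvPolynomial.eval_X]
        rfl
      have e2 : t.r = b.q.natDegree + b.r := rfl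
      rw [e1, e2, mul_div_assoc]
      congr 1
      rw [Polynomial.eval_eq_sum_range, add_div, Finset.sum_div]
      congr 1
      · refine Finset.sum_congr rfl fun i hi => ?_
        have hi' : i ≤ b.q.natDegree := by
          have := Finset.mem_range.1 hi
          omega
        rw [mul_div_assoc]
        congr 1
        rw [inv_pow, div_eq_iff (pow_ne_zero _ hv), eq_comm, inv_mul_eq_iff_eq_mul₀ (pow_ne_zero _ hv),
          ← pow_add]
        congr 1
        omega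
      · rw [mul_div_assoc]
        congr 1
        rw [inv_pow, pow_add]
        field_simp
  have hinv : Tendsto (fun v : ℝ => v⁻¹) atTop (𝓝[>] 0) := tendsto_inv_atTop_nhdsGT_zero
  refine TI.not_stable_of_tentacle g' (h ^ 2) S' T c (j + δ) t σ₁ σ₂ (fun σ => P.eval σ)
    (pow_ne_zero 2 hh0) hf (by rw [hnd]; exact hd) hT0 ?_ ?_ ?_ hh h12 ?_ (fb_nonconst hP h12) ?_
  · rw [hSlc, hT, Polynomial.natDegree_pow, Polynomial.natDegree_pow, hbase]
    omega
  · rw [hSlc, hT, ← pow_mul]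
    apply pow_dvd_pow
    exact Nat.le_mul_of_pos_left _ hj
  · refine hf.mul (InM.of_sq ?_)
    have h1 : TI.ax T = (1 + MvPolynomial.X 0 ^ 2) ^ j := by
      rw [hT]
      change Polynomial.aeval (MvPolynomial.X 0) (((1 : Polynomial ℝ) + Polynomial.X ^ 2) ^ j) = _
      rw [map_pow, map_add, map_one, map_pow, Polynomial.aeval_X]
    rw [h1, ← pow_mul]
    exact fb_one_add _
  · intro σ _ _
    have h1 := (hlim σ).comp hinv
    refine h1.congr' ?_
    filter_upwards [eventually_gt_atTop 0] with v hv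
    have h2 : t.e = N := rfl
    rw [Function.comp_apply, hpt v σ hv.ne', fb_eval_Φ, hTev, hevS, h2]
    have h3 : ε / v⁻¹ ^ N = ε * v ^ N := by
      rw [inv_pow, div_inv_eq_mul]
    have h4 : (![v ^ N, ε * v ^ N * (b.q.eval v⁻¹ + σ * v⁻¹ ^ b.r)] : Fin 2 → ℝ) 0 = v ^ N := rfl
    have h5 : (![v ^ N, ε * v ^ N * (b.q.eval v⁻¹ + σ * v⁻¹ ^ b.r)] : Fin 2 → ℝ) 1 =
        ε * v ^ N * (b.q.eval v⁻¹ + σ * v⁻¹ ^ b.r) := rfl
    rw [h3, h4, h5, hε2]
  · intro σ hσ1 hσ2
    have h1 := hinv.eventually (hgd σ hσ1 hσ2)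
    filter_upwards [h1, eventually_gt_atTop 0] with v hv1 hv
    have hs : ε * v⁻¹ ^ N ≠ 0 := mul_ne_zero hε0 (pow_ne_zero _ (inv_ne_zero hv.ne'))
    rw [ev_hat D g hD _ _ hs] at hv1
    have h2 : 0 < (ε * v⁻¹ ^ N) ^ D := hDe.pow_pos hs
    have h3 := (mul_pos_iff_of_pos_left h2).1 hv1
    rw [hpt v σ hv.ne', hg', fb_eval_τ]
    have h4 : (ε * v⁻¹ ^ N)⁻¹ = ε * v ^ N := by
      rw [mul_inv, inv_pow, inv_inv]
      congr 1
      exact inv_eq_of_mul_eq_one_left hε
    rw [h4] at h3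
    have h5 : (![ε * (![v ^ N, ε * v ^ N * (b.q.eval v⁻¹ + σ * v⁻¹ ^ b.r)] : Fin 2 → ℝ) 0,
        (![v ^ N, ε * v ^ N * (b.q.eval v⁻¹ + σ * v⁻¹ ^ b.r)] : Fin 2 → ℝ) 1] : Fin 2 → ℝ) =
        ![ε * v ^ N, (b.q.eval v⁻¹ + σ * v⁻¹ ^ b.r) * (ε * v ^ N)] := by
      funext i
      fin_cases i
      · rfl
      · change ε * v ^ N * (b.q.eval v⁻¹ + σ * v⁻¹ ^ b.r) = (b.q.eval v⁻¹ + σ * v⁻¹ ^ b.r) * (ε * v ^ N)
        ring
    rw [h5]
    exact h3

end Pool.Agent.Helper10.TC
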