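import Pool.Agent.Helper10.TI.Base

set_option autoImplicit false

/-!
# Project TC (MP_63c74b), block LB: a nonconstant polynomial bounded on `g > 0`, with an Artin
certificate, excludes stability

This is `Helper68.QM.not_stable` (Main.lean, 110 lines; copy and adapt) with a multiplier `f`. The set
`M' = {F | InM g (f F)}` is a quadratic module (closed under `+`, multiplication by squares; contains
`1` since `InM g f`) and contains `C (c^2) - h^2`. The proofs of `univ_mem` (Closed.lean) and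
`motE_mem` (Motzkin.lean) work verbatim for a general quadratic module in place of `InM g`; so for all
real `N` and `ε > 0`: `f * (mot (N (h - h0), N v) + ε * P) ∈ M_g` with `P` a fixed polynomial depending on `N`
(see `motE_mem` for the exact form, and `Helper10/TI/Mot.lean` for another version over a
general quadratic module: `TI.QMod`, `univ_cert`). (`univ_mem` for `QMod`: the univariate certificate
`e = s + t (c0 - X^2)` (`TI.univ_cert` in Helper10/TI/Mot.lean, which may be imported), evaluated at `h`.)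
Stable modules are closed in the sense of `Stable.closed_eps`, so `f * mot (...) ∈ M_g`.
Choose `z0` with `g z0 > 0`, `f z0 ≠ 0` and `∇h(z0) ≠ 0`: possible by `eq_zero_of_vanish` applied to
`f * pderiv i h` (`h` is not constant). `f z0 > 0` since `InM g f`. Rescale at `z0` exactly as in
`Main.lean`, with the extra factor `f`: in the limit `f(z0) mot(D0 w0 + D1 w1, -D1 w0 + D0 w1) =
s(w) + g(z0) t(w)` with sums of squares `s, t`; divide by `f z0 > 0` and use `mot_not_sos`.
(The degree bound: `f * mot(...)` has degree `≤ deg f + D` for all `N`.)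
-/

open MvPolynomial Pool.Agent.Helper68.QM

namespace Pool.Agent.Helper10.TC

open Filter Topology Pool.Agent.Helper10.TI

/-- univariate certificates -/
private theorem lb_univ_cert (c : ℝ) (hc : 0 < c) (e : Polynomial ℝ)
    (he : ∀ x, -c ≤ x → x ≤ c → 0 < e.eval x) :
    ∃ s t : Polynomial ℝ, IsSumSq s ∧ IsSumSq t ∧
      e = s + t * (Polynomial.C (c ^ 2) - Polynomial.X ^ 2) := by
  have h1 := univ_mem (g := (C (c ^ 2) - X 0 ^ 2 : A)) (h := X 0) c hc InM.gen _ e rfl he
  obtain ⟨s, t, hs, ht, h2⟩ := h1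
  let ρ : A →ₐ[ℝ] Polynomial ℝ := MvPolynomial.aeval ![Polynomial.X, 0]
  have hρ : ∀ {u : A}, IsSumSq u → IsSumSq (ρ u) := by
    intro u hu
    induction hu with
    | zero => rw [map_zero]; exact IsSumSq.zero
    | sq_add b _ ih =>
      rw [map_add, map_mul]
      exact (IsSumSq.mul_self _).add ih
  have h3 := congrArg ρ h2
  have h6 : ρ (X 0) = Polynomial.X := by simp [ρ]
  have h4 : ρ (Polynomial.aeval (X 0 : A) e) = e := by
    rw [← Polynomial.aeval_algHom_apply, h6, Polynomial.aeval_X_left_apply]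
  have h5 : ρ (C (c ^ 2) - X 0 ^ 2) = Polynomial.C (c ^ 2) - Polynomial.X ^ 2 := by
    rw [map_sub, map_pow ρ (X 0 : A) 2, h6]
    congr 1
    exact MvPolynomial.aeval_C _ _
  rw [h4, map_add, map_mul, h5] at h3
  exact ⟨ρ s, ρ t, hρ hs, hρ ht, h3⟩

private theorem lb_ss_aeval {s : Polynomial ℝ} (hs : IsSumSq s) (h : A) :
    IsSumSq (Polynomial.aeval h s) := by
  induction hs with
  | zero => rw [map_zero]; exact IsSumSq.zero
  | sq_add b _ ih =>
    rw [map_add, map_mul]
    exact (IsSumSq.mul_self _).add ih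

private theorem lb_univ_mem {M : A → Prop} (hM : QMod M) {h : A} (c : ℝ) (hc : 0 < c)
    (hm : M (C (c ^ 2) - h ^ 2)) (e : Polynomial ℝ)
    (he : ∀ x, -c ≤ x → x ≤ c → 0 < e.eval x) : M (Polynomial.aeval h e) := by
  obtain ⟨s, t, hs, ht, hst⟩ := lb_univ_cert c hc e he
  have h1 : Polynomial.aeval h e = Polynomial.aeval h s +
      Polynomial.aeval h t * (C (c ^ 2) - h ^ 2) := by
    have h2 : Polynomial.aeval h (Polynomial.C (c ^ 2)) = (C (c ^ 2) : A) := Polynomial.aeval_C _ _
    rw [hst, map_add, map_mul, map_sub, h2, map_pow (Polynomial.aeval h) Polynomial.X 2,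
      Polynomial.aeval_X]
  rw [h1]
  exact hM.add (hM.ss (lb_ss_aeval hs h)) (hM.ssmul (lb_ss_aeval ht h) hm)

private theorem lb_motE {M : A → Prop} (hM : QMod M) {h : A} (c h0 N : ℝ) (hc : 0 < c)
    (hm : M (C (c ^ 2) - h ^ 2)) (v : A) (ε : ℝ) (hε : 0 < ε) :
    M (mot (C N * (h - C h0)) v + C ε * (1 + v ^ 2 + v ^ 4)) := by
  obtain ⟨s, hs⟩ := exists_polynomial_near_of_continuousOn (-(|N| * (c + |h0|)))
    (|N| * (c + |h0|)) (fun x => |x|) continuous_abs.continuousOn (ε / 2) (by positivity)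
  set Y : Polynomial ℝ := Polynomial.C N * (Polynomial.X - Polynomial.C h0) with hY
  have hYev : ∀ x, Y.eval x = N * (x - h0) := by intro x; rw [hY]; simp
  have hYr : ∀ x, -c ≤ x → x ≤ c → |s.eval (Y.eval x) - abs (Y.eval x)| < ε / 2 := by
    intro x hx hx'
    apply hs
    rw [Set.mem_Icc, ← abs_le, hYev, abs_mul]
    apply mul_le_mul_of_nonneg_left _ (abs_nonneg N)
    have h1 : |x| ≤ c := abs_le.2 ⟨hx, hx'⟩
    have h2 := abs_sub x h0
    linarith
  have hE1 := lb_univ_mem hM c hc hm (Polynomial.C (1 + ε) * (Y ^ 2 + Polynomial.C ε) - s.comp Y ^ 2)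
    (fun x hx hx' => by
      simp only [Polynomial.eval_sub, Polynomial.eval_mul, Polynomial.eval_add,
        Polynomial.eval_pow, Polynomial.eval_C, Polynomial.eval_comp]
      have h1 := abs_lt.1 (hYr x hx hx')
      have h2 := abs_nonneg (Y.eval x)
      have h3 : (Y.eval x) ^ 2 = |Y.eval x| ^ 2 := (sq_abs _).symm
      rw [h3]
      generalize |Y.eval x| = t at *
      generalize s.eval (Y.eval x) = σ at *
      have h4 : σ ^ 2 ≤ (t + ε / 2) ^ 2 := by
        apply sq_le_sq'
        · linarith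
        · linarith
      nlinarith [sq_nonneg (t - 1 / 2), sq_nonneg ε, mul_pos hε hε,
        mul_nonneg hε.le (sq_nonneg (t - 1 / 2))])
  have hE2 := lb_univ_mem hM c hc hm (Y ^ 4 - 3 * Y ^ 2 + Polynomial.C ε + 2 * s.comp Y)
    (fun x hx hx' => by
      simp only [Polynomial.eval_sub, Polynomial.eval_mul, Polynomial.eval_add,
        Polynomial.eval_pow, Polynomial.eval_C, Polynomial.eval_comp, Polynomial.eval_ofNat]
      have h1 := abs_lt.1 (hYr x hx hx')
      have h2 := abs_nonneg (Y.eval x)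
      have h3 : (Y.eval x) ^ 2 = |Y.eval x| ^ 2 := (sq_abs _).symm
      have h3' : (Y.eval x) ^ 4 = |Y.eval x| ^ 4 := by
        rw [show (4 : ℕ) = 2 * 2 from rfl, pow_mul, pow_mul, h3]
      rw [h3, h3']
      generalize |Y.eval x| = t at *
      generalize s.eval (Y.eval x) = σ at *
      have h4 : 0 ≤ t * (t - 1) ^ 2 * (t + 2) := by positivity
      nlinarith)
  have hae : ∀ r : ℝ, Polynomial.aeval h (Polynomial.C r) = C r := fun r => Polynomial.aeval_C _ _
  have hu : Polynomial.aeval h Y = C N * (h - C h0) := by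
    rw [hY, map_mul, map_sub, Polynomial.aeval_X, hae, hae]
  have hcomp : Polynomial.aeval h (s.comp Y) = Polynomial.aeval (C N * (h - C h0)) s := by
    rw [Polynomial.aeval_comp, hu]
  simp only [map_sub, map_add, map_mul, map_pow, hu, hcomp, hae, map_ofNat] at hE1 hE2
  refine hM.cancel (r := 1 + ε) (by positivity) ?_
  have h1 : C (1 + ε) * (mot (C N * (h - C h0)) v + C ε * (1 + v ^ 2 + v ^ 4)) =
      (C (1 + ε) - Polynomial.aeval (C N * (h - C h0)) s * v ^ 2) ^ 2 +
      (v ^ 2) ^ 2 * ((C 1 + C ε) * ((C N * (h - C h0)) ^ 2 + C ε) -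
        Polynomial.aeval (C N * (h - C h0)) s ^ 2) +
      C (1 + ε) * (v ^ 2 * ((C N * (h - C h0)) ^ 4 - 3 * (C N * (h - C h0)) ^ 2 + C ε +
        2 * Polynomial.aeval (C N * (h - C h0)) s)) := by
    unfold mot
    rw [C_add, C_1]
    ring
  rw [h1]
  exact hM.add (hM.add (hM.ss (isSumSq_sq _)) (hM.sq _ hE1)) (hM.smul (by positivity) (hM.sq _ hE2))

private theorem lb_point {g f h : A} (hg : ∃ z, 0 < eval z g) (hf0 : f ≠ 0) (hh : ∀ r, h ≠ C r) :
    ∃ z0, 0 < eval z0 g ∧ eval z0 f ≠ 0 ∧
      (eval z0 (pderiv 0 h) ≠ 0 ∨ eval z0 (pderiv 1 h) ≠ 0) := by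
  by_contra hcon
  push Not at hcon
  obtain ⟨z, hz⟩ := hg
  have key : ∀ i : Fin 2, (∀ w, 0 < eval w g → eval w f ≠ 0 → eval w (pderiv i h) = 0) →
      pderiv i h = 0 := by
    intro i hi
    have h1 : f * pderiv i h = 0 := by
      refine eq_zero_of_vanish z hz _ fun w hw => ?_
      rw [map_mul]
      by_cases hfw : eval w f = 0
      · rw [hfw, zero_mul]
      · rw [hi w hw hfw, mul_zero]
    exact (mul_eq_zero.1 h1).resolve_left hf0
  exact hh _ (const_of_pderiv (key 0 fun w hw hfw => (hcon w hw hfw).1)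
    (key 1 fun w hw hfw => (hcon w hw hfw).2))

theorem not_stable_of_artin (g f h : A) (c : ℝ) (hg : ∃ z, 0 < eval z g) (hf0 : f ≠ 0)
    (hf : InM g f) (hh : ∀ r : ℝ, h ≠ C r) (hm : InM g (f * (C (c ^ 2) - h ^ 2))) : ¬ Stable g := by
  intro hst
  obtain ⟨z0, hz0, hfne, hD⟩ := lb_point hg hf0 hh
  have hfz : 0 < eval z0 f := lt_of_le_of_ne (hf.eval_nonneg z0 hz0.le) (Ne.symm hfne)
  have hM : QMod fun F => InM g (f * F) :=
    { one := by rw [mul_one]; exact hf
      add := fun ha hb => by rw [mul_add]; exact ha.add hb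
      sq := fun a b hb => by
        have h1 : f * (a ^ 2 * b) = a ^ 2 * (f * b) := by ring
        rw [h1]
        exact (InM.sq a).mul hb }
  set c' := |c| + 1 with hc'
  have hc'0 : 0 < c' := by positivity
  have hm' : InM g (f * (C (c' ^ 2) - h ^ 2)) := by
    have h1 : (C (c' ^ 2) - h ^ 2 : A) = (C (c ^ 2) - h ^ 2) + C (c' ^ 2 - c ^ 2) * 1 := by
      rw [C_sub]
      ring
    rw [h1]
    refine hM.add hm (hM.smul ?_ hM.one)
    have h2 : c ^ 2 = |c| ^ 2 := (sq_abs c).symm
    rw [h2, hc']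
    have := abs_nonneg c
    nlinarith
  set D0 := eval z0 (pderiv 0 h) with hD0
  set D1 := eval z0 (pderiv 1 h) with hD1
  set h0 := eval z0 h with hh0
  let l : A := C (-D1) * (X 0 - C (z0 0)) + C D0 * (X 1 - C (z0 1))
  have hmem : ∀ n : ℕ, InM g (f * mot (C ((n : ℝ) + 1) * (h - C h0)) (C ((n : ℝ) + 1) * l)) := by
    intro n
    refine Stable.closed_eps hst z0 hz0 _ (f * (1 + (C ((n : ℝ) + 1) * l) ^ 2 +
      (C ((n : ℝ) + 1) * l) ^ 4)) fun ε hε => ?_
    have h1 : f * mot (C ((n : ℝ) + 1) * (h - C h0)) (C ((n : ℝ) + 1) * l) +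
        C ε * (f * (1 + (C ((n : ℝ) + 1) * l) ^ 2 + (C ((n : ℝ) + 1) * l) ^ 4)) =
        f * (mot (C ((n : ℝ) + 1) * (h - C h0)) (C ((n : ℝ) + 1) * l) +
          C ε * (1 + (C ((n : ℝ) + 1) * l) ^ 2 + (C ((n : ℝ) + 1) * l) ^ 4)) := by ring
    rw [h1]
    exact lb_motE hM c' h0 _ hc'0 hm' _ ε hε
  obtain ⟨ell, hell⟩ := hst
  set d := max h.totalDegree 1 with hd
  set D := f.totalDegree + d * (mot (X 0) (X 1) : A).totalDegree with hDdef
  have hdeg : ∀ n : ℕ, (f * mot (C ((n : ℝ) + 1) * (h - C h0)) (C ((n : ℝ) + 1) * l)).totalDegree ≤ D := by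
    intro n
    refine (totalDegree_mul _ _).trans (Nat.add_le_add_left ?_ _)
    rw [← mot_aeval]
    refine deg_aeval _ d (fun i => ?_) _
    have hl : l.totalDegree ≤ 1 := by
      have hx : ∀ (r s : ℝ) (i : Fin 2), (C r * (X i - C s) : A).totalDegree ≤ 1 := by
        intro r s i
        refine (totalDegree_mul _ _).trans ?_
        rw [totalDegree_C, zero_add]
        refine (totalDegree_sub_C_le _ _).trans ?_
        rw [totalDegree_X]
      exact (totalDegree_add _ _).trans (max_le (hx _ _ _) (hx _ _ _))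
    fin_cases i
    · change (C ((n : ℝ) + 1) * (h - C h0)).totalDegree ≤ d
      refine (totalDegree_mul _ _).trans ?_
      rw [totalDegree_C, zero_add]
      exact (totalDegree_sub_C_le _ _).trans (le_max_left _ _)
    · change (C ((n : ℝ) + 1) * l).totalDegree ≤ d
      refine (totalDegree_mul _ _).trans ?_
      rw [totalDegree_C, zero_add]
      exact hl.trans (le_max_right _ _)
  choose a b ha hb hab had hbd using fun n => hell D _ (hmem n) (hdeg n)
  have hg0 : g ≠ 0 := by rintro rfl; simp at hz0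
  -- rescaling
  let sb : ℕ → A → A := fun n => aeval (fun i => C (z0 i) + C (1 / ((n : ℝ) + 1)) * X i)
  have hsb : ∀ n (P : A) w, eval w (sb n P) = eval (pt z0 w n) P := by
    intro n P w
    change eval w (aeval _ P) = _
    induction P using MvPolynomial.induction_on with
    | C r => rw [aeval_C, eval_C]; exact eval_C _
    | add p q hp hq => rw [map_add, map_add, map_add, hp, hq]
    | mul_X p i hp =>
      rw [map_mul, map_mul, map_mul, hp, aeval_X, eval_X]
      congr 1
      rw [map_add, map_mul, eval_C, eval_C, eval_X]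
      unfold pt
      ring
  have hsbd : ∀ n (P : A), (sb n P).totalDegree ≤ P.totalDegree := by
    intro n P
    have h1 := deg_aeval (fun i => C (z0 i) + C (1 / ((n : ℝ) + 1)) * X i) 1 (fun i => by
      refine (totalDegree_add _ _).trans (max_le (by rw [totalDegree_C]; omega) ?_)
      refine (totalDegree_mul _ _).trans ?_
      rw [totalDegree_C, totalDegree_X]) P
    rwa [one_mul] at h1
  obtain ⟨S, hS, -⟩ := exists_grid z0 hz0 (ell D)
  obtain ⟨s, t, hs, ht, hst⟩ := limit (ell D) (fun n => sb n (a n)) (fun n => sb n (b n))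
    (fun n => IsSumSq.aeval (ha n) _) (fun n => IsSumSq.aeval (hb n) _)
    (fun n => ((hsbd n _).trans (had n)).trans (by omega))
    (fun n => ((hsbd n _).trans ((deg_right hg0).trans (hbd n))).trans (by omega))
    (fun n w => eval (pt z0 w n) g)
    (fun n w => eval (pt z0 w n) (f * mot (C ((n : ℝ) + 1) * (h - C h0)) (C ((n : ℝ) + 1) * l)))
    (fun _ => eval z0 g)
    (fun w => eval z0 f * mot (D0 * w 0 + D1 * w 1) (-D1 * w 0 + D0 * w 1))
    (fun w => tendsto_eval g z0 w)
    (fun w => by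
      have h1 : Tendsto (fun n : ℕ => ((n : ℝ) + 1) * (eval (pt z0 w n) h - h0)) atTop
          (𝓝 (D0 * w 0 + D1 * w 1)) := tendsto_diff h z0 w
      have h2 : Tendsto (fun n : ℕ => mot (((n : ℝ) + 1) * (eval (pt z0 w n) h - h0))
          (-D1 * w 0 + D0 * w 1)) atTop
          (𝓝 (mot (D0 * w 0 + D1 * w 1) (-D1 * w 0 + D0 * w 1))) := by
        have hcont : Continuous fun x : ℝ => mot x (-D1 * w 0 + D0 * w 1) := by
          unfold mot
          fun_prop
        exact (hcont.tendsto _).comp h1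
      refine ((tendsto_eval f z0 w).mul h2).congr fun n => ?_
      rw [map_mul]
      congr 1
      have hn : (0 : ℝ) < (n : ℝ) + 1 := by positivity
      have h3 : eval (pt z0 w n) l = (-D1 * w 0 + D0 * w 1) / ((n : ℝ) + 1) := by
        simp only [l, map_add, map_mul, map_sub, eval_C, eval_X, pt]
        ring
      simp only [mot, map_add, map_sub, map_mul, map_pow, map_one, map_ofNat, eval_C, h3]
      have h4 : ((n : ℝ) + 1) * ((-D1 * w 0 + D0 * w 1) / ((n : ℝ) + 1)) = -D1 * w 0 + D0 * w 1 := by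
        field_simp
      rw [h4])
    (fun n w => by
      rw [hsb, hsb, ← map_mul, ← map_add, ← hab n]) S hS (fun _ _ => hz0)
  refine mot_not_sos D0 D1 hD (C (1 / eval z0 f) * (s + C (eval z0 g) * t))
    ((isSumSq_C (by positivity)).mul (hs.add ((isSumSq_C hz0.le).mul ht))) ?_
  intro w
  have h1 := hst w
  rw [map_mul, map_add, map_mul, eval_C, eval_C, mul_comm (eval z0 g), ← h1, one_div,
    inv_mul_cancel_left₀ hfz.ne']

end Pool.Agent.Helper10.TC
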