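import Mathlib

set_option autoImplicit false

/-!
# Project TC (MP_63c74b), block NU: Dickson's lemma

Choose a sequence `n^(t)`, `t ∈ ℕ`, with `c ∑ n^(t)_i ≤ ∑ n^(t)_i A_ij + M` for all `j` and
`∑ n^(t)_i` strictly increasing in `t` (hypothesis with `D = 1 + ∑ n^(t-1)_i`). Slack
`s^(t)_j = ∑ n^(t)_i A_ij + M - c ∑ n^(t)_i ∈ ℕ`. Dickson's lemma (well quasi order of
`(Fin J → ℕ) × (Fin J → ℕ)`; Mathlib: `Pi.isPWO`, `Set.PartiallyWellOrderedOn`, `wellQuasiOrdered_le`)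
gives `t < t'` with `n^(t) ≤ n^(t')` and `s^(t) ≤ s^(t')`. `ν = n^(t') - n^(t)`, not zero since
the sums differ, and `∑ ν_i A_ij - c ∑ ν_i = s^(t')_j - s^(t)_j ≥ 0`.
-/

namespace Pool.Agent.Helper10.TC

theorem exists_nu {J : ℕ} (Am : Fin J → Fin J → ℕ) (c M : ℕ)
    (h : ∀ D : ℕ, ∃ n : Fin J → ℕ, D ≤ ∑ i, n i ∧ ∀ j, c * ∑ i, n i ≤ ∑ i, n i * Am i j + M) :
    ∃ ν : Fin J → ℕ, ν ≠ 0 ∧ ∀ j, c * ∑ i, ν i ≤ ∑ i, ν i * Am i j := by
  choose n0 hn1 hn2 using h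
  let g : ℕ → (Fin J → ℕ) := fun t => Nat.rec (n0 0) (fun _ x => n0 (1 + ∑ i, x i)) t
  have hg1 : ∀ t, (∑ i, g t i) < ∑ i, g (t + 1) i := by
    intro t
    have h1 := hn1 (1 + ∑ i, g t i)
    have h2 : g (t + 1) = n0 (1 + ∑ i, g t i) := rfl
    rw [h2]
    omega
  have hmono : StrictMono fun t => ∑ i, g t i := strictMono_nat_of_lt_succ hg1
  have hg2 : ∀ t j, c * ∑ i, g t i ≤ ∑ i, g t i * Am i j + M := by
    intro t
    cases t with
    | zero => exact hn2 0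
    | succ t => exact hn2 (1 + ∑ i, g t i)
  obtain ⟨t, t', htt, hle⟩ := wellQuasiOrdered_le (α := (Fin J → ℕ) × (Fin J → ℕ))
    (fun t => (g t, fun j => ∑ i, g t i * Am i j + M - c * ∑ i, g t i))
  obtain ⟨hle1, hle2⟩ := Prod.mk_le_mk.1 hle
  obtain ⟨ν, hν⟩ := exists_add_of_le hle1
  have hlt : (∑ i, g t i) < ∑ i, g t' i := hmono htt
  refine ⟨ν, ?_, fun j => ?_⟩
  · rintro rfl
    rw [hν, add_zero] at hlt
    exact lt_irrefl _ hlt
  · have h1 := hle2 j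
    have h2 := hg2 t j
    have h3 := hg2 t' j
    simp only at h1
    have e1 : ∑ i, g t' i = ∑ i, g t i + ∑ i, ν i := by
      rw [hν, ← Finset.sum_add_distrib]
      rfl
    have e2 : ∑ i, g t' i * Am i j = ∑ i, g t i * Am i j + ∑ i, ν i * Am i j := by
      rw [hν, ← Finset.sum_add_distrib]
      refine Finset.sum_congr rfl fun i _ => ?_
      rw [Pi.add_apply, add_mul]
    rw [e1, e2, mul_add] at h1 h3
    omega

end Pool.Agent.Helper10.TC
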