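import Pool.Agent.Helper10.TC.Apr
import Pool.Agent.Helper10.TC.BallD

set_option autoImplicit false

/-!
# Project TC (MP_63c74b), block PSIB: `Ψ` on the balls

Let `x = ε / u^N` (`ε = sgn b.pos = ± 1`, `u > 0`), `y = x (q(u) + σ u^r)`. Then `x⁻¹ = ε u^N`,
`y x⁻¹ = q(u) + σ u^r`, so by `ev_onR` and `hR`: `ev x⁻¹ (y x⁻¹) H = u^w ev u σ R`, and
`Ψ = (x^d u^w ev u σ R)^(2N) (1+x²)^δ = u^(2N(w - N d)) (ev u σ R)^(2N) u^(-2Nδ) (1 + u^(2N))^δ`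
`= u^(2N(w - N d - δ)) (1 + u^(2N))^δ (ev u σ R)^(2N)` (`ε^(2N..) = 1`, `x² = u^(-2N)`); `w - N d - δ ≥ 0`.
`psi_bound`: `ev u σ R` is bounded for `0 < u ≤ 1`, `|σ| ≤ C` (continuous on a compact set).
`psi_lim`: if `w = N d + δ`: as `u → 0+` the limit is `(ev 0 σ R)^(2N) = ((R.map (evalRingHom 0)).eval σ)^(2N)`.
-/

open Polynomial Filter Topology

namespace Pool.Agent.Helper10.TC

private theorem sgn_sq6 (b : Bool) : sgn b ^ 2 = 1 := by cases b <;> simp [sgn]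

private theorem continuous_ev6 (R : R2) : Continuous fun p : ℝ × ℝ => ev p.1 p.2 R := by
  have h : (fun p : ℝ × ℝ => ev p.1 p.2 R)
      = fun p : ℝ × ℝ => ∑ i ∈ R.support, (R.coeff i).eval p.1 * p.2 ^ i := by
    funext p
    simp [ev, eval₂_eq_sum, Polynomial.sum]
  rw [h]
  refine continuous_finsetSum _ (fun i _ => ?_)
  exact ((R.coeff i).continuous.comp continuous_fst).mul (continuous_snd.pow i)

private theorem Psi_eq6 (N : ℕ) (b : Ball) (H R : R2) (w δ m : ℕ)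
    (hR : onR N b H = C (X ^ w) * R) (hw : w = N * H.natDegree + δ + m) (u σ : ℝ) (hu : 0 < u) :
    Psi N δ H (sgn b.pos / u ^ N) (sgn b.pos / u ^ N * (b.q.eval u + σ * u ^ b.r)) =
      ((u ^ N) ^ 2) ^ m * (1 + (u ^ N) ^ 2) ^ δ * (ev u σ R) ^ (2 * N) := by
  have hs := sgn_sq6 b.pos
  have hs0 : sgn b.pos ≠ 0 := by
    intro h
    rw [h] at hs
    norm_num at hs
  have hv : u ^ N ≠ 0 := (pow_pos hu N).ne'
  have hx0 : sgn b.pos / u ^ N ≠ 0 := div_ne_zero hs0 hv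
  have hxi : (sgn b.pos / u ^ N)⁻¹ = sgn b.pos * u ^ N := by
    rw [inv_div, div_eq_iff hs0]
    calc u ^ N = sgn b.pos ^ 2 * u ^ N := by rw [hs, one_mul]
      _ = sgn b.pos * u ^ N * sgn b.pos := by ring
  have hY : sgn b.pos / u ^ N * (b.q.eval u + σ * u ^ b.r) * (sgn b.pos / u ^ N)⁻¹
      = b.q.eval u + σ * u ^ b.r := by
    rw [mul_comm (sgn b.pos / u ^ N), mul_assoc, mul_inv_cancel₀ hx0, mul_one]
  have hx2 : (sgn b.pos / u ^ N) ^ 2 = ((u ^ N) ^ 2)⁻¹ := by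
    rw [div_pow, hs, one_div]
  unfold Psi
  rw [hY, hxi, ← ev_onR, hR, map_mul, ev_C, eval_pow, eval_X, mul_pow, mul_pow]
  have h1 : ((sgn b.pos / u ^ N) ^ H.natDegree) ^ (2 * N)
      = (((u ^ N) ^ 2)⁻¹) ^ (N * H.natDegree) := by
    rw [← hx2, ← pow_mul, ← pow_mul]
    congr 1
    ring
  have h2 : (u ^ w) ^ (2 * N)
      = ((u ^ N) ^ 2) ^ (N * H.natDegree) * ((u ^ N) ^ 2) ^ δ * ((u ^ N) ^ 2) ^ m := by
    rw [← pow_add, ← pow_add, ← hw, ← pow_mul, ← pow_mul, ← pow_mul]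
    congr 1
    ring
  rw [h1, h2, hx2]
  have hV : (u ^ N) ^ 2 ≠ 0 := pow_ne_zero 2 hv
  generalize (u ^ N) ^ 2 = V at hV ⊢
  have h3 : (V⁻¹) ^ (N * H.natDegree) * V ^ (N * H.natDegree) = 1 := by
    rw [← mul_pow, inv_mul_cancel₀ hV, one_pow]
  have h4 : V ^ δ * (1 + V⁻¹) ^ δ = (1 + V) ^ δ := by
    rw [← mul_pow]
    congr 1
    rw [mul_add, mul_one, mul_inv_cancel₀ hV]
    ring
  calc (V⁻¹) ^ (N * H.natDegree) * (V ^ (N * H.natDegree) * V ^ δ * V ^ m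
        * (ev u σ) R ^ (2 * N)) * (1 + V⁻¹) ^ δ
      = ((V⁻¹) ^ (N * H.natDegree) * V ^ (N * H.natDegree)) * V ^ m
        * (V ^ δ * (1 + V⁻¹) ^ δ) * (ev u σ) R ^ (2 * N) := by ring
    _ = V ^ m * (1 + V) ^ δ * (ev u σ) R ^ (2 * N) := by rw [h3, h4, one_mul]

theorem psi_bound (N : ℕ) (hN : N ≠ 0) (b : Ball) (H R : R2) (w δ : ℕ)
    (hR : onR N b H = C (X ^ w) * R) (hw : N * H.natDegree + δ ≤ w) (C₁ : ℝ) :
    ∃ K : ℝ, ∀ u σ : ℝ, 0 < u → u ≤ 1 → |σ| ≤ C₁ →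
      |Psi N δ H (sgn b.pos / u ^ N) (sgn b.pos / u ^ N * (b.q.eval u + σ * u ^ b.r))| ≤ K := by
  obtain ⟨m, hm⟩ := Nat.exists_eq_add_of_le hw
  have hc : Continuous fun p : ℝ × ℝ =>
      ((p.1 ^ N) ^ 2) ^ m * (1 + (p.1 ^ N) ^ 2) ^ δ * (ev p.1 p.2 R) ^ (2 * N) := by
    have h := continuous_ev6 R
    have h1 : Continuous fun p : ℝ × ℝ => p.1 := continuous_fst
    exact ((((h1.pow N).pow 2).pow m).mul
      ((continuous_const.add ((h1.pow N).pow 2)).pow δ)).mul (h.pow (2 * N))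
  obtain ⟨K, hK⟩ := ((isCompact_Icc (a := (0 : ℝ)) (b := 1)).prod
    (isCompact_Icc (a := -C₁) (b := C₁))).exists_bound_of_continuousOn hc.continuousOn
  refine ⟨K, fun u σ hu hu1 hσ => ?_⟩
  rw [Psi_eq6 N b H R w δ m hR hm u σ hu]
  have h := hK (u, σ) ⟨⟨hu.le, hu1⟩, abs_le.mp hσ⟩
  rwa [Real.norm_eq_abs] at h

theorem psi_lim (N : ℕ) (hN : N ≠ 0) (b : Ball) (H R : R2) (w δ : ℕ)
    (hR : onR N b H = C (X ^ w) * R) (hw : N * H.natDegree + δ = w) (σ : ℝ) :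
    Tendsto (fun u : ℝ => Psi N δ H (sgn b.pos / u ^ N)
      (sgn b.pos / u ^ N * (b.q.eval u + σ * u ^ b.r))) (𝓝[>] 0)
      (𝓝 (((R.map (evalRingHom 0)).eval σ) ^ (2 * N))) := by
  have hc : Continuous fun u : ℝ =>
      ((u ^ N) ^ 2) ^ 0 * (1 + (u ^ N) ^ 2) ^ δ * (ev u σ R) ^ (2 * N) := by
    have h : Continuous fun u : ℝ => ev u σ R :=
      (continuous_ev6 R).comp (continuous_id.prodMk continuous_const)
    have h1 : Continuous fun u : ℝ => u := continuous_id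
    exact ((((h1.pow N).pow 2).pow 0).mul
      ((continuous_const.add ((h1.pow N).pow 2)).pow δ)).mul (h.pow (2 * N))
  have hl := (hc.tendsto 0).mono_left (nhdsWithin_le_nhds (s := Set.Ioi (0 : ℝ)))
  have h0 : ((((0 : ℝ) ^ N) ^ 2) ^ 0 * (1 + ((0 : ℝ) ^ N) ^ 2) ^ δ * (ev 0 σ R) ^ (2 * N))
      = ((R.map (evalRingHom 0)).eval σ) ^ (2 * N) := by
    rw [zero_pow hN, eval_map]
    simp [ev]
  rw [h0] at hl
  refine hl.congr' ?_
  filter_upwards [self_mem_nhdsWithin] with u hu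
  exact (Psi_eq6 N b H R w δ 0 hR (by omega) u σ hu).symm

end Pool.Agent.Helper10.TC
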