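import Pool.Agent.Helper10.TC.Hat

set_option autoImplicit false

/-!
# Project TC (MP_63c74b), block SHEAR: invariance under shears

`sh l` and `sh (-l)` are inverse to each other (check on `X 0`, `X 1`); `eval z (sh l g) = eval ![z 0 + l z 1, z 1] g`;
`totalDegree (sh l g) ≤ totalDegree g` (`deg_aeval` in `Helper68/QM/Main.lean` with `d = 1`), hence `=`;
`sh l` maps sums of squares to sums of squares (`IsSumSq.aeval` in `Helper68/QM/Basic.lean`).
`stable_shear`: if `f = s + t (sh l g)` then `sh (-l) f = sh (-l) s + sh (-l) t * g`, of the same total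
degree; same function `ℓ`.
`finite_shear`: `f ↦ sh l f` maps `gsp g m` injectively and linearly into `gsp (sh l g) m` (the linear map
`z ↦ (z 0 + l z 1, z 1)` has `‖·‖ ≤ (1 + |l|) ‖z‖`), `Module.Finite.of_injective`.
`coeff_shear`: the coefficient of `y^D` in `g(x + l y, y)`, `D = totalDegree g`, is `g_D(l, 1)`: e.g. only
terms of degree `D` contribute; `(x + l y)^a y^b` has the coefficient `l^a` at `y^(a+b)`. (Or: put `x = 0`:
`g(l y, y)` is a polynomial in `y` with coefficient `g_D(l, 1)` at `y^D`.)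
-/

open Pool.Agent.Helper68.QM

namespace Pool.Agent.Helper10.TC

/-- `g(x + l y, y)` -/
noncomputable def sh (l : ℝ) : A →ₐ[ℝ] A :=
  MvPolynomial.aeval ![MvPolynomial.X 0 + MvPolynomial.C l * MvPolynomial.X 1, MvPolynomial.X 1]

theorem eval_sh (l : ℝ) (g : A) (z : Fin 2 → ℝ) :
    MvPolynomial.eval z (sh l g) = MvPolynomial.eval ![z 0 + l * z 1, z 1] g := by
  induction g using MvPolynomial.induction_on with
  | C a => rw [sh, MvPolynomial.algHom_C, MvPolynomial.algebraMap_eq, MvPolynomial.eval_C,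
      MvPolynomial.eval_C]
  | add p q hp hq => rw [map_add, map_add, map_add, hp, hq]
  | mul_X p i hp =>
    rw [map_mul, map_mul, map_mul, hp, MvPolynomial.eval_X]
    congr 1
    unfold sh
    rw [MvPolynomial.aeval_X]
    fin_cases i
    · simp
    · simp

private theorem sh_sh_neg_4 (l : ℝ) (g : A) : sh (-l) (sh l g) = g := by
  refine MvPolynomial.funext fun z => ?_
  rw [eval_sh, eval_sh]
  congr 1
  congr 1
  funext i
  fin_cases i
  · simp
  · simp

private theorem sh_neg_sh_4 (l : ℝ) (g : A) : sh l (sh (-l) g) = g := by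
  have h := sh_sh_neg_4 (-l) g
  rwa [neg_neg] at h

private theorem totalDegree_sh_le_4 (l : ℝ) (g : A) : (sh l g).totalDegree ≤ g.totalDegree := by
  have h := deg_aeval ![MvPolynomial.X 0 + MvPolynomial.C l * MvPolynomial.X 1, MvPolynomial.X 1] 1
    (fun i => by
      fin_cases i
      · refine (MvPolynomial.totalDegree_add _ _).trans (max_le ?_ ?_)
        · rw [MvPolynomial.totalDegree_X]
        · refine (MvPolynomial.totalDegree_mul _ _).trans ?_
          rw [MvPolynomial.totalDegree_C, MvPolynomial.totalDegree_X]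
      · change (MvPolynomial.X 1 : A).totalDegree ≤ 1
        rw [MvPolynomial.totalDegree_X]) g
  rwa [one_mul] at h

theorem totalDegree_sh (l : ℝ) (g : A) : (sh l g).totalDegree = g.totalDegree := by
  refine le_antisymm (totalDegree_sh_le_4 l g) ?_
  have h := totalDegree_sh_le_4 (-l) (sh l g)
  rwa [sh_sh_neg_4] at h

theorem stable_shear (l : ℝ) (g : A) (h : Stable g) : Stable (sh l g) := by
  obtain ⟨L, hL⟩ := h
  refine ⟨L, ?_⟩
  rintro d f ⟨s, t, hs, ht, rfl⟩ hd
  have e1 : sh (-l) (s + t * sh l g) = sh (-l) s + sh (-l) t * g := by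
    rw [map_add, map_mul, sh_sh_neg_4]
  obtain ⟨s', t', hs', ht', e2, hd1, hd2⟩ := hL d (sh (-l) (s + t * sh l g))
    ⟨sh (-l) s, sh (-l) t, IsSumSq.aeval hs _, IsSumSq.aeval ht _, e1⟩
    (by rw [totalDegree_sh]; exact hd)
  refine ⟨sh l s', sh l t', IsSumSq.aeval hs' _, IsSumSq.aeval ht' _, ?_, ?_, ?_⟩
  · rw [← map_mul, ← map_add, ← e2, sh_neg_sh_4]
  · rw [totalDegree_sh]
    exact hd1
  · rw [← map_mul, totalDegree_sh]
    exact hd2

theorem finite_shear (l : ℝ) (g : A) (m : ℕ) (h : Module.Finite ℝ (gsp (sh l g) m)) :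
    Module.Finite ℝ (gsp g m) := by
  have hmem : ∀ f ∈ gsp g m, sh l f ∈ gsp (sh l g) m := by
    rintro f ⟨K, hK⟩
    refine ⟨|K| * (1 + |l|) ^ m, fun z hz => ?_⟩
    rw [eval_sh] at hz ⊢
    set z' : Fin 2 → ℝ := ![z 0 + l * z 1, z 1] with hz'
    have h0 : |z 0| ≤ ‖z‖ := by
      rw [← Real.norm_eq_abs]
      exact norm_le_pi_norm z 0
    have h1 : |z 1| ≤ ‖z‖ := by
      rw [← Real.norm_eq_abs]
      exact norm_le_pi_norm z 1
    have hn : 1 + ‖z'‖ ≤ (1 + |l|) * (1 + ‖z‖) := by
      have hl := abs_nonneg l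
      have hzn := norm_nonneg z
      have hlz : 0 ≤ |l| * ‖z‖ := mul_nonneg hl hzn
      have h2 : ‖z'‖ ≤ (1 + |l|) * ‖z‖ := by
        rw [pi_norm_le_iff_of_nonneg (by positivity)]
        intro i
        fin_cases i
        · change ‖z 0 + l * z 1‖ ≤ _
          rw [Real.norm_eq_abs]
          refine (abs_add_le _ _).trans ?_
          rw [abs_mul]
          have h3 : |l| * |z 1| ≤ |l| * ‖z‖ := mul_le_mul_of_nonneg_left h1 hl
          linarith
        · change ‖z 1‖ ≤ _
          rw [Real.norm_eq_abs]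
          linarith
      linarith
    have h3 := hK z' hz
    have hz0 : 0 ≤ 1 + ‖z'‖ := by positivity
    calc |MvPolynomial.eval z' f| ≤ K * (1 + ‖z'‖) ^ m := h3
      _ ≤ |K| * (1 + ‖z'‖) ^ m := mul_le_mul_of_nonneg_right (le_abs_self K) (pow_nonneg hz0 m)
      _ ≤ |K| * ((1 + |l|) * (1 + ‖z‖)) ^ m :=
          mul_le_mul_of_nonneg_left (pow_le_pow_left₀ hz0 hn m) (abs_nonneg K)
      _ = |K| * (1 + |l|) ^ m * (1 + ‖z‖) ^ m := by rw [mul_pow, mul_assoc]
  let φ : gsp g m →ₗ[ℝ] gsp (sh l g) m :=
    { toFun := fun f => ⟨sh l f, hmem f f.2⟩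
      map_add' := fun a b => Subtype.ext (map_add (sh l) (a : A) (b : A))
      map_smul' := fun c a => Subtype.ext (map_smul (sh l) c (a : A)) }
  refine Module.Finite.of_injective φ ?_
  intro a b hab
  have h1 : sh l (a : A) = sh l (b : A) := congrArg Subtype.val hab
  apply Subtype.ext
  rw [← sh_sh_neg_4 l (a : A), h1, sh_sh_neg_4]

private theorem aeval_zero_coeff_4 (h : A) (D : ℕ) :
    (MvPolynomial.aeval ![(0 : Polynomial ℝ), Polynomial.X] h).coeff D =
      MvPolynomial.coeff (Finsupp.single 1 D) h := by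
  induction h using MvPolynomial.induction_on' with
  | add p q hp hq => rw [map_add, Polynomial.coeff_add, MvPolynomial.coeff_add, hp, hq]
  | monomial m a =>
    rw [MvPolynomial.aeval_monomial, Finsupp.prod_fintype _ _ (fun _ => pow_zero _),
      Fin.prod_univ_two, MvPolynomial.coeff_monomial]
    change ((Polynomial.C a : Polynomial ℝ) * ((0 : Polynomial ℝ) ^ m 0 * Polynomial.X ^ m 1)).coeff D = _
    rw [Polynomial.coeff_C_mul]
    by_cases h0 : m 0 = 0
    · rw [h0, pow_zero, one_mul, Polynomial.coeff_X_pow]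
      by_cases h1 : D = m 1
      · have e : m = Finsupp.single 1 D := by
          ext i
          fin_cases i
          · simp [h0]
          · simp [h1]
        rw [if_pos h1, if_pos e, mul_one]
      · have e : m ≠ Finsupp.single 1 D := by
          intro e
          apply h1
          rw [e]
          simp
        rw [if_neg h1, if_neg e, mul_zero]
    · have e : m ≠ Finsupp.single 1 D := by
        intro e
        apply h0
        rw [e]
        simp
      rw [zero_pow h0, zero_mul, Polynomial.coeff_zero, mul_zero, if_neg e]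

private theorem aeval_line_coeff_4 (l : ℝ) (h : A) (D : ℕ) :
    (MvPolynomial.aeval ![(Polynomial.C l * Polynomial.X : Polynomial ℝ), Polynomial.X] h).coeff D =
      MvPolynomial.eval ![l, 1] (MvPolynomial.homogeneousComponent D h) := by
  induction h using MvPolynomial.induction_on' with
  | add p q hp hq => rw [map_add, Polynomial.coeff_add, map_add, map_add, hp, hq]
  | monomial m a =>
    rw [MvPolynomial.aeval_monomial, Finsupp.prod_fintype _ _ (fun _ => pow_zero _),
      Fin.prod_univ_two]
    change ((Polynomial.C a : Polynomial ℝ) * ((Polynomial.C l * Polynomial.X) ^ m 0 *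
      Polynomial.X ^ m 1)).coeff D = _
    have e1 : (Polynomial.C a : Polynomial ℝ) * ((Polynomial.C l * Polynomial.X) ^ m 0 *
        Polynomial.X ^ m 1) = Polynomial.C (a * l ^ m 0) * Polynomial.X ^ (m 0 + m 1) := by
      rw [mul_pow, ← Polynomial.C_pow, pow_add, Polynomial.C_mul]
      ring
    have hdeg : m.degree = m 0 + m 1 := by
      rw [Finsupp.degree_eq_sum, Fin.sum_univ_two]
    have hhom := MvPolynomial.homogeneousComponent_of_mem (m := D)
      ((MvPolynomial.mem_homogeneousSubmodule m.degree (MvPolynomial.monomial m a)).2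
        (MvPolynomial.isHomogeneous_monomial a rfl))
    rw [e1, Polynomial.coeff_C_mul, Polynomial.coeff_X_pow, hhom, hdeg]
    by_cases hD : D = m 0 + m 1
    · rw [if_pos hD, if_pos hD, MvPolynomial.eval_monomial,
        Finsupp.prod_fintype _ _ (fun _ => pow_zero _), Fin.prod_univ_two]
      simp
    · rw [if_neg hD, if_neg hD, mul_zero]
      exact (map_zero (MvPolynomial.eval ![l, 1])).symm

theorem coeff_shear (l : ℝ) (g : A) :
    MvPolynomial.coeff (Finsupp.single 1 g.totalDegree) (sh l g) =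
      MvPolynomial.eval ![l, 1] (MvPolynomial.homogeneousComponent g.totalDegree g) := by
  rw [← aeval_zero_coeff_4, ← aeval_line_coeff_4]
  congr 1
  have h : (MvPolynomial.aeval ![(0 : Polynomial ℝ), Polynomial.X] : A →ₐ[ℝ] Polynomial ℝ).comp (sh l) =
      MvPolynomial.aeval ![(Polynomial.C l * Polynomial.X : Polynomial ℝ), Polynomial.X] := by
    refine MvPolynomial.algHom_ext fun i => ?_
    rw [AlgHom.comp_apply, sh, MvPolynomial.aeval_X, MvPolynomial.aeval_X]
    fin_cases i
    · simp [MvPolynomial.algHom_C]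
    · simp
  exact congrArg (fun φ : A →ₐ[ℝ] Polynomial ℝ => φ g) h

end Pool.Agent.Helper10.TC
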