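import Pool.Agent.Helper10.TC.TwoS
import Pool.Agent.Helper10.TC.CountG
import Pool.Agent.Helper10.TC.Nu
import Pool.Agent.Helper10.TC.FD
import Pool.Agent.Helper10.TC.Big
import Pool.Agent.Helper10.TC.PsiB
import Pool.Agent.Helper10.TC.BddS
import Pool.Agent.Helper10.TC.FinalB
import Pool.Agent.Helper10.TC.Cone
import Pool.Agent.Helper10.TC.Shear
import Pool.Agent.Helper10.TC.LBnd

set_option autoImplicit false

/-!
# Project TC (MP_63c74b): the criterion
-/

open Pool.Agent.Helper68.QM Filter Topology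

namespace Pool.Agent.Helper10.TC

/-- the limit of `S / (1 + x²)^j` is that of `Psi` -/
theorem lim_aux (N : ℕ) (hN : N ≠ 0) (b : Ball) (σ L : ℝ) (F Ψ : ℝ → ℝ → ℝ)
    (hS : ∀ C₀ : ℝ, ∃ K : ℝ, ∀ x y : ℝ, 1 ≤ |x| → |y| ≤ C₀ * (1 + |x|) →
        |F x y - Ψ x y| ≤ K / |x|)
    (h1 : Tendsto (fun u : ℝ => Ψ (sgn b.pos / u ^ N)
      (sgn b.pos / u ^ N * (b.q.eval u + σ * u ^ b.r))) (𝓝[>] 0) (𝓝 L)) :
    Tendsto (fun u : ℝ => F (sgn b.pos / u ^ N)
      (sgn b.pos / u ^ N * (b.q.eval u + σ * u ^ b.r))) (𝓝[>] 0) (𝓝 L) := by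
  have hsg : |sgn b.pos| = 1 := by
    rw [sgn]
    split_ifs <;> simp
  have hx : ∀ u : ℝ, 0 < u → |sgn b.pos / u ^ N| = (u ^ N)⁻¹ := by
    intro u hu
    rw [abs_div, hsg, abs_of_pos (pow_pos hu N), one_div]
  have hcont : Tendsto (fun u : ℝ => b.q.eval u + σ * u ^ b.r) (𝓝[>] 0)
      (𝓝 (b.q.eval 0 + σ * 0 ^ b.r)) := by
    have h2 : Continuous fun u : ℝ => b.q.eval u + σ * u ^ b.r := by fun_prop
    exact (h2.tendsto 0).mono_left nhdsWithin_le_nhds
  set L' := b.q.eval 0 + σ * 0 ^ b.r with hL'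
  obtain ⟨K, hK⟩ := hS (|L'| + 1)
  have hd : Tendsto (fun u : ℝ => F (sgn b.pos / u ^ N)
      (sgn b.pos / u ^ N * (b.q.eval u + σ * u ^ b.r)) - Ψ (sgn b.pos / u ^ N)
      (sgn b.pos / u ^ N * (b.q.eval u + σ * u ^ b.r))) (𝓝[>] 0) (𝓝 0) := by
    have h3 : Tendsto (fun u : ℝ => K * u ^ N) (𝓝[>] 0) (𝓝 0) := by
      have h4 : Continuous fun u : ℝ => K * u ^ N := by fun_prop
      have h5 := (h4.tendsto 0).mono_left (nhdsWithin_le_nhds (s := Set.Ioi 0))
      rwa [zero_pow hN, mul_zero] at h5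
    refine squeeze_zero_norm' ?_ h3
    have h6 : ∀ᶠ u : ℝ in 𝓝[>] 0, |b.q.eval u + σ * u ^ b.r| ≤ |L'| + 1 := by
      have h7 := hcont.abs.eventually_lt_const (show |L'| < |L'| + 1 by linarith)
      exact h7.mono fun u hu => hu.le
    have h8 : ∀ᶠ u : ℝ in 𝓝[>] 0, u < 1 :=
      (eventually_lt_nhds (show (0 : ℝ) < 1 by norm_num)).filter_mono nhdsWithin_le_nhds
    filter_upwards [h6, h8, self_mem_nhdsWithin] with u hu1 hu2 hu3
    have hu0 : (0 : ℝ) < u := hu3
    have hp : 0 < u ^ N := pow_pos hu0 N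
    have hp1 : u ^ N ≤ 1 := pow_le_one₀ hu0.le hu2.le
    have hx1 := hx u hu0
    have h9 := hK (sgn b.pos / u ^ N) (sgn b.pos / u ^ N * (b.q.eval u + σ * u ^ b.r))
      (by rw [hx1]; exact (one_le_inv₀ hp).2 hp1) (by
        rw [abs_mul, hx1, mul_comm]
        have h10 : (u ^ N)⁻¹ ≤ 1 + (u ^ N)⁻¹ := by linarith
        exact mul_le_mul hu1 h10 (inv_nonneg.2 hp.le) (by positivity))
    rw [hx1, div_inv_eq_mul] at h9
    rw [Real.norm_eq_abs]
    exact h9
  have h11 := hd.add h1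
  rw [zero_add] at h11
  refine h11.congr fun u => ?_
  ring

/-- the main step: a nonzero combination of balls excludes stability -/
theorem not_stable_of_nu (g : A) (hg : ∃ z, 0 < MvPolynomial.eval z g)
    (hDe : Even g.totalDegree)
    (hc : MvPolynomial.coeff (Finsupp.single 1 g.totalDegree) g < 0) (N : ℕ) (hN : N ≠ 0) {J : ℕ}
    (B : Fin J → Ball) (hB : ∀ j, Good N (hat g.totalDegree g) (B j))
    (hcov : Covers N (hat g.totalDegree g) B) (ν : Fin J → ℕ) (hν : ν ≠ 0)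
    (h : ∀ j, 2 * N * N * ∑ i, ν i ≤ ∑ i, ν i * Ah N (B i) (B j)) : ¬ Stable g := by
  obtain ⟨H, hH, hHd, hHj⟩ := exists_H N hN B ν hν h
  have hJ : 0 < J := by
    rcases Nat.eq_zero_or_pos J with rfl | hJ
    · exact absurd (funext fun i => i.elim0) hν
    · exact hJ
  choose w R hw hR hR0 hR1 using fun j => ball_data N (B j) H hH
    ((onR_dvd_iff N hN (B j) H _).2 (hHj j).1) (onR_eval_zero N hN (B j) H (hHj j).2)
  have : Nonempty (Fin J) := ⟨⟨0, hJ⟩⟩
  obtain ⟨j₀, hj₀⟩ := Finite.exists_min w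
  obtain ⟨δ, hδ⟩ := Nat.exists_eq_add_of_le (hw j₀)
  obtain ⟨S, j, hj, hSd, hSl, hS⟩ := exists_S N hN δ H hH hHd
  obtain ⟨C₀, hC₀⟩ := cone_cond g hDe hc
  obtain ⟨c, hcb⟩ := bounded_on g g.totalDegree le_rfl hDe C₀ hC₀ N hN B hcov H δ
    (fun i C₁ => psi_bound N hN (B i) H (R i) (w i) δ (hR i) (by rw [← hδ]; exact hj₀ i) C₁) S j hS
  set P : R1 := ((R j₀).map (Polynomial.evalRingHom 0)) ^ (2 * N) with hP
  refine not_stable_of_ball g hg S j δ hj hSl hSd c hcb N hN (B j₀) g.totalDegree le_rfl hDe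
    (hB j₀) P ?_ fun σ => ?_
  · rw [hP, Polynomial.natDegree_pow]
    refine Nat.mul_pos (by omega) ?_
    rw [Nat.pos_iff_ne_zero]
    intro h0
    obtain ⟨r, hr⟩ := Polynomial.natDegree_eq_zero.1 h0
    apply hR0 j₀
    have h1 := hR1 j₀
    rw [← hr, Polynomial.eval_C] at h1
    rw [← hr, h1, Polynomial.C_0]
  · have h1 := psi_lim N hN (B j₀) H (R j₀) (w j₀) δ (hR j₀) hδ.symm σ
    rw [hP, Polynomial.eval_pow]
    exact lim_aux N hN (B j₀) σ _ _ _ hS h1

theorem exists_root {N : ℕ} (hN : N ≠ 0) {t : ℝ} (ht : 0 < t) : ∃ u : ℝ, 0 < u ∧ u ^ N = t :=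
  ⟨t ^ ((N : ℝ)⁻¹), Real.rpow_pos_of_pos ht _, Real.rpow_inv_natCast_pow ht.le hN⟩

/-- no balls: `g > 0` is bounded in the direction of `x` -/
theorem bounded_of_empty (g : A) (D : ℕ) (hD : g.totalDegree ≤ D) (hDe : Even D) (N : ℕ)
    (hN : N ≠ 0) (B : Fin 0 → Ball) (hcov : Covers N (hat D g) B) :
    ∃ c : ℝ, 0 < c ∧ ∀ z, 0 < MvPolynomial.eval z g → |z 0| ≤ c := by
  obtain ⟨K, hK⟩ := hcov
  rw [eventually_nhdsWithin_iff, Metric.eventually_nhds_iff] at hK
  obtain ⟨u₀, hu₀, h⟩ := hK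
  have hp : 0 < u₀ ^ N := pow_pos hu₀ N
  refine ⟨(u₀ ^ N)⁻¹, inv_pos.2 hp, fun z hz => ?_⟩
  by_contra hcon
  push Not at hcon
  have hx : 0 < |z 0| := lt_trans (inv_pos.2 hp) hcon
  have hx0 : z 0 ≠ 0 := abs_pos.1 hx
  obtain ⟨u, hu, huN⟩ := exists_root hN (inv_pos.2 hx)
  have hlt : u < u₀ := by
    refine lt_of_pow_lt_pow_left₀ N hu₀.le ?_
    rw [huN]
    exact inv_lt_of_inv_lt₀ hp hcon
  set pos : Bool := decide (0 < z 0) with hpos
  have hs : sgn pos * u ^ N = (z 0)⁻¹ := by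
    rw [huN, sgn, hpos]
    by_cases h0 : 0 < z 0
    · simp [h0, abs_of_pos h0]
    · have h1 : z 0 < 0 := lt_of_le_of_ne (not_lt.1 h0) hx0
      simp [h0, abs_of_neg h1, inv_neg]
  obtain ⟨j, -⟩ := h (y := u) (by rw [Real.dist_eq, sub_zero, abs_of_pos hu]; exact hlt) hu pos
    (z 1 * (z 0)⁻¹) (by
      rw [hs, ev_hat D g hD _ _ (inv_ne_zero hx0)]
      have e1 : (![((z 0)⁻¹)⁻¹, z 1 * (z 0)⁻¹ * ((z 0)⁻¹)⁻¹] : Fin 2 → ℝ) = z := by
        ext i
        fin_cases i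
        · simp
        · simp only [inv_inv, Fin.mk_one, Matrix.cons_val_one, Matrix.cons_val_fin_one]
          rw [mul_assoc, inv_mul_cancel₀ hx0, mul_one]
      rw [e1]
      exact mul_pos (hDe.pow_pos (inv_ne_zero hx0)) hz)
  exact j.elim0

/-- if there are no balls, `M_g` is not stable -/
theorem not_stable_of_empty (g : A) (hg : ∃ z, 0 < MvPolynomial.eval z g)
    (hDe : Even g.totalDegree) (N : ℕ) (hN : N ≠ 0) (B : Fin 0 → Ball)
    (hcov : Covers N (hat g.totalDegree g) B) : ¬ Stable g := by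
  intro hst
  obtain ⟨c, hc0, hb⟩ := bounded_of_empty g g.totalDegree le_rfl hDe N hN B hcov
  obtain ⟨f, hf0, hf⟩ := artin g (MvPolynomial.C (c ^ 2) - MvPolynomial.X 0 ^ 2) hg
    (fun z hz => by
      have h1 := hb z hz
      simp only [map_sub, map_pow, MvPolynomial.eval_C, MvPolynomial.eval_X, sub_nonneg]
      rw [← sq_abs (z 0)]
      exact pow_le_pow_left₀ (abs_nonneg _) h1 2)
  refine not_stable_of_artin g (f ^ 2) (MvPolynomial.X 0) c hg (pow_ne_zero 2 hf0) (InM.sq f)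
    (fun r hr => ?_) hf hst
  have h2 := congrArg MvPolynomial.totalDegree hr
  rw [MvPolynomial.totalDegree_X, MvPolynomial.totalDegree_C] at h2
  exact absurd h2 one_ne_zero

/-- if no nonzero combination of balls exists, the growth spaces are finite dimensional -/
theorem finite_of_no_nu (g : A) (hDe : Even g.totalDegree) (N : ℕ) (hN : N ≠ 0) {J : ℕ}
    (hJ : 0 < J) (B : Fin J → Ball) (hB : ∀ j, Good N (hat g.totalDegree g) (B j))
    (h : ∀ ν : Fin J → ℕ, ν ≠ 0 → ∃ j, ∑ i, ν i * Ah N (B i) (B j) < 2 * N * N * ∑ i, ν i) (m : ℕ) :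
    Module.Finite ℝ (gsp g m) := by
  by_contra hfin
  have h1 : ∀ d₀ : ℕ, ∃ E ∈ gsp g m, d₀ < MvPolynomial.degreeOf 1 E := by
    intro d₀
    by_contra hcon
    push Not at hcon
    exact hfin (finite_of_bounded g g.totalDegree le_rfl hDe N hN (B ⟨0, hJ⟩) (hB _) m d₀ hcon)
  obtain ⟨ν, hν, h'⟩ := exists_nu (fun i j => Ah N (B i) (B j)) (2 * N * N) (2 * N * N * m)
    (fun d₀ => by
      obtain ⟨E, hE, hE1⟩ := h1 d₀
      have hE0 : E ≠ 0 := by
        rintro rfl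
        rw [MvPolynomial.degreeOf_zero] at hE1
        omega
      obtain ⟨n, hn, hn'⟩ := counts_of_growth g g.totalDegree le_rfl hDe N hN hJ B hB m E hE hE0
      exact ⟨n, by omega, fun j => by rw [hn]; exact hn' j⟩)
  obtain ⟨j, hj⟩ := h ν hν
  exact absurd (h' j) (not_le.2 hj)

/-- **Criterion in terms of a system of balls**, for normalised `g` -/
theorem stable_iff (g : A) (hg : ∃ z, 0 < MvPolynomial.eval z g) (hDe : Even g.totalDegree)
    (hc : MvPolynomial.coeff (Finsupp.single 1 g.totalDegree) g < 0) (N : ℕ) (hN : N ≠ 0) {J : ℕ}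
    (B : Fin J → Ball) (hB : ∀ j, Good N (hat g.totalDegree g) (B j))
    (hcov : Covers N (hat g.totalDegree g) B) :
    Stable g ↔ 0 < J ∧ ∀ ν : Fin J → ℕ, ν ≠ 0 →
      ∃ j, ∑ i, ν i * Ah N (B i) (B j) < 2 * N * N * ∑ i, ν i := by
  refine ⟨fun hst => ⟨?_, fun ν hν => ?_⟩, fun h => ?_⟩
  · rcases Nat.eq_zero_or_pos J with rfl | hJ
    · exact absurd hst (not_stable_of_empty g hg hDe N hN B hcov)
    · exact hJ
  · by_contra hcon
    push Not at hcon
    exact not_stable_of_nu g hg hDe hc N hN B hB hcov ν hν hcon hst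
  · refine stable_of_growth g fun m => ?_
    have key := finite_of_no_nu g hDe N hN h.1 B hB h.2 m
    have hle : growthSpace g m ≤ gsp g m := by
      rintro f ⟨K, hK⟩
      exact ⟨K, fun z hz => hK z hz.le⟩
    exact Submodule.finiteDimensional_of_le hle

/-- the balls exist -/
theorem exists_balls_hat (g : A) (hDe : Even g.totalDegree)
    (hc : MvPolynomial.coeff (Finsupp.single 1 g.totalDegree) g < 0) :
    ∃ (N J : ℕ) (B : Fin J → Ball), N ≠ 0 ∧ (∀ j, Good N (hat g.totalDegree g) (B j)) ∧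
      Covers N (hat g.totalDegree g) B := by
  obtain ⟨hnd, hlc⟩ := hat_top g (-MvPolynomial.coeff (Finsupp.single 1 g.totalDegree) g)
    (by linarith [hc]; ) (by ring)
  exact exists_balls (hat g.totalDegree g)
    (-MvPolynomial.coeff (Finsupp.single 1 g.totalDegree) g) (by linarith) hlc (by rw [hnd]; exact hDe)

/-- the criterion for normalised `g`, one direction -/
theorem finite_of_stable (g : A) (hg : ∃ z, 0 < MvPolynomial.eval z g)
    (hDe : Even g.totalDegree)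
    (hc : MvPolynomial.coeff (Finsupp.single 1 g.totalDegree) g < 0) (hst : Stable g) (m : ℕ) :
    Module.Finite ℝ (gsp g m) := by
  obtain ⟨N, J, B, hN, hB, hcov⟩ := exists_balls_hat g hDe hc
  obtain ⟨hJ, h⟩ := (stable_iff g hg hDe hc N hN B hB hcov).1 hst
  exact finite_of_no_nu g hDe N hN hJ B hB h m

/-- **Criterion.** -/
theorem criterion (g : A) (hg : ∃ z, 0 < MvPolynomial.eval z g) :
    Stable g ↔ ∀ m, Module.Finite ℝ (growthSpace g m) := by
  refine ⟨fun hst m => ?_, stable_of_growth g⟩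
  have key : Module.Finite ℝ (gsp g m) := by
    by_cases h : ∃ v, 0 < MvPolynomial.eval v
        (MvPolynomial.homogeneousComponent g.totalDegree g)
    · obtain ⟨v, hv⟩ := h
      exact finite_of_cone g v hv m
    · push Not at h
      obtain ⟨hDe, l, hl⟩ := exists_shear g hg h
      refine finite_shear l g m ?_
      have htd := totalDegree_sh l g
      obtain ⟨z, hz⟩ := hg
      refine finite_of_stable (sh l g) ⟨![z 0 - l * z 1, z 1], ?_⟩ (by rw [htd]; exact hDe) ?_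
        (stable_shear l g hst) m
      · rw [eval_sh]
        have e1 : (![(![z 0 - l * z 1, z 1] : Fin 2 → ℝ) 0 +
            l * (![z 0 - l * z 1, z 1] : Fin 2 → ℝ) 1,
            (![z 0 - l * z 1, z 1] : Fin 2 → ℝ) 1] : Fin 2 → ℝ) = z := by
          ext i
          fin_cases i <;> simp
        rw [e1]
        exact hz
      · rw [htd, coeff_shear]
        exact hl
  have hle : growthSpace g m ≤ gsp g m := by
    rintro f ⟨K, hK⟩
    exact ⟨K, fun z hz => hK z hz.le⟩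
  exact Submodule.finiteDimensional_of_le hle

end Pool.Agent.Helper10.TC
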