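import Pool.Agent.Helper10.TC.Hat

set_option autoImplicit false

/-!
# Project TC (MP_63c74b), block GRO: growth on a good ball

If `n < m`, the exponent is 0. Let `m ≤ n`, `k = N (n - m)`, `Q = onR N b (hat n E)`, `(σ₁, σ₂)` from
`hb`, `σ` in this interval. For small `u > 0` put `s = ± u ^ N`, `Y = q(u) + σ u ^ r`, `z = ![1/s, Y/s]`.
`ev s Y (hat D g) > 0` and `ev_hat`, `s ^ D > 0` (`D` even) give `g z > 0`, so
`|E z| ≤ K (1 + ‖z‖) ^ m ≤ K' u ^ (-N m)` (`‖z‖ = max(|1/s|, |Y/s|) ≤ C u ^ (-N)` since `Y` is bounded for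
`u ≤ 1`). By `ev_onR`, `ev_hat`: `|ev u σ Q| = |s| ^ n |E z| ≤ K' u ^ (N n - N m) = K' u ^ k`. So the
polynomial `u ↦ ev u σ Q` is `O(u ^ k)` at `0+`, its coefficients of index `< k` vanish (if `i` is the
first nonvanishing coefficient, the value is `~ c u ^ i`). The coefficient of `u ^ i` of `ev u σ Q` is
`∑_j ((Q.coeff j).coeff i) σ ^ j`, a polynomial in `σ` which vanishes on an interval for `i < k`: so
`(Q.coeff j).coeff i = 0` for all `j` and `i < k`, i.e. `C (X ^ k) ∣ Q` (`Polynomial.C_dvd_iff_dvd_coeff`,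
`Polynomial.X_pow_dvd_iff`).
-/

open Pool.Agent.Helper68.QM

namespace Pool.Agent.Helper10.TC

open Filter Topology

/-- a polynomial which is `O(u ^ k)` at `0+` is divisible by `X ^ k` -/
private theorem gro_dvd (K : ℝ) (p : Polynomial ℝ) : ∀ k : ℕ,
    (∀ᶠ u in 𝓝[>] (0 : ℝ), |p.eval u| ≤ K * u ^ k) → Polynomial.X ^ k ∣ p := by
  intro k
  induction k with
  | zero => intro _; exact one_dvd _
  | succ k ih =>
    intro h
    have h01 : ∀ᶠ u in 𝓝[>] (0 : ℝ), u < 1 := by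
      have : Set.Iio (1 : ℝ) ∈ 𝓝 (0 : ℝ) := Iio_mem_nhds one_pos
      exact mem_nhdsWithin_of_mem_nhds this
    have hpos : ∀ᶠ u in 𝓝[>] (0 : ℝ), 0 < u := self_mem_nhdsWithin
    have hk : ∀ᶠ u in 𝓝[>] (0 : ℝ), |p.eval u| ≤ K * u ^ k := by
      filter_upwards [h, h01, hpos] with u hu hu1 hu0
      have hK : 0 ≤ K := by
        by_contra hK
        push Not at hK
        have h1 : K * u ^ (k + 1) < 0 := mul_neg_of_neg_of_pos hK (pow_pos hu0 _)
        exact absurd (abs_nonneg (p.eval u)) (not_le.2 (lt_of_le_of_lt hu h1))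
      refine hu.trans (mul_le_mul_of_nonneg_left ?_ hK)
      exact pow_le_pow_of_le_one hu0.le hu1.le (Nat.le_succ k)
    obtain ⟨p', rfl⟩ := ih hk
    have h2 : ∀ᶠ u in 𝓝[>] (0 : ℝ), |p'.eval u| ≤ K * u := by
      filter_upwards [h, hpos] with u hu hu0
      rw [Polynomial.eval_mul, Polynomial.eval_pow, Polynomial.eval_X, abs_mul, abs_pow,
        abs_of_pos hu0] at hu
      have h3 : u ^ k * |p'.eval u| ≤ u ^ k * (K * u) := by
        refine hu.trans (le_of_eq ?_)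
        rw [pow_succ]; ring
      exact le_of_mul_le_mul_left h3 (pow_pos hu0 k)
    have h4 : Tendsto (fun u : ℝ => K * u) (𝓝[>] (0 : ℝ)) (𝓝 (K * 0)) :=
      ((continuous_const.mul continuous_id).tendsto 0).mono_left nhdsWithin_le_nhds
    have h5 : Tendsto (fun u : ℝ => |p'.eval u|) (𝓝[>] (0 : ℝ)) (𝓝 |p'.eval 0|) :=
      (p'.continuous.abs.tendsto 0).mono_left nhdsWithin_le_nhds
    have h6 : |p'.eval 0| ≤ K * 0 := le_of_tendsto_of_tendsto h5 h4 h2
    rw [mul_zero] at h6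
    have h7 : p'.eval 0 = 0 := abs_eq_zero.1 (le_antisymm h6 (abs_nonneg _))
    have h8 : Polynomial.X ∣ p' := by
      rw [Polynomial.X_dvd_iff, Polynomial.coeff_zero_eq_eval_zero, h7]
    rw [pow_succ]
    exact mul_dvd_mul_left _ h8

private theorem ev_eq (u σ : ℝ) (Q : R2) : ev u σ Q = (Q.eval (Polynomial.C σ)).eval u := by
  have h : ev u σ = (Polynomial.evalRingHom u).comp (Polynomial.evalRingHom (Polynomial.C σ)) := by
    refine Polynomial.ringHom_ext (fun a => ?_) ?_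
    · simp
    · simp
  rw [h]
  rfl

private theorem sgn_ne (b : Bool) : sgn b ≠ 0 := by
  unfold sgn
  split_ifs
  · exact one_ne_zero
  · exact neg_ne_zero.2 one_ne_zero

private theorem abs_sgn (b : Bool) : |sgn b| = 1 := by
  unfold sgn
  split_ifs
  · exact abs_one
  · rw [abs_neg, abs_one]

/-- the growth bound on one curve of the ball -/
private theorem gro_bound (g E : A) (D : ℕ) (hD : g.totalDegree ≤ D) (hDe : Even D) (N : ℕ)
    (b : Ball) (m n : ℕ) (hn : E.totalDegree ≤ n) (hmn : m ≤ n)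
    (hE : E ∈ gsp g m) (σ : ℝ)
    (hσ : ∀ᶠ u in 𝓝[>] (0 : ℝ), 0 < ev (sgn b.pos * u ^ N) (b.q.eval u + σ * u ^ b.r) (hat D g)) :
    ∃ K : ℝ, ∀ᶠ u in 𝓝[>] (0 : ℝ), |ev u σ (onR N b (hat n E))| ≤ K * u ^ (N * (n - m)) := by
  obtain ⟨K, hK⟩ := hE
  have hcont : Continuous (fun u : ℝ => b.q.eval u + σ * u ^ b.r) :=
    b.q.continuous.add (continuous_const.mul (continuous_id.pow _))
  have hlim : Tendsto (fun u : ℝ => |b.q.eval u + σ * u ^ b.r|) (𝓝[>] (0 : ℝ))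
      (𝓝 |b.q.eval 0 + σ * 0 ^ b.r|) :=
    (hcont.abs.tendsto 0).mono_left nhdsWithin_le_nhds
  set M : ℝ := |b.q.eval 0 + σ * 0 ^ b.r| + 1 with hM
  have hM1 : 1 ≤ M := by
    have := abs_nonneg (b.q.eval 0 + σ * 0 ^ b.r)
    linarith
  have hY : ∀ᶠ u in 𝓝[>] (0 : ℝ), |b.q.eval u + σ * u ^ b.r| < M :=
    hlim.eventually_lt_const (by linarith)
  have h01 : ∀ᶠ u in 𝓝[>] (0 : ℝ), u < 1 := by
    have : Set.Iio (1 : ℝ) ∈ 𝓝 (0 : ℝ) := Iio_mem_nhds one_pos
    exact mem_nhdsWithin_of_mem_nhds this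
  have hpos : ∀ᶠ u in 𝓝[>] (0 : ℝ), 0 < u := self_mem_nhdsWithin
  refine ⟨|K| * (1 + M) ^ m, ?_⟩
  filter_upwards [hσ, hY, h01, hpos] with u hu hYu hu1 hu0
  set s : ℝ := sgn b.pos * u ^ N with hs
  set Y : ℝ := b.q.eval u + σ * u ^ b.r with hYdef
  have hsne : s ≠ 0 := mul_ne_zero (sgn_ne _) (pow_ne_zero _ hu0.ne')
  have habs : |s| = u ^ N := by
    rw [hs, abs_mul, abs_sgn, one_mul, abs_pow, abs_of_pos hu0]
  have huN : 0 < u ^ N := pow_pos hu0 N
  have huN1 : u ^ N ≤ 1 := pow_le_one₀ hu0.le hu1.le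
  set z : Fin 2 → ℝ := ![s⁻¹, Y * s⁻¹] with hz
  have hg : 0 < MvPolynomial.eval z g := by
    rw [ev_hat D g hD s Y hsne] at hu
    have hsD : 0 < s ^ D := hDe.pow_pos hsne
    exact (mul_pos_iff_of_pos_left hsD).1 hu
  have hEz := hK z hg
  rw [ev_onR, ← hs, ← hYdef, ev_hat n E hn s Y hsne, abs_mul, abs_pow, habs]
  have hzn : ‖z‖ ≤ M * (u ^ N)⁻¹ := by
    have hinv : |s⁻¹| = (u ^ N)⁻¹ := by rw [abs_inv, habs]
    have hi0 : 0 ≤ (u ^ N)⁻¹ := inv_nonneg.2 huN.le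
    rw [pi_norm_le_iff_of_nonneg (mul_nonneg (by linarith) hi0)]
    intro i
    fin_cases i
    · show ‖s⁻¹‖ ≤ _
      rw [Real.norm_eq_abs, hinv]
      exact le_mul_of_one_le_left hi0 hM1
    · show ‖Y * s⁻¹‖ ≤ _
      rw [Real.norm_eq_abs, abs_mul, hinv]
      exact mul_le_mul_of_nonneg_right hYu.le hi0
  have hkey : u ^ N * (1 + ‖z‖) ≤ 1 + M := by
    have h1 : u ^ N * ‖z‖ ≤ M := by
      calc u ^ N * ‖z‖ ≤ u ^ N * (M * (u ^ N)⁻¹) := mul_le_mul_of_nonneg_left hzn huN.le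
        _ = M := by field_simp
    linarith
  have hz0 : 0 ≤ 1 + ‖z‖ := by
    have := norm_nonneg z
    linarith
  have hEz' : |MvPolynomial.eval z E| ≤ |K| * (1 + ‖z‖) ^ m :=
    hEz.trans (mul_le_mul_of_nonneg_right (le_abs_self K) (pow_nonneg hz0 m))
  calc (u ^ N) ^ n * |MvPolynomial.eval z E|
      ≤ (u ^ N) ^ n * (|K| * (1 + ‖z‖) ^ m) :=
        mul_le_mul_of_nonneg_left hEz' (pow_nonneg huN.le n)
    _ = |K| * (u ^ N * (1 + ‖z‖)) ^ m * u ^ (N * (n - m)) := by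
        obtain ⟨d, rfl⟩ := Nat.exists_eq_add_of_le hmn
        rw [Nat.add_sub_cancel_left, mul_pow, pow_mul, pow_add]
        ring
    _ ≤ |K| * (1 + M) ^ m * u ^ (N * (n - m)) := by
        refine mul_le_mul_of_nonneg_right (mul_le_mul_of_nonneg_left ?_ (abs_nonneg K))
          (pow_nonneg hu0.le _)
        exact pow_le_pow_left₀ (mul_nonneg huN.le hz0) hkey m

theorem growth_ball (g E : A) (D : ℕ) (hD : g.totalDegree ≤ D) (hDe : Even D) (N : ℕ) (hN : N ≠ 0)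
    (b : Ball) (hb : Good N (hat D g) b) (m n : ℕ) (hn : E.totalDegree ≤ n) (hE : E ∈ gsp g m) :
    Polynomial.C (Polynomial.X ^ (N * (n - m))) ∣ onR N b (hat n E) := by
  rcases Nat.lt_or_ge n m with hnm | hmn
  · rw [Nat.sub_eq_zero_of_le hnm.le, mul_zero, pow_zero, map_one]
    exact one_dvd _
  obtain ⟨σ₁, σ₂, h12, hσ⟩ := hb
  set Q : R2 := onR N b (hat n E) with hQ
  have hdvd : ∀ σ, σ₁ < σ → σ < σ₂ → Polynomial.X ^ (N * (n - m)) ∣ Q.eval (Polynomial.C σ) := by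
    intro σ h1 h2
    obtain ⟨K, hK⟩ := gro_bound g E D hD hDe N b m n hn hmn hE σ (hσ σ h1 h2)
    refine gro_dvd K _ _ ?_
    filter_upwards [hK] with u hu
    rw [← ev_eq]
    exact hu
  rw [Polynomial.C_dvd_iff_dvd_coeff]
  intro j
  rw [Polynomial.X_pow_dvd_iff]
  intro i hi
  let P : Polynomial ℝ := ∑ l ∈ Finset.range (Q.natDegree + 1),
    Polynomial.monomial l ((Q.coeff l).coeff i)
  have hPev : ∀ σ : ℝ, P.eval σ = (Q.eval (Polynomial.C σ)).coeff i := by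
    intro σ
    rw [Polynomial.eval_eq_sum_range (p := Q), Polynomial.finset_sum_coeff,
      Polynomial.eval_finset_sum]
    refine Finset.sum_congr rfl fun l _ => ?_
    rw [Polynomial.eval_monomial, ← Polynomial.C_pow, Polynomial.coeff_mul_C]
  have hP0 : P = 0 := by
    refine Polynomial.eq_zero_of_infinite_isRoot P (Set.Infinite.mono ?_ (Set.Ioo_infinite h12))
    intro σ hσ'
    show P.eval σ = 0
    rw [hPev]
    exact Polynomial.X_pow_dvd_iff.1 (hdvd σ hσ'.1 hσ'.2) i hi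
  by_cases hj : j ≤ Q.natDegree
  · have h1 : P.coeff j = (Q.coeff j).coeff i := by
      rw [Polynomial.finset_sum_coeff, Finset.sum_eq_single j]
      · rw [Polynomial.coeff_monomial, if_pos rfl]
      · intro l _ hlj
        rw [Polynomial.coeff_monomial, if_neg hlj]
      · intro hj'
        exact absurd (Finset.mem_range.2 (Nat.lt_succ_of_le hj)) hj'
    rw [← h1, hP0, Polynomial.coeff_zero]
  · rw [Polynomial.coeff_eq_zero_of_natDegree_lt (not_le.1 hj), Polynomial.coeff_zero]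

end Pool.Agent.Helper10.TC
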