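import Pool.Agent.Helper10.TC.Defs

set_option autoImplicit false

/-!
# Project TC (MP_63c74b), block HEN: Hensel factorisation over `ℂ⟦s⟧`

Let `n = natDegree F`, `F̄ = F.map constantCoeff` (monic of degree `n`), and let `m` be the multiplicity
of the root `a` of `F̄`; `1 ≤ m < n` because `b ≠ a` is another root.
Route 1 (Weierstrass preparation, `Mathlib/RingTheory/PowerSeries/WeierstrassPreparation.lean`, with
the coefficient ring `ℂ⟦s⟧`, adically complete for `span {X}` by the instance in
`Mathlib/RingTheory/AdicCompletion/Completeness.lean`; its maximal ideal is `span {X}`,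
`PowerSeries.maximalIdeal_eq_span_X`): let `F₁ = F.comp (X + C a)` (here `a` means
`PowerSeries.C a`), viewed as a power series in `Y` over `ℂ⟦s⟧`; its reduction is
`Y^m h(Y)`, `h(0) ≠ 0`, nonzero of order `m`. `exists_isWeierstrassFactorization` gives
`F₁ = P u`, `P` a distinguished polynomial (monic) of degree `m`, `u` a unit power series. Divide with
remainder in `ℂ⟦s⟧[Y]`: `F₁ = P Q + R`, `deg R < m`; comparing with `F₁ = P u + 0`, uniqueness of the
Weierstrass division by `P` gives `R = 0` (and `u = Q`). So `F₁ = P Q`, `P`, `Q` monic of degrees `m`,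
`n - m`; substitute `X - C a` back.
Route 2 (direct): `F̄ = f₁ f₂` with `f₁ = (X - a)^m`, `f₂` coprime, both monic, construct
`P = ∑ s^k P_k`, `Q = ∑ s^k Q_k` with `P_0 = f₁`, `Q_0 = f₂`, `deg P_k < m`, `deg Q_k < n - m` for `k ≥ 1`
recursively: in degree `k` one has to solve `P_k f₂ + Q_k f₁ = r_k` with `deg r_k < n`, possible by
Bezout and division with remainder.
-/

open Polynomial

namespace Pool.Agent.Helper10.TC

theorem hensel_split (F : Polynomial Ps) (hF : F.Monic) (a b : ℂ) (hab : a ≠ b)
    (ha : (F.map PowerSeries.constantCoeff).eval a = 0)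
    (hb : (F.map PowerSeries.constantCoeff).eval b = 0) :
    ∃ P Q : Polynomial Ps, P.Monic ∧ Q.Monic ∧ F = P * Q ∧ 0 < P.natDegree ∧ 0 < Q.natDegree := by
  classical
  have hac : IsAdicComplete (IsLocalRing.maximalIdeal Ps) Ps := by
    rw [PowerSeries.maximalIdeal_eq_span_X]
    infer_instance
  have hmem : ∀ r : Ps, r ∈ IsLocalRing.maximalIdeal Ps → PowerSeries.constantCoeff r = 0 := by
    intro r hr
    rw [PowerSeries.maximalIdeal_eq_span_X, Ideal.mem_span_singleton, PowerSeries.X_dvd_iff] at hr
    exact hr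
  have hne : IsLocalRing.maximalIdeal Ps ≠ ⊤ := Ideal.IsPrime.ne_top inferInstance
  set f : Polynomial Ps := F.comp (X + C (PowerSeries.C a)) with hf
  have hfm : f.Monic := hF.comp_X_add_C _
  have hfbar : f.map PowerSeries.constantCoeff =
      (F.map PowerSeries.constantCoeff).comp (X + C a) := by
    rw [hf, Polynomial.map_comp]
    simp
  have hg : (f : PowerSeries Ps).map (IsLocalRing.residue Ps) ≠ 0 := by
    intro h0
    have h1 := congrArg (PowerSeries.coeff f.natDegree) h0
    rw [PowerSeries.coeff_map, Polynomial.coeff_coe, map_zero] at h1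
    have h2 : f.coeff f.natDegree = 1 := hfm
    rw [h2, map_one] at h1
    exact one_ne_zero h1
  obtain ⟨P, h, H⟩ := PowerSeries.exists_isWeierstrassFactorization hg
  have hPd := H.isDistinguishedAt
  have hPm : P.Monic := hPd.monic
  have hdiv := hPd.isWeierstrassDivisorAt hne
  have hord : P.natDegree = ((P : PowerSeries Ps).map
      (Ideal.Quotient.mk (IsLocalRing.maximalIdeal Ps))).order.toNat := by
    have h1 := hPd.coe_natDegree_eq_order_map (P : PowerSeries Ps) 1
      (by rwa [PowerSeries.constantCoeff_one, ← Ideal.ne_top_iff_one]) (by simp)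
    rw [← h1]
    simp
  have hfPQ : f = P * (f /ₘ P) := by
    have h1 := modByMonic_add_div f P
    have hdeg : (f %ₘ P).degree < ((P : PowerSeries Ps).map
        (Ideal.Quotient.mk (IsLocalRing.maximalIdeal Ps))).order.toNat := by
      rw [← hord, ← degree_eq_natDegree hPm.ne_zero]
      exact degree_modByMonic_lt f hPm
    have h2 : (P : PowerSeries Ps) * ((f /ₘ P : Polynomial Ps) : PowerSeries Ps) +
        ((f %ₘ P : Polynomial Ps) : PowerSeries Ps) =
        (P : PowerSeries Ps) * h + ((0 : Polynomial Ps) : PowerSeries Ps) := by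
      rw [Polynomial.coe_zero, add_zero, ← H.eq_mul, ← Polynomial.coe_mul, ← Polynomial.coe_add,
        add_comm, h1]
    have h3 := hdiv.eq_of_mul_add_eq_mul_add hdeg (by
      rw [degree_zero]
      exact WithBot.bot_lt_coe _) h2
    conv_lhs => rw [← h1, h3.2, zero_add]
  set Q := f /ₘ P with hQ
  have hQm : Q.Monic := hPm.of_mul_monic_left (by rw [← hfPQ]; exact hfm)
  -- the reduction of `P` is a power of `X`
  have hPbar : P.map PowerSeries.constantCoeff = X ^ P.natDegree := by
    ext i
    rw [coeff_map, coeff_X_pow]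
    rcases lt_trichotomy i P.natDegree with hi | hi | hi
    · rw [if_neg hi.ne]
      exact hmem _ (hPd.mem hi)
    · rw [if_pos hi, hi]
      have h2 : P.coeff P.natDegree = 1 := hPm
      rw [h2, map_one]
    · rw [if_neg hi.ne', coeff_eq_zero_of_natDegree_lt hi, map_zero]
  have hP0 : 0 < P.natDegree := by
    rw [Nat.pos_iff_ne_zero]
    intro h0
    have h1 : P = 1 := by
      exact hPm.natDegree_eq_zero.mp h0
    have h2 := H.eq_mul
    rw [h1, Polynomial.coe_one, one_mul] at h2
    have h3 := H.isUnit
    rw [← h2, PowerSeries.isUnit_iff_constantCoeff, ← PowerSeries.coeff_zero_eq_constantCoeff,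
      Polynomial.coeff_coe] at h3
    have h4 : PowerSeries.constantCoeff (f.coeff 0) = 0 := by
      have h5 : (f.map PowerSeries.constantCoeff).eval 0 = 0 := by
        rw [hfbar, eval_comp]
        simpa using ha
      rw [← coeff_zero_eq_eval_zero, coeff_map] at h5
      exact h5
    have h6 := h3.map (PowerSeries.constantCoeff (R := ℂ))
    rw [h4] at h6
    exact not_isUnit_zero h6
  have hQ0 : 0 < Q.natDegree := by
    rw [Nat.pos_iff_ne_zero]
    intro h0
    have h1 : Q = 1 := by
      exact hQm.natDegree_eq_zero.mp h0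
    rw [h1, mul_one] at hfPQ
    have h2 : (f.map PowerSeries.constantCoeff).eval (b - a) = 0 := by
      rw [hfbar, eval_comp]
      simpa using hb
    rw [hfPQ, hPbar, eval_pow, eval_X] at h2
    exact pow_ne_zero _ (sub_ne_zero.mpr (Ne.symm hab)) h2
  refine ⟨P.comp (X - C (PowerSeries.C a)), Q.comp (X - C (PowerSeries.C a)),
    hPm.comp_X_sub_C _, hQm.comp_X_sub_C _, ?_, ?_, ?_⟩
  · rw [← mul_comp, ← hfPQ, hf, comp_assoc]
    simp
  · rw [natDegree_comp, natDegree_X_sub_C, mul_one]
    exact hP0
  · rw [natDegree_comp, natDegree_X_sub_C, mul_one]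
    exact hQ0

end Pool.Agent.Helper10.TC
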