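import Pool.Agent.Helper10.TI.Base

set_option autoImplicit false

/-!
# Project TC (MP_63c74b): ordered fields with the intermediate value property; definitions
-/

open Polynomial

namespace Pool.Agent.Helper10.TC

/-- the intermediate value property for polynomials (with values `<` and `>`; apply it to `-f` for
the other direction) -/
def IVT (K : Type*) [Field K] [LinearOrder K] : Prop :=
  ∀ (f : K[X]) (a b : K), a < b → f.eval a < 0 → 0 < f.eval b →
    ∃ c, a < c ∧ c < b ∧ f.eval c = 0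

/-- the constants in the hyperreals -/
noncomputable def hr : ℝ →+* Hyperreal where
  toFun := Hyperreal.ofReal
  map_one' := rfl
  map_mul' := Hyperreal.coe_mul
  map_zero' := rfl
  map_add' := Hyperreal.coe_add

section TT

variable {k K₁ K₂ : Type*} [Field k] [Field K₁] [LinearOrder K₁] [Field K₂] [LinearOrder K₂]

/-- order compatible set of pairs -/
def OC (S : Finset (K₁ × K₂)) : Prop := ∀ p ∈ S, ∀ q ∈ S, (p.1 < q.1 ↔ p.2 < q.2)

/-- `y` and `η` have the same position relative to the pairs of `S` -/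
def Same (S : Finset (K₁ × K₂)) (y : K₁) (η : K₂) : Prop :=
  ∀ p ∈ S, (p.1 < y ↔ p.2 < η) ∧ (y < p.1 ↔ η < p.2)

/-- `f` has the same signs at points with the same position relative to `S` -/
def Agr (i₁ : k →+* K₁) (i₂ : k →+* K₂) (S : Finset (K₁ × K₂)) (f : k[X]) : Prop :=
  ∀ y η, Same S y η →
    SignType.sign ((f.map i₁).eval y) = SignType.sign ((f.map i₂).eval η)

/-- `f` has the same signs at the pairs of `S` -/
def Pts (i₁ : k →+* K₁) (i₂ : k →+* K₂) (S : Finset (K₁ × K₂)) (f : k[X]) : Prop :=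
  ∀ p ∈ S, SignType.sign ((f.map i₁).eval p.1) = SignType.sign ((f.map i₂).eval p.2)

/-- all roots of `f` (in `K₁` and in `K₂`) occur in `S` -/
def RootsIn (i₁ : k →+* K₁) (i₂ : k →+* K₂) (S : Finset (K₁ × K₂)) (f : k[X]) : Prop :=
  (∀ y, (f.map i₁).eval y = 0 → ∃ p ∈ S, p.1 = y) ∧
    ∀ η, (f.map i₂).eval η = 0 → ∃ p ∈ S, p.2 = η

theorem Same.mono {S S' : Finset (K₁ × K₂)} (h : S ⊆ S') {y : K₁} {η : K₂} (hs : Same S' y η) :
    Same S y η := fun p hp => hs p (h hp)

theorem Agr.mono {i₁ : k →+* K₁} {i₂ : k →+* K₂} {S S' : Finset (K₁ × K₂)} (h : S ⊆ S') {f : k[X]}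
    (hs : Agr i₁ i₂ S f) : Agr i₁ i₂ S' f := fun y η hy => hs y η (hy.mono h)

theorem RootsIn.mono {i₁ : k →+* K₁} {i₂ : k →+* K₂} {S S' : Finset (K₁ × K₂)} (h : S ⊆ S')
    {f : k[X]} (hs : RootsIn i₁ i₂ S f) : RootsIn i₁ i₂ S' f :=
  ⟨fun y hy => (hs.1 y hy).imp fun _ hp => ⟨h hp.1, hp.2⟩,
    fun y hy => (hs.2 y hy).imp fun _ hp => ⟨h hp.1, hp.2⟩⟩

end TT

end Pool.Agent.Helper10.TC
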