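import Pool.Agent.Helper10.TC.Apx

set_option autoImplicit false

/-!
# Project TC (MP_63c74b), block LEADF: leading forms on a ball

`factor_lead`: with `d = c - p ∈ ℂ[u]`, `k = ordk c r p`: either `k < r` is the order of `d`, and
`d(u) = d_k u^k + u^(k+1) (...)`, `σ u^r = u^(k+1) (...)` with `|...| ≤ R` for `u ≤ 1`; or `k = r`,
`d_i = 0` for `i < r`, `d(u) = d_r u^r + u^(r+1) (...)`. (A polynomial minus its terms of degree `≤ k` is
`X^(k+1)` times a polynomial, bounded on `[0, 1]`.)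
`prod_lead`: product over `l` of the factor estimates (induction over a finset; each factor is
`u^(k_l) (λ_l(σ) + O(u))` with `λ_l(σ)` bounded for `|σ| ≤ R`), combined with `Apx.apx` for the radius
`R' = sup |c| + R` and `M ≥ W + 1`, where `W = ∑ ordk ≤ e r ≤ e B`.
`lam_real`: `∏ lam` is the limit of the real numbers `Hf(...) / u^W` as `u → 0+`, so it is real.
`good_of_neg`: if the (real) number `∏ lam (σ₀)` is negative, then by continuity in `σ` (each `lam` is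
constant or `σ + const`) `∏ lam (σ) < 0` for `σ` near `σ₀`, and `Hf / u^W → ∏ lam(σ)`.
-/

open Polynomial Filter Topology

namespace Pool.Agent.Helper10.TC

private theorem h31_bdd (Q : C1) (u : ℝ) (h0 : 0 < u) (h1 : u ≤ 1) :
    ‖Q.eval (u : ℂ)‖ ≤ ∑ i ∈ Finset.range (Q.natDegree + 1), ‖Q.coeff i‖ := by
  rw [Q.eval_eq_sum_range]
  refine (norm_sum_le _ _).trans (Finset.sum_le_sum fun i _ => ?_)
  rw [norm_mul, norm_pow, Complex.norm_real, Real.norm_of_nonneg h0.le]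
  exact mul_le_of_le_one_right (norm_nonneg _) (pow_le_one₀ h0.le h1)

private theorem h31_lead (D : C1) (k : ℕ) (hD : ∀ i, i < k → D.coeff i = 0) :
    ∃ K : ℝ, 0 ≤ K ∧ ∀ u : ℝ, 0 < u → u ≤ 1 →
      ‖D.eval (u : ℂ) - (u : ℂ) ^ k * D.coeff k‖ ≤ K * u ^ (k + 1) := by
  have h1 : X ^ (k + 1) ∣ D - C (D.coeff k) * X ^ k := by
    rw [X_pow_dvd_iff]
    intro d hd
    rw [coeff_sub, coeff_C_mul_X_pow]
    rcases (by omega : d < k ∨ d = k) with h | h
    · rw [hD d h, if_neg (by omega), sub_zero]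
    · rw [if_pos h, h, sub_self]
  obtain ⟨Q, hQ⟩ := h1
  refine ⟨∑ i ∈ Finset.range (Q.natDegree + 1), ‖Q.coeff i‖,
    Finset.sum_nonneg fun _ _ => norm_nonneg _, fun u h0 h1 => ?_⟩
  have h2 : D.eval (u : ℂ) - (u : ℂ) ^ k * D.coeff k = (u : ℂ) ^ (k + 1) * Q.eval (u : ℂ) := by
    have := congrArg (fun P : C1 => P.eval (u : ℂ)) hQ
    simp only [eval_sub, eval_mul, eval_C, eval_pow, eval_X] at this
    rw [← this]
    ring
  rw [h2, norm_mul, norm_pow, Complex.norm_real, Real.norm_of_nonneg h0.le, mul_comm]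
  exact mul_le_mul_of_nonneg_right (h31_bdd Q u h0 h1) (by positivity)

theorem factor_lead (c : R1) (r : ℕ) (p : C1) (R : ℝ) : ∃ K : ℝ, 0 ≤ K ∧ ∀ u σ : ℝ, 0 < u → u ≤ 1 →
    |σ| ≤ R → ‖((c.eval u + σ * u ^ r : ℝ) : ℂ) - p.eval (u : ℂ) -
      (u : ℂ) ^ ordk c r p * lam c r p σ‖ ≤ K * u ^ (ordk c r p + 1) := by
  classical
  set D : C1 := c.map Complex.ofRealHom - p with hD
  have hDe : ∀ u σ : ℝ, ((c.eval u + σ * u ^ r : ℝ) : ℂ) - p.eval (u : ℂ) =
      D.eval (u : ℂ) + σ * (u : ℂ) ^ r := by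
    intro u σ
    have h1 : (c.map Complex.ofRealHom).eval (u : ℂ) = ((c.eval u : ℝ) : ℂ) := by
      have := Polynomial.eval_map_apply (f := Complex.ofRealHom) (p := c) u
      simpa using this
    rw [hD, eval_sub, h1]
    push_cast
    ring
  by_cases h : ∃ k, k < r ∧ D.coeff k ≠ 0
  · have ho : ordk c r p = Nat.find h := by
      unfold ordk
      rw [dif_pos h]
    have hl : ∀ σ : ℂ, lam c r p σ = D.coeff (Nat.find h) := by
      intro σ
      unfold lam
      rw [dif_pos h]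
    have hfr : Nat.find h < r := (Nat.find_spec h).1
    obtain ⟨K, hK0, hK⟩ := h31_lead D (Nat.find h) (fun i hi => by
      have := Nat.find_min h hi
      rw [not_and, not_not] at this
      exact this (by omega))
    refine ⟨K + |R|, by positivity, fun u σ h0 h1 hσ => ?_⟩
    rw [ho, hl, hDe]
    have h2 : ‖(σ : ℂ) * (u : ℂ) ^ r‖ ≤ |R| * u ^ (Nat.find h + 1) := by
      rw [norm_mul, norm_pow, Complex.norm_real, Complex.norm_real, Real.norm_of_nonneg h0.le,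
        Real.norm_eq_abs]
      exact mul_le_mul (hσ.trans (le_abs_self R)) (pow_le_pow_of_le_one h0.le h1 hfr)
        (by positivity) (abs_nonneg _)
    calc ‖D.eval (u : ℂ) + σ * (u : ℂ) ^ r - (u : ℂ) ^ Nat.find h * D.coeff (Nat.find h)‖
        = ‖(D.eval (u : ℂ) - (u : ℂ) ^ Nat.find h * D.coeff (Nat.find h)) + σ * (u : ℂ) ^ r‖ := by
          congr 1
          ring
      _ ≤ _ := norm_add_le _ _
      _ ≤ K * u ^ (Nat.find h + 1) + |R| * u ^ (Nat.find h + 1) := add_le_add (hK u h0 h1) h2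
      _ = (K + |R|) * u ^ (Nat.find h + 1) := by ring
  · have ho : ordk c r p = r := by
      unfold ordk
      rw [dif_neg h]
    have hl : ∀ σ : ℂ, lam c r p σ = σ + D.coeff r := by
      intro σ
      unfold lam
      rw [dif_neg h]
    obtain ⟨K, hK0, hK⟩ := h31_lead D r (fun i hi => by
      by_contra h1
      exact h ⟨i, hi, h1⟩)
    refine ⟨K, hK0, fun u σ h0 h1 _ => ?_⟩
    rw [ho, hl, hDe]
    have h3 : D.eval (u : ℂ) + σ * (u : ℂ) ^ r - (u : ℂ) ^ r * (σ + D.coeff r) =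
        D.eval (u : ℂ) - (u : ℂ) ^ r * D.coeff r := by ring
    rw [h3]
    exact hK u h0 h1

theorem ordk_le (c : R1) (r : ℕ) (p : C1) : ordk c r p ≤ r := by
  classical
  unfold ordk
  split_ifs with h
  · exact (Nat.find_spec h).1.le
  · exact le_rfl

private theorem h31_lam_cont (c : R1) (r : ℕ) (p : C1) : Continuous fun σ : ℝ => lam c r p (σ : ℂ) := by
  classical
  by_cases h : ∃ k, k < r ∧ (c.map Complex.ofRealHom - p).coeff k ≠ 0
  · have : (fun σ : ℝ => lam c r p (σ : ℂ)) = fun _ =>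
        (c.map Complex.ofRealHom - p).coeff (Nat.find h) := by
      funext σ
      unfold lam
      rw [dif_pos h]
    rw [this]
    exact continuous_const
  · have : (fun σ : ℝ => lam c r p (σ : ℂ)) = fun σ : ℝ =>
        (σ : ℂ) + (c.map Complex.ofRealHom - p).coeff r := by
      funext σ
      unfold lam
      rw [dif_neg h]
    rw [this]
    exact Complex.continuous_ofReal.add continuous_const

private theorem h31_lam_bdd (c : R1) (r : ℕ) (p : C1) (R : ℝ) : ∃ Λ : ℝ, 0 ≤ Λ ∧ ∀ σ : ℝ, |σ| ≤ R →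
    ‖lam c r p (σ : ℂ)‖ ≤ Λ := by
  classical
  refine ⟨|R| + ∑ k ∈ Finset.range (r + 1), ‖(c.map Complex.ofRealHom - p).coeff k‖,
    by positivity, fun σ hσ => ?_⟩
  have h1 : ∀ k, k < r + 1 → ‖(c.map Complex.ofRealHom - p).coeff k‖ ≤
      ∑ k ∈ Finset.range (r + 1), ‖(c.map Complex.ofRealHom - p).coeff k‖ := fun k hk =>
    Finset.single_le_sum (f := fun k => ‖(c.map Complex.ofRealHom - p).coeff k‖)
      (fun _ _ => norm_nonneg _) (Finset.mem_range.2 hk)
  unfold lam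
  split_ifs with h
  · have h2 := h1 _ ((Nat.find_spec h).1.trans (Nat.lt_succ_self r))
    have h3 := abs_nonneg R
    linarith
  · refine (norm_add_le _ _).trans (add_le_add ?_ (h1 r (Nat.lt_succ_self r)))
    rw [Complex.norm_real, Real.norm_eq_abs]
    exact hσ.trans (le_abs_self R)

private theorem h31_prod {e : ℕ} (p : Fin e → C1) (c : R1) (r : ℕ) (R : ℝ) (s : Finset (Fin e)) :
    ∃ K Λ : ℝ, 0 ≤ K ∧ 0 ≤ Λ ∧ ∀ u σ : ℝ, 0 < u → u ≤ 1 → |σ| ≤ R →
      ‖∏ l ∈ s, (((c.eval u + σ * u ^ r : ℝ) : ℂ) - (p l).eval (u : ℂ)) -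
        (u : ℂ) ^ (∑ l ∈ s, ordk c r (p l)) * ∏ l ∈ s, lam c r (p l) σ‖ ≤
          K * u ^ (∑ l ∈ s, ordk c r (p l) + 1) ∧ ‖∏ l ∈ s, lam c r (p l) σ‖ ≤ Λ := by
  classical
  induction s using Finset.induction_on with
  | empty =>
    refine ⟨0, 1, le_rfl, zero_le_one, fun u σ _ _ _ => ?_⟩
    simp
  | @insert a s ha ih =>
    obtain ⟨K, Λ, hK0, hΛ0, hK⟩ := ih
    obtain ⟨Ka, hKa0, hKa⟩ := factor_lead c r (p a) R
    obtain ⟨Λa, hΛa0, hΛa⟩ := h31_lam_bdd c r (p a) R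
    refine ⟨Ka * (Λ + K) + Λa * K, Λa * Λ, by positivity, by positivity, fun u σ h0 h1 hσ => ?_⟩
    obtain ⟨h2, h3⟩ := hK u σ h0 h1 hσ
    have h4 := hKa u σ h0 h1 hσ
    have h5 := hΛa σ hσ
    rw [Finset.prod_insert ha, Finset.sum_insert ha, Finset.prod_insert ha]
    set f := ((c.eval u + σ * u ^ r : ℝ) : ℂ) - (p a).eval (u : ℂ)
    set G := ∏ l ∈ s, (((c.eval u + σ * u ^ r : ℝ) : ℂ) - (p l).eval (u : ℂ))
    set W := ∑ l ∈ s, ordk c r (p l)
    set L := ∏ l ∈ s, lam c r (p l) σ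
    set k := ordk c r (p a)
    set la := lam c r (p a) σ
    constructor
    · have hu : ∀ n : ℕ, ‖(u : ℂ) ^ n‖ = u ^ n := fun n => by
        rw [norm_pow, Complex.norm_real, Real.norm_of_nonneg h0.le]
      have hG : ‖G‖ ≤ (Λ + K) * u ^ W := by
        calc ‖G‖ = ‖(u : ℂ) ^ W * L + (G - (u : ℂ) ^ W * L)‖ := by congr 1; ring
          _ ≤ ‖(u : ℂ) ^ W * L‖ + ‖G - (u : ℂ) ^ W * L‖ := norm_add_le _ _
          _ ≤ u ^ W * Λ + K * u ^ (W + 1) := by
              refine add_le_add ?_ h2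
              rw [norm_mul, hu]
              exact mul_le_mul_of_nonneg_left h3 (by positivity)
          _ ≤ u ^ W * Λ + K * u ^ W := by
              refine add_le_add le_rfl (mul_le_mul_of_nonneg_left ?_ hK0)
              exact pow_le_pow_of_le_one h0.le h1 (Nat.le_succ W)
          _ = (Λ + K) * u ^ W := by ring
      calc ‖f * G - (u : ℂ) ^ (k + W) * (la * L)‖
          = ‖(f - (u : ℂ) ^ k * la) * G + (u : ℂ) ^ k * la * (G - (u : ℂ) ^ W * L)‖ := by
            congr 1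
            rw [pow_add]
            ring
        _ ≤ ‖(f - (u : ℂ) ^ k * la) * G‖ + ‖(u : ℂ) ^ k * la * (G - (u : ℂ) ^ W * L)‖ :=
            norm_add_le _ _
        _ ≤ (Ka * u ^ (k + 1)) * ((Λ + K) * u ^ W) + (u ^ k * Λa) * (K * u ^ (W + 1)) := by
            rw [norm_mul, norm_mul, norm_mul, hu]
            refine add_le_add (mul_le_mul h4 hG (norm_nonneg _) (by positivity)) ?_
            refine mul_le_mul ?_ h2 (norm_nonneg _) (by positivity)
            exact mul_le_mul_of_nonneg_left h5 (by positivity)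
        _ = (Ka * (Λ + K) + Λa * K) * u ^ (k + W + 1) := by ring
    · rw [norm_mul]
      exact mul_le_mul h5 h3 (norm_nonneg _) hΛa0

theorem prod_lead {e : ℕ} {p : Fin e → C1} {B M : ℕ} {Hf : ℝ → ℝ → ℝ} (hA : Apx e p B M Hf)
    (c : R1) (r : ℕ) (hr : r ≤ B) (R : ℝ) : ∃ K : ℝ, 0 ≤ K ∧ ∀ u σ : ℝ, 0 < u → u ≤ 1 → |σ| ≤ R →
    ‖((Hf u (c.eval u + σ * u ^ r) : ℝ) : ℂ) -
      (u : ℂ) ^ (∑ l, ordk c r (p l)) * ∏ l, lam c r (p l) σ‖ ≤
        K * u ^ (∑ l, ordk c r (p l) + 1) := by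
  obtain ⟨K, Λ, hK0, _, hK⟩ := h31_prod p c r R Finset.univ
  set c' : C1 := c.map Complex.ofRealHom with hc'
  obtain ⟨C, hC0, hC⟩ := hA.apx
    (∑ i ∈ Finset.range (c'.natDegree + 1), ‖c'.coeff i‖ + |R|)
  refine ⟨C + K, by positivity, fun u σ h0 h1 hσ => ?_⟩
  have hY : |c.eval u + σ * u ^ r| ≤
      ∑ i ∈ Finset.range (c'.natDegree + 1), ‖c'.coeff i‖ + |R| := by
    refine (abs_add_le _ _).trans (add_le_add ?_ ?_)
    · have h2 := h31_bdd c' u h0 h1
      have h3 : c'.eval (u : ℂ) = ((c.eval u : ℝ) : ℂ) := by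
        have := Polynomial.eval_map_apply (f := Complex.ofRealHom) (p := c) u
        simpa using this
      rw [h3, Complex.norm_real, Real.norm_eq_abs] at h2
      exact h2
    · rw [abs_mul, abs_pow, abs_of_pos h0]
      calc |σ| * u ^ r ≤ |σ| * 1 :=
            mul_le_mul_of_nonneg_left (pow_le_one₀ h0.le h1) (abs_nonneg _)
        _ ≤ |R| := by rw [mul_one]; exact hσ.trans (le_abs_self R)
  have h2 := hC u _ h0 h1 hY
  have h3 := (hK u σ h0 h1 hσ).1
  have hW : ∑ l, ordk c r (p l) ≤ e * B := by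
    calc ∑ l, ordk c r (p l) ≤ ∑ _l : Fin e, B :=
          Finset.sum_le_sum fun l _ => (ordk_le c r (p l)).trans hr
      _ = e * B := by simp
  have hM : ∑ l, ordk c r (p l) + 1 ≤ M := by
    refine le_trans ?_ hA.big
    have : (e + 1) * (B + 1) = e * B + e + B + 1 := by ring
    omega
  have h4 : u ^ M ≤ u ^ (∑ l, ordk c r (p l) + 1) := pow_le_pow_of_le_one h0.le h1 hM
  set W := ∑ l, ordk c r (p l)
  set L := ∏ l, lam c r (p l) σ
  set G := ∏ l, (((c.eval u + σ * u ^ r : ℝ) : ℂ) - (p l).eval (u : ℂ))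
  calc ‖((Hf u (c.eval u + σ * u ^ r) : ℝ) : ℂ) - (u : ℂ) ^ W * L‖
      = ‖(((Hf u (c.eval u + σ * u ^ r) : ℝ) : ℂ) - G) + (G - (u : ℂ) ^ W * L)‖ := by
        congr 1
        ring
    _ ≤ ‖((Hf u (c.eval u + σ * u ^ r) : ℝ) : ℂ) - G‖ + ‖G - (u : ℂ) ^ W * L‖ := norm_add_le _ _
    _ ≤ C * u ^ (W + 1) + K * u ^ (W + 1) :=
        add_le_add (h2.trans (mul_le_mul_of_nonneg_left h4 hC0)) h3
    _ = (C + K) * u ^ (W + 1) := by ring

theorem lam_real {e : ℕ} {p : Fin e → C1} {B M : ℕ} {Hf : ℝ → ℝ → ℝ} (hA : Apx e p B M Hf)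
    (c : R1) (r : ℕ) (hr : r ≤ B) (σ : ℝ) : (∏ l, lam c r (p l) σ).im = 0 := by
  obtain ⟨K, hK0, hK⟩ := prod_lead hA c r hr |σ|
  set W := ∑ l, ordk c r (p l)
  set L := ∏ l, lam c r (p l) σ
  have h1 : ∀ u : ℝ, 0 < u → u ≤ 1 → |L.im| ≤ K * u := by
    intro u h0 h1
    have h2 := hK u σ h0 h1 le_rfl
    have h3 := (Complex.abs_im_le_norm _).trans h2
    rw [Complex.sub_im, Complex.ofReal_im, zero_sub, abs_neg, ← Complex.ofReal_pow,
      Complex.im_ofReal_mul, abs_mul, abs_of_pos (pow_pos h0 W)] at h3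
    have h4 : u ^ W * |L.im| ≤ u ^ W * (K * u) := by
      calc _ ≤ _ := h3
        _ = _ := by ring
    exact le_of_mul_le_mul_left h4 (pow_pos h0 W)
  by_contra hne
  have h2 : 0 < |L.im| := abs_pos.2 hne
  have h3 : 0 < |L.im| / (K + |L.im|) := by positivity
  have h4 : |L.im| / (K + |L.im|) ≤ 1 := by
    rw [div_le_one (by positivity)]
    linarith
  have h5 := h1 (|L.im| / (K + |L.im|) / 2) (by positivity) (by linarith)
  have h6 : K * (|L.im| / (K + |L.im|) / 2) ≤ |L.im| / 2 := by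
    rw [div_div, mul_div_assoc', div_le_div_iff₀ (by positivity) (by positivity)]
    nlinarith
  linarith

theorem good_of_neg {e : ℕ} {p : Fin e → C1} {B M : ℕ} {Hf : ℝ → ℝ → ℝ} (hA : Apx e p B M Hf)
    (c : R1) (r : ℕ) (hr : r ≤ B) (σ₀ : ℝ) (h : (∏ l, lam c r (p l) σ₀).re < 0) :
    GoodN Hf c r := by
  have hcont : Continuous fun σ : ℝ => (∏ l, lam c r (p l) (σ : ℂ)).re :=
    Complex.continuous_re.comp (continuous_finsetProd _ fun l _ => h31_lam_cont c r (p l))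
  have hev : ∀ᶠ σ : ℝ in 𝓝 σ₀, (∏ l, lam c r (p l) (σ : ℂ)).re < 0 :=
    hcont.continuousAt.eventually_lt continuousAt_const h
  obtain ⟨δ, hδ, hball⟩ := Metric.eventually_nhds_iff.1 hev
  refine ⟨σ₀ - δ, σ₀ + δ, by linarith, fun σ hσ1 hσ2 => ?_⟩
  have hneg : (∏ l, lam c r (p l) (σ : ℂ)).re < 0 := by
    apply hball
    rw [Real.dist_eq, abs_lt]
    constructor <;> linarith
  obtain ⟨K, hK0, hK⟩ := prod_lead hA c r hr |σ|
  set W := ∑ l, ordk c r (p l)
  set L := ∏ l, lam c r (p l) σ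
  have hpos : 0 < -L.re / (K + 1) := div_pos (by linarith) (by linarith)
  filter_upwards [Ioo_mem_nhdsGT (show (0 : ℝ) < min 1 (-L.re / (K + 1)) from
    lt_min one_pos hpos)] with u hu
  obtain ⟨h0, h1⟩ := hu
  have hu1 : u ≤ 1 := (h1.trans_le (min_le_left _ _)).le
  have hu2 : u < -L.re / (K + 1) := h1.trans_le (min_le_right _ _)
  rw [lt_div_iff₀ (by linarith)] at hu2
  have h2 := hK u σ h0 hu1 le_rfl
  have h3 := (Complex.abs_re_le_norm _).trans h2
  rw [Complex.sub_re, Complex.ofReal_re, ← Complex.ofReal_pow, Complex.re_ofReal_mul] at h3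
  have h4 := (abs_le.1 h3).2
  have h5 : 0 < u ^ W := pow_pos h0 W
  have h6 : u ^ W * (L.re + K * u) < 0 := mul_neg_of_pos_of_neg h5 (by nlinarith)
  calc Hf u (c.eval u + σ * u ^ r) ≤ u ^ W * L.re + K * u ^ (W + 1) := by linarith
    _ = u ^ W * (L.re + K * u) := by ring
    _ < 0 := h6

end Pool.Agent.Helper10.TC
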