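import Pool.Agent.Helper10.TC.Ivt

set_option autoImplicit false

/-!
# Project TC (MP_63c74b), block MVT: Rolle and the mean value theorem in an ordered field with IVT

Proof of `rolle`. `f ≠ 0` (otherwise trivial: the derivative is 0; any `c` between, e.g.
`(a + b) / 2`). The set of roots of `f` in `[a, b]` is finite; replacing `b` by the smallest root
`> a` we may assume that `f` has no root in `(a, b)`. Write `f = (X - a)^m (X - b)^n g` with
`m, n ≥ 1`, `g a ≠ 0`, `g b ≠ 0` (`Polynomial.exists_eq_pow_rootMultiplicity_mul_and_not_dvd`, twice;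
or strong induction). `g` has no root in `[a, b]`, so `g a` and `g b` have the same sign (IVT for `g`
or `-g`). Then `f' = (X - a)^(m-1) (X - b)^(n-1) h`, with
`h = m (X - b) g + n (X - a) g + (X - a)(X - b) g'`, `h a = m (a - b) g a`,
`h b = n (b - a) g b`, which have opposite signs (char 0, `m, n ≥ 1`); IVT for `± h` gives a root
`c` of `h` in `(a, b)`, and `f' c = 0`.
`mvt`: apply `rolle` to `f - f a - (f b - f a) / (b - a) (X - a)`. `mono`: from `mvt`.
-/

open Polynomial

namespace Pool.Agent.Helper10.TC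

variable {K : Type*} [Field K] [LinearOrder K] [IsStrictOrderedRing K]

private lemma ivt24 (hK : IVT K) (f : K[X]) (a b : K) (hab : a < b)
    (h : f.eval a * f.eval b < 0) : ∃ c, a < c ∧ c < b ∧ f.eval c = 0 := by
  rcases lt_trichotomy (f.eval a) 0 with h1 | h1 | h1
  · have h2 : 0 < f.eval b := by
      by_contra hcon
      rw [not_lt] at hcon
      have := mul_nonneg_of_nonpos_of_nonpos h1.le hcon
      linarith
    exact hK f a b hab h1 h2
  · rw [h1, zero_mul] at h
    exact (lt_irrefl _ h).elim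
  · have h2 : f.eval b < 0 := by
      by_contra hcon
      rw [not_lt] at hcon
      have := mul_nonneg h1.le hcon
      linarith
    obtain ⟨c, hc1, hc2, hc3⟩ := hK (-f) a b hab (by rw [eval_neg]; linarith)
      (by rw [eval_neg]; linarith)
    refine ⟨c, hc1, hc2, ?_⟩
    rw [eval_neg] at hc3
    linarith

private lemma rolle24 (hK : IVT K) (f : K[X]) (hf : f ≠ 0) (a b : K) (hab : a < b)
    (ha : f.eval a = 0) (hb : f.eval b = 0) (hno : ∀ c, a < c → c < b → f.eval c ≠ 0) :
    ∃ c, a < c ∧ c < b ∧ f.derivative.eval c = 0 := by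
  obtain ⟨f1, hf1, hnd1⟩ := exists_eq_pow_rootMultiplicity_mul_and_not_dvd f hf a
  have hm : 0 < rootMultiplicity a f := (rootMultiplicity_pos hf).2 ha
  obtain ⟨m, hm'⟩ : ∃ m, rootMultiplicity a f = m + 1 := ⟨_, (Nat.succ_pred_eq_of_pos hm).symm⟩
  rw [hm'] at hf1
  have hf10 : f1 ≠ 0 := by
    rintro rfl
    exact hnd1 (dvd_zero _)
  have hab' : b - a ≠ 0 := sub_ne_zero.2 hab.ne'
  have hf1b : f1.eval b = 0 := by
    rw [hf1] at hb
    simp only [eval_mul, eval_pow, eval_sub, eval_X, eval_C] at hb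
    rcases mul_eq_zero.1 hb with h | h
    · exact (pow_ne_zero _ hab' h).elim
    · exact h
  obtain ⟨g, hg, hnd2⟩ := exists_eq_pow_rootMultiplicity_mul_and_not_dvd f1 hf10 b
  have hn : 0 < rootMultiplicity b f1 := (rootMultiplicity_pos hf10).2 hf1b
  obtain ⟨n, hn'⟩ : ∃ n, rootMultiplicity b f1 = n + 1 := ⟨_, (Nat.succ_pred_eq_of_pos hn).symm⟩
  rw [hn'] at hg
  have hgb : g.eval b ≠ 0 := fun h => hnd2 (dvd_iff_isRoot.2 h)
  have hga : g.eval a ≠ 0 := by
    intro h
    apply hnd1
    rw [dvd_iff_isRoot, IsRoot.def, hg]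
    simp only [eval_mul, h, mul_zero]
  have hfg : f = (X - C a) ^ (m + 1) * ((X - C b) ^ (n + 1) * g) := by
    rw [← hg]
    exact hf1
  have hgno : ∀ c, a < c → c < b → g.eval c ≠ 0 := by
    intro c h1 h2 h3
    apply hno c h1 h2
    rw [hfg]
    simp only [eval_mul, h3, mul_zero]
  have hsign : 0 < g.eval a * g.eval b := by
    rcases lt_trichotomy (g.eval a * g.eval b) 0 with h | h | h
    · obtain ⟨c, hc1, hc2, hc3⟩ := ivt24 hK g a b hab h
      exact (hgno c hc1 hc2 hc3).elim
    · exact (mul_ne_zero hga hgb h).elim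
    · exact h
  have hm0 : (0 : K) < (m : K) + 1 := by positivity
  have hn0 : (0 : K) < (n : K) + 1 := by positivity
  have hba : 0 < b - a := sub_pos.2 hab
  obtain ⟨c, hc1, hc2, hc3⟩ := ivt24 hK
    (C ((m : K) + 1) * (X - C b) * g + C ((n : K) + 1) * (X - C a) * g +
      (X - C a) * (X - C b) * derivative g) a b hab (by
    simp only [eval_add, eval_mul, eval_sub, eval_X, eval_C]
    have e : (((m : K) + 1) * (a - b) * g.eval a + ((n : K) + 1) * (a - a) * g.eval a +
        (a - a) * (a - b) * (derivative g).eval a) *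
        (((m : K) + 1) * (b - b) * g.eval b + ((n : K) + 1) * (b - a) * g.eval b +
        (b - a) * (b - b) * (derivative g).eval b) =
        -(((m : K) + 1) * ((n : K) + 1) * (b - a) ^ 2 * (g.eval a * g.eval b)) := by ring
    rw [e]
    have : 0 < ((m : K) + 1) * ((n : K) + 1) * (b - a) ^ 2 * (g.eval a * g.eval b) := by
      positivity
    linarith)
  refine ⟨c, hc1, hc2, ?_⟩
  simp only [eval_add, eval_mul, eval_sub, eval_X, eval_C] at hc3
  rw [hfg]
  simp only [derivative_mul, derivative_pow, derivative_sub, derivative_X, derivative_C, sub_zero,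
    mul_one, eval_add, eval_mul, eval_pow, eval_sub, eval_X, eval_C, Nat.add_sub_cancel,
    Nat.cast_add, Nat.cast_one, map_add, map_one, map_natCast, eval_natCast, eval_one]
  linear_combination (c - a) ^ m * (c - b) ^ n * hc3

theorem rolle (hK : IVT K) (f : K[X]) (a b : K) (hab : a < b) (ha : f.eval a = 0)
    (hb : f.eval b = 0) : ∃ c, a < c ∧ c < b ∧ f.derivative.eval c = 0 := by
  by_cases hf : f = 0
  · refine ⟨(a + b) / 2, by linarith, by linarith, ?_⟩
    rw [hf]
    simp
  · set R : Finset K := f.roots.toFinset.filter (fun x => a < x ∧ x ≤ b) with hR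
    have hbR : b ∈ R := by
      rw [hR, Finset.mem_filter, Multiset.mem_toFinset, mem_roots hf]
      exact ⟨hb, hab, le_rfl⟩
    set b' := R.min' ⟨b, hbR⟩ with hb'
    have hmem : b' ∈ R := R.min'_mem _
    have hmem' := hmem
    rw [hR, Finset.mem_filter, Multiset.mem_toFinset, mem_roots hf] at hmem'
    obtain ⟨h1, h2, h3⟩ := hmem'
    obtain ⟨c, hc1, hc2, hc3⟩ := rolle24 hK f hf a b' h2 ha h1 (by
      intro c hc1 hc2 hc3
      have hcR : c ∈ R := by
        rw [hR, Finset.mem_filter, Multiset.mem_toFinset, mem_roots hf]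
        exact ⟨hc3, hc1, (hc2.trans_le h3).le⟩
      exact (lt_irrefl _ (hc2.trans_le (R.min'_le c hcR))).elim)
    exact ⟨c, hc1, hc2.trans_le h3, hc3⟩

theorem mvt (hK : IVT K) (f : K[X]) (a b : K) (hab : a < b) :
    ∃ c, a < c ∧ c < b ∧ f.eval b - f.eval a = f.derivative.eval c * (b - a) := by
  have hba : b - a ≠ 0 := sub_ne_zero.2 hab.ne'
  obtain ⟨c, hc1, hc2, hc3⟩ := rolle hK
    (f - C (f.eval a) - C ((f.eval b - f.eval a) / (b - a)) * (X - C a)) a b hab
    (by simp) (by
      simp only [eval_sub, eval_mul, eval_C, eval_X]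
      field_simp
      ring)
  refine ⟨c, hc1, hc2, ?_⟩
  simp only [derivative_sub, derivative_mul, derivative_C, derivative_X, eval_sub, eval_mul,
    eval_C, eval_one, sub_zero, zero_mul, zero_add, mul_one, eval_add, eval_zero] at hc3
  have h1 : f.derivative.eval c = (f.eval b - f.eval a) / (b - a) := by linarith
  rw [h1]
  field_simp

theorem mono (hK : IVT K) (f : K[X]) (a b : K) (hab : a < b)
    (h : ∀ c, a < c → c < b → 0 < f.derivative.eval c) : f.eval a < f.eval b := by
  obtain ⟨c, hc1, hc2, hc3⟩ := mvt hK f a b hab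
  have h1 := mul_pos (h c hc1 hc2) (sub_pos.2 hab)
  linarith

end Pool.Agent.Helper10.TC
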