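import Pool.Agent.Helper10.TC.Defs

set_option autoImplicit false

/-!
# Project TC (MP_63c74b), block NB: two elementary facts on monic polynomials

`neg_bdd`: `g = Y^e + ∑_{i<e} a_i(s) Y^i`, `|a_i(s)| ≤ A` for `|s| ≤ 1` (continuity on a compact set),
`e` even. If `|Y| ≥ R := 1 + e A` then `|∑_{i<e} a_i Y^i| ≤ e A |Y|^(e-1) < |Y|^e = Y^e`, so
`g > 0` (for `e = 0`, `g = 1`).
`generic_ne`: let `E = q(u^N, c(u) + σ u^r) ∈ ℝ[u][σ]` (that is `onR N ⟨true, c, r⟩ q`, see
`ev_onR`); its coefficient of `σ^d`, `d = natDegree q`, is `u^(r d) ≠ 0`, so `E ≠ 0`. Write `E = ∑ e_i(σ) u^i`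
(exchange the variables: `Polynomial.Bivariate.swap`, or choose `i` with `∃ j, (E.coeff j).coeff i ≠ 0`
and let `e_i = ∑_j monomial j ((E.coeff j).coeff i)`); some `e_i ≠ 0`; `S` = its roots. For `σ ∉ S` the
polynomial `u ↦ E(u, σ)` is not zero, it has finitely many roots, so it does not vanish for small
`u > 0`.
-/

open Polynomial Filter Topology

namespace Pool.Agent.Helper10.TC

private theorem ev_eq_sum (s Y : ℝ) (g : R2) :
    ev s Y g = ∑ i ∈ Finset.range (g.natDegree + 1), (g.coeff i).eval s * Y ^ i := by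
  unfold ev
  rw [coe_eval₂RingHom, eval₂_eq_sum_range]
  rfl

private theorem ev_eq_eval (u σ : ℝ) (E : R2) : ev u σ E = (E.eval (C σ)).eval u := by
  unfold ev
  rw [coe_eval₂RingHom]
  have h := Polynomial.eval₂_at_apply (p := E) (evalRingHom u) (C σ)
  rw [coe_evalRingHom, eval_C] at h
  exact h

theorem neg_bdd (g : R2) (hg : g.Monic) (hE : Even g.natDegree) :
    ∃ R : ℝ, ∀ s Y : ℝ, |s| ≤ 1 → ev s Y g < 0 → |Y| ≤ R := by
  obtain ⟨A, hA⟩ := (isCompact_Icc (a := (-1 : ℝ)) (b := 1)).exists_bound_of_continuousOn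
    (f := fun s => ∑ i ∈ Finset.range g.natDegree, |(g.coeff i).eval s|)
    (by
      refine Continuous.continuousOn ?_
      exact continuous_finsetSum _ fun i _ => ((g.coeff i).continuous).abs)
  refine ⟨max 1 A, ?_⟩
  intro s Y hs hneg
  by_contra hY
  rw [not_le, max_lt_iff] at hY
  obtain ⟨hY1, hYA⟩ := hY
  have hsA : ∑ i ∈ Finset.range g.natDegree, |(g.coeff i).eval s| ≤ A := by
    have h1 := hA s (abs_le.mp hs)
    exact (le_abs_self _).trans h1
  rw [ev_eq_sum, Finset.sum_range_succ, hg.coeff_natDegree, eval_one, one_mul] at hneg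
  rcases Nat.eq_zero_or_pos g.natDegree with h0 | hpos
  · rw [h0] at hneg
    simp at hneg
    linarith
  · have h2 : |∑ i ∈ Finset.range g.natDegree, (g.coeff i).eval s * Y ^ i|
        ≤ A * |Y| ^ (g.natDegree - 1) := by
      calc |∑ i ∈ Finset.range g.natDegree, (g.coeff i).eval s * Y ^ i|
          ≤ ∑ i ∈ Finset.range g.natDegree, |(g.coeff i).eval s * Y ^ i| :=
            Finset.abs_sum_le_sum_abs _ _
        _ ≤ ∑ i ∈ Finset.range g.natDegree, |(g.coeff i).eval s| * |Y| ^ (g.natDegree - 1) := by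
            refine Finset.sum_le_sum fun i hi => ?_
            rw [abs_mul, abs_pow]
            refine mul_le_mul_of_nonneg_left ?_ (abs_nonneg _)
            exact pow_le_pow_right₀ hY1.le (by
              have := Finset.mem_range.mp hi
              omega)
        _ = (∑ i ∈ Finset.range g.natDegree, |(g.coeff i).eval s|) * |Y| ^ (g.natDegree - 1) := by
            rw [Finset.sum_mul]
        _ ≤ A * |Y| ^ (g.natDegree - 1) :=
            mul_le_mul_of_nonneg_right hsA (pow_nonneg (abs_nonneg _) _)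
    have h3 : A * |Y| ^ (g.natDegree - 1) < |Y| ^ g.natDegree := by
      have h4 : |Y| ^ g.natDegree = |Y| * |Y| ^ (g.natDegree - 1) := by
        rw [← pow_succ']
        congr 1
        omega
      rw [h4]
      exact mul_lt_mul_of_pos_right hYA (pow_pos (by linarith) _)
    have h5 : Y ^ g.natDegree = |Y| ^ g.natDegree := (hE.pow_abs Y).symm
    have h6 := neg_abs_le (∑ i ∈ Finset.range g.natDegree, (g.coeff i).eval s * Y ^ i)
    rw [h5] at hneg
    linarith

theorem generic_ne (q : R2) (hq : q.Monic) (N : ℕ) (c : R1) (r : ℕ) :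
    ∃ S : Finset ℝ, ∀ σ, σ ∉ S → ∀ᶠ u in 𝓝[>] (0 : ℝ),
      ev (u ^ N) (c.eval u + σ * u ^ r) q ≠ 0 := by
  classical
  have hev : ∀ u σ : ℝ, ev u σ (onR N ⟨true, c, r⟩ q)
      = ev (u ^ N) (c.eval u + σ * u ^ r) q := by
    intro u σ
    rw [ev_onR]
    simp [sgn]
  have hE : onR N ⟨true, c, r⟩ q ≠ 0 := by
    intro h0
    have hm : (q.map (evalRingHom (1 : ℝ))).Monic := hq.map _
    obtain ⟨Y, hY⟩ := Infinite.exists_notMem_finset (q.map (evalRingHom (1 : ℝ))).roots.toFinset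
    apply hY
    rw [Multiset.mem_toFinset, mem_roots hm.ne_zero, IsRoot.def]
    have h1 := hev 1 (Y - c.eval 1)
    rw [h0, map_zero] at h1
    have h2 : ev ((1 : ℝ) ^ N) (c.eval 1 + (Y - c.eval 1) * 1 ^ r) q
        = (q.map (evalRingHom (1 : ℝ))).eval Y := by
      rw [one_pow, one_pow, eval_map]
      unfold ev
      rw [coe_eval₂RingHom]
      congr 1
      ring
    rw [← h2, ← h1]
  refine ⟨(onR N ⟨true, c, r⟩ q).roots.toFinset.preimage C C_injective.injOn, ?_⟩
  intro σ hσ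
  rw [Finset.mem_preimage, Multiset.mem_toFinset, mem_roots hE, IsRoot.def] at hσ
  have hfin : ((((onR N ⟨true, c, r⟩ q).eval (C σ)).roots.toFinset : Finset ℝ) : Set ℝ).Finite :=
    Finset.finite_toSet _
  have h1 : ∀ᶠ u in 𝓝[≠] (0 : ℝ),
      u ∉ ((((onR N ⟨true, c, r⟩ q).eval (C σ)).roots.toFinset : Finset ℝ) : Set ℝ) :=
    (nhdsNE_le_cofinite (0 : ℝ)) hfin.compl_mem_cofinite
  have h2 : ∀ᶠ u in 𝓝[>] (0 : ℝ),
      u ∉ ((((onR N ⟨true, c, r⟩ q).eval (C σ)).roots.toFinset : Finset ℝ) : Set ℝ) :=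
    h1.filter_mono (nhdsWithin_mono _ fun u hu => ne_of_gt hu)
  filter_upwards [h2] with u hu h0
  apply hu
  rw [Finset.mem_coe, Multiset.mem_toFinset, mem_roots hσ, IsRoot.def, ← ev_eq_eval, hev]
  exact h0

end Pool.Agent.Helper10.TC
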