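import Pool.Agent.Helper10.TC.Defs

set_option autoImplicit false

/-!
# Project TC (MP_63c74b), block SQF: monic = square times separable

Choose a monic `q` with `q² ∣ G` of maximal degree (`2 deg q ≤ deg G`; `q = 1` is possible),
`G = q² g₁`, `g₁` monic. `g₁` has no monic square factor `h²` with `deg h > 0` (else `q h` is
better). Let `K = FractionRing ℝ[s]` (or `RatFunc ℝ`). `g₁` and `g₁'` are coprime over `K`: otherwise
let `h ∈ K[Y]` be a common monic irreducible factor: `g₁ = h u`, `g₁' = h' u + h u'`, so `h ∣ h' u`,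
`h' ≠ 0` of smaller degree (char 0), so `h ∣ u`, `h² ∣ g₁` in `K[Y]`. `ℝ[s]` is integrally closed, so the
monic factors `h`, and the quotient, of the monic polynomial `g₁` have coefficients in `ℝ[s]` (Mathlib:
`Polynomial.IsIntegrallyClosed.eq_map_mul_C_of_dvd` or `IsIntegrallyClosed.eq_map_mul_C_of_dvd`,
Gauss lemma in `Mathlib/RingTheory/Polynomial/GaussLemma.lean`), contradiction (divisibility by the
monic `h²` descends, `Polynomial.map_dvd_map`). So there are `α, β ∈ K[Y]` with
`α g₁ + β g₁' = 1`; multiply by a common denominator `ρ` (`IsLocalization.integerNormalization` or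
`IsLocalization.exist_integer_multiples_of_finset`).
(Alternatively: strong induction on the degree of `G`.)
-/

open Polynomial

namespace Pool.Agent.Helper10.TC

private theorem clear34 (a : Polynomial (FractionRing R1)) :
    ∃ (a0 : R2) (ρ : R1), ρ ≠ 0 ∧
      a0.map (algebraMap R1 (FractionRing R1)) = C (algebraMap R1 (FractionRing R1) ρ) * a := by
  obtain ⟨b, hb, h⟩ := IsLocalization.integerNormalization_spec (nonZeroDivisors R1) a
  refine ⟨IsLocalization.integerNormalization (nonZeroDivisors R1) a, b,
    nonZeroDivisors.ne_zero hb, ?_⟩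
  rw [h, ← Polynomial.smul_eq_C_mul, algebraMap_smul]

theorem sqf (G : R2) (hG : G.Monic) : ∃ (q g₁ a b : R2) (ρ : R1), q.Monic ∧ g₁.Monic ∧
    G = q ^ 2 * g₁ ∧ ρ ≠ 0 ∧ a * g₁ + b * derivative g₁ = C ρ := by
  obtain ⟨n, hn⟩ : ∃ n, G.natDegree = n := ⟨_, rfl⟩
  induction n using Nat.strong_induction_on generalizing G with
  | _ n ih =>
    have hinj : Function.Injective (algebraMap R1 (FractionRing R1)) :=
      IsFractionRing.injective R1 (FractionRing R1)
    by_cases hsep : (G.map (algebraMap R1 (FractionRing R1))).Separable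
    · obtain ⟨a, b, hab⟩ := hsep
      obtain ⟨a0, ρa, hρa, ha0⟩ := clear34 a
      obtain ⟨b0, ρb, hρb, hb0⟩ := clear34 b
      refine ⟨1, G, C ρb * a0, C ρa * b0, ρa * ρb, monic_one, hG, by rw [one_pow, one_mul],
        mul_ne_zero hρa hρb, ?_⟩
      apply Polynomial.map_injective _ hinj
      rw [Polynomial.map_add, Polynomial.map_mul, Polynomial.map_mul, Polynomial.map_mul,
        Polynomial.map_mul, ha0, hb0, map_C, map_C, map_C, ← derivative_map, map_mul, C_mul]
      linear_combination (C (algebraMap R1 (FractionRing R1) ρa) *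
        C (algebraMap R1 (FractionRing R1) ρb)) * hab
    · rw [PerfectField.separable_iff_squarefree] at hsep
      unfold Squarefree at hsep
      push Not at hsep
      obtain ⟨x, hx, hxu⟩ := hsep
      have hGK := hG.map (algebraMap R1 (FractionRing R1))
      have hx0 : x ≠ 0 := by
        rintro rfl
        rw [zero_mul, zero_dvd_iff] at hx
        exact hGK.ne_zero hx
      obtain ⟨h, hh⟩ := IsIntegrallyClosed.eq_map_mul_C_of_dvd (FractionRing R1) hG
        ((dvd_mul_right x x).trans hx)
      have hlc : x.leadingCoeff ≠ 0 := leadingCoeff_ne_zero.2 hx0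
      have hh2 : h.map (algebraMap R1 (FractionRing R1)) = x * C x.leadingCoeff⁻¹ := by
        conv_rhs => rw [← hh]
        rw [mul_assoc, hh, ← C_mul, mul_inv_cancel₀ hlc, C_1, mul_one]
      have hmon : h.Monic := by
        refine Polynomial.monic_of_injective hinj ?_
        rw [hh2]
        exact monic_mul_leadingCoeff_inv hx0
      have hdvd : h ^ 2 ∣ G := by
        refine Monic.dvd_of_fraction_map_dvd_fraction_map (K := FractionRing R1) hG (hmon.pow 2) ?_
        rw [Polynomial.map_pow, hh2]
        have h1 : (x * C x.leadingCoeff⁻¹) ^ 2 = x * x * C (x.leadingCoeff⁻¹ ^ 2) := by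
          rw [C_pow]; ring
        have h2 : IsUnit (C (x.leadingCoeff⁻¹ ^ 2) : Polynomial (FractionRing R1)) :=
          isUnit_C.2 (pow_ne_zero 2 (inv_ne_zero hlc)).isUnit
        rw [h1]
        exact (IsUnit.mul_right_dvd h2).2 hx
      obtain ⟨G2, hG2⟩ := hdvd
      have hm2 : G2.Monic := (hmon.pow 2).of_mul_monic_left (hG2 ▸ hG)
      have hdeg : 1 ≤ h.natDegree := by
        by_contra hcon
        have h0 : h.natDegree = 0 := by omega
        have h1 : h = 1 := hmon.natDegree_eq_zero.1 h0
        rw [h1, Polynomial.map_one, one_mul] at hh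
        exact hxu (hh ▸ isUnit_C.2 hlc.isUnit)
      have hd : G.natDegree = 2 * h.natDegree + G2.natDegree := by
        conv_lhs => rw [hG2]
        rw [(hmon.pow 2).natDegree_mul hm2, hmon.natDegree_pow]
      obtain ⟨q, g₁, a, b, ρ, hq, hg, h1, h2, h3⟩ := ih G2.natDegree (by omega) G2 hm2 rfl
      refine ⟨h * q, g₁, a, b, ρ, hmon.mul hq, hg, ?_, h2, h3⟩
      rw [hG2, h1]
      ring

end Pool.Agent.Helper10.TC
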