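import Pool.Agent.Helper10.TC.Apx

set_option autoImplicit false

/-!
# Project TC (MP_63c74b), block TRUNC: truncation of the roots

Let `p_l = trunc M (γ_l)`. In `ℂ⟦u⟧[Y]` the coefficients of
`∏ (Y - γ_l) - ∏ (Y - p_l)` are divisible by `u ^ M` (induction on the number of factors; each
`γ_l - p_l` is divisible by `X ^ M`, `PowerSeries.X_pow_dvd_iff`, `PowerSeries.coeff_trunc`). So
`H.map (ofReal) - ∏ (Y - p_l)`, an element of `ℂ[u][Y]`, has all coefficients divisible by `u ^ M`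
(`Polynomial.coeToPowerSeries.ringHom` is injective and preserves coefficients, `X_pow_dvd_iff`), i.e.
it is `C (X ^ M) * D` with `D ∈ ℂ[u][Y]`. Evaluate at `(u, Y)`: `|D(u, Y)| ≤ C` for
`0 < u ≤ 1`, `|Y| ≤ R` (finite sum, or continuity on a compact set).
-/

open Polynomial Filter Topology

namespace Pool.Agent.Helper10.TC

private lemma dvd_prod67 {A : Type*} [CommRing A] (d : A) {ι : Type*} (s : Finset ι)
    (a b : ι → A) (h : ∀ l ∈ s, d ∣ a l - b l) : d ∣ ∏ l ∈ s, a l - ∏ l ∈ s, b l := by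
  classical
  induction s using Finset.induction_on with
  | empty => simp
  | insert i s hi ih =>
    rw [Finset.prod_insert hi, Finset.prod_insert hi]
    have h1 := ih fun l hl => h l (Finset.mem_insert_of_mem hl)
    have h2 := h i (Finset.mem_insert_self i s)
    have h3 : a i * ∏ l ∈ s, a l - b i * ∏ l ∈ s, b l =
        a i * (∏ l ∈ s, a l - ∏ l ∈ s, b l) + (a i - b i) * ∏ l ∈ s, b l := by ring
    rw [h3]
    exact dvd_add (h1.mul_left _) (h2.mul_right _)

/-- the value of an element of `ℂ[u][Y]` -/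
private noncomputable def evC67 (u Y : ℂ) : C2 →+* ℂ := eval₂RingHom (evalRingHom u) Y

private lemma evC_C67 (u Y : ℂ) (a : C1) : evC67 u Y (C a) = a.eval u := by simp [evC67]

private lemma evC_X67 (u Y : ℂ) : evC67 u Y X = Y := by simp [evC67]

private lemma evC_map67 (u Y : ℝ) (H : R2) :
    evC67 u Y (H.map (mapRingHom Complex.ofRealHom)) = ((ev u Y H : ℝ) : ℂ) := by
  have h : (evC67 u Y).comp (mapRingHom (mapRingHom Complex.ofRealHom)) =
      Complex.ofRealHom.comp (ev u Y) := by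
    refine Polynomial.ringHom_ext (fun a => ?_) ?_
    · rw [RingHom.comp_apply, RingHom.comp_apply, coe_mapRingHom, map_C, evC_C67, ev_C,
        coe_mapRingHom]
      exact eval_map_apply Complex.ofRealHom u
    · rw [RingHom.comp_apply, RingHom.comp_apply, coe_mapRingHom, map_X, evC_X67, ev_X]
      rfl
  exact congrArg (fun f => f H) h

private lemma bound67 (p : C1) {x : ℂ} {B : ℝ} (hB : 0 ≤ B) (hx : ‖x‖ ≤ B) :
    ‖p.eval x‖ ≤ ∑ i ∈ p.support, ‖p.coeff i‖ * B ^ i := by
  rw [eval_eq_sum, Polynomial.sum]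
  refine (norm_sum_le _ _).trans (Finset.sum_le_sum fun i _ => ?_)
  rw [norm_mul, norm_pow]
  exact mul_le_mul_of_nonneg_left (pow_le_pow_left₀ (norm_nonneg _) hx i) (norm_nonneg _)

private lemma bound2_67 (D : C2) {u Y : ℂ} {B : ℝ} (hB : 0 ≤ B) (hu : ‖u‖ ≤ 1) (hY : ‖Y‖ ≤ B) :
    ‖evC67 u Y D‖ ≤ ∑ i ∈ D.support,
      (∑ j ∈ (D.coeff i).support, ‖(D.coeff i).coeff j‖ * 1 ^ j) * B ^ i := by
  have h1 : evC67 u Y D = ∑ i ∈ D.support, (D.coeff i).eval u * Y ^ i := by
    rw [evC67, coe_eval₂RingHom, eval₂_eq_sum, Polynomial.sum]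
    rfl
  rw [h1]
  refine (norm_sum_le _ _).trans (Finset.sum_le_sum fun i _ => ?_)
  rw [norm_mul, norm_pow]
  refine mul_le_mul (bound67 _ zero_le_one hu) (pow_le_pow_left₀ (norm_nonneg _) hY i)
    (pow_nonneg (norm_nonneg _) _) ?_
  exact Finset.sum_nonneg fun j _ => by positivity

theorem trunc_approx (H : R2) (e : ℕ) (γ : Fin e → Ps)
    (hH : H.map toPS = ∏ l, (X - C (γ l))) (M : ℕ) (R : ℝ) :
    ∃ K : ℝ, 0 ≤ K ∧ ∀ u Y : ℝ, 0 < u → u ≤ 1 → |Y| ≤ R →
      ‖((ev u Y H : ℝ) : ℂ) - ∏ l, ((Y : ℂ) - (PowerSeries.trunc M (γ l)).eval (u : ℂ))‖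
        ≤ K * u ^ M := by
  obtain ⟨P, hP⟩ : ∃ P : C2, P = ∏ l, (X - C (PowerSeries.trunc M (γ l))) := ⟨_, rfl⟩
  -- the coefficients of the difference are divisible by `X ^ M`
  have hdvd : C (X ^ M) ∣ H.map (mapRingHom Complex.ofRealHom) - P := by
    rw [C_dvd_iff_dvd_coeff]
    intro i
    have h1 : (C (PowerSeries.X ^ M) : Ps[X]) ∣ H.map toPS -
        P.map (Polynomial.coeToPowerSeries.ringHom (R := ℂ)) := by
      have h2 : P.map (Polynomial.coeToPowerSeries.ringHom (R := ℂ)) =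
          ∏ l, (X - C ((PowerSeries.trunc M (γ l) : C1) : Ps)) := by
        rw [hP, Polynomial.map_prod]
        refine Finset.prod_congr rfl fun l _ => ?_
        rw [Polynomial.map_sub, map_X, map_C]
        rfl
      rw [h2, hH]
      refine dvd_prod67 _ _ _ _ fun l _ => ?_
      have h3 : (X - C (γ l) : Ps[X]) - (X - C ((PowerSeries.trunc M (γ l) : C1) : Ps)) =
          C (((PowerSeries.trunc M (γ l) : C1) : Ps) - γ l) := by
        rw [C_sub]
        ring
      rw [h3]
      refine _root_.map_dvd C ?_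
      rw [PowerSeries.X_pow_dvd_iff]
      intro m hm
      rw [map_sub, Polynomial.coeff_coe, PowerSeries.coeff_trunc, if_pos hm, sub_self]
    have h4 := (C_dvd_iff_dvd_coeff _ _).1 h1 i
    rw [X_pow_dvd_iff]
    intro d hd
    have h5 := PowerSeries.X_pow_dvd_iff.1 h4 d hd
    have h6 : (H.map toPS - P.map (Polynomial.coeToPowerSeries.ringHom (R := ℂ))).coeff i =
        (((H.map (mapRingHom Complex.ofRealHom) - P).coeff i : C1) : Ps) := by
      rw [coeff_sub, coeff_sub, coeff_map, coeff_map, coeff_map, Polynomial.coe_sub]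
      rfl
    rw [h6, Polynomial.coeff_coe] at h5
    exact h5
  obtain ⟨D, hD⟩ := hdvd
  refine ⟨∑ i ∈ D.support,
    (∑ j ∈ (D.coeff i).support, ‖(D.coeff i).coeff j‖ * 1 ^ j) * |R| ^ i, ?_, ?_⟩
  · exact Finset.sum_nonneg fun i _ => mul_nonneg (Finset.sum_nonneg fun j _ => by positivity)
      (by positivity)
  · intro u Y hu hu1 hY
    have h1 := congrArg (evC67 u Y) hD
    rw [map_sub, evC_map67, map_mul, evC_C67, eval_pow, eval_X, hP, map_prod] at h1
    have h2 : ∏ l, evC67 u Y (X - C (PowerSeries.trunc M (γ l))) =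
        ∏ l, ((Y : ℂ) - (PowerSeries.trunc M (γ l)).eval (u : ℂ)) :=
      Finset.prod_congr rfl fun l _ => by rw [map_sub, evC_X67, evC_C67]
    rw [h2] at h1
    rw [h1, norm_mul, norm_pow, Complex.norm_real, Real.norm_of_nonneg hu.le, mul_comm]
    refine mul_le_mul_of_nonneg_right ?_ (pow_nonneg hu.le M)
    refine bound2_67 D (abs_nonneg R) ?_ ?_
    · rw [Complex.norm_real, Real.norm_of_nonneg hu.le]
      exact hu1
    · rw [Complex.norm_real, Real.norm_eq_abs]
      exact hY.trans (le_abs_self R)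

end Pool.Agent.Helper10.TC
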