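import Pool.Agent.Helper10.TC.Contra

set_option autoImplicit false

/-!
# Project TC (MP_63c74b), block UNIF: uniform covering

Suppose not: for every `n : ℕ` (with `K = n`) it is false that eventually (for `u → 0+`) the statement
holds, so there are `u_n ∈ (0, 1/(n+1))` and `Y_n`, `|Y_n| ≤ R`, `Hf(u_n, Y_n) < 0`, with
`|Y_n - (reP (p l)).eval u_n| > n u_n ^ r` for all `l`, `r ≤ B` with `GoodN`. Apply `near_of_ultra` with
`U = hyperfilter ℕ` (`u_n → 0+`): we get `l, r, K` with `|Y_n - ...| ≤ K u_n ^ r` for `U`-almost all `n`,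
and `n > K` for almost all `n` (the hyperfilter is finer than `atTop`), contradiction.
-/

open Polynomial Filter Topology

namespace Pool.Agent.Helper10.TC

theorem covers_neg {e : ℕ} {p : Fin e → C1} {B M : ℕ} {Hf : ℝ → ℝ → ℝ} (hA : Apx e p B M Hf)
    (R : ℝ) : ∃ K : ℝ, ∀ᶠ u in 𝓝[>] (0 : ℝ), ∀ Y : ℝ, |Y| ≤ R → Hf u Y < 0 →
      ∃ (l : Fin e) (r : ℕ), r ≤ B ∧ GoodN Hf (reP (p l)) r ∧
        |Y - (reP (p l)).eval u| ≤ K * u ^ r := by
  by_contra hcon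
  push Not at hcon
  -- a bad sequence
  have hbad : ∀ n : ℕ, ∃ u Y : ℝ, 0 < u ∧ u < 1 / ((n : ℝ) + 1) ∧ |Y| ≤ R ∧ Hf u Y < 0 ∧
      ∀ (l : Fin e) (r : ℕ), r ≤ B → GoodN Hf (reP (p l)) r → (n : ℝ) * u ^ r < |Y - (reP (p l)).eval u| := by
    intro n
    have h1 := hcon (n : ℝ)
    have h2 : ∀ᶠ u in 𝓝[>] (0 : ℝ), u ∈ Set.Ioo (0 : ℝ) (1 / ((n : ℝ) + 1)) :=
      Ioo_mem_nhdsGT (by positivity)
    obtain ⟨u, hu, hu2⟩ := (h1.and_eventually h2).exists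
    obtain ⟨Y, hY1, hY2, hY3⟩ := hu
    exact ⟨u, Y, hu2.1, hu2.2, hY1, hY2, hY3⟩
  choose u Y hu0 hu1 hY hneg hfar using hbad
  let U : Ultrafilter ℕ := hyperfilter ℕ
  have hU : (U : Filter ℕ) ≤ atTop := by
    rw [← Nat.cofinite_eq_atTop]
    exact hyperfilter_le_cofinite
  have htop : Tendsto u atTop (𝓝[>] 0) := by
    rw [tendsto_nhdsWithin_iff]
    refine ⟨?_, Eventually.of_forall fun n => hu0 n⟩
    exact squeeze_zero (fun n => (hu0 n).le) (fun n => (hu1 n).le) tendsto_one_div_add_atTop_nhds_zero_nat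
  obtain ⟨l, r, hr, hg, K, hK⟩ := near_of_ultra hA U u Y (htop.mono_left hU) R hY hneg
  have hbig : ∀ᶠ n : ℕ in (U : Filter ℕ), K ≤ (n : ℝ) := hU (by
    obtain ⟨m, hm⟩ := exists_nat_ge K
    filter_upwards [eventually_ge_atTop m] with n hn
    exact hm.trans (by exact_mod_cast hn))
  obtain ⟨n, hn1, hn2⟩ := (hK.and hbig).exists
  have h3 := hfar n l r hr hg
  have h4 : K * u n ^ r ≤ (n : ℝ) * u n ^ r :=
    mul_le_mul_of_nonneg_right hn2 (pow_nonneg (hu0 n).le r)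
  linarith

end Pool.Agent.Helper10.TC
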