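import Pool.Agent.Helper10.TC.Roots
import Pool.Agent.Helper10.TC.Trunc
import Pool.Agent.Helper10.TC.Unif
import Pool.Agent.Helper10.TC.Sqf
import Pool.Agent.Helper10.TC.NB

set_option autoImplicit false

/-!
# Project TC (MP_63c74b), block ONE: balls on one side

`G = -κ₀ G₀` with `G₀` monic; `sqf`: `G₀ = q² g₁`, `e = natDegree g₁ = natDegree G - 2 natDegree q` even.
`exists_roots` gives `N`, `γ`; let `H = g₁.map (pw N)`, `Hf u Y = ev u Y H = ev (u ^ N) Y g₁`. For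
`l ≠ m` the power series `γ_l ≠ γ_m` differ in a coefficient; let `B` be a bound for the first such
indices (finite `sup`), `M = (e + 1) (B + 1)`, `p_l = trunc M (γ_l)` (coefficients of index
`≤ B < M` are those of `γ_l`). `Apx e p B M Hf`: `sep`, `conj` (truncation commutes with conjugation),
`big`, `apx` = `trunc_approx`. The balls: all pairs `(reP (p l), r)` with `l : Fin e`, `r ≤ B`,
`GoodN Hf (reP (p l)) r` (a finite set, enumerate it by some `Fin J`: `Finset.equivFin` /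
`Fintype.equivFin` of the subtype, classical).
`Good1`: `GoodN` gives an interval `(σ₁, σ₂)` on which `g₁ < 0` eventually; `generic_ne` for `q` gives
a finite set `S`; shrink the interval so that it avoids `S`; there `q ≠ 0` eventually, so
`G = -κ₀ q² g₁ > 0` eventually.
`Cov1`: if `ev (u^N) Y G > 0` then `g₁ < 0`; `|Y| ≤ R` by `neg_bdd` (`u^N ≤ 1`); `covers_neg`.
(If `e = 0`, `G ≤ 0` everywhere, `J = 0`; the general argument covers this.)
-/

open Polynomial Filter Topology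

namespace Pool.Agent.Helper10.TC

/-- goodness on the side `s > 0` -/
def Good1 (N : ℕ) (G : R2) (q : R1) (r : ℕ) : Prop :=
  ∃ σ₁ σ₂ : ℝ, σ₁ < σ₂ ∧ ∀ σ, σ₁ < σ → σ < σ₂ →
    ∀ᶠ u in 𝓝[>] (0 : ℝ), 0 < ev (u ^ N) (q.eval u + σ * u ^ r) G

/-- covering on the side `s > 0` -/
def Cov1 (N : ℕ) (G : R2) {J : ℕ} (B : Fin J → R1 × ℕ) : Prop :=
  ∃ C : ℝ, ∀ᶠ u in 𝓝[>] (0 : ℝ), ∀ Y : ℝ, 0 < ev (u ^ N) Y G →
    ∃ j, |Y - (B j).1.eval u| ≤ C * u ^ (B j).2

private theorem one_ev_pw (N : ℕ) (u Y : ℝ) (g : R2) : ev u Y (g.map (pw N)) = ev (u ^ N) Y g := by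
  have h : (ev u Y).comp (mapRingHom (pw N)) = ev (u ^ N) Y := by
    refine Polynomial.ringHom_ext (fun a => ?_) ?_
    · rw [RingHom.comp_apply, coe_mapRingHom, map_C, ev_C, ev_C, pw, coe_compRingHom]
      beta_reduce
      rw [eval_comp, eval_pow, eval_X]
    · rw [RingHom.comp_apply, coe_mapRingHom, map_X, ev_X, ev_X]
  exact congrArg (fun f => f g) h

private theorem one_shrink (S : Finset ℝ) {σ₁ σ₂ : ℝ} (h : σ₁ < σ₂) :
    ∃ a b : ℝ, a < b ∧ ∀ σ, a < σ → σ < b → σ₁ < σ ∧ σ < σ₂ ∧ σ ∉ S := by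
  obtain ⟨x, hx, hxS⟩ := (Set.Ioo_infinite h).exists_notMem_finset S
  have hopen : IsOpen (Set.Ioo σ₁ σ₂ ∩ ((S : Set ℝ))ᶜ) :=
    isOpen_Ioo.inter (Finset.finite_toSet S).isClosed.isOpen_compl
  obtain ⟨a, b, hab, hsub⟩ := mem_nhds_iff_exists_Ioo_subset.1
    (hopen.mem_nhds ⟨hx, fun h => hxS (by simpa using h)⟩)
  refine ⟨a, b, hab.1.trans hab.2, fun σ h1 h2 => ?_⟩
  have h3 := hsub ⟨h1, h2⟩
  exact ⟨h3.1.1, h3.1.2, fun h => h3.2 (by simpa using h)⟩

theorem one_sided (G : R2) (κ₀ : ℝ) (hκ : 0 < κ₀) (hG : G.leadingCoeff = C (-κ₀))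
    (hE : Even G.natDegree) : ∃ (N J : ℕ) (B : Fin J → R1 × ℕ), N ≠ 0 ∧
      (∀ j, Good1 N G (B j).1 (B j).2) ∧ Cov1 N G B := by
  classical
  have hκ0 : (-κ₀) ≠ 0 := by linarith
  -- the monic polynomial
  let G₀ : R2 := C (C (-κ₀)⁻¹) * G
  have hGG : G = C (C (-κ₀)) * G₀ := by
    rw [← mul_assoc, ← C_mul, ← C_mul, mul_inv_cancel₀ hκ0, C_1, C_1, one_mul]
  have hG₀m : G₀.Monic := by
    rw [Monic, leadingCoeff_mul, leadingCoeff_C, hG, ← C_mul, inv_mul_cancel₀ hκ0, C_1]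
  have hdeg : G₀.natDegree = G.natDegree := by
    have hC : (C (-κ₀)⁻¹ : R1) ≠ 0 := C_ne_zero.2 (inv_ne_zero hκ0)
    exact natDegree_C_mul hC
  obtain ⟨q, g₁, a, b, ρ, hq, hg, hfac, hρ, hab⟩ := sqf G₀ hG₀m
  have hE1 : Even g₁.natDegree := by
    have h1 : G.natDegree = 2 * q.natDegree + g₁.natDegree := by
      rw [← hdeg, hfac, (hq.pow 2).natDegree_mul hg, hq.natDegree_pow]
    rw [h1] at hE
    exact (Nat.even_add.1 hE).1 (even_two_mul _)
  obtain ⟨N, γ, hN, hinj, hprod, hconj⟩ := exists_roots g₁ a b ρ hg hρ hab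
  let Hf : ℝ → ℝ → ℝ := fun u Y => ev u Y (g₁.map (pw N))
  have hHf : ∀ u Y, Hf u Y = ev (u ^ N) Y g₁ := fun u Y => one_ev_pw N u Y g₁
  have hk : ∀ l m : Fin g₁.natDegree, ∃ k, l ≠ m →
      PowerSeries.coeff k (γ l) ≠ PowerSeries.coeff k (γ m) := by
    intro l m
    by_contra hcon
    push Not at hcon
    have h0 := hcon 0
    refine h0.1 (hinj (PowerSeries.ext fun k => (hcon k).2))
  choose k hk using hk
  let B : ℕ := Finset.univ.sup (fun p : Fin g₁.natDegree × Fin g₁.natDegree => k p.1 p.2)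
  let M : ℕ := (g₁.natDegree + 1) * (B + 1)
  have hBM : B < M := by
    have : 1 * (B + 1) ≤ M := Nat.mul_le_mul (by omega) le_rfl
    omega
  let p : Fin g₁.natDegree → C1 := fun l => PowerSeries.trunc M (γ l)
  have hA : Apx g₁.natDegree p B M Hf := by
    refine ⟨?_, ?_, le_rfl, ?_⟩
    · intro l m hlm
      have hkB : k l m ≤ B := Finset.le_sup (f := fun p : Fin g₁.natDegree × Fin g₁.natDegree =>
        k p.1 p.2) (Finset.mem_univ (l, m))
      refine ⟨k l m, hkB, ?_⟩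
      rw [PowerSeries.coeff_trunc, PowerSeries.coeff_trunc, if_pos (by omega), if_pos (by omega)]
      exact hk l m hlm
    · intro l
      obtain ⟨m, hm⟩ := hconj l
      refine ⟨m, ?_⟩
      ext i
      rw [coeff_map, PowerSeries.coeff_trunc, PowerSeries.coeff_trunc, hm]
      split_ifs
      · rw [PowerSeries.coeff_map]
      · rw [map_zero]
    · intro R
      exact trunc_approx (g₁.map (pw N)) g₁.natDegree γ hprod M R
  -- the balls
  let T : Type := {x : Fin g₁.natDegree × Fin (B + 1) // GoodN Hf (reP (p x.1)) x.2}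
  let eqv : T ≃ Fin (Fintype.card T) := Fintype.equivFin T
  have hval : ∀ u Y, ev (u ^ N) Y G = -κ₀ * ((ev (u ^ N) Y q) ^ 2 * Hf u Y) := by
    intro u Y
    rw [hHf, hGG, hfac, map_mul, map_mul, map_pow, ev_C, eval_C]
  refine ⟨N, Fintype.card T, fun j => (reP (p (eqv.symm j).1.1), ((eqv.symm j).1.2 : ℕ)), hN,
    ?_, ?_⟩
  · intro j
    obtain ⟨σ₁, σ₂, hσ, hgood⟩ := (eqv.symm j).2
    obtain ⟨S, hS⟩ := generic_ne q hq N (reP (p (eqv.symm j).1.1)) ((eqv.symm j).1.2 : ℕ)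
    obtain ⟨a', b', hab', hsh⟩ := one_shrink S hσ
    refine ⟨a', b', hab', fun σ h1 h2 => ?_⟩
    obtain ⟨h3, h4, h5⟩ := hsh σ h1 h2
    filter_upwards [hgood σ h3 h4, hS σ h5] with u hu1 hu2
    rw [hval]
    have h6 : 0 < (ev (u ^ N) ((reP (p (eqv.symm j).1.1)).eval u +
        σ * u ^ ((eqv.symm j).1.2 : ℕ)) q) ^ 2 := by positivity
    have h7 := mul_neg_of_pos_of_neg h6 hu1
    nlinarith
  · obtain ⟨R, hR⟩ := neg_bdd g₁ hg hE1
    obtain ⟨K, hK⟩ := covers_neg hA R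
    refine ⟨K, ?_⟩
    have h01 : ∀ᶠ u in 𝓝[>] (0 : ℝ), 0 < u ∧ u < 1 :=
      Ioo_mem_nhdsGT one_pos
    filter_upwards [hK, h01] with u hu hu1 Y hY
    rw [hval] at hY
    have hneg : Hf u Y < 0 := by
      by_contra hcon
      push Not at hcon
      have h1 : 0 ≤ (ev (u ^ N) Y q) ^ 2 * Hf u Y := mul_nonneg (sq_nonneg _) hcon
      nlinarith
    have hYR : |Y| ≤ R := by
      refine hR (u ^ N) Y ?_ (by rw [← hHf]; exact hneg)
      rw [abs_of_nonneg (pow_nonneg hu1.1.le _)]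
      exact pow_le_one₀ hu1.1.le hu1.2.le
    obtain ⟨l, r, hr, hgood, hclose⟩ := hu Y hYR hneg
    refine ⟨eqv ⟨(l, ⟨r, by omega⟩), hgood⟩, ?_⟩
    simp only [Equiv.symm_apply_apply]
    exact hclose

end Pool.Agent.Helper10.TC
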