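import Pool.Agent.Helper10.TC.Crit

set_option autoImplicit false

namespace Pool.Agent.Helper10.TC

open MvPolynomial Pool.Agent.Helper68.QM

/-- **Effective criterion.** Let `g ∈ ℝ[x, y]` be positive at some point, of degree `D`. Either the
top form `g_D` of `g` is positive somewhere and `M_g` is stable; or `D` is even, `g_D (l, 1) < 0` for
some `l`, and for every such `l` and `g' = g (x + l y, y)` there is a finite system of good balls
covering `{g' > 0}` near infinity, and for every such system `M_g` is stable if and only if the system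
is not empty and the linear inequalities `2 N² ∑ ν_i ≤ ∑ ν_i A(i, j)` (all `j`) have no nonzero
solution `ν` in nonnegative integers. -/
theorem puiseux_criterion : ∀ g : MvPolynomial (Fin 2) ℝ, (∃ z : Fin 2 → ℝ, 0 < eval z g) →
    ((∃ v : Fin 2 → ℝ, 0 < eval v (homogeneousComponent g.totalDegree g)) ∧ Stable g) ∨
    (Even g.totalDegree ∧
      (∃ l : ℝ, eval ![l, 1] (homogeneousComponent g.totalDegree g) < 0) ∧
      ∀ l : ℝ, eval ![l, 1] (homogeneousComponent g.totalDegree g) < 0 →
      (∃ (N J : ℕ) (B : Fin J → Ball), N ≠ 0 ∧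
        (∀ j, Good N (hat g.totalDegree (sh l g)) (B j)) ∧
        Covers N (hat g.totalDegree (sh l g)) B) ∧
      ∀ (N J : ℕ) (B : Fin J → Ball), N ≠ 0 →
        (∀ j, Good N (hat g.totalDegree (sh l g)) (B j)) →
        Covers N (hat g.totalDegree (sh l g)) B →
        (Stable g ↔ 0 < J ∧ ∀ ν : Fin J → ℕ, ν ≠ 0 →
          ∃ j, ∑ i, ν i * Ah N (B i) (B j) < 2 * N ^ 2 * ∑ i, ν i)) := by
  intro g hg
  by_cases h : ∃ v, 0 < eval v (homogeneousComponent g.totalDegree g)
  · obtain ⟨v, hv⟩ := h
    refine Or.inl ⟨⟨v, hv⟩, stable_of_growth g fun m => ?_⟩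
    have key := finite_of_cone g v hv m
    have hle : growthSpace g m ≤ gsp g m := by
      rintro f ⟨K, hK⟩
      exact ⟨K, fun z hz => hK z hz.le⟩
    exact Submodule.finiteDimensional_of_le hle
  · push Not at h
    obtain ⟨hDe, hex⟩ := exists_shear g hg h
    refine Or.inr ⟨hDe, hex, fun l hl => ?_⟩
    have htd := totalDegree_sh l g
    have hDe' : Even (sh l g).totalDegree := by rw [htd]; exact hDe
    have hc' : coeff (Finsupp.single 1 (sh l g).totalDegree) (sh l g) < 0 := by
      rw [htd, coeff_shear]; exact hl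
    have hg' : ∃ z, 0 < eval z (sh l g) := by
      obtain ⟨z, hz⟩ := hg
      refine ⟨![z 0 - l * z 1, z 1], ?_⟩
      rw [eval_sh]
      have e1 : (![(![z 0 - l * z 1, z 1] : Fin 2 → ℝ) 0 +
          l * (![z 0 - l * z 1, z 1] : Fin 2 → ℝ) 1,
          (![z 0 - l * z 1, z 1] : Fin 2 → ℝ) 1] : Fin 2 → ℝ) = z := by
        ext i
        fin_cases i <;> simp
      rw [e1]
      exact hz
    have hst : Stable g ↔ Stable (sh l g) := by
      refine ⟨stable_shear l g, fun h1 => ?_⟩
      have h2 := stable_shear (-l) _ h1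
      have h3 : sh (-l) (sh l g) = g := by
        apply MvPolynomial.funext
        intro z
        rw [eval_sh, eval_sh]
        congr 2
        ext i
        fin_cases i <;> simp
      rwa [h3] at h2
    refine ⟨?_, fun N J B hN hB hcov => ?_⟩
    · have h4 := exists_balls_hat (sh l g) hDe' hc'
      rwa [htd] at h4
    · rw [← htd] at hB hcov
      have h5 := stable_iff (sh l g) hg' hDe' hc' N hN B hB hcov
      rw [hst, h5]
      have h6 : 2 * N * N = 2 * N ^ 2 := by ring
      rw [h6]

end Pool.Agent.Helper10.TC
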