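import Pool.Agent.Helper10.TC.Defs

set_option autoImplicit false

/-!
# Project TC (MP_63c74b), block SCALE: the Newton polygon step

`F = Y^n + ∑_{i<n} a_i Y^i`, `a_{n-1} = 0`, some `a_i ≠ 0` (`F ≠ Y^n`). Take `N = n!` (any common
multiple of `1, ..., n`), and for `a_i ≠ 0` (`i < n`) let `v_i = N * order(a_i) / (n - i) ∈ ℕ`; let
`k = min v_i`, attained at `i₀`. Then `b_i := xp N a_i` (order `N * order a_i ≥ k (n - i)`) is divisible
by `X^(k (n - i))`; let `G = Y^n + ∑_{i<n} (b_i / X^(k (n-i))) Y^i`. At `i₀` the order of `b_i` is exactly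
`k (n - i₀)`, so the constant coefficient of `coeff i₀` of `G` is not zero: the reduction of `G` is not
`Y^n`. `(F.map (xp N))(X^k Y) = ∑ b_i X^(k i) Y^i = X^(k n) ∑ (b_i / X^(k (n - i))) Y^i`.
(`PowerSeries.order_expand`, `PowerSeries.X_pow_dvd_iff`, `PowerSeries.coeff_expand_mul`.)
-/

open Polynomial

namespace Pool.Agent.Helper10.TC

theorem scale_step (F : Polynomial Ps) (hF : F.Monic) (n : ℕ) (hn : F.natDegree = n) (h2 : 2 ≤ n)
    (h1 : F.coeff (n - 1) = 0) (h0 : F ≠ X ^ n) :
    ∃ (N : ℕ) (hN : N ≠ 0) (k : ℕ) (G : Polynomial Ps), G.Monic ∧ G.natDegree = n ∧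
      G.coeff (n - 1) = 0 ∧ G.map PowerSeries.constantCoeff ≠ X ^ n ∧
      (F.map (xp N hN)).comp (C (PowerSeries.X ^ k) * X) = C (PowerSeries.X ^ (k * n)) * G := by
  classical
  set N : ℕ := n.factorial with hNdef
  have hN : N ≠ 0 := Nat.factorial_ne_zero n
  have hNd : ∀ i, i < n → (n - i) * (N / (n - i)) = N := fun i hi =>
    Nat.mul_div_cancel' (Nat.dvd_factorial (by omega) (by omega))
  -- the indices of the nonzero coefficients
  set S : Finset ℕ := (Finset.range n).filter (fun i => F.coeff i ≠ 0) with hS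
  have hFn : F.coeff n = 1 := by
    rw [← hn]
    exact hF.coeff_natDegree
  have hFgt : ∀ i, n < i → F.coeff i = 0 := fun i hi => by
    apply coeff_eq_zero_of_natDegree_lt
    rw [hn]
    exact hi
  have hSne : S.Nonempty := by
    rw [Finset.nonempty_iff_ne_empty]
    intro he
    apply h0
    ext1 i
    rw [coeff_X_pow]
    rcases lt_trichotomy i n with hi | hi | hi
    · rw [if_neg hi.ne]
      by_contra h3
      have h4 : i ∈ S := Finset.mem_filter.2 ⟨Finset.mem_range.2 hi, h3⟩
      rw [he] at h4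
      exact Finset.notMem_empty _ h4
    · rw [if_pos hi, hi, hFn]
    · rw [if_neg hi.ne', hFgt i hi]
  obtain ⟨i₀, hi₀, hmin⟩ := S.exists_min_image
    (fun i => N / (n - i) * (F.coeff i).order.toNat) hSne
  obtain ⟨hi₀n, hi₀0⟩ := Finset.mem_filter.1 hi₀
  rw [Finset.mem_range] at hi₀n
  set k : ℕ := N / (n - i₀) * (F.coeff i₀).order.toNat with hk
  have hxpX : xp N hN PowerSeries.X = PowerSeries.X ^ N := PowerSeries.expand_X N hN
  have hdvd : ∀ i, i ≤ n → (PowerSeries.X : Ps) ^ (k * (n - i)) ∣ xp N hN (F.coeff i) := by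
    intro i hi
    rcases hi.lt_or_eq with hi | hi
    · by_cases h3 : F.coeff i = 0
      · rw [h3, map_zero]
        exact dvd_zero _
      · have h4 : k ≤ N / (n - i) * (F.coeff i).order.toNat :=
          hmin i (Finset.mem_filter.2 ⟨Finset.mem_range.2 hi, h3⟩)
        have h5 : k * (n - i) ≤ N * (F.coeff i).order.toNat := by
          calc k * (n - i) ≤ N / (n - i) * (F.coeff i).order.toNat * (n - i) :=
                Nat.mul_le_mul_right _ h4
            _ = (n - i) * (N / (n - i)) * (F.coeff i).order.toNat := by ring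
            _ = _ := by rw [hNd i hi]
        have h6 : (PowerSeries.X : Ps) ^ (N * (F.coeff i).order.toNat) ∣
            xp N hN (F.coeff i) := by
          have h7 := map_dvd (xp N hN) (PowerSeries.X_pow_order_dvd (φ := F.coeff i))
          rwa [map_pow, hxpX, ← pow_mul] at h7
        exact (pow_dvd_pow _ h5).trans h6
    · rw [hi, Nat.sub_self, mul_zero, pow_zero]
      exact one_dvd _
  have hex : ∀ i, ∃ g : Ps, i ≤ n → xp N hN (F.coeff i) = PowerSeries.X ^ (k * (n - i)) * g := by
    intro i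
    by_cases hi : i ≤ n
    · obtain ⟨g, hg⟩ := hdvd i hi
      exact ⟨g, fun _ => hg⟩
    · exact ⟨0, fun h => absurd h hi⟩
  choose g hg using hex
  have hgn : g n = 1 := by
    have h3 := hg n le_rfl
    rw [hFn, map_one, Nat.sub_self, mul_zero, pow_zero, one_mul] at h3
    exact h3.symm
  have hgn1 : g (n - 1) = 0 := by
    have h3 := hg (n - 1) (Nat.sub_le _ _)
    rw [h1, map_zero] at h3
    exact (mul_eq_zero.1 h3.symm).resolve_left (pow_ne_zero _ PowerSeries.X_ne_zero)
  set G : Polynomial Ps := ∑ i ∈ Finset.range (n + 1), C (g i) * X ^ i with hG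
  have hGc : ∀ i, G.coeff i = if i ≤ n then g i else 0 := by
    intro i
    rw [hG, finsetSum_coeff]
    simp only [coeff_C_mul_X_pow]
    rw [Finset.sum_ite_eq]
    simp only [Finset.mem_range, Nat.lt_succ_iff]
  have hGdeg : G.natDegree ≤ n := by
    rw [natDegree_le_iff_coeff_eq_zero]
    intro i hi
    rw [hGc, if_neg (not_le.2 hi)]
  have hGn : G.coeff n = 1 := by
    rw [hGc, if_pos le_rfl, hgn]
  have hGmonic : G.Monic := monic_of_natDegree_le_of_coeff_eq_one n hGdeg hGn
  refine ⟨N, hN, k, G, hGmonic, ?_, ?_, ?_, ?_⟩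
  · refine le_antisymm hGdeg (le_natDegree_of_ne_zero ?_)
    rw [hGn]
    exact one_ne_zero
  · rw [hGc, if_pos (Nat.sub_le _ _), hgn1]
  · intro h3
    have h4 := congrArg (fun p => p.coeff i₀) h3
    simp only [coeff_map, coeff_X_pow, if_neg hi₀n.ne, hGc, if_pos hi₀n.le] at h4
    have h5 := hg i₀ hi₀n.le
    have h6 : k * (n - i₀) = N * (F.coeff i₀).order.toNat := by
      calc k * (n - i₀) = (n - i₀) * (N / (n - i₀)) * (F.coeff i₀).order.toNat := by
            rw [hk]; ring
        _ = _ := by rw [hNd i₀ hi₀n]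
    rw [h6] at h5
    have h7 := congrArg (PowerSeries.coeff (N * (F.coeff i₀).order.toNat)) h5
    have h8 : PowerSeries.coeff (N * (F.coeff i₀).order.toNat) (xp N hN (F.coeff i₀)) =
        PowerSeries.coeff (F.coeff i₀).order.toNat (F.coeff i₀) :=
      PowerSeries.coeff_expand_mul N hN _ _
    rw [h8, PowerSeries.coeff_X_pow_mul', if_pos le_rfl, Nat.sub_self,
      PowerSeries.coeff_zero_eq_constantCoeff_apply, h4] at h7
    exact PowerSeries.coeff_order hi₀0 h7
  · ext1 i
    rw [comp_C_mul_X_coeff, coeff_map, coeff_C_mul, hGc, ← pow_mul]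
    by_cases hi : i ≤ n
    · rw [if_pos hi, hg i hi]
      have h3 : k * n = k * (n - i) + k * i := by
        rw [← mul_add]
        congr 1
        omega
      rw [h3, pow_add]
      ring
    · rw [if_neg hi, hFgt i (not_le.1 hi), map_zero, zero_mul, mul_zero]

end Pool.Agent.Helper10.TC
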