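import Pool.Agent.Helper10.TC.Hen
import Pool.Agent.Helper10.TC.Scale

set_option autoImplicit false

/-!
# Project TC (MP_63c74b), block PUI: the Puiseux theorem

Strong induction on `n = natDegree F`, for all monic `F`. `n = 0`: `F = 1`, `γ = ∅`. `n = 1`:
`F = X - C a`. `n ≥ 2`: let `c = a_{n-1} / n` (`ℂ⟦s⟧` is a `ℚ`-algebra), `F' = F.comp (X - C c)`, monic of
degree `n` with coefficient of `Y^(n-1)` equal to 0. It suffices to treat `F'`
(`(F'.map (xp N)).comp (X + C (xp N c)) = F.map (xp N)`). If `F' = Y^n`: `γ = {0, ..., 0}`. Otherwise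
`scale_step` gives `N`, `k`, `G`. The reduction `Ḡ` is monic of degree `n` over `ℂ`, its coefficient of
`Y^(n-1)` is 0 and `Ḡ ≠ Y^n`: so it has two different roots (it splits; if it were `(Y - a)^n` then
`-n a = 0`, `a = 0`, `Ḡ = Y^n`). `hensel_split`: `G = P Q` with degrees `< n`. By induction
`P.map (xp N₁)`, `Q.map (xp N₂)` are products of linear factors, so `G.map (xp (N₁ N₂))` is
(`PowerSeries.expand_mul`: `xp (N₁ N₂) = xp N₁ ∘ xp N₂`, in both orders), say `= ∏ (X - g_l)`.
Put `N' = N₁ N₂ N`, `k' = k N₁ N₂`: apply `xp (N₁ N₂)` to the identity of `scale_step`: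
`(F'.map (xp N'))(X^k' Y) = X^(k' n) ∏ (Y - g_l) = ∏ (X^k' Y - X^k' g_l)`, and the substitution
`Y ↦ X^k' Y` is injective on polynomials over the domain `ℂ⟦w⟧`, so
`F'.map (xp N') = ∏ (Y - X^k' g_l)`.
-/

open Polynomial

namespace Pool.Agent.Helper10.TC

theorem xp_xp (M N : ℕ) (hM : M ≠ 0) (hN : N ≠ 0) :
    xp (M * N) (Nat.mul_ne_zero hM hN) = (xp M hM).comp (xp N hN) := by
  refine RingHom.ext fun f => ?_
  exact PowerSeries.expand_mul M hM N hN f

/-- the conclusion for `F` -/
def h46Spl (F : Polynomial Ps) : Prop :=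
  ∃ (N : ℕ) (hN : N ≠ 0) (γ : Multiset Ps), F.map (xp N hN) = (γ.map fun a => X - C a).prod

theorem h46_xp_comm (M N : ℕ) (hM : M ≠ 0) (hN : N ≠ 0) :
    xp (M * N) (Nat.mul_ne_zero hM hN) = (xp N hN).comp (xp M hM) := by
  have h := xp_xp N M hN hM
  rw [← h]
  congr 1
  exact Nat.mul_comm M N

theorem h46_map_prod (f : Ps →+* Ps) (γ : Multiset Ps) :
    ((γ.map fun a => X - C a).prod).map f = ((γ.map f).map fun a => X - C a).prod := by
  rw [← coe_mapRingHom, map_multiset_prod, Multiset.map_map, Multiset.map_map]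
  congr 1
  apply Multiset.map_congr rfl
  intro a _
  simp

theorem h46_mul {P Q : Polynomial Ps} (hP : h46Spl P) (hQ : h46Spl Q) : h46Spl (P * Q) := by
  obtain ⟨N₁, hN₁, γ₁, h₁⟩ := hP
  obtain ⟨N₂, hN₂, γ₂, h₂⟩ := hQ
  refine ⟨N₁ * N₂, Nat.mul_ne_zero hN₁ hN₂, γ₁.map (xp N₂ hN₂) + γ₂.map (xp N₁ hN₁), ?_⟩
  rw [Polynomial.map_mul, Multiset.map_add, Multiset.prod_add, ← h46_map_prod, ← h46_map_prod, ← h₁, ← h₂,
    Polynomial.map_map, Polynomial.map_map, ← xp_xp N₁ N₂ hN₁ hN₂, ← h46_xp_comm N₁ N₂ hN₁ hN₂]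

theorem h46_comp {F : Polynomial Ps} (c : Ps) (h : h46Spl (F.comp (X - C c))) : h46Spl F := by
  obtain ⟨N, hN, γ, hγ⟩ := h
  refine ⟨N, hN, γ.map (fun a => a - xp N hN c), ?_⟩
  have h1 : F = (F.comp (X - C c)).comp (X + C c) := by
    rw [comp_assoc]
    simp
  have h2 : F.map (xp N hN) = ((F.comp (X - C c)).map (xp N hN)).comp (X + C (xp N hN c)) := by
    conv_lhs => rw [h1]
    rw [Polynomial.map_comp]
    simp
  rw [h2, hγ, ← coe_compRingHom_apply, map_multiset_prod, Multiset.map_map, Multiset.map_map]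
  congr 1
  apply Multiset.map_congr rfl
  intro a _
  show (X - C a).comp (X + C (xp N hN c)) = X - C (a - xp N hN c)
  rw [sub_comp, X_comp, C_comp, C_sub]
  ring

theorem h46_xp_X (M : ℕ) (hM : M ≠ 0) (k : ℕ) : xp M hM (PowerSeries.X ^ k) = PowerSeries.X ^ (M * k) := by
  unfold xp
  rw [map_pow, pow_mul]
  congr 1
  exact PowerSeries.expand_X M hM

theorem h46_scale {F G : Polynomial Ps} {n N k : ℕ} (hN : N ≠ 0) (hG : G.Monic) (hGn : G.natDegree = n)
    (h : (F.map (xp N hN)).comp (C (PowerSeries.X ^ k) * X) = C (PowerSeries.X ^ (k * n)) * G) (hs : h46Spl G) :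
    h46Spl F := by
  obtain ⟨M, hM, γ, hγ⟩ := hs
  have hcard : Multiset.card γ = n := by
    have h1 : (G.map (xp M hM)).natDegree = n := by rw [hG.natDegree_map, hGn]
    rw [hγ, natDegree_multiset_prod_X_sub_C_eq_card] at h1
    exact h1
  set u : Ps := PowerSeries.X ^ (M * k) with hu
  have hu0 : u ≠ 0 := pow_ne_zero _ PowerSeries.X_ne_zero
  refine ⟨M * N, Nat.mul_ne_zero hM hN, γ.map (fun g => u * g), ?_⟩
  have h1 := congrArg (Polynomial.map (xp M hM)) h
  rw [Polynomial.map_comp, Polynomial.map_map, ← xp_xp M N hM hN, Polynomial.map_mul, Polynomial.map_mul, map_C, map_C, map_X,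
    h46_xp_X, h46_xp_X, hγ] at h1
  have h2 : (((γ.map (fun g => u * g)).map fun a => X - C a).prod).comp (C u * X) =
      C (PowerSeries.X ^ (M * (k * n))) * (γ.map fun a => X - C a).prod := by
    rw [← coe_compRingHom_apply, map_multiset_prod, Multiset.map_map, Multiset.map_map]
    have h3 : (γ.map ((compRingHom (C u * X)) ∘ (fun a => X - C a) ∘ fun g => u * g)) =
        γ.map (fun g => C u * (X - C g)) := by
      apply Multiset.map_congr rfl
      intro a _
      show (X - C (u * a)).comp (C u * X) = C u * (X - C a)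
      rw [sub_comp, X_comp, C_comp, C_mul]
      ring
    have h4 : (γ.map (fun g => C u * (X - C g))).prod = C u ^ (Multiset.card γ) * (γ.map fun a => X - C a).prod := by
      rw [Multiset.prod_map_mul, Multiset.map_const', Multiset.prod_replicate]
    rw [Function.comp_assoc] at *
    rw [h3, h4, hcard, hu, ← C_pow, ← pow_mul, mul_assoc]
  rw [← h2] at h1
  ext1 i
  have h5 := congrArg (fun p => p.coeff i) h1
  simp only [comp_C_mul_X_coeff] at h5
  exact mul_right_cancel₀ (pow_ne_zero i hu0) h5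

theorem h46_taylor {R : Type*} [CommRing R] (F : Polynomial R) (hF : F.Monic) (n : ℕ) (hn : F.natDegree = n)
    (h1 : 1 ≤ n) (r : R) : (F.comp (X + C r)).coeff (n - 1) = F.coeff (n - 1) + n * r := by
  have h2 : F.comp (X + C r) = taylor r F := rfl
  rw [h2, taylor_coeff]
  have h3 : (hasseDeriv (n - 1) F).natDegree < 2 := by
    have := natDegree_hasseDeriv_le F (n - 1)
    omega
  rw [eval_eq_sum_range' h3, Finset.sum_range_succ, Finset.sum_range_one, hasseDeriv_coeff, hasseDeriv_coeff]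
  have h4 : 1 + (n - 1) = n := by omega
  have h5 : F.coeff n = 1 := by rw [← hn]; exact hF
  rw [h4, zero_add, Nat.choose_self, h5]
  have h6 : n.choose (n - 1) = n := by
    obtain ⟨m, rfl⟩ : ∃ m, n = m + 1 := ⟨n - 1, by omega⟩
    simp
  rw [h6]
  simp

theorem h46_two_roots (g : Polynomial ℂ) (hg : g.Monic) (n : ℕ) (hn : g.natDegree = n) (h2 : 2 ≤ n)
    (h1 : g.coeff (n - 1) = 0) (h0 : g ≠ X ^ n) : ∃ a b : ℂ, a ≠ b ∧ g.eval a = 0 ∧ g.eval b = 0 := by
  by_contra hcon
  push Not at hcon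
  obtain ⟨a, ha⟩ := IsAlgClosed.exists_root g (by
    rw [degree_eq_natDegree hg.ne_zero, hn]
    exact_mod_cast (by omega : n ≠ 0))
  have hs : g.Splits := IsAlgClosed.splits g
  have hroots : ∀ b ∈ g.roots, b = a := by
    intro b hb
    by_contra hne
    exact hcon a b (fun h => hne h.symm) ha ((mem_roots hg.ne_zero).1 hb)
  have hcard : Multiset.card g.roots = n := by rw [← hn, hs.natDegree_eq_card_roots]
  have hrep : g.roots = Multiset.replicate n a := by
    rw [Multiset.eq_replicate]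
    exact ⟨hcard, hroots⟩
  have hprod : g = (X - C a) ^ n := by
    have h3 := hs.eq_prod_roots
    rw [hg.leadingCoeff, C_1, one_mul, hrep, Multiset.map_replicate, Multiset.prod_replicate] at h3
    exact h3
  have h3 : (X ^ n : Polynomial ℂ).comp (X + C (-a)) = (X - C a) ^ n := by
    rw [pow_comp, X_comp, C_neg, sub_eq_add_neg]
  have h4 := h46_taylor (X ^ n : Polynomial ℂ) (monic_X_pow n) n (natDegree_X_pow n) (by omega) (-a)
  rw [h3, ← hprod, h1, coeff_X_pow, if_neg (by omega), zero_add] at h4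
  have h5 : a = 0 := by
    have hn0 : (n : ℂ) ≠ 0 := by exact_mod_cast (by omega : n ≠ 0)
    have h6 : (n : ℂ) * (-a) = 0 := h4.symm
    rcases mul_eq_zero.1 h6 with h7 | h7
    · exact absurd h7 hn0
    · exact neg_eq_zero.1 h7
  apply h0
  rw [hprod, h5, C_0, sub_zero]

theorem h46_main (n : ℕ) : ∀ F : Polynomial Ps, F.Monic → F.natDegree = n → h46Spl F := by
  induction n using Nat.strong_induction_on with
  | _ n ih =>
    intro F hF hn
    rcases Nat.lt_or_ge n 2 with h2 | h2
    · rcases Nat.eq_zero_or_pos n with h0 | h0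
      · subst h0
        have h1 : F = 1 := Polynomial.eq_one_of_monic_natDegree_zero hF hn
        refine ⟨1, one_ne_zero, 0, ?_⟩
        rw [h1]; simp
      · have h1 : n = 1 := by omega
        subst h1
        refine ⟨1, one_ne_zero, {-(xp 1 one_ne_zero (F.coeff 0))}, ?_⟩
        have h3 : F = X + C (F.coeff 0) := hF.eq_X_add_C hn
        conv_lhs => rw [h3]
        simp
    · -- translate
      set c : Ps := PowerSeries.C ((n : ℂ)⁻¹) * F.coeff (n - 1) with hc
      apply h46_comp c
      have hX : (X - C c : Polynomial Ps) = X + C (-c) := by rw [C_neg, sub_eq_add_neg]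
      set F' := F.comp (X - C c) with hF'
      have hM : F'.Monic := hF.comp (monic_X_sub_C c) (by rw [natDegree_X_sub_C]; exact one_ne_zero)
      have hd : F'.natDegree = n := by rw [hF', natDegree_comp, natDegree_X_sub_C, mul_one, hn]
      have h1 : F'.coeff (n - 1) = 0 := by
        rw [hF', hX, h46_taylor F hF n hn (by omega)]
        have hn0 : (n : ℂ) ≠ 0 := by exact_mod_cast (by omega : n ≠ 0)
        have h3 : (n : Ps) * c = F.coeff (n - 1) := by
          rw [hc, ← mul_assoc]
          have h4 : (n : Ps) = PowerSeries.C (n : ℂ) := by simp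
          rw [h4, ← map_mul, mul_inv_cancel₀ hn0, map_one, one_mul]
        rw [mul_neg, h3, add_neg_cancel]
      by_cases h0 : F' = X ^ n
      · refine ⟨1, one_ne_zero, Multiset.replicate n 0, ?_⟩
        rw [h0]
        simp
      · obtain ⟨N, hN, k, G, hG, hGn, hG1, hG0, hG2⟩ := scale_step F' hM n hd h2 h1 h0
        apply h46_scale hN hG hGn hG2
        obtain ⟨a, b, hab, ha, hb⟩ := h46_two_roots (G.map PowerSeries.constantCoeff) (hG.map _) n
          (by rw [hG.natDegree_map, hGn]) h2 (by rw [coeff_map, hG1, map_zero]) hG0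
        obtain ⟨P, Q, hP, hQ, hPQ, hP0, hQ0⟩ := hensel_split G hG a b hab ha hb
        have hdeg : P.natDegree + Q.natDegree = n := by rw [← hP.natDegree_mul hQ, ← hPQ, hGn]
        rw [hPQ]
        exact h46_mul (ih P.natDegree (by omega) P hP rfl) (ih Q.natDegree (by omega) Q hQ rfl)

/-- **Puiseux theorem.** -/
theorem puiseux (F : Polynomial Ps) (hF : F.Monic) :
    ∃ (N : ℕ) (hN : N ≠ 0) (γ : Multiset Ps),
      F.map (xp N hN) = (γ.map fun a => X - C a).prod :=
  h46_main F.natDegree F hF rfl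

end Pool.Agent.Helper10.TC
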