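import Pool.Agent.Helper10.TC.Defs

set_option autoImplicit false

/-!
# Project TC (MP_63c74b), block REL: real and complex balls, and the dihedral group

`io_act`: `act N γ (io N p) = io N p` (real coefficients, `ζ ^ N = 1`).
`om_pow`: `om N b ^ N = sgn b` (`exp (π i) = -1`), `N ≠ 0`. `zt_pow`: `zt N ^ N = 1`.
Let `θ : C2 → C2` be the ring automorphism with `w ↦ ω w` on coefficients and `σ ↦ ω^(-r) σ`
(`(compRingHom (C (C (ω⁻¹ ^ r)) * X)).comp (mapRingHom (compRingHom (C ω * X)))`). Then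
`(onR N b H).map (mapRingHom ofReal) = θ (onC N (b.cen N) b.r H)`: both sides are ring homs in `H`;
on `C s`: `(± u ^ N)` and `(ω u)^N`; on `Y = X`: `q(u) + σ u ^ r` and `p(ω u) + ω^(-r) σ (ω u)^r`,
`p(ω u) = q(u)`.
`θ` and its inverse preserve divisibility by `C (X ^ k)` (`C (X^k) ∣ F` iff all coefficients
`(F.coeff j).coeff i`, `i < k`, vanish; `θ` multiplies `(F.coeff j).coeff i` by a nonzero constant), so
`onR_dvd_iff`. `onR_eval_zero`: put `σ = 0`.
`onC_act`: `onC N (act γ p) r H` is obtained from `onC N p r H` by the ring hom `act γ` on coefficients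
followed by `σ ↦ ζ^(-k r) σ` (`γ = (k, c)`, `act γ (w ^ r) = ζ^(k r) w ^ r`); again divisibility is
preserved, coefficientwise.
-/

open Polynomial

namespace Pool.Agent.Helper10.TC

/-- the substitution `w ↦ c w`, `σ ↦ d σ` -/
private noncomputable def th67 (c d : ℂ) : C2 →+* C2 :=
  (compRingHom (C (C d) * X)).comp (mapRingHom (compRingHom (C c * X)))

private lemma th_coeff67 (c d : ℂ) (F : C2) (j i : ℕ) :
    ((th67 c d F).coeff j).coeff i = (F.coeff j).coeff i * c ^ i * d ^ j := by
  have h1 : th67 c d F = (F.map (compRingHom (C c * X))).comp (C (C d) * X) := rfl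
  rw [h1, comp_C_mul_X_coeff, coeff_map, ← C_pow, coeff_mul_C, coe_compRingHom]
  have h2 : ((F.coeff j).comp (C c * X)).coeff i = (F.coeff j).coeff i * c ^ i :=
    comp_C_mul_X_coeff
  rw [h2]

private lemma dvd_iff67 {A : Type*} [CommRing A] (F : A[X][X]) (k : ℕ) :
    C (X ^ k) ∣ F ↔ ∀ j i, i < k → (F.coeff j).coeff i = 0 := by
  rw [C_dvd_iff_dvd_coeff]
  exact forall_congr' fun j => by rw [X_pow_dvd_iff]

private lemma th_dvd67 {c d : ℂ} (hc : c ≠ 0) (hd : d ≠ 0) (F : C2) (k : ℕ) :
    C (X ^ k) ∣ th67 c d F ↔ C (X ^ k) ∣ F := by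
  rw [dvd_iff67, dvd_iff67]
  refine forall_congr' fun j => forall_congr' fun i => imp_congr_right fun _ => ?_
  rw [th_coeff67, mul_eq_zero, mul_eq_zero]
  have h1 := pow_ne_zero i hc
  have h2 := pow_ne_zero j hd
  tauto

private lemma om_ne67 (N : ℕ) (b : Bool) : om N b ≠ 0 := by
  unfold om
  split_ifs
  · exact one_ne_zero
  · exact Complex.exp_ne_zero _

private lemma io_X67 (N : ℕ) : io N X = X ^ N := by
  show expand ℂ N ((X : R1).map Complex.ofRealHom) = X ^ N
  rw [map_X, expand_X]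

private lemma io_C67 (N : ℕ) (a : ℝ) : io N (C a) = C (a : ℂ) := by
  show expand ℂ N ((C a : R1).map Complex.ofRealHom) = C (a : ℂ)
  rw [map_C, expand_C]
  rfl

private lemma th_C67 (c d : ℂ) (F : C1) : th67 c d (C F) = C (F.comp (C c * X)) := by
  show ((C F : C2).map (compRingHom (C c * X))).comp (C (C d) * X) = _
  rw [map_C, C_comp]
  rfl

private lemma th_X67 (c d : ℂ) : th67 c d X = C (C d) * X := by
  show ((X : C2).map (compRingHom (C c * X))).comp (C (C d) * X) = _
  rw [map_X, X_comp]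

private lemma onC_C67 (N : ℕ) (p : C1) (r : ℕ) (s : R1) : onC N p r (C s) = C (io N s) := by
  show ((C s : R2).map (io N)).comp _ = _
  rw [map_C, C_comp]

private lemma onC_X67 (N : ℕ) (p : C1) (r : ℕ) : onC N p r X = C p + C (X ^ r) * X := by
  show ((X : R2).map (io N)).comp _ = _
  rw [map_X, X_comp]

private lemma onR_C67 (N : ℕ) (b : Ball) (s : R1) :
    onR N b (C s) = C (s.comp (C (sgn b.pos) * X ^ N)) := by
  show ((C s : R2).map (compRingHom _)).comp _ = _
  rw [map_C, C_comp]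
  rfl

private lemma onR_X67 (N : ℕ) (b : Ball) : onR N b X = C b.q + C (X ^ b.r) * X := by
  show ((X : R2).map (compRingHom _)).comp _ = _
  rw [map_X, X_comp]

theorem zt_pow (N : ℕ) (hN : N ≠ 0) : zt N ^ N = 1 := by
  exact (Complex.isPrimitiveRoot_exp N hN).pow_eq_one

theorem om_pow (N : ℕ) (hN : N ≠ 0) (b : Bool) : om N b ^ N = ((sgn b : ℝ) : ℂ) := by
  have hN' : (N : ℂ) ≠ 0 := by exact_mod_cast hN
  cases b
  · simp only [om, sgn, Bool.false_eq_true, if_false]
    rw [← Complex.exp_nat_mul, mul_div_cancel₀ _ hN', Complex.exp_pi_mul_I]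
    norm_num
  · simp [om, sgn]

theorem io_act (N : ℕ) (hN : N ≠ 0) (γ : Fin N × Bool) (p : R1) : act N γ (io N p) = io N p := by
  have h : (act N γ).comp (io N) = io N := by
    refine Polynomial.ringHom_ext (fun a => ?_) ?_
    · rw [RingHom.comp_apply, io_C67, act, RingHom.comp_apply]
      have h1 : (if γ.2 then mapRingHom (starRingEnd ℂ) else RingHom.id C1) (C (a : ℂ)) =
          C (a : ℂ) := by
        split_ifs
        · rw [coe_mapRingHom, map_C, Complex.conj_ofReal]
        · rfl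
      rw [h1, coe_compRingHom]
      exact C_comp
    · rw [RingHom.comp_apply, io_X67, act, RingHom.comp_apply]
      have h1 : (if γ.2 then mapRingHom (starRingEnd ℂ) else RingHom.id C1) (X ^ N) = X ^ N := by
        split_ifs
        · rw [coe_mapRingHom, Polynomial.map_pow, map_X]
        · rfl
      rw [h1, coe_compRingHom]
      show (X ^ N : C1).comp _ = X ^ N
      rw [X_pow_comp, mul_pow, ← C_pow, ← pow_mul, mul_comm (γ.1 : ℕ) N, pow_mul, zt_pow N hN,
        one_pow, C_1, one_mul]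
  exact congrArg (fun f => f p) h

/-- the constants -/
private noncomputable abbrev C1toC2_67 : C1 →+* C2 := C

/-- the real ball in terms of the complex ball -/
private lemma onR_th67 (N : ℕ) (hN : N ≠ 0) (b : Ball) (H : R2) :
    (onR N b H).map (mapRingHom Complex.ofRealHom) =
      th67 (om N b.pos) ((om N b.pos)⁻¹ ^ b.r) (onC N (b.cen N) b.r H) := by
  have hω := om_ne67 N b.pos
  have h : (mapRingHom (mapRingHom Complex.ofRealHom)).comp (onR N b) =
      (th67 (om N b.pos) ((om N b.pos)⁻¹ ^ b.r)).comp (onC N (b.cen N) b.r) := by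
    refine Polynomial.ringHom_ext (fun s => ?_) ?_
    · have h1 : (C1toC2_67.comp ((mapRingHom Complex.ofRealHom).comp
          (compRingHom (C (sgn b.pos) * X ^ N)))) =
          C1toC2_67.comp ((compRingHom (C (om N b.pos) * X)).comp (io N)) := by
        refine Polynomial.ringHom_ext (fun a => ?_) ?_
        · simp only [RingHom.comp_apply, io_C67, coe_compRingHom]
          congr 1
          show ((C a : R1).comp _).map _ = (C (a : ℂ) : C1).comp _
          rw [C_comp, C_comp, map_C]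
          rfl
        · simp only [RingHom.comp_apply, io_X67, coe_compRingHom]
          congr 1
          show ((X : R1).comp _).map _ = (X ^ N : C1).comp _
          rw [X_comp, X_pow_comp, mul_pow, ← C_pow, om_pow N hN, Polynomial.map_mul, map_C,
            Polynomial.map_pow, map_X]
          rfl
      rw [RingHom.comp_apply, RingHom.comp_apply, onR_C67, onC_C67, coe_mapRingHom, map_C, th_C67]
      exact congrArg (fun f => f s) h1
    · rw [RingHom.comp_apply, RingHom.comp_apply, onR_X67, onC_X67, coe_mapRingHom,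
        Polynomial.map_add, Polynomial.map_mul, map_C, map_C, map_X, map_add, map_mul, th_C67,
        th_C67, th_X67]
      have h1 : (b.cen N).comp (C (om N b.pos) * X) = b.q.map Complex.ofRealHom := by
        rw [Ball.cen, comp_assoc, mul_comp, C_comp, X_comp, ← mul_assoc, ← C_mul,
          inv_mul_cancel₀ hω, C_1, one_mul, comp_X]
      have h2 : ((X ^ b.r : C1).comp (C (om N b.pos) * X)) =
          C (om N b.pos ^ b.r) * X ^ b.r := by
        rw [X_pow_comp, mul_pow, ← C_pow]
      rw [h1, h2, coe_mapRingHom, Polynomial.map_pow, map_X, ← mul_assoc, ← C_mul,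
        mul_comm _ (C ((om N b.pos)⁻¹ ^ b.r)), ← mul_assoc, ← C_mul, ← mul_pow,
        inv_mul_cancel₀ hω, one_pow, C_1, one_mul]
  exact congrArg (fun f => f H) h

theorem onR_dvd_iff (N : ℕ) (hN : N ≠ 0) (b : Ball) (H : R2) (k : ℕ) :
    C (X ^ k) ∣ onR N b H ↔ C (X ^ k) ∣ onC N (b.cen N) b.r H := by
  have hω := om_ne67 N b.pos
  rw [← th_dvd67 hω (pow_ne_zero b.r (inv_ne_zero hω)), ← onR_th67 N hN b H, dvd_iff67, dvd_iff67]
  refine forall_congr' fun j => forall_congr' fun i => imp_congr_right fun _ => ?_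
  rw [coeff_map, coe_mapRingHom, coeff_map]
  exact (map_eq_zero Complex.ofRealHom).symm

theorem onR_eval_zero (N : ℕ) (hN : N ≠ 0) (b : Ball) (H : R2)
    (h : (onC N (b.cen N) b.r H).eval 0 = 0) : (onR N b H).eval 0 = 0 := by
  have h1 := onR_th67 N hN b H
  have h2 : ∀ i, ((onR N b H).coeff 0).coeff i = 0 := by
    intro i
    have h3 : (((onR N b H).map (mapRingHom Complex.ofRealHom)).coeff 0).coeff i = 0 := by
      rw [h1, th_coeff67, coeff_zero_eq_eval_zero, h, coeff_zero, zero_mul, zero_mul]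
    rw [coeff_map, coe_mapRingHom, coeff_map] at h3
    exact (map_eq_zero Complex.ofRealHom).1 h3
  rw [← coeff_zero_eq_eval_zero]
  ext i
  rw [h2, coeff_zero]

theorem onC_act (N : ℕ) (hN : N ≠ 0) (γ : Fin N × Bool) (p : C1) (r : ℕ) (H : R2) (k : ℕ)
    (h : C (X ^ k) ∣ onC N p r H) : C (X ^ k) ∣ onC N (act N γ p) r H := by
  -- `act γ (w ^ m) = ζ ^ (k m) w ^ m`
  have hA : ∀ m : ℕ, act N γ (X ^ m) = C ((zt N ^ (γ.1 : ℕ)) ^ m) * X ^ m := by
    intro m
    rw [act, RingHom.comp_apply]
    have h1 : (if γ.2 then mapRingHom (starRingEnd ℂ) else RingHom.id C1) (X ^ m) = X ^ m := by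
      split_ifs
      · rw [coe_mapRingHom, Polynomial.map_pow, map_X]
      · rfl
    rw [h1, coe_compRingHom]
    show (X ^ m : C1).comp _ = _
    rw [X_pow_comp, mul_pow, ← C_pow]
  have hz : (zt N ^ (γ.1 : ℕ)) ^ r ≠ 0 := pow_ne_zero _ (pow_ne_zero _ (Complex.exp_ne_zero _))
  obtain ⟨ψ, hψC, hψX⟩ : ∃ ψ : C2 →+* C2, (∀ F, ψ (C F) = C (act N γ F)) ∧
      ψ X = C (C ((zt N ^ (γ.1 : ℕ)) ^ r)⁻¹) * X := by
    refine ⟨(compRingHom (C (C ((zt N ^ (γ.1 : ℕ)) ^ r)⁻¹) * X)).comp (mapRingHom (act N γ)),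
      fun F => ?_, ?_⟩
    · show ((C F : C2).map (act N γ)).comp _ = _
      rw [map_C, C_comp]
    · show ((X : C2).map (act N γ)).comp _ = _
      rw [map_X, X_comp]
  have heq : onC N (act N γ p) r = ψ.comp (onC N p r) := by
    refine Polynomial.ringHom_ext (fun s => ?_) ?_
    · rw [RingHom.comp_apply, onC_C67, onC_C67, hψC, io_act N hN]
    · rw [RingHom.comp_apply, onC_X67, onC_X67, map_add, map_mul, hψC, hψC, hψX, hA, C_mul,
        mul_comm (C (C ((zt N ^ (γ.1 : ℕ)) ^ r))), mul_assoc, ← mul_assoc (C (C _)) (C (C _)),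
        ← C_mul, ← C_mul, mul_inv_cancel₀ hz, C_1, C_1, one_mul]
  have h1 := map_dvd ψ h
  rw [hψC, hA, C_mul] at h1
  rw [heq, RingHom.comp_apply]
  exact (dvd_mul_left _ _).trans h1

end Pool.Agent.Helper10.TC
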