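import Pool.Agent.Helper10.TC.Puiseux

set_option autoImplicit false

/-!
# Project TC (MP_63c74b), block ROOT: the Puiseux roots of a real separable polynomial

`F = g₁.map toPS` is monic; `puiseux` gives `N`, `γ` (a multiset; `card γ = natDegree g₁ = e`;
index it by `Fin e`, e.g. `Multiset.toList`, `List.get`) with `F.map (xp N) = ∏ (X - γ_l)`. Check that
`toPS (p.comp (X ^ N)) = xp N (toPS p)` for `p ∈ ℝ[s]` (both ring homs, check on constants and `X`), so
`(g₁.map (pw N)).map toPS = F.map (xp N)`. `ψ := toPS ∘ pw N : ℝ[s] → ℂ⟦w⟧` is injective. If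
`γ_l = γ_m` with `l ≠ m` then `(X - γ_l)²` divides `g₁.map ψ`, so `γ_l` is a root of `g₁.map ψ` and of
its derivative, and `h` gives `ψ ρ = 0`, contradiction. Conjugation: `conj = PowerSeries.map
(starRingEnd ℂ)` fixes the coefficients of `g₁.map ψ` (they come from real polynomials), so
`conj γ_l` is a root of `g₁.map ψ`, hence one of the `γ_m`.
-/

open Polynomial

namespace Pool.Agent.Helper10.TC

/-- `p(s) ↦ p(u ^ N)` -/
noncomputable def pw (N : ℕ) : R1 →+* R1 := compRingHom (X ^ N)

private theorem toPS_C1 (a : ℝ) : toPS (C a) = PowerSeries.C (a : ℂ) := by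
  simp [toPS]

private theorem toPS_X1 : toPS (X : R1) = PowerSeries.X := by
  simp [toPS]

private theorem pw_C1 (N : ℕ) (a : ℝ) : pw N (C a) = C a := by
  simp [pw]

private theorem pw_X1 (N : ℕ) : pw N (X : R1) = X ^ N := by
  simp [pw]

private theorem comp1 (N : ℕ) (hN : N ≠ 0) : toPS.comp (pw N) = (xp N hN).comp toPS := by
  refine Polynomial.ringHom_ext (fun a => ?_) ?_
  · rw [RingHom.comp_apply, RingHom.comp_apply, pw_C1, toPS_C1]
    exact (PowerSeries.expand_C N hN (a : ℂ)).symm
  · rw [RingHom.comp_apply, RingHom.comp_apply, pw_X1, map_pow, toPS_X1]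
    exact (PowerSeries.expand_X N hN).symm

private theorem conj1 (N : ℕ) : (PowerSeries.map (starRingEnd ℂ)).comp (toPS.comp (pw N)) = toPS.comp (pw N) := by
  refine Polynomial.ringHom_ext (fun a => ?_) ?_
  · rw [RingHom.comp_apply, RingHom.comp_apply, pw_C1, toPS_C1, PowerSeries.map_C, Complex.conj_ofReal]
  · rw [RingHom.comp_apply, RingHom.comp_apply, pw_X1, map_pow, toPS_X1, map_pow, PowerSeries.map_X]

private theorem toPS_inj1 : Function.Injective toPS := by
  intro p q h
  have h1 : ((p.map Complex.ofRealHom : Polynomial ℂ) : PowerSeries ℂ) =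
      ((q.map Complex.ofRealHom : Polynomial ℂ) : PowerSeries ℂ) := h
  exact Polynomial.map_injective _ Complex.ofReal_injective (Polynomial.coe_injective ℂ h1)

private theorem pw_inj1 (N : ℕ) (hN : N ≠ 0) : Function.Injective (pw N) := by
  intro p q h
  have h1 : p.comp (X ^ N) = q.comp (X ^ N) := h
  rw [← Polynomial.expand_eq_comp_X_pow, ← Polynomial.expand_eq_comp_X_pow] at h1
  exact Polynomial.expand_injective (Nat.pos_of_ne_zero hN) h1

theorem exists_roots (g₁ a b : R2) (ρ : R1) (hg : g₁.Monic) (hρ : ρ ≠ 0)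
    (h : a * g₁ + b * derivative g₁ = C ρ) :
    ∃ (N : ℕ) (γ : Fin g₁.natDegree → Ps), N ≠ 0 ∧ Function.Injective γ ∧
      (g₁.map (pw N)).map toPS = ∏ l, (X - C (γ l)) ∧
      ∀ l, ∃ m, γ m = PowerSeries.map (starRingEnd ℂ) (γ l) := by
  classical
  obtain ⟨N, hN, γs, hγ⟩ := puiseux (g₁.map toPS) (hg.map toPS)
  obtain ⟨L, rfl⟩ := Quotient.exists_rep γs
  replace hγ : (g₁.map toPS).map (xp N hN) = (((L : Multiset Ps)).map fun a => X - C a).prod := hγ
  have hP : (g₁.map (pw N)).map toPS = (((L : Multiset Ps)).map fun a => X - C a).prod := by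
    rw [← hγ, Polynomial.map_map, Polynomial.map_map, comp1 N hN]
  have hmon : ((g₁.map (pw N)).map toPS).Monic := (hg.map _).map _
  have hdeg : g₁.natDegree = L.length := by
    have h1 : ((g₁.map (pw N)).map toPS).natDegree = g₁.natDegree := by
      rw [(hg.map (pw N)).natDegree_map, hg.natDegree_map]
    rw [← h1, hP, Polynomial.natDegree_multiset_prod_X_sub_C_eq_card]
    rfl
  set γ : Fin g₁.natDegree → Ps := fun l => L.get (Fin.cast hdeg l) with hγd
  have hprod : (g₁.map (pw N)).map toPS = ∏ l, (X - C (γ l)) := by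
    rw [hP, Multiset.map_coe, Multiset.prod_coe]
    have h1 : ∏ l, (X - C (γ l)) = ∏ l : Fin L.length, (X - C (L.get l)) :=
      Fintype.prod_equiv (finCongr hdeg) _ _ fun l => rfl
    rw [h1, ← List.prod_ofFn]
    congr 1
    conv_lhs => rw [← List.ofFn_get L]
    rw [List.map_ofFn]
    rfl
  set ψ : R1 →+* Ps := toPS.comp (pw N) with hψ
  have hPψ : (g₁.map (pw N)).map toPS = g₁.map ψ := Polynomial.map_map _ _ _
  refine ⟨N, γ, hN, ?_, hprod, ?_⟩
  · intro l m hlm
    by_contra hne
    have hroot : ∃ Q : Polynomial Ps, g₁.map ψ = (X - C (γ l)) * ((X - C (γ l)) * Q) := by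
      refine ⟨∏ i ∈ (Finset.univ.erase l).erase m, (X - C (γ i)), ?_⟩
      rw [← hPψ, hprod, ← Finset.mul_prod_erase Finset.univ _ (Finset.mem_univ l),
        ← Finset.mul_prod_erase (Finset.univ.erase l) _
          (Finset.mem_erase.2 ⟨Ne.symm hne, Finset.mem_univ m⟩)]
      rw [← hlm]
    obtain ⟨Q, hQ⟩ := hroot
    have h1 : (g₁.map ψ).eval (γ l) = 0 := by
      rw [hQ]
      simp
    have h2 : (derivative (g₁.map ψ)).eval (γ l) = 0 := by
      rw [hQ]
      simp [derivative_mul]
    have h3 := congrArg (fun p : R2 => (p.map ψ).eval (γ l)) h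
    simp only [Polynomial.map_add, Polynomial.map_mul, Polynomial.map_C, Polynomial.eval_add,
      Polynomial.eval_mul, Polynomial.eval_C] at h3
    rw [← Polynomial.derivative_map, h1, h2, mul_zero, mul_zero, add_zero] at h3
    apply hρ
    apply pw_inj1 N hN
    apply toPS_inj1
    rw [map_zero, map_zero]
    exact h3.symm
  · intro l
    set cj : Ps →+* Ps := PowerSeries.map (starRingEnd ℂ) with hcj
    have h1 : (g₁.map ψ).map cj = g₁.map ψ := by
      rw [Polynomial.map_map, hψ, hcj, conj1 N]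
    have h2 : (g₁.map ψ).eval (γ l) = 0 := by
      rw [← hPψ, hprod, Polynomial.eval_prod]
      exact Finset.prod_eq_zero (Finset.mem_univ l) (by simp)
    have h3 : (g₁.map ψ).eval (cj (γ l)) = 0 := by
      rw [← h1, Polynomial.eval_map_apply, h2, map_zero]
    rw [← hPψ, hprod, Polynomial.eval_prod, Finset.prod_eq_zero_iff] at h3
    obtain ⟨m, -, hm⟩ := h3
    refine ⟨m, ?_⟩
    rw [Polynomial.eval_sub, Polynomial.eval_X, Polynomial.eval_C, sub_eq_zero] at hm
    exact hm.symm

end Pool.Agent.Helper10.TC
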