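import Pool.Agent.Helper10.TC.Ivt

set_option autoImplicit false

/-!
# Project TC (MP_63c74b), block TTA: partners, and signs near infinity

`exists_same`: if `y = p.1` for some `p ∈ S` take `η = p.2` (use `OC`; `p.1 = q.1 ↔ p.2 = q.2`
follows from `OC` by trichotomy). Otherwise let `L = {p.2 | p ∈ S, p.1 < y}` and
`U = {p.2 | p ∈ S, y < p.1}`; every element of `L` is `<` every element of `U` by `OC`, and `K₂` is
densely ordered without end points, so there is `η` with `L < η < U` (four cases, with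
`Finset.max'`, `Finset.min'`). `exists_same'` is the same with the roles exchanged.
`OC.insert`: four cases.
`eventually_sign_top`: e.g. write `f = ∑ a_i X^i` of degree `n`, for `y > B := 1 + ∑_{i<n} |a_i/a_n|`
one has `|∑_{i<n} a_i y^i| < |a_n| y^n`. (Or induct: `f = a_n X^n + g`.) `eventually_sign_bot`: apply
this to `f.comp (-X)`.
-/

open Polynomial

namespace Pool.Agent.Helper10.TC

section

variable {K₁ K₂ : Type*} [Field K₁] [LinearOrder K₁] [IsStrictOrderedRing K₁]
  [Field K₂] [LinearOrder K₂] [IsStrictOrderedRing K₂]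

theorem OC.eq_iff {S : Finset (K₁ × K₂)} (hS : OC S) {p q : K₁ × K₂} (hp : p ∈ S) (hq : q ∈ S) :
    p.1 = q.1 ↔ p.2 = q.2 := by
  have h1 := hS p hp q hq
  have h2 := hS q hq p hp
  constructor
  · intro h
    refine le_antisymm (not_lt.1 fun h3 => ?_) (not_lt.1 fun h3 => ?_)
    · exact (h2.2 h3).ne h.symm
    · exact (h1.2 h3).ne h
  · intro h
    refine le_antisymm (not_lt.1 fun h3 => ?_) (not_lt.1 fun h3 => ?_)
    · exact (h2.1 h3).ne h.symm
    · exact (h1.1 h3).ne h

theorem OC.same {S : Finset (K₁ × K₂)} (hS : OC S) {p : K₁ × K₂} (hp : p ∈ S) :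
    Same S p.1 p.2 := fun q hq => ⟨hS q hq p hp, hS p hp q hq⟩

theorem exists_same {S : Finset (K₁ × K₂)} (hS : OC S) (y : K₁) : ∃ η : K₂, Same S y η := by
  classical
  by_cases h : ∃ p ∈ S, p.1 = y
  · obtain ⟨p, hp, rfl⟩ := h
    exact ⟨p.2, hS.same hp⟩
  · push Not at h
    obtain ⟨η, h1, h2⟩ := Order.exists_between_finsets
      ((S.filter fun p => p.1 < y).image Prod.snd) ((S.filter fun p => y < p.1).image Prod.snd) (by
        intro l hl u hu
        obtain ⟨p, hp, rfl⟩ := Finset.mem_image.1 hl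
        obtain ⟨q, hq, rfl⟩ := Finset.mem_image.1 hu
        rw [Finset.mem_filter] at hp hq
        exact (hS p hp.1 q hq.1).1 (hp.2.trans hq.2))
    have e1 : ∀ p ∈ S, p.1 < y → p.2 < η := fun p hp hpy =>
      h1 _ (Finset.mem_image_of_mem _ (Finset.mem_filter.2 ⟨hp, hpy⟩))
    have e2 : ∀ p ∈ S, y < p.1 → η < p.2 := fun p hp hpy =>
      h2 _ (Finset.mem_image_of_mem _ (Finset.mem_filter.2 ⟨hp, hpy⟩))
    refine ⟨η, fun p hp => ?_⟩
    rcases lt_or_gt_of_ne (h p hp) with h3 | h3
    · exact ⟨iff_of_true h3 (e1 p hp h3), iff_of_false h3.asymm (e1 p hp h3).asymm⟩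
    · exact ⟨iff_of_false h3.asymm (e2 p hp h3).asymm, iff_of_true h3 (e2 p hp h3)⟩

theorem exists_same' {S : Finset (K₁ × K₂)} (hS : OC S) (η : K₂) : ∃ y : K₁, Same S y η := by
  classical
  by_cases h : ∃ p ∈ S, p.2 = η
  · obtain ⟨p, hp, rfl⟩ := h
    exact ⟨p.1, hS.same hp⟩
  · push Not at h
    obtain ⟨y, h1, h2⟩ := Order.exists_between_finsets
      ((S.filter fun p => p.2 < η).image Prod.fst) ((S.filter fun p => η < p.2).image Prod.fst) (by
        intro l hl u hu
        obtain ⟨p, hp, rfl⟩ := Finset.mem_image.1 hl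
        obtain ⟨q, hq, rfl⟩ := Finset.mem_image.1 hu
        rw [Finset.mem_filter] at hp hq
        exact (hS p hp.1 q hq.1).2 (hp.2.trans hq.2))
    have e1 : ∀ p ∈ S, p.2 < η → p.1 < y := fun p hp hpy =>
      h1 _ (Finset.mem_image_of_mem _ (Finset.mem_filter.2 ⟨hp, hpy⟩))
    have e2 : ∀ p ∈ S, η < p.2 → y < p.1 := fun p hp hpy =>
      h2 _ (Finset.mem_image_of_mem _ (Finset.mem_filter.2 ⟨hp, hpy⟩))
    refine ⟨y, fun p hp => ?_⟩
    rcases lt_or_gt_of_ne (h p hp) with h3 | h3
    · exact ⟨iff_of_true (e1 p hp h3) h3, iff_of_false (e1 p hp h3).asymm h3.asymm⟩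
    · exact ⟨iff_of_false (e2 p hp h3).asymm h3.asymm, iff_of_true (e2 p hp h3) h3⟩

theorem OC.insert {S : Finset (K₁ × K₂)} (hS : OC S) {y : K₁} {η : K₂} (h : Same S y η) :
    OC (insert (y, η) S) := by
  intro p hp q hq
  rcases Finset.mem_insert.1 hp with rfl | hp1
  · rcases Finset.mem_insert.1 hq with rfl | hq1
    · exact iff_of_false (lt_irrefl _) (lt_irrefl _)
    · exact (h q hq1).2
  · rcases Finset.mem_insert.1 hq with rfl | hq1
    · exact (h p hp1).1
    · exact hS p hp1 q hq1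

end

section

variable {K : Type*} [Field K] [LinearOrder K] [IsStrictOrderedRing K]

private theorem pos_top38 (n : ℕ) : ∀ f : K[X], f.natDegree = n → 0 < f.leadingCoeff →
    ∃ B δ : K, 0 < δ ∧ ∀ y, B < y → δ ≤ f.eval y := by
  induction n with
  | zero =>
    intro f hf hpos
    rw [natDegree_eq_zero] at hf
    obtain ⟨a, rfl⟩ := hf
    rw [leadingCoeff_C] at hpos
    exact ⟨0, a, hpos, fun y _ => by rw [eval_C]⟩
  | succ n ih =>
    intro f hf hpos
    have h1 : f.divX.natDegree = n := by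
      rw [natDegree_divX_eq_natDegree_tsub_one, hf]
      rfl
    have h2 : f.divX.leadingCoeff = f.leadingCoeff := by
      unfold leadingCoeff
      rw [h1, coeff_divX, hf]
    obtain ⟨B, δ, hδ, hB⟩ := ih f.divX h1 (by rw [h2]; exact hpos)
    refine ⟨max B ((|f.coeff 0| + 1) / δ), 1, one_pos, fun y hy => ?_⟩
    rw [max_lt_iff] at hy
    have h3 := hB y hy.1
    have h4 : |f.coeff 0| + 1 < y * δ := by
      rw [← div_lt_iff₀ hδ]
      exact hy.2
    have hy0 : 0 < y := by
      have : 0 < (|f.coeff 0| + 1) / δ := by positivity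
      exact this.trans hy.2
    have h5 : f.eval y = f.divX.eval y * y + f.coeff 0 := by
      conv_lhs => rw [← divX_mul_X_add f]
      rw [eval_add, eval_mul, eval_X, eval_C]
    have h6 : y * δ ≤ f.divX.eval y * y := by
      rw [mul_comm (f.divX.eval y)]
      exact mul_le_mul_of_nonneg_left h3 hy0.le
    have h7 := neg_abs_le (f.coeff 0)
    rw [h5]
    linarith

theorem eventually_sign_top (f : K[X]) : ∃ B : K, ∀ y, B < y →
    SignType.sign (f.eval y) = SignType.sign f.leadingCoeff := by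
  rcases lt_trichotomy f.leadingCoeff 0 with h | h | h
  · obtain ⟨B, δ, hδ, hB⟩ := pos_top38 _ (-f) rfl (by rw [leadingCoeff_neg]; exact neg_pos.2 h)
    refine ⟨B, fun y hy => ?_⟩
    have h1 := hB y hy
    rw [eval_neg] at h1
    rw [sign_neg h, sign_neg (by linarith)]
  · rw [leadingCoeff_eq_zero] at h
    exact ⟨0, fun y _ => by rw [h, eval_zero, leadingCoeff_zero]⟩
  · obtain ⟨B, δ, hδ, hB⟩ := pos_top38 _ f rfl h
    exact ⟨B, fun y hy => by rw [sign_pos h, sign_pos (hδ.trans_le (hB y hy))]⟩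

theorem eventually_sign_bot (f : K[X]) : ∃ B : K, ∀ y, y < B →
    SignType.sign (f.eval y) = SignType.sign ((-1) ^ f.natDegree * f.leadingCoeff) := by
  obtain ⟨B, hB⟩ := eventually_sign_top (f.comp (-X))
  refine ⟨-B, fun y hy => ?_⟩
  have h1 := hB (-y) (by linarith)
  have h2 : (-X : K[X]).natDegree ≠ 0 := by
    rw [natDegree_neg, natDegree_X]
    exact one_ne_zero
  rw [eval_comp, eval_neg, eval_X, neg_neg, leadingCoeff_comp h2, leadingCoeff_neg,
    leadingCoeff_X, mul_comm] at h1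
  exact h1

end

end Pool.Agent.Helper10.TC
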