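import Pool.Agent.Helper10.TC.TtA
import Pool.Agent.Helper10.TC.Mvt

set_option autoImplicit false

/-!
# Project TC (MP_63c74b), block TTB: agreement of signs in the gaps

Proof. Let `Same S y η`. If `y = p.1` with `p ∈ S` then `η = p.2` (neither `<` nor `>`), use `Pts`;
same if `η = p.2`. So `y`, `η` lie in corresponding gaps of `S`, i.e. `y ≠ p.1`, `η ≠ p.2` for all
`p ∈ S`. If `f.derivative = 0`, `f` is a nonzero constant (char 0: `k` embeds in an ordered field;
`Polynomial.natDegree_eq_zero_of_derivative_eq_zero`) and `hsgn` gives the claim. Let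
`f.derivative ≠ 0`. `f` has no roots in the gap (`RootsIn`), so by IVT the sign of `f` is constant on
the gap, in `K₁` and in `K₂`.
 * If the gap has a left end `s = p.1` (`p ∈ S` the element with the largest `p.1 < y`) and
   `f s ≠ 0`: no root in `[s, y]`, so `sign (f y) = sign (f s)`, and in `K₂` in the same way
   `sign (f η) = sign (f p.2)`; use `Pts`.
 * If `f s = 0` (then `f p.2 = 0`): by `mvt` `f y = f' c (y - s)` with `c` in the gap, and
   `f η = f' c' (η - p.2)` with `c'` in the gap of `K₂`; `Same S c c'`, so `Agr S f'` gives the claim.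
 * If the gap has no left end: by `eventually_sign_bot` the sign of `f y` is that of
   `(-1)^n lc` (constant sign on the gap `(-∞, ...)`), in both fields; use `hsgn` (note that
   `leadingCoeff` and `natDegree` are preserved by `map`, injective).
(Only left ends are needed.)
-/

open Polynomial

namespace Pool.Agent.Helper10.TC

variable {k K₁ K₂ : Type*} [Field k] [Field K₁] [LinearOrder K₁] [IsStrictOrderedRing K₁]
  [Field K₂] [LinearOrder K₂] [IsStrictOrderedRing K₂]

private lemma sign_eq67 {K : Type*} [Field K] [LinearOrder K] [IsStrictOrderedRing K] (hK : IVT K)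
    (g : K[X]) {a b : K} (hab : a < b) (hroot : ∀ c, a ≤ c → c ≤ b → g.eval c ≠ 0) :
    SignType.sign (g.eval b) = SignType.sign (g.eval a) := by
  have ha := hroot a le_rfl hab.le
  have hb := hroot b hab.le le_rfl
  rcases lt_or_gt_of_ne ha with h1 | h1 <;> rcases lt_or_gt_of_ne hb with h2 | h2
  · rw [sign_neg h1, sign_neg h2]
  · obtain ⟨c, hc1, hc2, hc⟩ := hK g a b hab h1 h2
    exact absurd hc (hroot c hc1.le hc2.le)
  · obtain ⟨c, hc1, hc2, hc⟩ := hK (-g) a b hab (by rw [eval_neg]; linarith)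
      (by rw [eval_neg]; linarith)
    rw [eval_neg, neg_eq_zero] at hc
    exact absurd hc (hroot c hc1.le hc2.le)
  · rw [sign_pos h1, sign_pos h2]

private lemma sign_mul_pos67 {K : Type*} [Field K] [LinearOrder K] [IsStrictOrderedRing K]
    {a b : K} (hb : 0 < b) : SignType.sign (a * b) = SignType.sign a := by
  rw [sign_mul, sign_pos hb, mul_one]

/-- two points of the same position, and a point between `y` and the left end -/
theorem agr_of_deriv (i₁ : k →+* K₁) (i₂ : k →+* K₂)
    (hsgn : ∀ a : k, SignType.sign (i₁ a) = SignType.sign (i₂ a)) (h₁ : IVT K₁) (h₂ : IVT K₂)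
    {S : Finset (K₁ × K₂)} (hS : OC S) (f : k[X]) (hf : f ≠ 0)
    (hd : f.derivative ≠ 0 → RootsIn i₁ i₂ S f.derivative ∧ Agr i₁ i₂ S f.derivative)
    (hp : Pts i₁ i₂ S f) (hr : RootsIn i₁ i₂ S f) : Agr i₁ i₂ S f := by
  intro y η hs
  by_cases hy : ∃ p ∈ S, p.1 = y
  · obtain ⟨p, hpS, rfl⟩ := hy
    have h1 := hs p hpS
    have h2 : p.2 = η := by
      apply le_antisymm
      · rw [← not_lt]
        exact fun h => lt_irrefl _ (h1.2.2 h)
      · rw [← not_lt]
        exact fun h => lt_irrefl _ (h1.1.2 h)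
    rw [← h2]
    exact hp p hpS
  by_cases hη : ∃ p ∈ S, p.2 = η
  · obtain ⟨p, hpS, rfl⟩ := hη
    have h1 := hs p hpS
    have h2 : p.1 = y := by
      apply le_antisymm
      · rw [← not_lt]
        exact fun h => lt_irrefl _ (h1.2.1 h)
      · rw [← not_lt]
        exact fun h => lt_irrefl _ (h1.1.1 h)
    rw [← h2]
    exact hp p hpS
  push Not at hy hη
  have hk0 : CharZero k := RingHom.charZero i₁
  by_cases hL : (S.filter fun p => p.1 < y).Nonempty
  · obtain ⟨s, hsL, hmax⟩ := Finset.exists_max_image _ (fun p : K₁ × K₂ => p.1) hL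
    rw [Finset.mem_filter] at hsL
    obtain ⟨hsS, hsy⟩ := hsL
    have hsη : s.2 < η := (hs s hsS).1.1 hsy
    have hle1 : ∀ p ∈ S, p.1 < y → p.1 ≤ s.1 := fun p hpS hpy =>
      hmax p (Finset.mem_filter.2 ⟨hpS, hpy⟩)
    have hle2 : ∀ p ∈ S, p.2 < η → p.2 ≤ s.2 := by
      intro p hpS hpη
      have h1 := hle1 p hpS ((hs p hpS).1.2 hpη)
      rw [← not_lt] at h1 ⊢
      exact fun h => h1 ((hS s hsS p hpS).2 h)
    have gap1 : ∀ c, s.1 < c → c ≤ y → ∀ p ∈ S, (p.1 < c ↔ p.1 < y) ∧ (c < p.1 ↔ y < p.1) := by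
      intro c hc1 hc2 p hpS
      refine ⟨⟨fun h => h.trans_le hc2, fun h => (hle1 p hpS h).trans_lt hc1⟩,
        ⟨fun h => ?_, fun h => hc2.trans_lt h⟩⟩
      rcases lt_trichotomy p.1 y with h1 | h1 | h1
      · exact absurd ((hle1 p hpS h1).trans_lt hc1) (not_lt.2 h.le)
      · exact absurd h1 (hy p hpS)
      · exact h1
    have gap2 : ∀ c, s.2 < c → c ≤ η → ∀ p ∈ S, (p.2 < c ↔ p.2 < η) ∧ (c < p.2 ↔ η < p.2) := by
      intro c hc1 hc2 p hpS
      refine ⟨⟨fun h => h.trans_le hc2, fun h => (hle2 p hpS h).trans_lt hc1⟩,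
        ⟨fun h => ?_, fun h => hc2.trans_lt h⟩⟩
      rcases lt_trichotomy p.2 η with h1 | h1 | h1
      · exact absurd ((hle2 p hpS h1).trans_lt hc1) (not_lt.2 h.le)
      · exact absurd h1 (hη p hpS)
      · exact h1
    have ne1 : ∀ c, s.1 < c → c ≤ y → ∀ p ∈ S, p.1 ≠ c := by
      intro c hc1 hc2 p hpS h
      have h1 := gap1 c hc1 hc2 p hpS
      rw [h] at h1
      have h2 : ¬ c < y := fun h3 => lt_irrefl _ (h1.1.2 h3)
      have h3 : c = y := le_antisymm hc2 (not_lt.1 h2)
      exact hy p hpS (h.trans h3)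
    have ne2 : ∀ c, s.2 < c → c ≤ η → ∀ p ∈ S, p.2 ≠ c := by
      intro c hc1 hc2 p hpS h
      have h1 := gap2 c hc1 hc2 p hpS
      rw [h] at h1
      have h2 : ¬ c < η := fun h3 => lt_irrefl _ (h1.1.2 h3)
      have h3 : c = η := le_antisymm hc2 (not_lt.1 h2)
      exact hη p hpS (h.trans h3)
    by_cases hf0 : (f.map i₁).eval s.1 = 0
    · -- the mean value theorem
      have hf0' : (f.map i₂).eval s.2 = 0 := by
        have h1 := hp s hsS
        rw [hf0, sign_zero, eq_comm, sign_eq_zero_iff] at h1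
        exact h1
      have hder : f.derivative ≠ 0 := by
        intro h0
        have h1 := derivative_eq_zero.1 h0
        obtain ⟨a, rfl⟩ := natDegree_eq_zero.1 h1
        rw [map_C, eval_C, map_eq_zero] at hf0
        exact hf (by rw [hf0, C_0])
      obtain ⟨-, hagr⟩ := hd hder
      obtain ⟨c, hc1, hc2, hc⟩ := mvt h₁ (f.map i₁) s.1 y hsy
      obtain ⟨c', hc1', hc2', hc'⟩ := mvt h₂ (f.map i₂) s.2 η hsη
      rw [hf0, sub_zero, derivative_map] at hc
      rw [hf0', sub_zero, derivative_map] at hc'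
      rw [hc, hc', sign_mul_pos67 (sub_pos.2 hsy), sign_mul_pos67 (sub_pos.2 hsη)]
      refine hagr c c' fun p hpS => ?_
      have e1 := gap1 c hc1 hc2.le p hpS
      have e2 := gap2 c' hc1' hc2'.le p hpS
      have e3 := hs p hpS
      exact ⟨e1.1.trans (e3.1.trans e2.1.symm), e1.2.trans (e3.2.trans e2.2.symm)⟩
    · have hf0' : (f.map i₂).eval s.2 ≠ 0 := by
        intro h0
        have h1 := hp s hsS
        rw [h0, sign_zero, sign_eq_zero_iff] at h1
        exact hf0 h1
      rw [sign_eq67 h₁ (f.map i₁) hsy, sign_eq67 h₂ (f.map i₂) hsη]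
      · exact hp s hsS
      · intro c hc1 hc2 h0
        rcases hc1.eq_or_lt with h1 | h1
        · rw [← h1] at h0
          exact hf0' h0
        · obtain ⟨p, hpS, hpc⟩ := hr.2 c h0
          exact ne2 c h1 hc2 p hpS hpc
      · intro c hc1 hc2 h0
        rcases hc1.eq_or_lt with h1 | h1
        · rw [← h1] at h0
          exact hf0 h0
        · obtain ⟨p, hpS, hpc⟩ := hr.1 c h0
          exact ne1 c h1 hc2 p hpS hpc
  · -- no left end
    have hall1 : ∀ p ∈ S, y < p.1 := by
      intro p hpS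
      rcases lt_trichotomy p.1 y with h1 | h1 | h1
      · exact absurd ⟨p, Finset.mem_filter.2 ⟨hpS, h1⟩⟩ hL
      · exact absurd h1 (hy p hpS)
      · exact h1
    have hall2 : ∀ p ∈ S, η < p.2 := fun p hpS => (hs p hpS).2.1 (hall1 p hpS)
    obtain ⟨B₁, hB₁⟩ := eventually_sign_bot (f.map i₁)
    obtain ⟨B₂, hB₂⟩ := eventually_sign_bot (f.map i₂)
    have e1 : SignType.sign ((f.map i₁).eval y) =
        SignType.sign ((-1) ^ (f.map i₁).natDegree * (f.map i₁).leadingCoeff) := by
      have h1 : min B₁ y - 1 < B₁ := (sub_one_lt _).trans_le (min_le_left _ _)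
      have h2 : min B₁ y - 1 < y := (sub_one_lt _).trans_le (min_le_right _ _)
      rw [← hB₁ _ h1]
      refine sign_eq67 h₁ (f.map i₁) h2 fun c _ hc2 h0 => ?_
      obtain ⟨p, hpS, hpc⟩ := hr.1 c h0
      exact absurd (hall1 p hpS) (not_lt.2 (hpc.le.trans hc2))
    have e2 : SignType.sign ((f.map i₂).eval η) =
        SignType.sign ((-1) ^ (f.map i₂).natDegree * (f.map i₂).leadingCoeff) := by
      have h1 : min B₂ η - 1 < B₂ := (sub_one_lt _).trans_le (min_le_left _ _)
      have h2 : min B₂ η - 1 < η := (sub_one_lt _).trans_le (min_le_right _ _)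
      rw [← hB₂ _ h1]
      refine sign_eq67 h₂ (f.map i₂) h2 fun c _ hc2 h0 => ?_
      obtain ⟨p, hpS, hpc⟩ := hr.2 c h0
      exact absurd (hall2 p hpS) (not_lt.2 (hpc.le.trans hc2))
    have e3 := hsgn ((-1) ^ f.natDegree * f.leadingCoeff)
    have e4 : i₁ ((-1) ^ f.natDegree * f.leadingCoeff) =
        (-1) ^ f.natDegree * i₁ f.leadingCoeff := by
      rw [map_mul, map_pow, map_neg, map_one]
    have e5 : i₂ ((-1) ^ f.natDegree * f.leadingCoeff) =
        (-1) ^ f.natDegree * i₂ f.leadingCoeff := by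
      rw [map_mul, map_pow, map_neg, map_one]
    rw [e4, e5] at e3
    rw [e1, e2, natDegree_map, natDegree_map, leadingCoeff_map, leadingCoeff_map, e3]

end Pool.Agent.Helper10.TC
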