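import Pool.Agent.Helper10.TC.TtA
import Pool.Agent.Helper10.TC.Mvt

set_option autoImplicit false

/-!
# Project TC (MP_63c74b), block TTC: inserting the roots of `f`

`partner` (the main step): let `y` be a root of `f` in `K₁` which is not the first component of an
element of `S`. Then there is `η ∈ K₂` with `Same S y η` and `f η = 0`. Proof: `f.derivative ≠ 0`
(else `f` is a nonzero constant). Let `τ = sign (f' y) ≠ 0` (`RootsIn S f'`); `f'` has no root in the
gap of `y` (points `z` with no element of `S.1` between `y` and `z`, inclusive), so it has constant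
sign `τ` there (IVT), and `f` is strictly monotone on the closure of the gap in `K₁` (`mono`, `mvt`):
if `s = p.1` is the left end of the gap, `sign (f s) = -τ`; if there is no left end,
`sign (f z) = -τ` for all `z < y`, hence (`eventually_sign_bot`) `sign ((-1)^n lc) = -τ`. Same on the
right: `sign (f t) = τ`, or `sign lc = τ`. By `Pts` and `hsgn` the same holds in `K₂`: so there are
points `a₂ < b₂` of `K₂` with `sign (f a₂) = -τ`, `sign (f b₂) = τ`, `a₂` the left end of the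
corresponding gap or a point far to the left (to the left of all of `S.2`; then the gap has no left
end), similarly `b₂`. IVT gives a root `η` between `a₂` and `b₂`, and `Same S y η`.
`unique`: two roots `η, η'` of `f` in `K₂` in the same gap (`Same S y η`, `Same S y η'`, not in `S.2`)
coincide, by `rolle` and `RootsIn S f'`.

`insert_roots`: for each root `y` of `f` in `K₁` which is not in `S.1` choose a partner, this gives a
finite set of pairs `S'' = S ∪ {(y, η_y)}`. `OC S''`: compare two new pairs `(y, η_y)`, `(y', η_y')`: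
`y ≠ y'` cannot be in the same gap (`rolle` + `RootsIn S f'`), so some `p ∈ S` separates them (strictly), and
then it separates `η_y`, `η_y'` in the same way. `RootsIn S'' f`: a root `η` of `f` in `K₂`, not in
`S.2`: by `partner` with the roles of `K₁`, `K₂` exchanged there is a root `y` in `K₁` with
`Same S y η`, `y` is not in `S.1`, and `η_y = η` by `unique`. (Alternatively insert the roots one by
one: induction on the number of roots in `K₁` and `K₂` not yet in `S`, each time with `OC.insert`: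
`Agr` and `RootsIn` are monotone and `Pts` holds for the new point.)
-/

open Polynomial

namespace Pool.Agent.Helper10.TC

variable {k K₁ K₂ : Type*} [Field k] [Field K₁] [LinearOrder K₁] [IsStrictOrderedRing K₁]
  [Field K₂] [LinearOrder K₂] [IsStrictOrderedRing K₂]

section core88

variable {K₁ K₂ : Type*} [Field K₁] [LinearOrder K₁] [IsStrictOrderedRing K₁]
  [Field K₂] [LinearOrder K₂] [IsStrictOrderedRing K₂]

private lemma back88 {K : Type*} [Field K] [LinearOrder K] [IsStrictOrderedRing K] (hK : IVT K)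
    (g : K[X]) {a b : K} (hab : a < b) (hg : 0 < g.eval b)
    (hno : ∀ c, a ≤ c → c < b → g.eval c ≠ 0) : 0 < g.eval a := by
  by_contra hcon
  have h1 : g.eval a < 0 := lt_of_le_of_ne (not_lt.mp hcon) (hno a le_rfl hab)
  obtain ⟨c, hc1, hc2, hc3⟩ := hK g a b hab h1 hg
  exact hno c hc1.le hc2 hc3

private lemma forw88 {K : Type*} [Field K] [LinearOrder K] [IsStrictOrderedRing K] (hK : IVT K)
    (g : K[X]) {a b : K} (hab : a < b) (hg : 0 < g.eval a)
    (hno : ∀ c, a < c → c ≤ b → g.eval c ≠ 0) : 0 < g.eval b := by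
  by_contra hcon
  have h1 : g.eval b < 0 := lt_of_le_of_ne (not_lt.mp hcon) (hno b hab le_rfl)
  obtain ⟨c, hc1, hc2, hc3⟩ := hK (-g) a b hab (by rw [eval_neg]; linarith)
    (by rw [eval_neg]; linarith)
  rw [eval_neg, neg_eq_zero] at hc3
  exact hno c hc1 hc2.le hc3

private lemma left88 (h₁ : IVT K₁) {S : Finset (K₁ × K₂)} (hS : OC S) (F₁ : K₁[X]) (F₂ : K₂[X])
    (hroot : ∀ c, F₁.derivative.eval c = 0 → ∃ p ∈ S, p.1 = c)
    (hpts : ∀ p ∈ S, SignType.sign (F₁.eval p.1) = SignType.sign (F₂.eval p.2))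
    (hbot : SignType.sign ((-1) ^ F₁.natDegree * F₁.leadingCoeff) =
      SignType.sign ((-1) ^ F₂.natDegree * F₂.leadingCoeff))
    {y : K₁} (hy : F₁.eval y = 0) (hpos : 0 < F₁.derivative.eval y) :
    ∃ a₂ : K₂, (∀ p ∈ S, p.1 < y → p.2 ≤ a₂) ∧ (∀ p ∈ S, y < p.1 → a₂ < p.2) ∧
      F₂.eval a₂ < 0 ∧ ((∃ p ∈ S, p.1 < y ∧ a₂ = p.2) ∨ ∀ z ≤ a₂, F₂.eval z < 0) := by
  classical
  by_cases hL : (S.filter fun p => p.1 < y).Nonempty
  · obtain ⟨p, hp, hmax⟩ := Finset.exists_max_image (S.filter fun p => p.1 < y) (fun p => p.1) hL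
    rw [Finset.mem_filter] at hp
    have hder : ∀ c, p.1 < c → c < y → 0 < F₁.derivative.eval c := by
      intro c hc1 hc2
      refine back88 h₁ _ hc2 hpos ?_
      intro d hd1 hd2 hd3
      obtain ⟨q, hq, hqd⟩ := hroot d hd3
      have := hmax q (Finset.mem_filter.mpr ⟨hq, by rw [hqd]; exact hd2⟩)
      rw [hqd] at this
      exact absurd (this.trans_lt hc1) (not_lt.mpr hd1)
    have h3 : F₁.eval p.1 < 0 := by
      have := mono h₁ F₁ p.1 y hp.2 hder
      rwa [hy] at this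
    have h4 : F₂.eval p.2 < 0 := by
      have h5 := hpts p hp.1
      rw [sign_neg h3] at h5
      exact sign_eq_neg_one_iff.mp h5.symm
    refine ⟨p.2, ?_, ?_, h4, Or.inl ⟨p, hp.1, hp.2, rfl⟩⟩
    · intro q hq hqy
      have h6 := hmax q (Finset.mem_filter.mpr ⟨hq, hqy⟩)
      by_contra hcon
      exact absurd ((hS p hp.1 q hq).mpr (not_le.mp hcon)) (not_lt.mpr h6)
    · intro q hq hqy
      exact (hS p hp.1 q hq).mp (hp.2.trans hqy)
  · have hno : ∀ p ∈ S, ¬ p.1 < y := fun p hp hc => hL ⟨p, Finset.mem_filter.mpr ⟨hp, hc⟩⟩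
    have hder : ∀ c, c < y → 0 < F₁.derivative.eval c := by
      intro c hc2
      refine back88 h₁ _ hc2 hpos ?_
      intro d _ hd2 hd3
      obtain ⟨q, hq, hqd⟩ := hroot d hd3
      exact hno q hq (by rw [hqd]; exact hd2)
    have hneg : ∀ z, z < y → F₁.eval z < 0 := by
      intro z hz
      have := mono h₁ F₁ z y hz fun c _ hc => hder c hc
      rwa [hy] at this
    obtain ⟨B₁, hB₁⟩ := eventually_sign_bot F₁
    obtain ⟨B₂, hB₂⟩ := eventually_sign_bot F₂
    have e1 : SignType.sign ((-1) ^ F₁.natDegree * F₁.leadingCoeff) = -1 := by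
      rw [← hB₁ (min B₁ y - 1) (by linarith [min_le_left B₁ y])]
      exact sign_neg (hneg _ (by linarith [min_le_right B₁ y]))
    have e2 : ∀ z, z < B₂ → F₂.eval z < 0 := by
      intro z hz
      have := hB₂ z hz
      rw [← hbot, e1] at this
      exact sign_eq_neg_one_iff.mp this
    obtain ⟨m, hm⟩ : ∃ m : K₂, m ≤ B₂ ∧ ∀ p ∈ S, m ≤ p.2 := by
      have hne : (insert B₂ (S.image Prod.snd)).Nonempty := ⟨B₂, Finset.mem_insert_self _ _⟩
      refine ⟨(insert B₂ (S.image Prod.snd)).min' hne,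
        Finset.min'_le _ _ (Finset.mem_insert_self _ _), ?_⟩
      intro p hp
      exact Finset.min'_le _ _ (Finset.mem_insert_of_mem (Finset.mem_image_of_mem _ hp))
    refine ⟨m - 1, ?_, ?_, e2 _ (by linarith [hm.1]), Or.inr ?_⟩
    · intro p hp hc
      exact absurd hc (hno p hp)
    · intro p hp _
      linarith [hm.2 p hp]
    · intro z hz
      exact e2 z (by linarith [hm.1])

private lemma right88 (h₁ : IVT K₁) {S : Finset (K₁ × K₂)} (hS : OC S) (F₁ : K₁[X]) (F₂ : K₂[X])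
    (hroot : ∀ c, F₁.derivative.eval c = 0 → ∃ p ∈ S, p.1 = c)
    (hpts : ∀ p ∈ S, SignType.sign (F₁.eval p.1) = SignType.sign (F₂.eval p.2))
    (htop : SignType.sign F₁.leadingCoeff = SignType.sign F₂.leadingCoeff)
    {y : K₁} (hy : F₁.eval y = 0) (hpos : 0 < F₁.derivative.eval y) :
    ∃ b₂ : K₂, (∀ p ∈ S, y < p.1 → b₂ ≤ p.2) ∧ (∀ p ∈ S, p.1 < y → p.2 < b₂) ∧
      0 < F₂.eval b₂ := by
  classical
  by_cases hL : (S.filter fun p => y < p.1).Nonempty
  · obtain ⟨p, hp, hmin⟩ := Finset.exists_min_image (S.filter fun p => y < p.1) (fun p => p.1) hL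
    rw [Finset.mem_filter] at hp
    have hder : ∀ c, y < c → c < p.1 → 0 < F₁.derivative.eval c := by
      intro c hc1 hc2
      refine forw88 h₁ _ hc1 hpos ?_
      intro d hd1 hd2 hd3
      obtain ⟨q, hq, hqd⟩ := hroot d hd3
      have := hmin q (Finset.mem_filter.mpr ⟨hq, by rw [hqd]; exact hd1⟩)
      rw [hqd] at this
      exact absurd (hc2.trans_le this) (not_lt.mpr hd2)
    have h3 : 0 < F₁.eval p.1 := by
      have := mono h₁ F₁ y p.1 hp.2 hder
      rwa [hy] at this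
    have h4 : 0 < F₂.eval p.2 := by
      have h5 := hpts p hp.1
      rw [sign_pos h3] at h5
      exact sign_eq_one_iff.mp h5.symm
    refine ⟨p.2, ?_, ?_, h4⟩
    · intro q hq hqy
      have h6 := hmin q (Finset.mem_filter.mpr ⟨hq, hqy⟩)
      by_contra hcon
      exact absurd ((hS q hq p hp.1).mpr (not_le.mp hcon)) (not_lt.mpr h6)
    · intro q hq hqy
      exact (hS q hq p hp.1).mp (hqy.trans hp.2)
  · have hno : ∀ p ∈ S, ¬ y < p.1 := fun p hp hc => hL ⟨p, Finset.mem_filter.mpr ⟨hp, hc⟩⟩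
    have hder : ∀ c, y < c → 0 < F₁.derivative.eval c := by
      intro c hc2
      refine forw88 h₁ _ hc2 hpos ?_
      intro d hd2 _ hd3
      obtain ⟨q, hq, hqd⟩ := hroot d hd3
      exact hno q hq (by rw [hqd]; exact hd2)
    have hneg : ∀ z, y < z → 0 < F₁.eval z := by
      intro z hz
      have := mono h₁ F₁ y z hz fun c hc _ => hder c hc
      rwa [hy] at this
    obtain ⟨B₁, hB₁⟩ := eventually_sign_top F₁
    obtain ⟨B₂, hB₂⟩ := eventually_sign_top F₂
    have e1 : SignType.sign F₁.leadingCoeff = 1 := by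
      rw [← hB₁ (max B₁ y + 1) (by linarith [le_max_left B₁ y])]
      exact sign_pos (hneg _ (by linarith [le_max_right B₁ y]))
    have e2 : ∀ z, B₂ < z → 0 < F₂.eval z := by
      intro z hz
      have := hB₂ z hz
      rw [← htop, e1] at this
      exact sign_eq_one_iff.mp this
    obtain ⟨m, hm⟩ : ∃ m : K₂, B₂ ≤ m ∧ ∀ p ∈ S, p.2 ≤ m := by
      have hne : (insert B₂ (S.image Prod.snd)).Nonempty := ⟨B₂, Finset.mem_insert_self _ _⟩
      refine ⟨(insert B₂ (S.image Prod.snd)).max' hne,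
        Finset.le_max' _ _ (Finset.mem_insert_self _ _), ?_⟩
      intro p hp
      exact Finset.le_max' _ _ (Finset.mem_insert_of_mem (Finset.mem_image_of_mem _ hp))
    refine ⟨m + 1, ?_, ?_, e2 _ (by linarith [hm.1])⟩
    · intro p hp hc
      exact absurd hc (hno p hp)
    · intro p hp _
      linarith [hm.2 p hp]

private lemma core88 (h₁ : IVT K₁) (h₂ : IVT K₂) {S : Finset (K₁ × K₂)} (hS : OC S)
    (F₁ : K₁[X]) (F₂ : K₂[X])
    (hroot : ∀ c, F₁.derivative.eval c = 0 → ∃ p ∈ S, p.1 = c)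
    (hpts : ∀ p ∈ S, SignType.sign (F₁.eval p.1) = SignType.sign (F₂.eval p.2))
    (hbot : SignType.sign ((-1) ^ F₁.natDegree * F₁.leadingCoeff) =
      SignType.sign ((-1) ^ F₂.natDegree * F₂.leadingCoeff))
    (htop : SignType.sign F₁.leadingCoeff = SignType.sign F₂.leadingCoeff)
    {y : K₁} (hy : F₁.eval y = 0) (hyS : ∀ p ∈ S, p.1 ≠ y) (hpos : 0 < F₁.derivative.eval y) :
    ∃ η, Same S y η ∧ F₂.eval η = 0 := by
  obtain ⟨a, ha1, ha2, ha3, ha4⟩ := left88 h₁ hS F₁ F₂ hroot hpts hbot hy hpos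
  obtain ⟨b, hb1, hb2, hb3⟩ := right88 h₁ hS F₁ F₂ hroot hpts htop hy hpos
  have hab : a < b := by
    rcases ha4 with ⟨p, hp, hpy, rfl⟩ | ha4
    · exact hb2 p hp hpy
    · by_contra hcon
      exact absurd (ha4 b (not_lt.mp hcon)) (not_lt.mpr hb3.le)
  obtain ⟨η, h3, h4, h5⟩ := h₂ F₂ a b hab ha3 hb3
  refine ⟨η, ?_, h5⟩
  intro p hp
  rcases lt_trichotomy p.1 y with h | h | h
  · have h6 : p.2 < η := (ha1 p hp h).trans_lt h3
    exact ⟨⟨fun _ => h6, fun _ => h⟩, ⟨fun h7 => absurd h7 (not_lt.mpr h.le),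
      fun h7 => absurd h7 (not_lt.mpr h6.le)⟩⟩
  · exact absurd h (hyS p hp)
  · have h6 : η < p.2 := h4.trans_le (hb1 p hp h)
    exact ⟨⟨fun h7 => absurd h7 (not_lt.mpr h.le), fun h7 => absurd h7 (not_lt.mpr h6.le)⟩,
      ⟨fun _ => h6, fun _ => h⟩⟩

private lemma signneg88 {K : Type*} [Field K] [LinearOrder K] [IsStrictOrderedRing K] (x : K) :
    SignType.sign (-x) = -SignType.sign x := Left.sign_neg x

private lemma core88' (h₁ : IVT K₁) (h₂ : IVT K₂) {S : Finset (K₁ × K₂)} (hS : OC S)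
    (F₁ : K₁[X]) (F₂ : K₂[X])
    (hroot : ∀ c, F₁.derivative.eval c = 0 → ∃ p ∈ S, p.1 = c)
    (hpts : ∀ p ∈ S, SignType.sign (F₁.eval p.1) = SignType.sign (F₂.eval p.2))
    (hdeg : F₁.natDegree = F₂.natDegree)
    (htop : SignType.sign F₁.leadingCoeff = SignType.sign F₂.leadingCoeff)
    {y : K₁} (hy : F₁.eval y = 0) (hyS : ∀ p ∈ S, p.1 ≠ y) :
    ∃ η, Same S y η ∧ F₂.eval η = 0 := by
  have hbot : SignType.sign ((-1) ^ F₁.natDegree * F₁.leadingCoeff) =
      SignType.sign ((-1) ^ F₂.natDegree * F₂.leadingCoeff) := by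
    rw [hdeg]
    rcases neg_one_pow_eq_or K₁ F₂.natDegree with h | h
    · have h' : (-1 : K₂) ^ F₂.natDegree = 1 := by
        rcases Nat.even_or_odd F₂.natDegree with he | ho
        · exact he.neg_one_pow
        · rw [ho.neg_one_pow] at h
          exfalso
          linarith
      rw [h, h', one_mul, one_mul, htop]
    · have h' : (-1 : K₂) ^ F₂.natDegree = -1 := by
        rcases Nat.even_or_odd F₂.natDegree with he | ho
        · rw [he.neg_one_pow] at h
          exfalso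
          linarith
        · exact ho.neg_one_pow
      rw [h, h', neg_one_mul, neg_one_mul, signneg88, signneg88, htop]
  have hne : F₁.derivative.eval y ≠ 0 := by
    intro h
    obtain ⟨p, hp, hpy⟩ := hroot y h
    exact hyS p hp hpy
  rcases lt_or_gt_of_ne hne with hneg | hpos
  · obtain ⟨η, h3, h4⟩ := core88 h₁ h₂ hS (-F₁) (-F₂) (by
      intro c hc
      rw [derivative_neg, eval_neg, neg_eq_zero] at hc
      exact hroot c hc) (by
      intro p hp
      rw [eval_neg, eval_neg, signneg88, signneg88, hpts p hp]) (by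
      rw [natDegree_neg, natDegree_neg, leadingCoeff_neg, leadingCoeff_neg, mul_neg, mul_neg,
        signneg88, signneg88, hbot]) (by
      rw [leadingCoeff_neg, leadingCoeff_neg, signneg88, signneg88, htop]) (y := y) (by
      rw [eval_neg, hy, neg_zero]) hyS (by
      rw [derivative_neg, eval_neg]
      linarith)
    rw [eval_neg, neg_eq_zero] at h4
    exact ⟨η, h3, h4⟩
  · exact core88 h₁ h₂ hS F₁ F₂ hroot hpts hbot htop hy hyS hpos

end core88

private lemma main88 (i₁ : k →+* K₁) (i₂ : k →+* K₂)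
    (hsgn : ∀ a : k, SignType.sign (i₁ a) = SignType.sign (i₂ a)) (h₁ : IVT K₁) (h₂ : IVT K₂)
    (f : k[X]) (hf : f ≠ 0) (N : ℕ) :
    ∀ (S : Finset (K₁ × K₂)), OC S →
    (f.derivative ≠ 0 → RootsIn i₁ i₂ S f.derivative) →
    Pts i₁ i₂ S f →
    Set.ncard {y : K₁ | (f.map i₁).eval y = 0 ∧ ∀ p ∈ S, p.1 ≠ y} +
      Set.ncard {η : K₂ | (f.map i₂).eval η = 0 ∧ ∀ p ∈ S, p.2 ≠ η} ≤ N →
    ∃ S' : Finset (K₁ × K₂), S ⊆ S' ∧ OC S' ∧ RootsIn i₁ i₂ S' f ∧
      ∀ p ∈ S', p ∉ S → (f.map i₁).eval p.1 = 0 ∧ (f.map i₂).eval p.2 = 0 := by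
  classical
  have hf1 : f.map i₁ ≠ 0 := (Polynomial.map_ne_zero_iff i₁.injective).mpr hf
  have hf2 : f.map i₂ ≠ 0 := (Polynomial.map_ne_zero_iff i₂.injective).mpr hf
  have hdeg : (f.map i₁).natDegree = (f.map i₂).natDegree := by
    rw [natDegree_map, natDegree_map]
  have htop : SignType.sign (f.map i₁).leadingCoeff = SignType.sign (f.map i₂).leadingCoeff := by
    rw [leadingCoeff_map, leadingCoeff_map, hsgn]
  have hfin1 : ∀ S : Finset (K₁ × K₂),
      {y : K₁ | (f.map i₁).eval y = 0 ∧ ∀ p ∈ S, p.1 ≠ y}.Finite := by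
    intro S
    refine ((f.map i₁).roots.toFinset.finite_toSet).subset ?_
    rintro y ⟨hy, -⟩
    rw [Finset.mem_coe, Multiset.mem_toFinset, mem_roots hf1]
    exact hy
  have hfin2 : ∀ S : Finset (K₁ × K₂),
      {y : K₂ | (f.map i₂).eval y = 0 ∧ ∀ p ∈ S, p.2 ≠ y}.Finite := by
    intro S
    refine ((f.map i₂).roots.toFinset.finite_toSet).subset ?_
    rintro y ⟨hy, -⟩
    rw [Finset.mem_coe, Multiset.mem_toFinset, mem_roots hf2]
    exact hy
  have hchar : CharZero k := i₁.charZero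
  have hder : ∀ y : K₁, (f.map i₁).eval y = 0 → f.derivative ≠ 0 := by
    intro y hy h0
    have h1 := Polynomial.derivative_eq_zero.mp h0
    rw [eq_C_of_natDegree_eq_zero h1, map_C, eval_C, map_eq_zero] at hy
    apply hf
    rw [eq_C_of_natDegree_eq_zero h1, hy, C_0]
  have hder2 : ∀ y : K₂, (f.map i₂).eval y = 0 → f.derivative ≠ 0 := by
    intro y hy h0
    have h1 := Polynomial.derivative_eq_zero.mp h0
    rw [eq_C_of_natDegree_eq_zero h1, map_C, eval_C, map_eq_zero] at hy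
    apply hf
    rw [eq_C_of_natDegree_eq_zero h1, hy, C_0]
  -- the step
  have step : ∀ (N : ℕ) (S : Finset (K₁ × K₂)), OC S →
      (f.derivative ≠ 0 → RootsIn i₁ i₂ S f.derivative) → Pts i₁ i₂ S f →
      Set.ncard {y : K₁ | (f.map i₁).eval y = 0 ∧ ∀ p ∈ S, p.1 ≠ y} +
        Set.ncard {η : K₂ | (f.map i₂).eval η = 0 ∧ ∀ p ∈ S, p.2 ≠ η} ≤ N + 1 →
      ∀ (y : K₁) (η : K₂), Same S y η → (f.map i₁).eval y = 0 → (f.map i₂).eval η = 0 →
      ((∀ p ∈ S, p.1 ≠ y) ∨ (∀ p ∈ S, p.2 ≠ η)) →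
      (∀ (S : Finset (K₁ × K₂)), OC S →
        (f.derivative ≠ 0 → RootsIn i₁ i₂ S f.derivative) →
        Pts i₁ i₂ S f →
        Set.ncard {y : K₁ | (f.map i₁).eval y = 0 ∧ ∀ p ∈ S, p.1 ≠ y} +
          Set.ncard {η : K₂ | (f.map i₂).eval η = 0 ∧ ∀ p ∈ S, p.2 ≠ η} ≤ N →
        ∃ S' : Finset (K₁ × K₂), S ⊆ S' ∧ OC S' ∧ RootsIn i₁ i₂ S' f ∧
          ∀ p ∈ S', p ∉ S → (f.map i₁).eval p.1 = 0 ∧ (f.map i₂).eval p.2 = 0) →
      ∃ S' : Finset (K₁ × K₂), S ⊆ S' ∧ OC S' ∧ RootsIn i₁ i₂ S' f ∧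
        ∀ p ∈ S', p ∉ S → (f.map i₁).eval p.1 = 0 ∧ (f.map i₂).eval p.2 = 0 := by
    intro N S hS hd hp hN y η hsame hy hη hnew ih
    have hsub1 : {z : K₁ | (f.map i₁).eval z = 0 ∧ ∀ p ∈ insert (y, η) S, p.1 ≠ z} ⊆
        {z : K₁ | (f.map i₁).eval z = 0 ∧ ∀ p ∈ S, p.1 ≠ z} := fun z hz =>
      ⟨hz.1, fun p hp => hz.2 p (Finset.mem_insert_of_mem hp)⟩
    have hsub2 : {z : K₂ | (f.map i₂).eval z = 0 ∧ ∀ p ∈ insert (y, η) S, p.2 ≠ z} ⊆
        {z : K₂ | (f.map i₂).eval z = 0 ∧ ∀ p ∈ S, p.2 ≠ z} := fun z hz =>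
      ⟨hz.1, fun p hp => hz.2 p (Finset.mem_insert_of_mem hp)⟩
    have hlt : Set.ncard {z : K₁ | (f.map i₁).eval z = 0 ∧ ∀ p ∈ insert (y, η) S, p.1 ≠ z} +
        Set.ncard {z : K₂ | (f.map i₂).eval z = 0 ∧ ∀ p ∈ insert (y, η) S, p.2 ≠ z} <
        Set.ncard {z : K₁ | (f.map i₁).eval z = 0 ∧ ∀ p ∈ S, p.1 ≠ z} +
        Set.ncard {z : K₂ | (f.map i₂).eval z = 0 ∧ ∀ p ∈ S, p.2 ≠ z} := by
      have l1 := Set.ncard_le_ncard hsub1 (hfin1 S)
      have l2 := Set.ncard_le_ncard hsub2 (hfin2 S)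
      rcases hnew with hnew | hnew
      · have l3 := Set.ncard_lt_ncard (s := {z : K₁ | (f.map i₁).eval z = 0 ∧
          ∀ p ∈ insert (y, η) S, p.1 ≠ z}) (t := {z : K₁ | (f.map i₁).eval z = 0 ∧
          ∀ p ∈ S, p.1 ≠ z}) ⟨hsub1, fun hc => (hc ⟨hy, hnew⟩).2 _ (Finset.mem_insert_self _ _) rfl⟩
          (hfin1 S)
        omega
      · have l3 := Set.ncard_lt_ncard (s := {z : K₂ | (f.map i₂).eval z = 0 ∧
          ∀ p ∈ insert (y, η) S, p.2 ≠ z}) (t := {z : K₂ | (f.map i₂).eval z = 0 ∧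
          ∀ p ∈ S, p.2 ≠ z}) ⟨hsub2, fun hc => (hc ⟨hη, hnew⟩).2 _ (Finset.mem_insert_self _ _) rfl⟩
          (hfin2 S)
        omega
    obtain ⟨S', h3, h4, h5, h6⟩ := ih (insert (y, η) S) (hS.insert hsame)
      (fun h => (hd h).mono (Finset.subset_insert _ _)) (by
        intro p hpp
        rcases Finset.mem_insert.mp hpp with rfl | hpp
        · rw [hy, hη, sign_zero, sign_zero]
        · exact hp p hpp) (by omega)
    refine ⟨S', (Finset.subset_insert _ _).trans h3, h4, h5, ?_⟩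
    intro p hp1 hp2
    by_cases hpe : p = (y, η)
    · subst hpe
      exact ⟨hy, hη⟩
    · exact h6 p hp1 fun hc => (Finset.mem_insert.mp hc).elim hpe hp2
  induction N with
  | zero =>
    intro S hS hd hp hN
    refine ⟨S, subset_rfl, hS, ⟨?_, ?_⟩, fun p h1 h2 => absurd h1 h2⟩
    · intro y hy
      by_contra hcon
      push Not at hcon
      have : 0 < Set.ncard {y : K₁ | (f.map i₁).eval y = 0 ∧ ∀ p ∈ S, p.1 ≠ y} :=
        (Set.ncard_pos (hfin1 S)).mpr ⟨y, hy, hcon⟩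
      omega
    · intro y hy
      by_contra hcon
      push Not at hcon
      have : 0 < Set.ncard {y : K₂ | (f.map i₂).eval y = 0 ∧ ∀ p ∈ S, p.2 ≠ y} :=
        (Set.ncard_pos (hfin2 S)).mpr ⟨y, hy, hcon⟩
      omega
  | succ N ih =>
    intro S hS hd hp hN
    by_cases hA : ∃ y : K₁, (f.map i₁).eval y = 0 ∧ ∀ p ∈ S, p.1 ≠ y
    · obtain ⟨y, hy, hyS⟩ := hA
      obtain ⟨η, h3, h4⟩ := core88' h₁ h₂ hS (f.map i₁) (f.map i₂) (by
        intro c hc
        rw [derivative_map] at hc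
        exact (hd (hder y hy)).1 c hc) hp hdeg htop hy hyS
      exact step N S hS hd hp hN y η h3 hy h4 (Or.inl hyS) ih
    by_cases hB : ∃ η : K₂, (f.map i₂).eval η = 0 ∧ ∀ p ∈ S, p.2 ≠ η
    · obtain ⟨η, hη, hηS⟩ := hB
      have hmem : ∀ p : K₂ × K₁, p ∈ S.image Prod.swap ↔ (p.2, p.1) ∈ S := by
        intro p
        rw [Finset.mem_image]
        constructor
        · rintro ⟨q, hq, rfl⟩
          exact hq
        · intro h
          exact ⟨_, h, rfl⟩
      obtain ⟨y, h3, h4⟩ := core88' h₂ h₁ (S := S.image Prod.swap) (by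
        intro p hp q hq
        rw [hmem] at hp hq
        exact (hS _ hp _ hq).symm) (f.map i₂) (f.map i₁) (by
        intro c hc
        rw [derivative_map] at hc
        obtain ⟨p, hp, hpc⟩ := (hd (hder2 η hη)).2 c hc
        exact ⟨(p.2, p.1), (hmem _).mpr hp, hpc⟩) (by
        intro p hpp
        rw [hmem] at hpp
        exact (hp _ hpp).symm) hdeg.symm htop.symm hη (by
        intro p hpp
        rw [hmem] at hpp
        exact hηS _ hpp)
      have h5 : Same S y η := by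
        intro p hp
        have := h3 (p.2, p.1) ((hmem _).mpr hp)
        exact ⟨this.1.symm, this.2.symm⟩
      exact step N S hS hd hp hN y η h5 h4 hη (Or.inr hηS) ih
    push Not at hA hB
    exact ⟨S, subset_rfl, hS, ⟨hA, hB⟩, fun p h1 h2 => absurd h1 h2⟩

theorem insert_roots (i₁ : k →+* K₁) (i₂ : k →+* K₂)
    (hsgn : ∀ a : k, SignType.sign (i₁ a) = SignType.sign (i₂ a)) (h₁ : IVT K₁) (h₂ : IVT K₂)
    {S : Finset (K₁ × K₂)} (hS : OC S) (f : k[X]) (hf : f ≠ 0)
    (hd : f.derivative ≠ 0 → RootsIn i₁ i₂ S f.derivative ∧ Agr i₁ i₂ S f.derivative)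
    (hp : Pts i₁ i₂ S f) : ∃ S' : Finset (K₁ × K₂), S ⊆ S' ∧ OC S' ∧ RootsIn i₁ i₂ S' f ∧
      ∀ p ∈ S', p ∉ S → (f.map i₁).eval p.1 = 0 ∧ (f.map i₂).eval p.2 = 0 :=
  main88 i₁ i₂ hsgn h₁ h₂ f hf _ S hS (fun h => (hd h).1) hp le_rfl

end Pool.Agent.Helper10.TC
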