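import Pool.Agent.Helper10.TC.TtB
import Pool.Agent.Helper10.TC.TtC

set_option autoImplicit false

/-!
# Project TC (MP_63c74b), block TTD: the transfer theorem

`P n` := for all finite sets `L`, `H` of polynomials over `k`, `f ≠ 0` and `natDegree f ≤ n` for
`f ∈ L`, there is `S` with `OC S`, `RootsIn S f` and `Agr S f` for all `f ∈ L`, and `Pts S h` for all
`h ∈ H`. Proof of `P n` by induction on `n`. `P 0`: `S = ∅` (constants, `hsgn`). Step `n → n + 1`:
let `top = {f ∈ L | natDegree f = n + 1}`, `low = L \ top`. `k` has characteristic 0 (it embeds in an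
ordered field), so `f.derivative ≠ 0` of degree `≤ n` for `f ∈ top`. Apply `P n` to
`L' = low ∪ {f.derivative | f ∈ top} ∪ {h % f | f ∈ top, h ∈ H ∪ top, h % f ≠ 0}` and `H' = H ∪ top`; get
`S₀`. Claim (induction on the subset `Q ⊆ top`): there is `S ⊇ S₀` with `OC S`, `RootsIn S f` for
`f ∈ Q`, and every `p ∈ S \ S₀` satisfies `f p.1 = 0 ∧ f p.2 = 0` for some `f ∈ top`. Step: insert
`f ∈ top` with `insert_roots`: `Pts S f` holds: for `p ∈ S₀` by `H'`; for `p ∈ S \ S₀`, a common root
of `f₁ ∈ top`: `f(p.i) = (f % f₁)(p.i)` (`Polynomial.mod_def`, `EuclideanDomain.div_add_mod`, `map`),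
and either `f % f₁ = 0`, both zero, or `f % f₁ ∈ L'` and `Agr S₀ (f % f₁)` with
`Same S₀ p.1 p.2` (`OC.same` in `S`, and `Same.mono`). Take `Q = top`: for `h ∈ H` we get `Pts S h`
in the same way, for `f ∈ top` `Agr S f` from `agr_of_deriv` (and `RootsIn.mono`, `Agr.mono` for
`f.derivative`), for `f ∈ low` by monotonicity.

`transfer`: `P n` for `L \ {0}` and `H = ∅`, then `exists_same`.
-/

open Polynomial

namespace Pool.Agent.Helper10.TC

variable {k K₁ K₂ : Type*} [Field k] [Field K₁] [LinearOrder K₁] [IsStrictOrderedRing K₁]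
  [Field K₂] [LinearOrder K₂] [IsStrictOrderedRing K₂]

theorem main_induction (i₁ : k →+* K₁) (i₂ : k →+* K₂)
    (hsgn : ∀ a : k, SignType.sign (i₁ a) = SignType.sign (i₂ a)) (h₁ : IVT K₁) (h₂ : IVT K₂)
    (n : ℕ) (L H : Finset k[X]) (hL : ∀ f ∈ L, f ≠ 0 ∧ f.natDegree ≤ n) :
    ∃ S : Finset (K₁ × K₂), OC S ∧ (∀ f ∈ L, RootsIn i₁ i₂ S f ∧ Agr i₁ i₂ S f) ∧
      ∀ h ∈ H, Pts i₁ i₂ S h := by
  classical
  have hchar : CharZero k := RingHom.charZero i₁
  induction n generalizing L H with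
  | zero =>
    refine ⟨∅, ?_, ?_, ?_⟩
    · intro p hp
      simp at hp
    · intro f hf
      obtain ⟨hf0, hfd⟩ := hL f hf
      obtain ⟨a, rfl⟩ : ∃ a, f = C a := ⟨_, eq_C_of_natDegree_le_zero hfd⟩
      have ha : a ≠ 0 := fun h => hf0 (by rw [h, C_0])
      have h1 : i₁ a ≠ 0 := (map_ne_zero i₁).2 ha
      have h2 : i₂ a ≠ 0 := (map_ne_zero i₂).2 ha
      refine ⟨⟨fun y hy => ?_, fun η hη => ?_⟩, fun y η _ => ?_⟩
      · rw [map_C, eval_C] at hy
        exact absurd hy h1
      · rw [map_C, eval_C] at hη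
        exact absurd hη h2
      · rw [map_C, eval_C, map_C, eval_C]
        exact hsgn a
    · intro h _ p hp
      simp at hp
  | succ n ih =>
    let top : Finset k[X] := L.filter (fun f => f.natDegree = n + 1)
    let low : Finset k[X] := L.filter (fun f => f.natDegree ≠ n + 1)
    let L' : Finset k[X] := (low ∪ top.image derivative) ∪
      ((top ×ˢ (H ∪ top)).image (fun p => p.2 % p.1)).filter (fun f => f ≠ 0)
    have htop : ∀ f ∈ top, f ≠ 0 ∧ f.natDegree = n + 1 := fun f hf =>
      ⟨(hL f (Finset.mem_filter.1 hf).1).1, (Finset.mem_filter.1 hf).2⟩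
    have hL' : ∀ f ∈ L', f ≠ 0 ∧ f.natDegree ≤ n := by
      intro f hf
      rcases Finset.mem_union.1 hf with hf | hf
      · rcases Finset.mem_union.1 hf with hf | hf
        · have h1 := Finset.mem_filter.1 hf
          have h2 := hL f h1.1
          exact ⟨h2.1, by have := h1.2; omega⟩
        · obtain ⟨g, hg, rfl⟩ := Finset.mem_image.1 hf
          have h1 := htop g hg
          refine ⟨fun h0 => ?_, ?_⟩
          · have := natDegree_eq_zero_of_derivative_eq_zero h0
            omega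
          · have := natDegree_derivative_le g
            omega
      · obtain ⟨hf1, hf0⟩ := Finset.mem_filter.1 hf
        obtain ⟨⟨g, h⟩, hgh, rfl⟩ := Finset.mem_image.1 hf1
        have h1 := htop g (Finset.mem_product.1 hgh).1
        refine ⟨hf0, ?_⟩
        have := natDegree_mod_lt h (q := g) (by omega)
        simp only
        omega
    obtain ⟨S₀, hS₀, hL₀, hH₀⟩ := ih L' (H ∪ top) hL'
    have hder : ∀ f ∈ top, derivative f ∈ L' := fun f hf =>
      Finset.mem_union_left _ (Finset.mem_union_right _ (Finset.mem_image_of_mem _ hf))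
    -- signs at the points of `S`
    have pts : ∀ S : Finset (K₁ × K₂), S₀ ⊆ S → OC S → (∀ p ∈ S, p ∉ S₀ → ∃ f ∈ top,
        (f.map i₁).eval p.1 = 0 ∧ (f.map i₂).eval p.2 = 0) → ∀ h ∈ H ∪ top, Pts i₁ i₂ S h := by
      intro S hsub hS hnew h hh p hp
      by_cases hp0 : p ∈ S₀
      · exact hH₀ h hh p hp0
      · obtain ⟨f, hf, hf1, hf2⟩ := hnew p hp hp0
        have e1 : (h.map i₁).eval p.1 = ((h % f).map i₁).eval p.1 := by
          conv_lhs => rw [← EuclideanDomain.div_add_mod h f]
          rw [Polynomial.map_add, Polynomial.map_mul, eval_add, eval_mul, hf1, zero_mul, zero_add]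
        have e2 : (h.map i₂).eval p.2 = ((h % f).map i₂).eval p.2 := by
          conv_lhs => rw [← EuclideanDomain.div_add_mod h f]
          rw [Polynomial.map_add, Polynomial.map_mul, eval_add, eval_mul, hf2, zero_mul, zero_add]
        rw [e1, e2]
        by_cases h0 : h % f = 0
        · rw [h0, Polynomial.map_zero, Polynomial.map_zero, eval_zero, eval_zero]
          simp
        · have hmem : h % f ∈ L' := Finset.mem_union_right _ (Finset.mem_filter.2
            ⟨Finset.mem_image.2 ⟨(f, h), Finset.mem_product.2 ⟨hf, hh⟩, rfl⟩, h0⟩)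
          exact (hL₀ _ hmem).2 p.1 p.2 ((hS.same hp).mono hsub)
    -- inserting the roots of the members of `top`
    have claim : ∀ Q : Finset k[X], Q ⊆ top → ∃ S : Finset (K₁ × K₂), S₀ ⊆ S ∧ OC S ∧
        (∀ f ∈ Q, RootsIn i₁ i₂ S f) ∧ ∀ p ∈ S, p ∉ S₀ → ∃ f ∈ top,
          (f.map i₁).eval p.1 = 0 ∧ (f.map i₂).eval p.2 = 0 := by
      intro Q
      induction Q using Finset.induction_on with
      | empty =>
        intro _
        exact ⟨S₀, Finset.Subset.refl _, hS₀, by simp, fun p hp hp' => absurd hp hp'⟩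
      | insert f Q hfQ ihQ =>
        intro hQ
        obtain ⟨S, hsub, hS, hroots, hnew⟩ := ihQ fun g hg => hQ (Finset.mem_insert_of_mem hg)
        have hf : f ∈ top := hQ (Finset.mem_insert_self _ _)
        obtain ⟨S', hsub', hS', hr', hnew'⟩ := insert_roots i₁ i₂ hsgn h₁ h₂ hS f (htop f hf).1
          (fun _ => ⟨(hL₀ _ (hder f hf)).1.mono hsub, (hL₀ _ (hder f hf)).2.mono hsub⟩)
          (pts S hsub hS hnew f (Finset.mem_union_right _ hf))
        refine ⟨S', hsub.trans hsub', hS', ?_, ?_⟩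
        · intro g hg
          rcases Finset.mem_insert.1 hg with rfl | hg
          · exact hr'
          · exact (hroots g hg).mono hsub'
        · intro p hp hp0
          by_cases hpS : p ∈ S
          · exact hnew p hpS hp0
          · exact ⟨f, hf, hnew' p hp hpS⟩
    obtain ⟨S, hsub, hS, hroots, hnew⟩ := claim top (Finset.Subset.refl _)
    refine ⟨S, hS, ?_, fun h hh => pts S hsub hS hnew h (Finset.mem_union_left _ hh)⟩
    intro f hf
    by_cases hfd : f.natDegree = n + 1
    · have hft : f ∈ top := Finset.mem_filter.2 ⟨hf, hfd⟩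
      refine ⟨hroots f hft, ?_⟩
      exact agr_of_deriv i₁ i₂ hsgn h₁ h₂ hS f (htop f hft).1
        (fun _ => ⟨(hL₀ _ (hder f hft)).1.mono hsub, (hL₀ _ (hder f hft)).2.mono hsub⟩)
        (pts S hsub hS hnew f (Finset.mem_union_right _ hft)) (hroots f hft)
    · have hfl : f ∈ L' := Finset.mem_union_left _ (Finset.mem_union_left _
        (Finset.mem_filter.2 ⟨hf, hfd⟩))
      exact ⟨(hL₀ f hfl).1.mono hsub, (hL₀ f hfl).2.mono hsub⟩

/-- **Transfer theorem.** -/
theorem transfer (i₁ : k →+* K₁) (i₂ : k →+* K₂)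
    (hsgn : ∀ a : k, SignType.sign (i₁ a) = SignType.sign (i₂ a)) (h₁ : IVT K₁) (h₂ : IVT K₂)
    (L : Finset k[X]) (y : K₁) : ∃ η : K₂, ∀ f ∈ L,
      SignType.sign ((f.map i₁).eval y) = SignType.sign ((f.map i₂).eval η) := by
  classical
  obtain ⟨S, hS, hL, -⟩ := main_induction i₁ i₂ hsgn h₁ h₂ (L.sup natDegree)
    (L.filter (fun f => f ≠ 0)) ∅ (fun f hf => ⟨(Finset.mem_filter.1 hf).2,
      Finset.le_sup (f := natDegree) (Finset.mem_filter.1 hf).1⟩)
  obtain ⟨η, hη⟩ := exists_same hS y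
  refine ⟨η, fun f hf => ?_⟩
  by_cases h0 : f = 0
  · rw [h0, Polynomial.map_zero, Polynomial.map_zero, eval_zero, eval_zero]
    simp
  · exact (hL f (Finset.mem_filter.2 ⟨hf, h0⟩)).2 y η hη

end Pool.Agent.Helper10.TC
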