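import Pool.Agent.Helper10.TC.OneS

set_option autoImplicit false

/-!
# Project TC (MP_63c74b), block TWO: balls on both sides

Apply `one_sided` to `G` and to `G₋ = G.map (compRingHom (-X))` (`ev s Y G₋ = ev (-s) Y G`, same
leading coefficient and degree): `(N₊, J₊, B₊)`, `(N₋, J₋, B₋)`. Put `N = N₊ N₋`, `J = J₊ + J₋`, the
balls `⟨true, (B₊ j).1.comp (X ^ N₋), (B₊ j).2 * N₋⟩` and `⟨false, (B₋ j).1.comp (X ^ N₊), (B₋ j).2 * N₊⟩`
(`Fin.append` or `Fin.addCases`, or first over the sum type and then an equivalence with `Fin J`). With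
`u' = u ^ N₋` one has `u' → 0+`, `u' ^ N₊ = u ^ N`, `q(u^N₋) + σ u^(r N₋) = q(u') + σ u' ^ r`; so goodness and
covering for `N` follow by composing with `Tendsto (· ^ N₋) (𝓝[>] 0) (𝓝[>] 0)`. The constant `C` is
the maximum of the two constants (and 0).
-/

open Polynomial Filter Topology

namespace Pool.Agent.Helper10.TC

private lemma ev_neg62 (s Y : ℝ) (G : R2) :
    ev s Y (G.map (compRingHom (-X))) = ev (-s) Y G := by
  have h : (ev s Y).comp (mapRingHom (compRingHom (-X : R1))) = ev (-s) Y := by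
    refine Polynomial.ringHom_ext (fun a => ?_) ?_
    · simp [eval_comp]
    · simp
  exact congrArg (fun f => f G) h

private lemma inj62 : Function.Injective (compRingHom (-X : R1)) := by
  intro p q h
  have h1 : p.comp (-X) = q.comp (-X) := h
  have h2 := congrArg (fun r : R1 => r.comp (-X)) h1
  simpa [comp_assoc] using h2

private lemma tends62 {n : ℕ} (hn : n ≠ 0) : Tendsto (fun u : ℝ => u ^ n) (𝓝[>] 0) (𝓝[>] 0) := by
  refine tendsto_nhdsWithin_iff.2 ⟨?_, ?_⟩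
  · have h : Tendsto (fun u : ℝ => u ^ n) (𝓝 0) (𝓝 (0 ^ n)) := (continuous_pow n).tendsto 0
    rw [zero_pow hn] at h
    exact h.mono_left nhdsWithin_le_nhds
  · filter_upwards [self_mem_nhdsWithin] with u hu
    exact pow_pos (show (0 : ℝ) < u from hu) n

private lemma good62 {N₁ N₂ : ℕ} (h₂ : N₂ ≠ 0) {G G' : R2} (b : Bool)
    (hG : ∀ s Y, ev s Y G' = ev (sgn b * s) Y G) {q : R1} {r : ℕ} (h : Good1 N₁ G' q r) {N : ℕ}
    (hN : N = N₂ * N₁) : Good N G ⟨b, q.comp (X ^ N₂), r * N₂⟩ := by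
  obtain ⟨σ₁, σ₂, hlt, hσ⟩ := h
  refine ⟨σ₁, σ₂, hlt, fun σ h1 h2 => ?_⟩
  filter_upwards [(tends62 h₂).eventually (hσ σ h1 h2)] with u hu
  rw [hG] at hu
  change 0 < ev (sgn b * u ^ N) ((q.comp (X ^ N₂)).eval u + σ * u ^ (r * N₂)) G
  rw [eval_comp, eval_pow, eval_X, hN, pow_mul, mul_comm r N₂, pow_mul]
  exact hu

private lemma cov62 {N₁ N₂ J : ℕ} (h₂ : N₂ ≠ 0) {G G' : R2} (b : Bool)
    (hG : ∀ s Y, ev s Y G' = ev (sgn b * s) Y G) {B : Fin J → R1 × ℕ} (h : Cov1 N₁ G' B) {N : ℕ}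
    (hN : N = N₂ * N₁) : ∃ C : ℝ, ∀ C' ≥ C, ∀ᶠ u in 𝓝[>] (0 : ℝ), ∀ Y : ℝ,
      0 < ev (sgn b * u ^ N) Y G →
      ∃ j, |Y - ((B j).1.comp (X ^ N₂)).eval u| ≤ C' * u ^ ((B j).2 * N₂) := by
  obtain ⟨C, hC⟩ := h
  refine ⟨C, fun C' hC' => ?_⟩
  filter_upwards [(tends62 h₂).eventually hC, self_mem_nhdsWithin] with u hu hu0 Y hY
  have hu0' : (0 : ℝ) < u := hu0
  have h1 : 0 < ev ((u ^ N₂) ^ N₁) Y G' := by
    rw [hG, ← pow_mul, ← hN]
    exact hY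
  obtain ⟨j, hj⟩ := hu Y h1
  refine ⟨j, ?_⟩
  rw [eval_comp, eval_pow, eval_X, mul_comm (B j).2 N₂, pow_mul]
  refine hj.trans (mul_le_mul_of_nonneg_right hC' (by positivity))

/-- **Existence of balls.** -/
theorem exists_balls (G : R2) (κ₀ : ℝ) (hκ : 0 < κ₀) (hG : G.leadingCoeff = C (-κ₀))
    (hE : Even G.natDegree) : ∃ (N J : ℕ) (B : Fin J → Ball), N ≠ 0 ∧
      (∀ j, Good N G (B j)) ∧ Covers N G B := by
  obtain ⟨N₁, J₁, B₁, hN₁, hg₁, hc₁⟩ := one_sided G κ₀ hκ hG hE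
  set G' : R2 := G.map (compRingHom (-X)) with hG'
  have hlead : G'.leadingCoeff = C (-κ₀) := by
    rw [hG', leadingCoeff_map_of_injective inj62, hG]
    simp
  have hdeg : Even G'.natDegree := by
    rw [hG', natDegree_map_eq_of_injective inj62]
    exact hE
  obtain ⟨N₂, J₂, B₂, hN₂, hg₂, hc₂⟩ := one_sided G' κ₀ hκ hlead hdeg
  have e1 : ∀ s Y, ev s Y G = ev (sgn true * s) Y G := by
    intro s Y
    simp [sgn]
  have e2 : ∀ s Y, ev s Y G' = ev (sgn false * s) Y G := by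
    intro s Y
    rw [hG', ev_neg62]
    simp [sgn]
  obtain ⟨C₁, hC₁⟩ := cov62 hN₂ true e1 hc₁ (N := N₂ * N₁) rfl
  obtain ⟨C₂, hC₂⟩ := cov62 hN₁ false e2 hc₂ (N := N₂ * N₁) (mul_comm _ _)
  let B : Fin (J₁ + J₂) → Ball :=
    Fin.append (fun j => ⟨true, (B₁ j).1.comp (X ^ N₂), (B₁ j).2 * N₂⟩)
      (fun j => ⟨false, (B₂ j).1.comp (X ^ N₁), (B₂ j).2 * N₁⟩)
  have hBl : ∀ j, B (Fin.castAdd J₂ j) = ⟨true, (B₁ j).1.comp (X ^ N₂), (B₁ j).2 * N₂⟩ :=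
    fun j => Fin.append_left _ _ j
  have hBr : ∀ j, B (Fin.natAdd J₁ j) = ⟨false, (B₂ j).1.comp (X ^ N₁), (B₂ j).2 * N₁⟩ :=
    fun j => Fin.append_right _ _ j
  refine ⟨N₂ * N₁, J₁ + J₂, B, Nat.mul_ne_zero hN₂ hN₁, ?_, ?_⟩
  · intro j
    refine Fin.addCases (fun j => ?_) (fun j => ?_) j
    · rw [hBl]
      exact good62 hN₂ true e1 (hg₁ j) rfl
    · rw [hBr]
      exact good62 hN₁ false e2 (hg₂ j) (mul_comm _ _)
  · refine ⟨max C₁ C₂, ?_⟩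
    filter_upwards [hC₁ _ (le_max_left C₁ C₂), hC₂ _ (le_max_right C₁ C₂)] with u h1 h2 pos Y hY
    cases pos
    · obtain ⟨j, hj⟩ := h2 Y hY
      refine ⟨Fin.natAdd J₁ j, ?_⟩
      rw [hBr]
      exact ⟨rfl, hj⟩
    · obtain ⟨j, hj⟩ := h1 Y hY
      refine ⟨Fin.castAdd J₂ j, ?_⟩
      rw [hBl]
      exact ⟨rfl, hj⟩

end Pool.Agent.Helper10.TC
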